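import Mathlib

/-!
# Finite and infinite sequences, one coordinate

`tk f n` is the initial segment of length `n` of `f : ℕ → α`; `Pf s f` says that the list `s` is an initial segment
of `f`. `Stp g` : the map `g` of finite sequences is the enumeration of the splitting nodes of a superperfect tree.
-/

set_option autoImplicit false

namespace Pool.Agent.Mil

variable {α : Type*}

/-- the initial segment of length `n` -/
def tk (f : ℕ → α) (n : ℕ) : List α := (List.range n).map f

/-- `s` is an initial segment of `f` -/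
def Pf (s : List α) (f : ℕ → α) : Prop := tk f s.length = s

@[simp] theorem tk_length (f : ℕ → α) (n : ℕ) : (tk f n).length = n := by simp [tk]

@[simp] theorem tk_zero (f : ℕ → α) : tk f 0 = [] := rfl

theorem tk_succ (f : ℕ → α) (n : ℕ) : tk f (n + 1) = tk f n ++ [f n] := by
  simp [tk, List.range_succ]

theorem tk_getElem (f : ℕ → α) (n i : ℕ) (h : i < (tk f n).length) : (tk f n)[i] = f i := by
  simp [tk]

theorem tk_getElem? (f : ℕ → α) (n i : ℕ) (h : i < n) : (tk f n)[i]? = some (f i) := by
  rw [List.getElem?_eq_getElem (by simpa using h), tk_getElem]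

theorem tk_take (f : ℕ → α) {m n : ℕ} (h : m ≤ n) : (tk f n).take m = tk f m := by
  rw [tk, ← List.map_take, List.take_range, min_eq_left h]; rfl

theorem tk_prefix (f : ℕ → α) {m n : ℕ} (h : m ≤ n) : tk f m <+: tk f n := by
  rw [← tk_take f h]; exact List.take_prefix _ _

theorem tk_congr {f g : ℕ → α} {n : ℕ} (h : ∀ i < n, f i = g i) : tk f n = tk g n := by
  apply List.map_congr_left
  intro i hi
  exact h i (List.mem_range.1 hi)

theorem tk_eq_iff {f g : ℕ → α} {n : ℕ} : tk f n = tk g n ↔ ∀ i < n, f i = g i := by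
  refine ⟨fun h i hi => ?_, tk_congr⟩
  have h1 := tk_getElem? f n i hi
  rw [h, tk_getElem? g n i hi] at h1
  exact (Option.some.inj h1).symm

theorem pf_tk (f : ℕ → α) (n : ℕ) : Pf (tk f n) f := by simp [Pf]

theorem pf_nil (f : ℕ → α) : Pf [] f := rfl

/-- initial segments are given by their entries -/
theorem pf_iff {s : List α} {f : ℕ → α} : Pf s f ↔ ∀ i (h : i < s.length), s[i] = f i := by
  constructor
  · intro h i hi
    have h1 := tk_getElem? f s.length i hi
    rw [h, List.getElem?_eq_getElem hi] at h1
    exact Option.some.inj h1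
  · intro h
    apply List.ext_getElem (by simp)
    intro i h1 h2
    rw [tk_getElem, h i h2]

theorem Pf.of_prefix {s t : List α} {f : ℕ → α} (h : Pf t f) (hs : s <+: t) : Pf s f := by
  rw [pf_iff] at h ⊢
  intro i hi
  rw [← h i (hi.trans_le hs.length_le)]
  exact hs.getElem hi

theorem Pf.pfx {s t : List α} {f : ℕ → α} (h : Pf s f) (h' : Pf t f) (hl : s.length ≤ t.length) :
    s <+: t := by
  rw [← h, ← h']; simpa using tk_prefix f hl

theorem Pf.total {s t : List α} {f : ℕ → α} (h : Pf s f) (h' : Pf t f) : s <+: t ∨ t <+: s := by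
  rcases le_total s.length t.length with hl | hl
  · exact Or.inl (h.pfx h' hl)
  · exact Or.inr (h'.pfx h hl)

theorem Pf.eq_of_length {s t : List α} {f : ℕ → α} (h : Pf s f) (h' : Pf t f)
    (hl : s.length = t.length) : s = t := by
  rw [← h, ← h', hl]

theorem eq_of_tk {f g : ℕ → α} (h : ∀ n, tk f n = tk g n) : f = g := by
  funext i
  exact tk_eq_iff.1 (h (i + 1)) i (Nat.lt_succ_self i)

theorem Pf.congr {s : List α} {f g : ℕ → α} (h : Pf s f) (hfg : ∀ i < s.length, f i = g i) :
    Pf s g := by
  rw [Pf, ← tk_congr hfg]; exact h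

/-! ### One coordinate -/

/-- `g` enumerates the splitting nodes of a superperfect tree -/
def Stp (g : List ℕ → List ℕ) : Prop :=
  ∀ s, ∃ j : ℕ → ℕ, StrictMono j ∧ ∀ k, g s ++ [j k] <+: g (s ++ [k])

/-- the map of the branches -/
def lm (g : List ℕ → List ℕ) (f : ℕ → ℕ) : ℕ → ℕ := fun i => ((g (tk f (i + 1)))[i]?).getD 0

theorem stp_id : Stp (fun s => s) := fun _ => ⟨fun k => k, strictMono_id, fun _ => List.prefix_rfl⟩

variable {g g' : List ℕ → List ℕ}

theorem Stp.mono (h : Stp g) {s t : List ℕ} (hst : s <+: t) : g s <+: g t := by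
  obtain ⟨r, rfl⟩ := hst
  induction r using List.reverseRecOn with
  | nil => simp
  | append_singleton r k ih =>
    obtain ⟨j, -, hj⟩ := h (s ++ r)
    rw [← List.append_assoc]
    exact ih.trans ((List.prefix_append _ _).trans (hj k))

theorem Stp.comp (h : Stp g) (h' : Stp g') : Stp (fun s => g (g' s)) := by
  intro s
  obtain ⟨j', hj', h1⟩ := h' s
  obtain ⟨j, hj, h2⟩ := h (g' s)
  exact ⟨fun k => j (j' k), hj.comp hj', fun k => (h2 (j' k)).trans (h.mono (h1 k))⟩

theorem Stp.length_le (h : Stp g) (s : List ℕ) : s.length + (g []).length ≤ (g s).length := by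
  induction s using List.reverseRecOn with
  | nil => simp
  | append_singleton r k ih =>
    obtain ⟨j, -, hj⟩ := h r
    have := (hj k).length_le
    simp only [List.length_append, List.length_singleton] at this ⊢
    omega

theorem Stp.length_le' (h : Stp g) (s : List ℕ) : s.length ≤ (g s).length := by
  have := h.length_le s; omega

theorem Stp.step_ne (h : Stp g) (s : List ℕ) {k k' : ℕ} (hk : k ≠ k') {r r' : List ℕ} :
    ¬ (g (s ++ k :: r) <+: g (s ++ k' :: r')) := by
  intro hp
  obtain ⟨j, hj, h1⟩ := h s
  have e1 : g s ++ [j k] <+: g (s ++ k' :: r') := by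
    refine ((h1 k).trans (h.mono ?_)).trans hp
    exact ⟨r, by simp⟩
  have e2 : g s ++ [j k'] <+: g (s ++ k' :: r') := (h1 k').trans (h.mono ⟨r', by simp⟩)
  have e3 : g s ++ [j k] = g s ++ [j k'] := by
    rcases List.prefix_or_prefix_of_prefix e1 e2 with h3 | h3
    · exact h3.eq_of_length (by simp)
    · exact (h3.eq_of_length (by simp)).symm
  exact hk (hj.injective (by simpa using e3))

/-- `g s` is an initial segment of `g t` if and only if `s` is one of `t` -/
theorem Stp.prefix_iff (h : Stp g) {s t : List ℕ} : g s <+: g t ↔ s <+: t := by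
  refine ⟨fun hp => ?_, h.mono⟩
  by_contra hst
  -- either `t` is a proper initial segment of `s`, or they split
  by_cases hts : t <+: s
  · obtain ⟨r, rfl⟩ := hts
    cases r with
    | nil => simp at hst
    | cons k r =>
      obtain ⟨j, -, h1⟩ := h t
      have e1 : g t ++ [j k] <+: g (t ++ k :: r) := (h1 k).trans (h.mono ⟨r, by simp⟩)
      have := (e1.trans hp).length_le
      simp at this
  · -- the longest common initial segment
    have key : ∀ (s t : List ℕ), ¬ s <+: t → ¬ t <+: s → ∃ u k k' r r', k ≠ k' ∧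
        s = u ++ k :: r ∧ t = u ++ k' :: r' := by
      intro s
      induction s with
      | nil => intro t h1; exact absurd (List.nil_prefix) h1
      | cons a s ih =>
        intro t h1 h2
        cases t with
        | nil => exact absurd (List.nil_prefix) h2
        | cons b t =>
          by_cases hab : a = b
          · subst hab
            rw [List.cons_prefix_cons] at h1 h2
            obtain ⟨u, k, k', r, r', hk, e1, e2⟩ := ih t (fun h => h1 ⟨rfl, h⟩) (fun h => h2 ⟨rfl, h⟩)
            exact ⟨a :: u, k, k', r, r', hk, by rw [e1]; rfl, by rw [e2]; rfl⟩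
          · exact ⟨[], a, b, s, t, hab, rfl, rfl⟩
    obtain ⟨u, k, k', r, r', hk, e1, e2⟩ := key s t hst hts
    rw [e1, e2] at hp
    exact h.step_ne u hk hp

theorem Stp.injective (h : Stp g) : Function.Injective g := by
  intro s t hst
  have h1 : s <+: t := h.prefix_iff.1 (hst ▸ List.prefix_rfl)
  have h2 : t <+: s := h.prefix_iff.1 (hst ▸ List.prefix_rfl)
  exact h1.eq_of_length (le_antisymm h1.length_le h2.length_le)

theorem Stp.pf_lm (h : Stp g) (f : ℕ → ℕ) (n : ℕ) : Pf (g (tk f n)) (lm g f) := by
  rw [pf_iff]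
  intro i hi
  have hi2 : i < (g (tk f (i + 1))).length := by
    have := h.length_le' (tk f (i + 1)); simp at this; omega
  rw [lm, List.getElem?_eq_getElem hi2, Option.getD_some]
  rcases le_total n (i + 1) with hn | hn
  · exact (h.mono (tk_prefix f hn)).getElem hi
  · exact ((h.mono (tk_prefix f hn)).getElem hi2).symm

theorem Stp.pf_of_pf (h : Stp g) {s : List ℕ} {f : ℕ → ℕ} (hs : Pf s f) : Pf (g s) (lm g f) := by
  rw [← hs]; exact h.pf_lm f _

/-- the branch map is determined by the values -/
theorem Stp.lm_unique (h : Stp g) {f y : ℕ → ℕ} (hy : ∀ n, Pf (g (tk f n)) y) : y = lm g f := by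
  apply eq_of_tk
  intro n
  have h1 := (hy n).of_prefix (List.take_prefix n _)
  have h2 := (h.pf_lm f n).of_prefix (List.take_prefix n _)
  have hl : ((g (tk f n)).take n).length = n := by
    rw [List.length_take]; have := h.length_le' (tk f n); simp at this; omega
  rw [Pf, hl] at h1 h2
  rw [h1, h2]

@[simp] theorem lm_id (f : ℕ → ℕ) : lm (fun s => s) f = f := by
  funext i
  simp [lm, tk_getElem]

theorem lm_comp (h : Stp g) (h' : Stp g') (f : ℕ → ℕ) : lm g (lm g' f) = lm (fun s => g (g' s)) f := by
  apply Stp.lm_unique (h.comp h')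
  intro n
  exact h.pf_of_pf (h'.pf_lm f n)

/-- initial segments of images -/
theorem Stp.pf_iff (h : Stp g) {s : List ℕ} {f : ℕ → ℕ} : Pf (g s) (lm g f) ↔ Pf s f := by
  refine ⟨fun hp => ?_, h.pf_of_pf⟩
  have h1 := h.pf_lm f (g s).length
  have h2 : g s <+: g (tk f (g s).length) := by
    apply hp.pfx h1
    have := h.length_le' (tk f (g s).length); simpa using this
  exact (pf_tk f _).of_prefix (h.prefix_iff.1 h2)

theorem Stp.lm_injective (h : Stp g) : Function.Injective (lm g) := by
  intro f f' hff
  apply eq_of_tk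
  intro n
  have h1 : Pf (tk f n) f' := by
    rw [← h.pf_iff, ← hff]; exact h.pf_lm f n
  rw [Pf, tk_length] at h1
  exact h1.symm

/-- `lm g f i` depends only on the first `i + 1` values -/
theorem lm_congr {f f' : ℕ → ℕ} (i : ℕ) (h : ∀ m ≤ i, f m = f' m) : lm g f i = lm g f' i := by
  rw [lm, lm, tk_congr (n := i + 1) (f := f) (g := f')]
  intro m hm
  exact h m (Nat.lt_succ_iff.1 hm)

/-! ### Concatenation -/

/-- `s` followed by `f` -/
def cat (s : List α) (f : ℕ → α) : ℕ → α := fun i => if h : i < s.length then s[i] else f (i - s.length)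

/-- remove the first `n` entries -/
def shf (n : ℕ) (f : ℕ → α) : ℕ → α := fun i => f (i + n)

@[simp] theorem cat_nil (f : ℕ → α) : cat [] f = f := by funext i; simp [cat]

theorem pf_cat (s : List α) (f : ℕ → α) : Pf s (cat s f) := by
  rw [pf_iff]; intro i hi; simp [cat, hi]

@[simp] theorem shf_cat (s : List α) (f : ℕ → α) : shf s.length (cat s f) = f := by
  funext i; simp [shf, cat]

@[simp] theorem shf_zero (f : ℕ → α) : shf 0 f = f := rfl

theorem cat_shf {s : List α} {f : ℕ → α} (h : Pf s f) : cat s (shf s.length f) = f := by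
  rw [pf_iff] at h
  funext i
  by_cases hi : i < s.length
  · simp [cat, hi, h i hi]
  · simp only [cat, hi, dif_neg, not_false_eq_true, shf]
    congr 1; omega

theorem tk_cat (s : List α) (f : ℕ → α) (n : ℕ) : tk (cat s f) (s.length + n) = s ++ tk f n := by
  apply List.ext_getElem (by simp)
  intro i h1 h2
  rw [tk_getElem]
  by_cases hi : i < s.length
  · simp [cat, hi]
  · rw [List.getElem_append_right (by omega), tk_getElem]
    simp [cat, hi]

theorem pf_cat_iff {s t : List α} {f : ℕ → α} : Pf (s ++ t) (cat s f) ↔ Pf t f := by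
  rw [Pf, Pf, List.length_append, tk_cat]
  simp

theorem pf_append_iff {s t : List α} {f : ℕ → α} : Pf (s ++ t) f ↔ Pf s f ∧ Pf t (shf s.length f) := by
  constructor
  · intro h
    have h1 : Pf s f := h.of_prefix (List.prefix_append s t)
    refine ⟨h1, ?_⟩
    rw [← pf_cat_iff (s := s), cat_shf h1]; exact h
  · rintro ⟨h1, h2⟩
    rw [← cat_shf h1, pf_cat_iff]; exact h2

end Pool.Agent.Mil
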