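import Mathlib
import Pool.Agent.Lib.Mil.Lst

/-!
# Mil.Avd (size 110): dominated perfect trees are not null

`Dom T H N` : from the level `N` on, every node of `T` of length `≤ H n` has more than `1^0 + 2^1 + ... + (n+2)^(n+1)` extensions of length `H (n+1)` in `T`.

Proof of `Dom.avoid`. Show by induction on `m ≥ N + 1`: there is `t ∈ T` with `t.length = H m` and for all `n ≤ m`, `n < M`, all `τ ∈ W n` are incomparable with `t`.
`m = N + 1`: apply `Dom` at `n = N` to `[]` : `E`. The set `S = ⋃ n ≤ N + 1, n < M, W n` has at most `∑ i ∈ range (N + 2), (i + 1) ^ i < E.card` elements, all of length `≥ H (N + 1)`. The elements of `E` have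
length `H (N + 1)`; `e ∈ E` comparable with `τ ∈ S` means `e = τ.take (H (N+1))` (as `e.length ≤ τ.length`; if `τ <+: e` then `τ = e` by lengths). So at most `S.card` elements of `E` are comparable with some
element of `S` (`E.filter _ ⊆ S.image (List.take (H (N+1)))`); take another one.
`m → m + 1`: apply `Dom` at `n = m` to the `t` of length `H m`: `E` has more than `(m + 2) ^ (m + 1) ≥ (W (m+1)).card` elements; choose `e ∈ E` incomparable with all elements of `W (m+1)` (if `m + 1 < M`) as before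
(their lengths are `≥ H (m+1)`). For `τ ∈ W n`, `n ≤ m`: `τ` is incomparable with `t`, `t <+: e`, hence with `e`: if `τ <+: e` then `τ, t` are both initial segments of `e`, so comparable; if `e <+: τ` then `t <+: τ`.
Finally take `m = max (N + 1) M`.
-/

set_option autoImplicit false

namespace Pool.Agent.Mil

/-- the function `H` dominates the tree `T` from `N` on -/
def Dom (T : Set (List Bool)) (H : ℕ → ℕ) (N : ℕ) : Prop :=
  ∀ n ≥ N, ∀ t ∈ T, t.length ≤ H n → ∃ E : Finset (List Bool),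
    ∑ i ∈ Finset.range (n + 2), (i + 1) ^ i < E.card ∧ ∀ e ∈ E, e ∈ T ∧ t <+: e ∧ e.length = H (n + 1)

private theorem Avd_pick {E S : Finset (List Bool)} {h : ℕ} (hE : ∀ e ∈ E, e.length = h) (hS : ∀ τ ∈ S, h ≤ τ.length)
    (hc : S.card < E.card) : ∃ e ∈ E, ∀ τ ∈ S, ¬ τ <+: e ∧ ¬ e <+: τ := by
  classical
  have h1 : (S.image (List.take h)).card < E.card := Finset.card_image_le.trans_lt hc
  obtain ⟨e, he, hne⟩ := Finset.exists_mem_notMem_of_card_lt_card h1
  refine ⟨e, he, fun τ hτ => ⟨fun h2 => ?_, fun h2 => ?_⟩⟩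
  · have h3 : τ = e := h2.eq_of_length (le_antisymm h2.length_le (by rw [hE e he]; exact hS τ hτ))
    apply hne
    rw [Finset.mem_image]
    refine ⟨τ, hτ, ?_⟩
    rw [h3, ← hE e he, List.take_length]
  · apply hne
    rw [Finset.mem_image]
    refine ⟨τ, hτ, ?_⟩
    rw [← hE e he]
    exact (List.prefix_iff_eq_take.1 h2).symm

private theorem Avd_step {T : Set (List Bool)} {H : ℕ → ℕ} {N : ℕ} (hT : Dom T H N) (h0 : [] ∈ T)
    {M : ℕ} {W : ℕ → Finset (List Bool)} (hc : ∀ n, (W n).card ≤ (n + 1) ^ n)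
    (hW : ∀ n < M, ∀ τ ∈ W n, H n ≤ τ.length ∧ H (N + 1) ≤ τ.length) (m : ℕ) (hm : N + 1 ≤ m) :
    ∃ t ∈ T, t.length = H m ∧ ∀ n ≤ m, n < M → ∀ τ ∈ W n, ¬ τ <+: t ∧ ¬ t <+: τ := by
  classical
  induction m, hm using Nat.le_induction with
  | base =>
    obtain ⟨E, h1, h2⟩ := hT N le_rfl [] h0 (Nat.zero_le _)
    have h3 : (((Finset.range (N + 2)).filter (· < M)).biUnion W).card < E.card := by
      refine (Finset.card_biUnion_le.trans ?_).trans_lt h1
      refine (Finset.sum_le_sum fun n _ => hc n).trans ?_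
      exact Finset.sum_le_sum_of_subset (Finset.filter_subset _ _)
    obtain ⟨e, he, h4⟩ := Avd_pick (h := H (N + 1)) (fun e he => (h2 e he).2.2) (fun τ hτ => by
      obtain ⟨n, hn, hτn⟩ := Finset.mem_biUnion.1 hτ
      exact (hW n (Finset.mem_filter.1 hn).2 τ hτn).2) h3
    refine ⟨e, (h2 e he).1, (h2 e he).2.2, fun n hn hnM τ hτ => h4 τ ?_⟩
    exact Finset.mem_biUnion.2 ⟨n, Finset.mem_filter.2 ⟨Finset.mem_range.2 (by omega), hnM⟩, hτ⟩
  | succ m hm ih =>
    obtain ⟨t, ht, hl, h5⟩ := ih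
    obtain ⟨E, h1, h2⟩ := hT m (by omega) t ht hl.le
    have h3 : (if m + 1 < M then W (m + 1) else ∅).card < E.card := by
      have h6 : (m + 1 + 1) ^ (m + 1) ≤ ∑ i ∈ Finset.range (m + 2), (i + 1) ^ i :=
        Finset.single_le_sum (f := fun i => (i + 1) ^ i) (fun _ _ => Nat.zero_le _)
          (Finset.mem_range.2 (by omega))
      refine lt_of_le_of_lt ?_ h1
      split_ifs
      · exact (hc (m + 1)).trans h6
      · simp
    obtain ⟨e, he, h4⟩ := Avd_pick (h := H (m + 1)) (fun e he => (h2 e he).2.2) (fun τ hτ => by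
      split_ifs at hτ with h7
      · exact (hW (m + 1) h7 τ hτ).1
      · exact absurd hτ (Finset.notMem_empty _)) h3
    refine ⟨e, (h2 e he).1, (h2 e he).2.2, fun n hn hnM τ hτ => ?_⟩
    rcases Nat.lt_or_ge m n with h8 | h8
    · have h9 : n = m + 1 := by omega
      subst h9
      exact h4 τ (by rw [if_pos hnM]; exact hτ)
    · obtain ⟨h9, h10⟩ := h5 n h8 hnM τ hτ
      have h11 := (h2 e he).2.1
      refine ⟨fun h12 => ?_, fun h12 => h10 (h11.trans h12)⟩
      rcases List.prefix_or_prefix_of_prefix h12 h11 with h13 | h13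
      · exact h9 h13
      · exact h10 h13

theorem Dom.avoid {T : Set (List Bool)} {H : ℕ → ℕ} {N : ℕ} (hT : Dom T H N) (h0 : [] ∈ T) (hH : Monotone H)
    {M : ℕ} {W : ℕ → Finset (List Bool)} (hc : ∀ n, (W n).card ≤ (n + 1) ^ n)
    (hW : ∀ n < M, ∀ τ ∈ W n, H n ≤ τ.length ∧ H (N + 1) ≤ τ.length) :
    ∃ t ∈ T, ∀ n < M, ∀ τ ∈ W n, ¬ τ <+: t ∧ ¬ t <+: τ := by
  obtain ⟨t, ht, -, h⟩ := Avd_step hT h0 hc hW (max (N + 1) M) (le_max_left _ _)
  exact ⟨t, ht, fun n hn τ hτ => h n (hn.le.trans (le_max_right _ _)) hn τ hτ⟩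

end Pool.Agent.Mil
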