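import Mathlib
import Pool.Agent.Lib.Mil.Lst

/-!
# Points and locally constant functions

`Pt I = I → ℕ → ℕ`. `LC C f`: the function `f` on `Pt I` is locally constant (in the product topology) and depends
only on the coordinates in `C`.
-/

set_option autoImplicit false

namespace Pool.Agent.Mil

variable {I : Type} {β γ : Type*}

/-- the space of points -/
abbrev Pt (I : Type) : Type := I → ℕ → ℕ

/-- `y` agrees with `x` on the first `n` entries of the coordinates in `F` -/
def Ag (F : Finset I) (n : ℕ) (x y : Pt I) : Prop := ∀ a ∈ F, ∀ i < n, y a i = x a i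

/-- `f` is locally constant and depends only on the coordinates in `C` -/
def LC (C : Set I) (f : Pt I → β) : Prop :=
  ∀ x, ∃ F : Finset I, (↑F : Set I) ⊆ C ∧ ∃ n : ℕ, ∀ y, Ag F n x y → f y = f x

theorem Ag.refl (F : Finset I) (n : ℕ) (x : Pt I) : Ag F n x x := fun _ _ _ _ => rfl

theorem Ag.mono {F F' : Finset I} {n n' : ℕ} {x y : Pt I} (h : Ag F' n' x y) (hF : F ⊆ F')
    (hn : n ≤ n') : Ag F n x y := fun a ha i hi => h a (hF ha) i (hi.trans_le hn)

theorem LC.const (C : Set I) (b : β) : LC C (fun _ => b) := fun _ => ⟨∅, by simp, 0, fun _ _ => rfl⟩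

theorem LC.mono {C C' : Set I} {f : Pt I → β} (h : LC C f) (hC : C ⊆ C') : LC C' f := by
  intro x
  obtain ⟨F, hF, n, hn⟩ := h x
  exact ⟨F, hF.trans hC, n, hn⟩

theorem LC.eq_of {C : Set I} {f : Pt I → β} (h : LC C f) {x y : Pt I} (hxy : ∀ a ∈ C, y a = x a) :
    f y = f x := by
  obtain ⟨F, hF, n, hn⟩ := h x
  exact hn y fun a ha i _ => by rw [hxy a (hF ha)]

theorem LC.coord {C : Set I} {a : I} (ha : a ∈ C) (i : ℕ) : LC C (fun x : Pt I => x a i) := by
  intro x
  refine ⟨{a}, by simpa using ha, i + 1, fun y hy => hy a (by simp) i (Nat.lt_succ_self i)⟩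

theorem LC.tk {C : Set I} {a : I} (ha : a ∈ C) (n : ℕ) : LC C (fun x : Pt I => Mil.tk (x a) n) := by
  intro x
  exact ⟨{a}, by simpa using ha, n, fun y hy => tk_congr fun i hi => hy a (by simp) i hi⟩

theorem LC.comp₁ {C : Set I} {f : Pt I → β} (h : LC C f) (g : β → γ) : LC C (fun x => g (f x)) := by
  intro x
  obtain ⟨F, hF, n, hn⟩ := h x
  exact ⟨F, hF, n, fun y hy => congrArg g (hn y hy)⟩

open Classical in
theorem LC.pair {C : Set I} {f : Pt I → β} {g : Pt I → γ} (hf : LC C f) (hg : LC C g) :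
    LC C (fun x => (f x, g x)) := by
  intro x
  obtain ⟨F, hF, n, hn⟩ := hf x
  obtain ⟨F', hF', n', hn'⟩ := hg x
  refine ⟨F ∪ F', by simpa using ⟨hF, hF'⟩, max n n', fun y hy => ?_⟩
  exact Prod.ext (hn y (hy.mono Finset.subset_union_left (le_max_left _ _)))
    (hn' y (hy.mono Finset.subset_union_right (le_max_right _ _)))

theorem LC.comp₂ {C : Set I} {δ : Type*} {f : Pt I → β} {g : Pt I → γ} (hf : LC C f) (hg : LC C g)
    (k : β → γ → δ) : LC C (fun x => k (f x) (g x)) := (hf.pair hg).comp₁ (fun p => k p.1 p.2)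

open Classical in
/-- finitely many locally constant functions are constant on a common neighbourhood -/
theorem LC.finset {C : Set I} {J : Type*} (s : Finset J) {β : J → Type*} (f : (j : J) → Pt I → β j)
    (h : ∀ j ∈ s, LC C (f j)) (x : Pt I) :
    ∃ F : Finset I, (↑F : Set I) ⊆ C ∧ ∃ n : ℕ, ∀ y, Ag F n x y → ∀ j ∈ s, f j y = f j x := by
  induction s using Finset.induction_on with
  | empty => exact ⟨∅, by simp, 0, fun _ _ => by simp⟩
  | insert j s _ ih =>
    obtain ⟨F, hF, n, hn⟩ := ih fun j hj => h j (Finset.mem_insert_of_mem hj)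
    obtain ⟨F', hF', n', hn'⟩ := h j (Finset.mem_insert_self _ _) x
    refine ⟨F ∪ F', by simpa using ⟨hF, hF'⟩, max n n', fun y hy i hi => ?_⟩
    rcases Finset.mem_insert.1 hi with rfl | hi
    · exact hn' y (hy.mono Finset.subset_union_right (le_max_right _ _))
    · exact hn y (hy.mono Finset.subset_union_left (le_max_left _ _)) i hi

/-- a function which is locally equal to locally constant functions -/
theorem LC.local {C : Set I} {f : Pt I → β} {p : Pt I → γ} (hp : LC C p) (g : γ → Pt I → β)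
    (hg : ∀ c, LC C (g c)) (h : ∀ x, f x = g (p x) x) : LC C f := by
  classical
  intro x
  obtain ⟨F, hF, n, hn⟩ := hp x
  obtain ⟨F', hF', n', hn'⟩ := hg (p x) x
  refine ⟨F ∪ F', by simpa using ⟨hF, hF'⟩, max n n', fun y hy => ?_⟩
  rw [h y, h x, hn y (hy.mono Finset.subset_union_left (le_max_left _ _)),
    hn' y (hy.mono Finset.subset_union_right (le_max_right _ _))]

/-- composition with a continuous map `T` of points -/
theorem LC.comp {C C' : Set I} {f : Pt I → β} (hf : LC C f) {T : Pt I → Pt I}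
    (hT : ∀ a ∈ C, ∀ i, LC C' (fun x => T x a i)) : LC C' (fun x => f (T x)) := by
  classical
  intro x
  obtain ⟨F, hF, n, hn⟩ := hf (T x)
  obtain ⟨F', hF', n', hn'⟩ := LC.finset (C := C') (F ×ˢ Finset.range n)
    (β := fun _ => ℕ) (fun p x => T x p.1 p.2)
    (fun p hp => hT p.1 (hF (Finset.mem_product.1 hp).1) p.2) x
  refine ⟨F', hF', n', fun y hy => hn _ fun a ha i hi => ?_⟩
  exact hn' y hy (a, i) (Finset.mem_product.2 ⟨ha, Finset.mem_range.2 hi⟩)

/-- the least number with a locally constant property -/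
theorem LC.find {C : Set I} {Q : Pt I → ℕ → Prop} (hQ : ∀ L, LC C (fun x => Q x L))
    (h : ∀ x, ∃ L, Q x L) : ∃ f : Pt I → ℕ, LC C f ∧ ∀ x, Q x (f x) := by
  classical
  refine ⟨fun x => Nat.find (h x), fun x => ?_, fun x => Nat.find_spec (h x)⟩
  obtain ⟨F, hF, n, hn⟩ := LC.finset (C := C) (Finset.range (Nat.find (h x) + 1))
    (β := fun _ => Prop) (fun L x => Q x L) (fun L _ => hQ L) x
  refine ⟨F, hF, n, fun y hy => ?_⟩
  have h1 := hn y hy
  show Nat.find (h y) = Nat.find (h x)
  apply (Nat.find_eq_iff (h y)).2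
  refine ⟨?_, fun m hm => ?_⟩
  · rw [h1 _ (Finset.mem_range.2 (Nat.lt_succ_self _))]; exact Nat.find_spec (h x)
  · rw [h1 m (Finset.mem_range.2 (by omega))]; exact Nat.find_min (h x) hm

end Pool.Agent.Mil
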