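import Mathlib
import Pool.Agent.Lib.Mil.LC

/-!
# The continuous presentation of the countable support iteration of Miller forcing

`Gam I` : the monoid of the countably supported, continuous, coordinatewise tree embeddings. The forcing is `Gam I`
ordered by `φ ≤ ψ ↔ ∃ χ, φ = ψ * χ`.
-/

set_option autoImplicit false

namespace Pool.Agent.Mil

variable {I : Type} [LinearOrder I]

/-- `e a x` enumerates the splitting nodes of a superperfect tree, which depends continuously on the coordinates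
`x b`, `b < a`; countable support -/
@[ext]
structure Gam (I : Type) [LinearOrder I] where
  e : I → Pt I → List ℕ → List ℕ
  stp : ∀ a x, Stp (e a x)
  sup : ∃ C : Set I, C.Countable ∧ (∀ a ∉ C, ∀ x s, e a x s = s) ∧
    ∀ a s, LC (C ∩ Set.Iio a) (fun x => e a x s)

namespace Gam

/-- `C` is a support of `φ` -/
structure Spt (φ : Gam I) (C : Set I) : Prop where
  off : ∀ a ∉ C, ∀ x s, φ.e a x s = s
  lc : ∀ a s, LC (C ∩ Set.Iio a) (fun x => φ.e a x s)

theorem exists_spt (φ : Gam I) : ∃ C : Set I, C.Countable ∧ φ.Spt C := by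
  obtain ⟨C, h1, h2, h3⟩ := φ.sup
  exact ⟨C, h1, h2, h3⟩

theorem Spt.mono {φ : Gam I} {C C' : Set I} (h : φ.Spt C) (hC : C ⊆ C') : φ.Spt C' :=
  ⟨fun a ha => h.off a fun h' => ha (hC h'), fun a s => (h.lc a s).mono (Set.inter_subset_inter_left _ hC)⟩

theorem congr (φ : Gam I) (a : I) {x y : Pt I} (h : ∀ b < a, x b = y b) (s : List ℕ) :
    φ.e a x s = φ.e a y s := by
  obtain ⟨C, -, hC⟩ := φ.exists_spt
  exact (hC.lc a s).eq_of fun b hb => h b hb.2

theorem congr' (φ : Gam I) (a : I) {x y : Pt I} (h : ∀ b < a, x b = y b) : φ.e a x = φ.e a y :=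
  funext fun s => φ.congr a h s

/-- the map of the points -/
def mp (φ : Gam I) (x : Pt I) : Pt I := fun a => lm (φ.e a x) (x a)

theorem mp_congr (φ : Gam I) (a : I) {x y : Pt I} (h : ∀ b ≤ a, x b = y b) : φ.mp x a = φ.mp y a := by
  rw [mp, mp, φ.congr' a fun b hb => h b hb.le, h a le_rfl]

theorem pf_mp (φ : Gam I) {a : I} {x : Pt I} {s : List ℕ} (h : Pf s (x a)) :
    Pf (φ.e a x s) (φ.mp x a) := (φ.stp a x).pf_of_pf h

theorem pf_mp_iff (φ : Gam I) {a : I} {x : Pt I} {s : List ℕ} :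
    Pf (φ.e a x s) (φ.mp x a) ↔ Pf s (x a) := (φ.stp a x).pf_iff

theorem Spt.mp_off {φ : Gam I} {C : Set I} (h : φ.Spt C) {a : I} (ha : a ∉ C) (x : Pt I) :
    φ.mp x a = x a := by
  have : φ.e a x = fun s => s := funext fun s => h.off a ha x s
  rw [mp, this, lm_id]

/-- the map of the points is continuous -/
theorem Spt.lc_mp {φ : Gam I} {C : Set I} (h : φ.Spt C) (a : I) (i : ℕ) :
    LC (C ∩ Set.Iio a ∪ {a}) (fun x => φ.mp x a i) := by
  have h1 : LC (C ∩ Set.Iio a ∪ {a}) (fun x : Pt I => tk (x a) (i + 1)) := LC.tk (by simp) _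
  refine (LC.local h1 (fun t x => ((φ.e a x t)[i]?).getD 0) (fun t => ?_) fun x => rfl)
  exact ((h.lc a t).mono (fun b hb => Or.inl hb)).comp₁ fun l => (l[i]?).getD 0

/-- composition with `φ.mp` -/
theorem Spt.lc_comp {β : Type*} {φ : Gam I} {C : Set I} (h : φ.Spt C) {D E : Set I} {f : Pt I → β}
    (hf : LC D f) (hDE : D ⊆ E) (hC : ∀ a ∈ D, C ∩ Set.Iio a ⊆ E) : LC E (fun x => f (φ.mp x)) := by
  refine hf.comp fun a ha i => (h.lc_mp a i).mono ?_
  rintro b (hb | hb)
  · exact hC a ha hb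
  · rw [Set.mem_singleton_iff.1 hb]; exact hDE ha

/-! ### The monoid -/

instance : One (Gam I) := ⟨⟨fun _ _ s => s, fun _ _ => stp_id,
  ∅, Set.countable_empty, fun _ _ _ _ => rfl, fun _ s => LC.const _ s⟩⟩

@[simp] theorem one_e (a : I) (x : Pt I) (s : List ℕ) : (1 : Gam I).e a x s = s := rfl

@[simp] theorem one_mp (x : Pt I) : (1 : Gam I).mp x = x := by
  funext a; exact lm_id _

instance : Mul (Gam I) := ⟨fun φ ψ => ⟨fun a x s => φ.e a (ψ.mp x) (ψ.e a x s),
  fun a x => (φ.stp a (ψ.mp x)).comp (ψ.stp a x), by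
    obtain ⟨C, hc, hC⟩ := φ.exists_spt
    obtain ⟨C', hc', hC'⟩ := ψ.exists_spt
    refine ⟨C ∪ C', hc.union hc', fun a ha x s => ?_, fun a s => ?_⟩
    · rw [hC'.off a (fun h => ha (Or.inr h)), hC.off a (fun h => ha (Or.inl h))]
    · refine LC.local (p := fun x => ψ.e a x s) ((hC'.lc a s).mono (Set.inter_subset_inter_left _ Set.subset_union_right))
        (fun t x => φ.e a (ψ.mp x) t) (fun t => ?_) fun x => rfl
      refine hC'.lc_comp (hC.lc a t) (Set.inter_subset_inter_left _ Set.subset_union_left) ?_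
      rintro b ⟨-, hb⟩ c ⟨hc1, hc2⟩
      exact ⟨Or.inr hc1, lt_trans hc2 hb⟩⟩⟩

@[simp] theorem mul_e (φ ψ : Gam I) (a : I) (x : Pt I) (s : List ℕ) :
    (φ * ψ).e a x s = φ.e a (ψ.mp x) (ψ.e a x s) := rfl

@[simp] theorem mul_mp (φ ψ : Gam I) (x : Pt I) : (φ * ψ).mp x = φ.mp (ψ.mp x) := by
  funext a
  exact (lm_comp (φ.stp a (ψ.mp x)) (ψ.stp a x) (x a)).symm

instance : Monoid (Gam I) where
  mul_assoc φ ψ χ := by
    apply Gam.ext
    funext a x s
    simp
  one_mul φ := by apply Gam.ext; funext a x s; simp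
  mul_one φ := by apply Gam.ext; funext a x s; simp

/-- the forcing order: stronger conditions are smaller -/
instance : Preorder (Gam I) where
  le φ ψ := ∃ χ, φ = ψ * χ
  le_refl φ := ⟨1, (mul_one φ).symm⟩
  le_trans φ ψ χ := by
    rintro ⟨α, rfl⟩ ⟨β, rfl⟩
    exact ⟨β * α, by rw [mul_assoc]⟩

theorem le_def {φ ψ : Gam I} : φ ≤ ψ ↔ ∃ χ, φ = ψ * χ := Iff.rfl

theorem mul_le (φ ψ : Gam I) : φ * ψ ≤ φ := ⟨ψ, rfl⟩

theorem mul_le_mul_left' (φ : Gam I) {ψ χ : Gam I} (h : ψ ≤ χ) : φ * ψ ≤ φ * χ := by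
  obtain ⟨α, rfl⟩ := h
  exact ⟨α, by rw [mul_assoc]⟩

theorem Spt.mul {φ ψ : Gam I} {C C' : Set I} (h : φ.Spt C) (h' : ψ.Spt C') : (φ * ψ).Spt (C ∪ C') := by
  refine ⟨fun a ha x s => ?_, fun a s => ?_⟩
  · rw [mul_e, h'.off a (fun h => ha (Or.inr h)), h.off a (fun h => ha (Or.inl h))]
  · refine LC.local (p := fun x => ψ.e a x s) ((h'.lc a s).mono (Set.inter_subset_inter_left _ Set.subset_union_right))
      (fun t x => φ.e a (ψ.mp x) t) (fun t => ?_) fun x => rfl
    refine h'.lc_comp (h.lc a t) (Set.inter_subset_inter_left _ Set.subset_union_left) ?_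
    rintro b ⟨-, hb⟩ c ⟨hc1, hc2⟩
    exact ⟨Or.inr hc1, lt_trans hc2 hb⟩

theorem Spt.one : (1 : Gam I).Spt ∅ := ⟨fun _ _ _ _ => rfl, fun _ s => LC.const _ s⟩

/-! ### Restrictions -/

open Classical in
/-- the coordinates in `A` -/
noncomputable def rs (A : Set I) (φ : Gam I) : Gam I where
  e := fun a x s => if a ∈ A then φ.e a x s else s
  stp := fun a x => by
    by_cases h : a ∈ A
    · simpa only [h, if_true] using φ.stp a x
    · simpa only [h, if_false] using stp_id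
  sup := by
    obtain ⟨C, hc, hC⟩ := φ.exists_spt
    refine ⟨C, hc, fun a ha x s => ?_, fun a s => ?_⟩
    · split_ifs
      · exact hC.off a ha x s
      · rfl
    · by_cases h : a ∈ A
      · simpa only [h, if_true] using hC.lc a s
      · simpa only [h, if_false] using LC.const _ s

/-- all coordinates outside `A` are trivial -/
def In (A : Set I) (φ : Gam I) : Prop := ∀ a ∉ A, ∀ x s, φ.e a x s = s

theorem rs_e_mem {A : Set I} (φ : Gam I) {a : I} (h : a ∈ A) (x : Pt I) (s : List ℕ) :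
    (rs A φ).e a x s = φ.e a x s := by
  simp [rs, h]

theorem rs_e_notMem {A : Set I} (φ : Gam I) {a : I} (h : a ∉ A) (x : Pt I) (s : List ℕ) :
    (rs A φ).e a x s = s := by
  simp [rs, h]

theorem in_rs (A : Set I) (φ : Gam I) : In A (rs A φ) := fun _ ha x s => rs_e_notMem φ ha x s

theorem rs_eq {A : Set I} {φ : Gam I} (h : In A φ) : rs A φ = φ := by
  apply Gam.ext
  funext a x s
  by_cases ha : a ∈ A
  · rw [rs_e_mem φ ha]
  · rw [rs_e_notMem φ ha, h a ha]

theorem Spt.rs {φ : Gam I} {C : Set I} (h : φ.Spt C) (A : Set I) : (Gam.rs A φ).Spt C :=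
  ⟨fun a ha x s => by
    by_cases hA : a ∈ A
    · rw [rs_e_mem φ hA]; exact h.off a ha x s
    · rw [rs_e_notMem φ hA],
   fun a s => by
    by_cases hA : a ∈ A
    · simpa only [Gam.rs, hA, if_true] using h.lc a s
    · simpa only [Gam.rs, hA, if_false] using LC.const _ s⟩

/-- if `φ` is trivial outside the lower set `A`, then its supports can be cut to `A` -/
theorem Spt.inter {φ : Gam I} {C A : Set I} (h : φ.Spt C) (hA : IsLowerSet A) (hφ : In A φ) :
    φ.Spt (C ∩ A) := by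
  refine ⟨fun a ha x s => ?_, fun a s => ?_⟩
  · by_cases h1 : a ∈ A
    · exact h.off a (fun h2 => ha ⟨h2, h1⟩) x s
    · exact hφ a h1 x s
  · by_cases h1 : a ∈ A
    · refine (h.lc a s).mono ?_
      rintro b ⟨hb1, hb2⟩
      exact ⟨⟨hb1, hA (le_of_lt hb2) h1⟩, hb2⟩
    · have : (fun x => φ.e a x s) = fun _ => s := funext fun x => hφ a h1 x s
      rw [this]; exact LC.const _ _

theorem in_one (A : Set I) : In A (1 : Gam I) := fun _ _ _ _ => rfl

theorem In.mul {A : Set I} {φ ψ : Gam I} (h : In A φ) (h' : In A ψ) : In A (φ * ψ) := by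
  intro a ha x s
  rw [mul_e, h' a ha, h a ha]

theorem In.mono {A A' : Set I} {φ : Gam I} (h : In A φ) (hA : A ⊆ A') : In A' φ :=
  fun a ha => h a fun h' => ha (hA h')

theorem In.mp_eq {A : Set I} {φ : Gam I} (h : In A φ) {a : I} (ha : a ∉ A) (x : Pt I) :
    φ.mp x a = x a := by
  have : φ.e a x = fun s => s := funext fun s => h a ha x s
  rw [mp, this, lm_id]

theorem rs_mp_mem {A : Set I} (φ : Gam I) {a : I} (h : a ∈ A) (x : Pt I) :
    (rs A φ).mp x a = φ.mp x a := by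
  rw [mp, mp]
  congr 1
  funext s
  exact rs_e_mem φ h x s

theorem rs_mul {A : Set I} (hA : IsLowerSet A) (φ ψ : Gam I) : rs A (φ * ψ) = rs A φ * rs A ψ := by
  apply Gam.ext
  funext a x s
  by_cases ha : a ∈ A
  · rw [rs_e_mem _ ha, mul_e, mul_e, rs_e_mem _ ha, rs_e_mem _ ha]
    apply φ.congr
    intro b hb
    exact (rs_mp_mem ψ (hA hb.le ha) x).symm
  · rw [rs_e_notMem _ ha, mul_e, rs_e_notMem _ ha, rs_e_notMem _ ha]

theorem rs_mul_rs_compl {A : Set I} (hA : IsLowerSet A) (φ : Gam I) : rs A φ * rs Aᶜ φ = φ := by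
  apply Gam.ext
  funext a x s
  rw [mul_e]
  by_cases ha : a ∈ A
  · rw [rs_e_mem _ ha, rs_e_notMem _ (by simpa using ha)]
    apply φ.congr
    intro b hb
    exact (in_rs Aᶜ φ).mp_eq (by simpa using hA hb.le ha) x
  · rw [rs_e_notMem _ ha, rs_e_mem _ (by simpa using ha)]

theorem rs_rs (A B : Set I) (φ : Gam I) : rs A (rs B φ) = rs (A ∩ B) φ := by
  apply Gam.ext
  funext a x s
  by_cases h1 : a ∈ A <;> by_cases h2 : a ∈ B <;> simp [rs, h1, h2]

/-- left cancellation -/
theorem mul_left_cancel' [WellFoundedLT I] (φ : Gam I) {ψ ψ' : Gam I} (h : φ * ψ = φ * ψ') : ψ = ψ' := by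
  have key : ∀ a x, (∀ s, ψ.e a x s = ψ'.e a x s) := by
    intro a x
    induction a using WellFoundedLT.induction with
    | ind a ih =>
      intro s
      have h1 : φ.e a (ψ.mp x) = φ.e a (ψ'.mp x) := φ.congr' a fun b hb => by
        rw [mp, mp]
        congr 1
        funext t
        exact ih b hb t
      have h2 := congrFun (congrFun (congrFun (congrArg Gam.e h) a) x) s
      rw [mul_e, mul_e, h1] at h2
      exact (φ.stp a _).injective h2
  exact Gam.ext (funext fun a => funext fun x => funext fun s => key a x s)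

end Gam

end Pool.Agent.Mil
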