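import Mathlib
import Pool.Agent.Lib.Mil.Defs

/-!
# Configurations, initial segments, names

A configuration `u : I → List ℕ` prescribes initial segments; `Cy u` is the set of the points which extend them.
`kk u h` (countable support) is the element of `Gam I` which puts the initial segment `u a` before `x a`.
`Cfg I` : configurations with finite support, `w.k = kk w`.
-/

set_option autoImplicit false
set_option linter.unusedSectionVars false

namespace Pool.Agent.Mil

variable {I : Type} [LinearOrder I]

section
omit [LinearOrder I]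

/-- the support of a configuration -/
def sp (u : I → List ℕ) : Set I := {a | u a ≠ []}

/-- the points which extend `u` -/
def Cy (u : I → List ℕ) : Set (Pt I) := {x | ∀ a, Pf (u a) (x a)}

/-- the map which puts the initial segment -/
def pre (u : I → List ℕ) (x : Pt I) : Pt I := fun a => cat (u a) (x a)

/-- the inverse of the map which puts the initial segment -/
def unp (u : I → List ℕ) (x : Pt I) : Pt I := fun a => shf (u a).length (x a)

theorem pre_mem (u : I → List ℕ) (x : Pt I) : pre u x ∈ Cy u := fun a => pf_cat (u a) (x a)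

@[simp] theorem unp_pre (u : I → List ℕ) (x : Pt I) : unp u (pre u x) = x :=
  funext fun a => shf_cat (u a) (x a)

theorem pre_unp {u : I → List ℕ} {x : Pt I} (h : x ∈ Cy u) : pre u (unp u x) = x :=
  funext fun a => cat_shf (h a)

/-- extension of configurations -/
def Ext (u v : I → List ℕ) : Prop := ∀ a, u a <+: v a

theorem Ext.refl (u : I → List ℕ) : Ext u u := fun _ => List.prefix_rfl

theorem Ext.trans {u v w : I → List ℕ} (h : Ext u v) (h' : Ext v w) : Ext u w := fun a => (h a).trans (h' a)

theorem Ext.cy {u v : I → List ℕ} (h : Ext u v) : Cy v ⊆ Cy u := fun _ hx a => (hx a).of_prefix (h a)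

theorem Ext.sp {u v : I → List ℕ} (h : Ext u v) : Mil.sp u ⊆ Mil.sp v := by
  intro a ha hv
  have := h a
  rw [show v a = [] from hv] at this
  exact ha (List.prefix_nil.1 this)

/-- the part of `v` after `u` -/
def dif (u v : I → List ℕ) : I → List ℕ := fun a => (v a).drop (u a).length

theorem app_dif {u v : I → List ℕ} (h : Ext u v) (a : I) : u a ++ dif u v a = v a := by
  obtain ⟨r, hr⟩ := h a
  rw [dif, ← hr]; simp

theorem sp_dif (u v : I → List ℕ) : sp (dif u v) ⊆ sp v := by
  intro a ha hv
  exact ha (by rw [dif, show v a = [] from hv]; simp)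

theorem Cy.of_common {u v : I → List ℕ} {x : Pt I} (h : x ∈ Cy u) (h' : x ∈ Cy v)
    (hl : ∀ a, (u a).length ≤ (v a).length) : Ext u v := fun a => (h a).pfx (h' a) (hl a)

end

/-- the map which puts the initial segment as an element of `Gam I` -/
def kk (u : I → List ℕ) (h : (sp u).Countable) : Gam I where
  e := fun a _ s => u a ++ s
  stp := fun a _ s => ⟨fun k => k, strictMono_id, fun k => by simp⟩
  sup := ⟨sp u, h, fun a ha x s => by
    have : u a = [] := by simpa [sp] using ha
    rw [this]; rfl, fun _ s => LC.const _ _⟩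

@[simp] theorem kk_e (u : I → List ℕ) (h : (sp u).Countable) (a : I) (x : Pt I) (s : List ℕ) :
    (kk u h).e a x s = u a ++ s := rfl

@[simp] theorem kk_mp (u : I → List ℕ) (h : (sp u).Countable) (x : Pt I) : (kk u h).mp x = pre u x := by
  funext a
  symm
  apply Stp.lm_unique ((kk u h).stp a x)
  intro n
  exact pf_cat_iff.2 (pf_tk _ _)

theorem kk_spt (u : I → List ℕ) (h : (sp u).Countable) : (kk u h).Spt (sp u) :=
  ⟨fun a ha x s => by
    have : u a = [] := by simpa [sp] using ha
    rw [kk_e, this]; rfl, fun _ _ => LC.const _ _⟩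

theorem kk_in {u : I → List ℕ} {h : (sp u).Countable} {A : Set I} (hA : sp u ⊆ A) : Gam.In A (kk u h) :=
  fun a ha => (kk_spt u h).off a fun h' => ha (hA h')

theorem kk_mul_dif {u v : I → List ℕ} (h : (sp u).Countable) (h' : (sp v).Countable) (huv : Ext u v) :
    kk u h * kk (dif u v) (h'.mono (sp_dif u v)) = kk v h' := by
  apply Gam.ext
  funext a x s
  simp only [Gam.mul_e, kk_e, ← List.append_assoc, app_dif huv]

/-- `φ` maps into the cylinder of `u` -/
def Gam.Into (φ : Gam I) (u : I → List ℕ) : Prop := ∀ x, φ.mp x ∈ Cy u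

theorem Gam.into_iff {φ : Gam I} {u : I → List ℕ} : φ.Into u ↔ ∀ a x, u a <+: φ.e a x [] := by
  classical
  constructor
  · intro h a x
    -- two points over `x` which differ at the coordinate `a` from the first entry on
    by_contra hc
    obtain ⟨j, hj, h1⟩ := φ.stp a x []
    have key : ∀ k, φ.e a x [] ++ [j k] <+: u a ∨ u a <+: φ.e a x [] ++ [j k] := by
      intro k
      let y : Pt I := Function.update x a (fun _ => k)
      have hy : φ.e a y = φ.e a x := φ.congr' a fun b hb => by
        simp [y, Function.update_of_ne hb.ne]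
      have h2 := h y a
      have h3 : Pf (φ.e a x [] ++ [j k]) (φ.mp y a) := by
        rw [← hy]
        have h4 : Pf ([] ++ [k]) (y a) := by simp [Pf, tk, y]
        exact (φ.pf_mp h4).of_prefix (by rw [hy]; exact h1 k)
      exact h3.total h2
    have key2 : ∀ k, φ.e a x [] ++ [j k] <+: u a := by
      intro k
      rcases key k with h2 | h2
      · exact h2
      · rcases List.prefix_concat_iff.1 h2 with h3 | h3
        · rw [h3]
        · exact absurd h3 hc
    have h5 : φ.e a x [] ++ [j 0] = φ.e a x [] ++ [j 1] := by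
      rcases List.prefix_or_prefix_of_prefix (key2 0) (key2 1) with h6 | h6
      · exact h6.eq_of_length (by simp)
      · exact (h6.eq_of_length (by simp)).symm
    have h7 := hj.injective (show j 0 = j 1 by simpa using h5)
    exact absurd h7 (by norm_num)
  · intro h x a
    exact (φ.pf_mp (pf_nil (x a))).of_prefix (h a x)

theorem kk_into (u : I → List ℕ) (h : (sp u).Countable) : (kk u h).Into u := fun x => by
  rw [kk_mp]; exact pre_mem u x

/-- a map into the cylinder of `u` factors through `kk u` -/
theorem Gam.Into.factor {φ : Gam I} {u : I → List ℕ} (hφ : φ.Into u) (h : (sp u).Countable) :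
    ∃ χ : Gam I, φ = kk u h * χ := by
  rw [Gam.into_iff] at hφ
  obtain ⟨C, hc, hC⟩ := φ.exists_spt
  have h0 : ∀ a x s, u a <+: φ.e a x s := fun a x s => (hφ a x).trans ((φ.stp a x).mono List.nil_prefix)
  refine ⟨⟨fun a x s => (φ.e a x s).drop (u a).length, fun a x s => ?_, C, hc, fun a ha x s => ?_,
    fun a s => (hC.lc a s).comp₁ _⟩, ?_⟩
  · obtain ⟨j, hj, h1⟩ := φ.stp a x s
    refine ⟨j, hj, fun k => ?_⟩
    obtain ⟨r, hr⟩ := h1 k
    obtain ⟨t, ht⟩ := h0 a x s
    show (φ.e a x s).drop (u a).length ++ [j k] <+: (φ.e a x (s ++ [k])).drop (u a).length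
    rw [← hr, ← ht]
    simp
  · have h2 := h0 a x []
    rw [hC.off a ha] at h2
    rw [hC.off a ha, List.prefix_nil.1 h2]
    rfl
  · apply Gam.ext
    funext a x s
    obtain ⟨t, ht⟩ := h0 a x s
    rw [Gam.mul_e, kk_e]
    show φ.e a x s = u a ++ (φ.e a x s).drop (u a).length
    rw [← ht]
    simp

theorem Gam.Into.mul {φ : Gam I} {u : I → List ℕ} (h : φ.Into u) (χ : Gam I) : (φ * χ).Into u := by
  intro x
  rw [Gam.mul_mp]
  exact h _

/-- configurations with finite support -/
structure Cfg (I : Type) where
  u : I → List ℕ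
  fin : (sp u).Finite

namespace Cfg

/-- the empty configuration -/
def nil : Cfg I := ⟨fun _ => [], by simp [sp]⟩

/-- the map which puts the initial segment -/
def k (w : Cfg I) : Gam I := kk w.u w.fin.countable

@[simp] theorem k_e (w : Cfg I) (a : I) (x : Pt I) (s : List ℕ) : w.k.e a x s = w.u a ++ s := rfl

@[simp] theorem k_mp (w : Cfg I) (x : Pt I) : w.k.mp x = pre w.u x := kk_mp _ _ _

theorem k_nil : (nil : Cfg I).k = 1 := by
  apply Gam.ext; funext a x s; simp [nil]

theorem k_in {w : Cfg I} {A : Set I} (hA : sp w.u ⊆ A) : Gam.In A w.k := kk_in hA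

/-- the part of `v` after `w` -/
def dif (w v : Cfg I) : Cfg I := ⟨Mil.dif w.u v.u, v.fin.subset (sp_dif _ _)⟩

theorem k_mul_dif {w v : Cfg I} (h : Ext w.u v.u) : w.k * (w.dif v).k = v.k := kk_mul_dif _ _ h

open Classical in
/-- the configuration of the first `n` entries of the coordinates in `F` -/
noncomputable def of (F : Finset I) (n : ℕ) (x : Pt I) : Cfg I :=
  ⟨fun a => if a ∈ F then tk (x a) n else [], F.finite_toSet.subset fun a ha => by
    by_contra hF
    exact ha (by simp at hF; simp [hF])⟩

theorem of_sp (F : Finset I) (n : ℕ) (x : Pt I) : sp (of F n x).u ⊆ (↑F : Set I) := by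
  intro a ha
  by_contra hF
  exact ha (by simp at hF; simp [of, hF])

theorem mem_of (F : Finset I) (n : ℕ) (x : Pt I) : x ∈ Cy (of F n x).u := by
  intro a
  by_cases h : a ∈ F
  · simpa [of, h] using pf_tk (x a) n
  · simpa [of, h] using pf_nil (x a)

theorem ag_of {F : Finset I} {n : ℕ} {x y : Pt I} (h : y ∈ Cy (of F n x).u) : Ag F n x y := by
  intro a ha i hi
  have h1 := h a
  simp only [of, ha, if_true] at h1
  rw [Pf, tk_length] at h1
  exact tk_eq_iff.1 h1 i hi

theorem mem_of_ag {F : Finset I} {n : ℕ} {x y : Pt I} (h : Ag F n x y) : y ∈ Cy (of F n x).u := by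
  intro a
  by_cases ha : a ∈ F
  · simp only [of, ha, if_true]
    rw [Pf, tk_length]
    exact tk_congr fun i hi => h a ha i hi
  · simpa [of, ha] using pf_nil (y a)

/-- a configuration is determined by agreement -/
theorem mem_cy_of_ag {w : Cfg I} {F : Finset I} {n : ℕ} {x y : Pt I} (hx : x ∈ Cy w.u)
    (hF : sp w.u ⊆ (↑F : Set I)) (hn : ∀ a, (w.u a).length ≤ n) (h : Ag F n x y) : y ∈ Cy w.u := by
  intro a
  by_cases ha : a ∈ F
  · exact (hx a).congr fun i hi => (h a ha i (hi.trans_le (hn a))).symm
  · have : w.u a = [] := by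
      by_contra h1; exact ha (by simpa using hF h1)
    rw [this]; exact pf_nil _

/-- a bound for the lengths -/
theorem exists_len (w : Cfg I) : ∃ n, ∀ a, (w.u a).length ≤ n := by
  obtain ⟨n, hn⟩ := (w.fin.image (fun a => (w.u a).length)).bddAbove
  refine ⟨n, fun a => ?_⟩
  by_cases h : w.u a = []
  · rw [h]; exact Nat.zero_le _
  · exact hn (Set.mem_image_of_mem _ h)

open Classical in
/-- the union of two compatible configurations: the longer one at every coordinate -/
noncomputable def sup (w v : Cfg I) : Cfg I :=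
  ⟨fun a => if (w.u a).length ≤ (v.u a).length then v.u a else w.u a,
    (w.fin.union v.fin).subset fun a ha => by
      by_contra h
      simp only [sp, Set.mem_union, Set.mem_ofPred_eq, not_or, not_not] at h
      exact ha (by simp [h.1, h.2])⟩

theorem sup_sp (w v : Cfg I) : sp (w.sup v).u ⊆ sp w.u ∪ sp v.u := by
  intro a ha
  by_contra h
  simp only [sp, Set.mem_union, Set.mem_ofPred_eq, not_or, not_not] at h
  exact ha (by simp [sup, h.1, h.2])

theorem mem_sup {w v : Cfg I} {x : Pt I} (h : x ∈ Cy w.u) (h' : x ∈ Cy v.u) : x ∈ Cy (w.sup v).u := by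
  intro a
  simp only [sup]
  split_ifs
  · exact h' a
  · exact h a

theorem ext_sup_left {w v : Cfg I} {x : Pt I} (h : x ∈ Cy w.u) (h' : x ∈ Cy v.u) :
    Ext w.u (w.sup v).u := by
  intro a
  simp only [sup]
  split_ifs with h1
  · exact (h a).pfx (h' a) h1
  · exact List.prefix_rfl

theorem ext_sup_right {w v : Cfg I} {x : Pt I} (h : x ∈ Cy w.u) (h' : x ∈ Cy v.u) :
    Ext v.u (w.sup v).u := by
  intro a
  simp only [sup]
  split_ifs with h1
  · exact List.prefix_rfl
  · exact (h' a).pfx (h a) (by omega)

/-- configurations with support in a countable set are countably many -/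
theorem countable_sp {C : Set I} (hC : C.Countable) : {w : Cfg I | sp w.u ⊆ C}.Countable := by
  classical
  have : Countable C := hC.to_subtype
  -- `w` is determined by its support (a finite subset of `C`) and the restriction to it
  let g : {w : Cfg I // sp w.u ⊆ C} → Finset (C × List ℕ) := fun w =>
    (w.1.fin.preimage (Subtype.val_injective.injOn) : (Subtype.val ⁻¹' (sp w.1.u) : Set C).Finite).toFinset.image
      (fun c => (c, w.1.u c.1))
  have hg : Function.Injective g := by
    intro w v hwv
    have key : ∀ w v : {w : Cfg I // sp w.u ⊆ C}, g w = g v → ∀ a, w.1.u a ≠ [] → v.1.u a = w.1.u a := by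
      intro w v h a ha
      have haC : a ∈ C := w.2 ha
      have h1 : ((⟨a, haC⟩ : C), w.1.u a) ∈ g w := by
        simp only [g, Finset.mem_image, Set.Finite.mem_toFinset]
        exact ⟨⟨a, haC⟩, ha, rfl⟩
      rw [h] at h1
      simp only [g, Finset.mem_image, Set.Finite.mem_toFinset, Prod.mk.injEq] at h1
      obtain ⟨c, -, hc1, hc2⟩ := h1
      rw [hc1] at hc2
      exact hc2
    apply Subtype.ext
    have h2 : w.1.u = v.1.u := by
      funext a
      by_cases ha : w.1.u a = []
      · by_cases hb : v.1.u a = []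
        · rw [ha, hb]
        · exact key v w hwv.symm a hb
      · exact (key w v hwv a ha).symm
    cases w; cases v
    rename_i w hw v hv
    cases w; cases v
    simp only at h2
    subst h2
    rfl
  have : Countable {w : Cfg I // sp w.u ⊆ C} := hg.countable
  exact Set.countable_coe_iff.1 this

end Cfg

/-! ### Partitions into cylinders -/

/-- `π` is a partition of the space into cylinders with (finite) supports in `C` -/
structure Par (C : Set I) (π : Pt I → Cfg I) : Prop where
  sup : ∀ x, sp (π x).u ⊆ C
  mem : ∀ x, x ∈ Cy (π x).u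
  par : ∀ x, ∀ y ∈ Cy (π x).u, π y = π x

theorem Par.lc {C : Set I} {π : Pt I → Cfg I} (h : Par C π) : LC C π := by
  intro x
  obtain ⟨n, hn⟩ := (π x).exists_len
  refine ⟨(π x).fin.toFinset, by simpa using h.sup x, n, fun y hy => h.par x y ?_⟩
  exact Cfg.mem_cy_of_ag (h.mem x) (by simp) hn hy

/-- Bar lemma: an upward closed property of configurations which holds below every point gives a partition. -/
theorem exists_par {C : Set I} (hC : C.Countable) {P : Cfg I → Prop}
    (hP : ∀ w v : Cfg I, Ext w.u v.u → P w → P v)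
    (h : ∀ x : Pt I, ∃ w : Cfg I, sp w.u ⊆ C ∧ x ∈ Cy w.u ∧ P w) :
    ∃ π : Pt I → Cfg I, Par C π ∧ ∀ x, P (π x) := by
  classical
  -- an enumeration of `C` by finite sets
  obtain ⟨F, hF1, hF2, hF3⟩ : ∃ F : ℕ → Finset I, Monotone F ∧ (∀ n, (↑(F n) : Set I) ⊆ C) ∧
      ∀ s : Finset I, (↑s : Set I) ⊆ C → ∃ n, s ⊆ F n := by
    rcases C.eq_empty_or_nonempty with rfl | hne
    · exact ⟨fun _ => ∅, monotone_const, by simp, fun s hs => ⟨0, by
        have : s = ∅ := by simpa using hs
        rw [this]⟩⟩
    · obtain ⟨g, hg⟩ := hC.exists_eq_range hne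
      have hmono : Monotone (fun n => (Finset.range n).image g) := fun m n hmn =>
        Finset.image_subset_image (Finset.range_subset_range.2 hmn)
      refine ⟨fun n => (Finset.range n).image g, hmono, fun n a ha => ?_, fun s => ?_⟩
      · simp only [Finset.coe_image, Set.mem_image, Finset.mem_coe, Finset.mem_range] at ha
        obtain ⟨m, -, rfl⟩ := ha
        rw [hg]; exact ⟨m, rfl⟩
      · induction s using Finset.induction_on with
        | empty => exact fun _ => ⟨0, by simp⟩
        | insert a s _ ih =>
          intro hs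
          obtain ⟨n, hn⟩ := ih fun b hb => hs (by simp [Finset.mem_coe.1 hb])
          have ha : a ∈ C := hs (by simp)
          rw [hg] at ha
          obtain ⟨m, rfl⟩ := ha
          refine ⟨max n (m + 1), Finset.insert_subset ?_ (hn.trans (hmono (le_max_left _ _)))⟩
          exact hmono (le_max_right _ _) (Finset.mem_image.2 ⟨m, by simp, rfl⟩)
  have hex : ∀ x : Pt I, ∃ n, P (Cfg.of (F n) n x) := by
    intro x
    obtain ⟨w, hw1, hw2, hw3⟩ := h x
    obtain ⟨n, hn⟩ := hF3 w.fin.toFinset (by simpa using hw1)
    obtain ⟨m, hm⟩ := w.exists_len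
    refine ⟨max n m, hP w _ (fun a => ?_) hw3⟩
    by_cases ha : w.u a = []
    · rw [ha]; exact List.nil_prefix
    · have haF : a ∈ F (max n m) := hF1 (le_max_left n m) (hn (by simpa [sp] using ha))
      simp only [Cfg.of, haF, if_true]
      exact (hw2 a).pfx (pf_tk _ _) (by simpa using (hm a).trans (le_max_right _ _))
  refine ⟨fun x => Cfg.of (F (Nat.find (hex x))) (Nat.find (hex x)) x, ⟨fun x => ?_, fun x => Cfg.mem_of _ _ x,
    fun x y hy => ?_⟩, fun x => Nat.find_spec (hex x)⟩
  · exact (Cfg.of_sp _ _ _).trans (hF2 _)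
  · -- the configurations of `x` and `y` agree up to `N`
    have hag := Cfg.ag_of hy
    have heq : ∀ m ≤ Nat.find (hex x), Cfg.of (F m) m y = Cfg.of (F m) m x := by
      intro m hm
      have : (Cfg.of (F m) m y).u = (Cfg.of (F m) m x).u := by
        funext a
        by_cases ha : a ∈ F m
        · simp only [Cfg.of, ha, if_true]
          exact tk_congr fun i hi => hag a (hF1 hm ha) i (hi.trans_le hm)
        · simp only [Cfg.of, ha, if_false]
      generalize Cfg.of (F m) m y = p at this
      generalize Cfg.of (F m) m x = q at this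
      cases p; cases q; simp only at this; subst this; rfl
    have hN : Nat.find (hex y) = Nat.find (hex x) := by
      apply (Nat.find_eq_iff (hex y)).2
      refine ⟨?_, fun m hm => ?_⟩
      · rw [heq _ le_rfl]; exact Nat.find_spec (hex x)
      · rw [heq m hm.le]; exact Nat.find_min (hex x) hm
    show Cfg.of (F (Nat.find (hex y))) (Nat.find (hex y)) y = _
    rw [hN, heq _ le_rfl]

/-! ### Names -/

/-- `q` is a name of a sequence, with countable support in `A` -/
def IsNm {β : Type*} (A : Set I) (q : Pt I → ℕ → β) : Prop :=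
  ∃ C : Set I, C.Countable ∧ C ⊆ A ∧ ∀ n, LC C (fun x => q x n)

end Pool.Agent.Mil
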