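import Mathlib
import Pool.Agent.Lib.Mil.Cfg

/-!
# Codes of finite sequences, fixed nodes, pieces

`cd : List ℕ → ℕ` is a bijection with `cd s < cd (s ++ [k])`, increasing in `k`. So `{s | cd s < N}` is a finite tree
with `N` elements. `Fix F N φ` : at the coordinates in `F`, the map `φ` fixes the nodes with code `< N`.
A piece `(s, k)`: `cd s < N ≤ cd (s ++ [k])`; for `1 ≤ N` the pieces give a partition of `ℕ → ℕ`.
-/

set_option autoImplicit false
set_option linter.unusedSectionVars false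

namespace Pool.Agent.Mil

/-- the code of a finite sequence -/
def cd (s : List ℕ) : ℕ := Encodable.encode s.reverse

theorem cd_inj : Function.Injective cd := fun _ _ h =>
  List.reverse_injective (Encodable.encode_injective h)

/-- the finite sequence with a given code -/
def uncd (n : ℕ) : List ℕ := (Denumerable.ofNat (List ℕ) n).reverse

@[simp] theorem cd_uncd (n : ℕ) : cd (uncd n) = n := by simp [cd, uncd]

@[simp] theorem uncd_cd (s : List ℕ) : uncd (cd s) = s := by simp [cd, uncd]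

theorem cd_append (s : List ℕ) (k : ℕ) : cd (s ++ [k]) = (Nat.pair k (cd s)).succ := by
  simp [cd]

theorem cd_lt (s : List ℕ) (k : ℕ) : cd s < cd (s ++ [k]) := by
  rw [cd_append]; exact Nat.lt_succ_of_le (Nat.right_le_pair _ _)

theorem cd_mono (s : List ℕ) : StrictMono (fun k => cd (s ++ [k])) := by
  intro k l hkl
  simp only [cd_append]
  exact Nat.succ_lt_succ (Nat.pair_lt_pair_left _ hkl)

theorem le_cd (s : List ℕ) (k : ℕ) : k ≤ cd (s ++ [k]) := (cd_mono s).le_apply

@[simp] theorem cd_nil : cd [] = 0 := by simp [cd]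

theorem cd_le_of_pfx {s t : List ℕ} (h : s <+: t) : cd s ≤ cd t := by
  obtain ⟨r, rfl⟩ := h
  induction r using List.reverseRecOn with
  | nil => simp
  | append_singleton r k ih => rw [← List.append_assoc]; exact ih.trans (cd_lt _ _).le

theorem length_le_cd (s : List ℕ) : s.length ≤ cd s := by
  induction s using List.reverseRecOn with
  | nil => simp
  | append_singleton r k ih =>
    have := cd_lt r k
    simp only [List.length_append, List.length_singleton]; omega

/-- `(s, k)` is a piece of level `N` -/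
def Piece (N : ℕ) (s : List ℕ) (k : ℕ) : Prop := cd s < N ∧ N ≤ cd (s ++ [k])

theorem exists_piece {N : ℕ} (hN : 0 < N) {t : List ℕ} (ht : N ≤ cd t) :
    ∃ s k, Piece N s k ∧ s ++ [k] <+: t := by
  induction t using List.reverseRecOn with
  | nil => simp at ht; omega
  | append_singleton r k ih =>
    by_cases hr : cd r < N
    · exact ⟨r, k, ⟨hr, ht⟩, List.prefix_rfl⟩
    · obtain ⟨s, l, h1, h2⟩ := ih (not_lt.1 hr)
      exact ⟨s, l, h1, h2.trans (List.prefix_append _ _)⟩

theorem Piece.unique {N : ℕ} {s s' : List ℕ} {k k' : ℕ} (h : Piece N s k) (h' : Piece N s' k')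
    {t : List ℕ} (ht : s ++ [k] <+: t) (ht' : s' ++ [k'] <+: t) : s = s' ∧ k = k' := by
  have key : ∀ {s s' : List ℕ} {k k' : ℕ}, Piece N s k → Piece N s' k' → s ++ [k] <+: t → s' ++ [k'] <+: t →
      s.length ≤ s'.length → s = s' ∧ k = k' := by
    intro s s' k k' h h' ht ht' hl
    have h1 : s ++ [k] <+: s' ++ [k'] := List.prefix_of_prefix_length_le ht ht' (by simpa using hl)
    rcases List.prefix_concat_iff.1 h1 with h2 | h2
    · simpa using h2
    · have := cd_le_of_pfx h2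
      have h3 := h.2; have h4 := h'.1; omega
  rcases le_total s.length s'.length with hl | hl
  · exact key h h' ht ht' hl
  · obtain ⟨h1, h2⟩ := key h' h ht' ht hl
    exact ⟨h1.symm, h2.symm⟩

theorem exists_piece_fun {N : ℕ} (hN : 0 < N) (y : ℕ → ℕ) : ∃ s k, Piece N s k ∧ Pf (s ++ [k]) y := by
  have h : N ≤ cd (tk y N) := by simpa using length_le_cd (tk y N)
  obtain ⟨s, k, h1, h2⟩ := exists_piece hN h
  exact ⟨s, k, h1, (pf_tk y N).of_prefix h2⟩

theorem Piece.unique_fun {N : ℕ} {s s' : List ℕ} {k k' : ℕ} (h : Piece N s k) (h' : Piece N s' k')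
    {y : ℕ → ℕ} (ht : Pf (s ++ [k]) y) (ht' : Pf (s' ++ [k']) y) : s = s' ∧ k = k' := by
  refine h.unique h' (t := tk y (max (s ++ [k]).length (s' ++ [k']).length)) ?_ ?_
  · exact ht.pfx (pf_tk _ _) (by simp)
  · exact ht'.pfx (pf_tk _ _) (by simp)

theorem Piece.of_le {N : ℕ} {s : List ℕ} {k l : ℕ} (h : Piece N s k) (hl : k ≤ l) : Piece N s l :=
  ⟨h.1, h.2.trans ((cd_mono s).monotone hl)⟩

/-- the first node of `t` with code `≥ N` is `s ++ [k]`, `(s, k) = pce N t`  -/
noncomputable def pce (N : ℕ) (t : List ℕ) : List ℕ × ℕ :=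
  open Classical in if h : ∃ p : List ℕ × ℕ, Piece N p.1 p.2 ∧ p.1 ++ [p.2] <+: t then h.choose else ([], 0)

theorem pce_eq {N : ℕ} {s : List ℕ} {k : ℕ} (h : Piece N s k) {t : List ℕ} (ht : s ++ [k] <+: t) :
    pce N t = (s, k) := by
  have hex : ∃ p : List ℕ × ℕ, Piece N p.1 p.2 ∧ p.1 ++ [p.2] <+: t := ⟨(s, k), h, ht⟩
  rw [pce, dif_pos hex]
  obtain ⟨h1, h2⟩ := hex.choose_spec
  obtain ⟨h3, h4⟩ := h1.unique h h2 ht
  exact Prod.ext h3 h4

/-- the nodes with code `< N` are fixed, above the piece `(s, k)` the map is given by `g s k` -/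
noncomputable def glu (N : ℕ) (g : List ℕ → ℕ → List ℕ → List ℕ) (t : List ℕ) : List ℕ :=
  if cd t < N then t else g (pce N t).1 (pce N t).2 (t.drop ((pce N t).1.length + 1))

theorem glu_lt {N : ℕ} {g : List ℕ → ℕ → List ℕ → List ℕ} {t : List ℕ} (h : cd t < N) : glu N g t = t := by
  rw [glu, if_pos h]

theorem glu_piece {N : ℕ} {g : List ℕ → ℕ → List ℕ → List ℕ} {s : List ℕ} {k : ℕ} (h : Piece N s k)
    (r : List ℕ) : glu N g (s ++ [k] ++ r) = g s k r := by
  have h1 : s ++ [k] <+: s ++ [k] ++ r := List.prefix_append _ _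
  have h2 : ¬ cd (s ++ [k] ++ r) < N := not_lt.2 (h.2.trans (cd_le_of_pfx h1))
  rw [glu, if_neg h2, pce_eq h h1]
  simp

theorem glu_piece' {N : ℕ} {g : List ℕ → ℕ → List ℕ → List ℕ} {s : List ℕ} {k : ℕ} (h : Piece N s k) :
    glu N g (s ++ [k]) = g s k [] := by
  simpa using glu_piece (g := g) h []

/-- the glued map is again of the right form -/
theorem glu_stp {N : ℕ} (hN : 0 < N) {g : List ℕ → ℕ → List ℕ → List ℕ} (hg : ∀ s k, Piece N s k → Stp (g s k))
    (hj : ∀ s, cd s < N → ∃ j : ℕ → ℕ, StrictMono j ∧ (∀ k, cd (s ++ [k]) < N → j k = k) ∧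
      ∀ k, Piece N s k → s ++ [j k] <+: g s k []) : Stp (glu N g) := by
  intro t
  by_cases ht : cd t < N
  · obtain ⟨j, h1, h2, h3⟩ := hj t ht
    refine ⟨j, h1, fun k => ?_⟩
    rw [glu_lt ht]
    by_cases hk : cd (t ++ [k]) < N
    · rw [glu_lt hk, h2 k hk]
    · rw [glu_piece' ⟨ht, not_lt.1 hk⟩]
      exact h3 k ⟨ht, not_lt.1 hk⟩
  · obtain ⟨s, k, hp, r, rfl⟩ := exists_piece hN (not_lt.1 ht)
    obtain ⟨j, h1, h2⟩ := hg s k hp r
    refine ⟨j, h1, fun l => ?_⟩
    rw [glu_piece hp, List.append_assoc (s ++ [k]), glu_piece hp]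
    exact h2 l

section
variable {I : Type} [LinearOrder I]

/-- the nodes with code `< N` are fixed at the coordinates in `F` -/
def Fix (F : Finset I) (N : ℕ) (φ : Gam I) : Prop := ∀ a ∈ F, ∀ x s, cd s < N → φ.e a x s = s

theorem Fix.one (F : Finset I) (N : ℕ) : Fix F N (1 : Gam I) := fun _ _ _ _ _ => rfl

theorem Fix.mono {F F' : Finset I} {N N' : ℕ} {φ : Gam I} (h : Fix F' N' φ) (hF : F ⊆ F') (hN : N ≤ N') :
    Fix F N φ := fun a ha x s hs => h a (hF ha) x s (hs.trans_le hN)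

theorem Fix.mul {F : Finset I} {N : ℕ} {φ ψ : Gam I} (h : Fix F N φ) (h' : Fix F N ψ) : Fix F N (φ * ψ) := by
  intro a ha x s hs
  rw [Gam.mul_e, h' a ha x s hs, h a ha _ s hs]

theorem Fix.rs {F : Finset I} {N : ℕ} {φ : Gam I} (h : Fix F N φ) (A : Set I) : Fix F N (Gam.rs A φ) := by
  intro a ha x s hs
  by_cases hA : a ∈ A
  · rw [Gam.rs_e_mem _ hA, h a ha x s hs]
  · rw [Gam.rs_e_notMem _ hA]

theorem Fix.empty (N : ℕ) (φ : Gam I) : Fix ∅ N φ := fun a ha => absurd ha (Finset.notMem_empty a)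

end

end Pool.Agent.Mil
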