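import Mathlib
import Pool.Agent.Lib.Mil.Cd

/-!
# Mil.Fus (size 200): limits of fusion sequences

Data: `φ n : Gam I` with countable supports `C n`, finite sets `F n` (increasing) which exhaust all supports, numbers
`N n` (increasing, `n ≤ N n`), `φ n` fixes the nodes with code `< N n` at the coordinates in `F n`. Then the infinite
products `g n = φ n * φ (n+1) * ...` exist.

Proof. Let `T = ⋃ n, C n` (countable) and `Φ j m = φ j * φ (j+1) * ... * φ (m-1)` (`Φ j j = 1`; define
`Φ j m = (List.range' j (m - j)).map φ |>.prod` or `Nat.rec` on `m - j`; needed: `Φ j (m+1) = Φ j m * φ m` for `j ≤ m`,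
`Φ j m = φ j * Φ (j+1) m` for `j < m`).
For `a ∈ T` and `s : List ℕ` let `st a s` be the least `m` with `a ∈ F m` and `cd s < N m`; for all `m ≥ st a s` the map
`φ m` fixes `s` at `a`: `(φ m).e a x s = s`.
Definition by well-founded recursion on `a : I` (for all `j, x, s` simultaneously):
`G a j x s = s` if `a ∉ T`; `G a j x s = (Φ j m).e a y s` if `a ∈ T`, where `m = max j (st a s)` and `y b = lm (G b m x) (x b)` for
`b < a` (`y b` arbitrary, e.g. `x b`, for `b ≥ a`).
Put `gp j x : Pt I := fun b => lm (G b j x) (x b)`. By `Gam.congr`: `G a j x s = (Φ j m).e a (gp m x) s` for `m = max j (st a s)`.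
Claims, proved together by well-founded induction on `a` (`a ∈ T`; the case `a ∉ T` is trivial as `(φ n).e a x s = s`):
(1) for ALL `m ≥ max j (st a s)`: `G a j x s = (Φ j m).e a (gp m x) s`. Induction on `m`: `Φ j (m+1) = Φ j m * φ m`,
    `(Φ j (m+1)).e a (gp (m+1) x) s = (Φ j m).e a ((φ m).mp (gp (m+1) x)) ((φ m).e a _ s) = (Φ j m).e a (gp m x) s`, because
    `(φ m).e a _ s = s` and `(φ m).mp (gp (m+1) x) b = gp m x b` for `b < a`, which is the consequence (4) for `b`.
(2) `Stp (G a j x)`: given `s`; for every `k` take `m ≥ max j (st a (s ++ [k])), max j (st a s)`; then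
    `G a j x s = (Φ j m).e a (gp m x) s` and `G a j x (s ++ [k]) = (Φ j m).e a (gp m x) (s ++ [k])`, so with the function `i_m` given by
    `(Φ j m).stp a (gp m x) s`: `G a j x s ++ [i_m k] <+: G a j x (s ++ [k])`. Let `i k` be the entry of `G a j x (s ++ [k])` at the
    position `(G a j x s).length`; so `i k = i_m k` for all large `m` (depending on `k`); for `k < k'` use a common `m`:
    `i k = i_m k < i_m k' = i k'`.
(3) `LC (T ∩ Iio a) (fun x => G a j x s)`: `(Φ j m).e a · s` is `LC ((⋃ i < m, C i) ∩ Iio a)` (`Gam.Spt.mul`), and the coordinates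
    `gp m x b i`, `b ∈ T ∩ Iio a`, are `LC ((T ∩ Iio b) ∪ {b})` by induction (as in `Gam.Spt.lc_mp`); `LC.comp`.
(4) `G a j x s = (φ j).e a (gp (j+1) x) (G a (j+1) x s)`: take `m` large in (1) for `(j, s)` and `(j+1, s)`; `Φ j m = φ j * Φ (j+1) m`:
    `(Φ j m).e a (gp m x) s = (φ j).e a ((Φ (j+1) m).mp (gp m x)) ((Φ (j+1) m).e a (gp m x) s)`, and `(Φ (j+1) m).mp (gp m x) b = gp (j+1) x b` for
    `b < a` (from (4) for `b`, iterated: by induction on `m`, `(Φ i m).mp (gp m x) b = gp i x b` for `i ≤ m`; `lm_comp`).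
    Hence `gp j x a = (φ j).mp (gp (j+1) x) a` by `lm_comp`.
Then `g j := ⟨fun a x s => G a j x s, ...⟩` with support `T`, `(g j).mp x = gp j x`, `g j = φ j * g (j+1)` by (4).
`Fix (F j) (N j) (g j)`: if `a ∈ F j`, `cd s < N j`: for `a ∉ T` trivial; else `st a s ≤ j`, so `m = j` in (1), `Φ j j = 1`.
`In A`: if all `φ n` are trivial at `a` then `(Φ j m).e a x s = s`, so `G a j x s = s`.
-/

set_option autoImplicit false
set_option linter.unusedSectionVars false

namespace Pool.Agent.Mil

variable {I : Type} [LinearOrder I] [WellFoundedLT I]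

private noncomputable def fus_P (φ : ℕ → Gam I) (j : ℕ) : ℕ → Gam I
  | 0 => 1
  | k + 1 => fus_P φ j k * φ (j + k)

omit [WellFoundedLT I] in
private theorem fus_P_succ (φ : ℕ → Gam I) (j k : ℕ) : fus_P φ j (k + 1) = φ j * fus_P φ (j + 1) k := by
  induction k with
  | zero => simp [fus_P]
  | succ k ih =>
    have e : j + (k + 1) = j + 1 + k := by omega
    rw [fus_P, ih, mul_assoc, fus_P, e]

omit [WellFoundedLT I] in
private theorem fus_P_fix (φ : ℕ → Gam I) {a : I} {s : List ℕ} {j : ℕ}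
    (h : ∀ i, j ≤ i → ∀ y, (φ i).e a y s = s) (k : ℕ) (y : Pt I) : (fus_P φ j k).e a y s = s := by
  induction k generalizing y with
  | zero => rfl
  | succ k ih => rw [fus_P, Gam.mul_e, h (j + k) (Nat.le_add_right _ _), ih]

omit [WellFoundedLT I] in
private theorem fus_P_spt {φ : ℕ → Gam I} {C : ℕ → Set I} (hφ : ∀ n, (φ n).Spt (C n)) (j k : ℕ) :
    (fus_P φ j k).Spt (⋃ m, C m) := by
  induction k with
  | zero => exact Gam.Spt.one.mono (Set.empty_subset _)
  | succ k ih => exact (ih.mul (hφ (j + k))).mono (Set.union_subset subset_rfl (Set.subset_iUnion C (j + k)))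

private noncomputable def fus_G (φ : ℕ → Gam I) (st : I → List ℕ → ℕ) (a : I) : ℕ → Pt I → List ℕ → List ℕ :=
  (wellFounded_lt (α := I)).fix (C := fun _ => ℕ → Pt I → List ℕ → List ℕ)
    (fun a rec j x s => (fus_P φ j (st a s)).e a
      (fun b => if h : b < a then lm (rec b h (j + st a s) x) (x b) else x b) s) a

private noncomputable def fus_X (φ : ℕ → Gam I) (st : I → List ℕ → ℕ) (j : ℕ) (x : Pt I) : Pt I :=
  fun b => lm (fus_G φ st b j x) (x b)

private theorem fus_G_eq (φ : ℕ → Gam I) (st : I → List ℕ → ℕ) (a : I) (j : ℕ) (x : Pt I) (s : List ℕ) :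
    fus_G φ st a j x s = (fus_P φ j (st a s)).e a (fus_X φ st (j + st a s) x) s := by
  rw [fus_G, WellFounded.fix_eq]
  apply Gam.congr
  intro b hb
  rw [dif_pos hb]
  rfl

/-- the claims for the coordinate `a` -/
private structure fus_Cl (φ : ℕ → Gam I) (C : ℕ → Set I) (st : I → List ℕ → ℕ) (a : I) : Prop where
  stp : ∀ j x, Stp (fus_G φ st a j x)
  pt : ∀ j x, fus_X φ st j x a = (φ j).mp (fus_X φ st (j + 1) x) a
  lc : ∀ j s, LC ((⋃ m, C m) ∩ Set.Iio a) fun x => fus_G φ st a j x s
  one : ∀ j x s k, st a s ≤ j + k → fus_G φ st a j x s = (fus_P φ j k).e a (fus_X φ st (j + k) x) s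
  four : ∀ j x s, fus_G φ st a j x s = (φ j).e a (fus_X φ st (j + 1) x) (fus_G φ st a (j + 1) x s)

omit [WellFoundedLT I] in
private theorem fus_get {l t : List ℕ} {c : ℕ} (h : l ++ [c] <+: t) : (t[l.length]?).getD 0 = c := by
  obtain ⟨r, rfl⟩ := h
  simp

private theorem fus_all {φ : ℕ → Gam I} {C : ℕ → Set I} (hφ : ∀ n, (φ n).Spt (C n)) {st : I → List ℕ → ℕ}
    (hst : ∀ a s m, st a s ≤ m → ∀ x, (φ m).e a x s = s) (a : I) : fus_Cl φ C st a := by
  induction a using WellFoundedLT.induction with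
  | ind a ih =>
    -- iteration below `a`
    have hit : ∀ (j k : ℕ) (x : Pt I) (b : I), b < a →
        (fus_P φ j k).mp (fus_X φ st (j + k) x) b = fus_X φ st j x b := by
      intro j k x
      induction k with
      | zero => intro b _; rw [fus_P, Gam.one_mp, Nat.add_zero]
      | succ k ihk =>
        intro b hb
        rw [fus_P, Gam.mul_mp, ← ihk b hb]
        apply Gam.mp_congr
        intro c hc
        exact ((ih c (lt_of_le_of_lt hc hb)).pt (j + k) x).symm
    have hstep : ∀ (j : ℕ) (x : Pt I) (s : List ℕ) (k : ℕ), st a s ≤ j + k →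
        (fus_P φ j (k + 1)).e a (fus_X φ st (j + (k + 1)) x) s = (fus_P φ j k).e a (fus_X φ st (j + k) x) s := by
      intro j x s k hk
      rw [fus_P, Gam.mul_e, hst a s (j + k) hk]
      apply Gam.congr
      intro b hb
      exact ((ih b hb).pt (j + k) x).symm
    have hconst : ∀ (j : ℕ) (x : Pt I) (s : List ℕ) (k d : ℕ), st a s ≤ j + k →
        (fus_P φ j (k + d)).e a (fus_X φ st (j + (k + d)) x) s = (fus_P φ j k).e a (fus_X φ st (j + k) x) s := by
      intro j x s k d hk
      induction d with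
      | zero => rfl
      | succ d ihd => rw [← ihd, ← Nat.add_assoc k d 1]; exact hstep j x s (k + d) (by omega)
    have h1 : ∀ j x s k, st a s ≤ j + k →
        fus_G φ st a j x s = (fus_P φ j k).e a (fus_X φ st (j + k) x) s := by
      intro j x s k hk
      rw [fus_G_eq]
      rcases le_total k (st a s) with h | h
      · obtain ⟨d, hd⟩ := Nat.exists_eq_add_of_le h
        rw [hd]
        exact hconst j x s k d hk
      · obtain ⟨d, hd⟩ := Nat.exists_eq_add_of_le h
        rw [hd]
        exact (hconst j x s (st a s) d (Nat.le_add_left _ _)).symm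
    have h2 : ∀ j x, Stp (fus_G φ st a j x) := by
      intro j x s
      have key : ∀ n n', ∃ i' : ℕ → ℕ, StrictMono i' ∧ fus_G φ st a j x s ++ [i' n] <+: fus_G φ st a j x (s ++ [n]) ∧
          fus_G φ st a j x s ++ [i' n'] <+: fus_G φ st a j x (s ++ [n']) := by
        intro n n'
        obtain ⟨i', hi1, hi2⟩ := (fus_P φ j (st a s + st a (s ++ [n]) + st a (s ++ [n']))).stp a
          (fus_X φ st (j + (st a s + st a (s ++ [n]) + st a (s ++ [n']))) x) s
        refine ⟨i', hi1, ?_, ?_⟩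
        · have h := hi2 n
          rwa [← h1 j x s _ (by omega), ← h1 j x (s ++ [n]) _ (by omega)] at h
        · have h := hi2 n'
          rwa [← h1 j x s _ (by omega), ← h1 j x (s ++ [n']) _ (by omega)] at h
      refine ⟨fun n => ((fus_G φ st a j x (s ++ [n]))[(fus_G φ st a j x s).length]?).getD 0, ?_, ?_⟩
      · intro n n' hn
        obtain ⟨i', hi1, hi2, hi3⟩ := key n n'
        show ((fus_G φ st a j x (s ++ [n]))[(fus_G φ st a j x s).length]?).getD 0 <
          ((fus_G φ st a j x (s ++ [n']))[(fus_G φ st a j x s).length]?).getD 0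
        rw [fus_get hi2, fus_get hi3]
        exact hi1 hn
      · intro n
        obtain ⟨i', hi1, hi2, -⟩ := key n n
        show fus_G φ st a j x s ++ [((fus_G φ st a j x (s ++ [n]))[(fus_G φ st a j x s).length]?).getD 0] <+: _
        rw [fus_get hi2]
        exact hi2
    have h4 : ∀ j x s, fus_G φ st a j x s =
        (φ j).e a (fus_X φ st (j + 1) x) (fus_G φ st a (j + 1) x s) := by
      intro j x s
      have e : j + (st a s + 1) = j + 1 + st a s := by omega
      rw [h1 j x s (st a s + 1) (by omega), fus_P_succ, Gam.mul_e, e,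
        ← h1 (j + 1) x s (st a s) (by omega)]
      apply Gam.congr
      intro b hb
      exact hit (j + 1) (st a s) x b hb
    refine ⟨h2, ?_, ?_, h1, h4⟩
    · intro j x
      have e1 : fus_G φ st a j x = fun s => (φ j).e a (fus_X φ st (j + 1) x) (fus_G φ st a (j + 1) x s) :=
        funext fun s => h4 j x s
      show lm (fus_G φ st a j x) (x a) = lm ((φ j).e a (fus_X φ st (j + 1) x)) (lm (fus_G φ st a (j + 1) x) (x a))
      rw [lm_comp ((φ j).stp a _) (h2 (j + 1) x), ← e1]
    · intro j s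
      have e1 : (fun x => fus_G φ st a j x s) =
          fun x => (fus_P φ j (st a s)).e a (fus_X φ st (j + st a s) x) s :=
        funext fun x => fus_G_eq φ st a j x s
      rw [e1]
      refine ((fus_P_spt hφ j (st a s)).lc a s).comp (T := fus_X φ st (j + st a s)) ?_
      rintro b ⟨hb1, hb2⟩ i
      have e2 : LC ((⋃ m, C m) ∩ Set.Iio a) (fun x : Pt I => tk (x b) (i + 1)) :=
        LC.tk (show b ∈ (⋃ m, C m) ∩ Set.Iio a from ⟨hb1, hb2⟩) _
      refine LC.local e2 (fun t x => ((fus_G φ st b (j + st a s) x t)[i]?).getD 0) (fun t => ?_) fun x => rfl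
      refine (((ih b hb2).lc (j + st a s) t).mono ?_).comp₁ fun l => (l[i]?).getD 0
      rintro c ⟨hc1, hc2⟩
      exact ⟨hc1, lt_trans hc2 hb2⟩

theorem exists_fusion (φ : ℕ → Gam I) (C : ℕ → Set I) (hC : ∀ n, (C n).Countable) (hφ : ∀ n, (φ n).Spt (C n))
    (F : ℕ → Finset I) (hF : Monotone F) (N : ℕ → ℕ) (hN : Monotone N) (hN' : ∀ n, n ≤ N n)
    (hfix : ∀ n, Fix (F n) (N n) (φ n)) (hcov : ∀ n, ∀ a ∈ C n, ∃ m, a ∈ F m) :
    ∃ g : ℕ → Gam I, (∀ n, g n = φ n * g (n + 1)) ∧ (∀ n, Fix (F n) (N n) (g n)) ∧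
      (∀ n, (g n).Spt (⋃ m, C m)) ∧ ∀ A : Set I, (∀ n, (φ n).In A) → ∀ n, (g n).In A := by
  classical
  have hex : ∀ (a : I) (s : List ℕ), ∃ m0, ∀ m, m0 ≤ m → ∀ x, (φ m).e a x s = s := by
    intro a s
    by_cases ha : a ∈ ⋃ m, C m
    · obtain ⟨n, hn⟩ := Set.mem_iUnion.1 ha
      obtain ⟨m1, hm1⟩ := hcov n a hn
      refine ⟨max m1 (cd s + 1), fun m hm x => ?_⟩
      refine hfix m a (hF ((le_max_left _ _).trans hm) hm1) x s ?_
      have h1 := (le_max_right m1 (cd s + 1)).trans hm
      have h2 := hN' m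
      omega
    · refine ⟨0, fun m _ x => (hφ m).off a (fun h => ha (Set.mem_iUnion.2 ⟨m, h⟩)) x s⟩
  choose st hst using hex
  have hcl := fus_all hφ (st := st) hst
  have hoff : ∀ n, ∀ a ∉ ⋃ m, C m, ∀ x s, fus_G φ st a n x s = s := by
    intro n a ha x s
    rw [fus_G_eq]
    exact (fus_P_spt hφ n (st a s)).off a ha _ s
  have hspt : ∀ n, (∀ a ∉ ⋃ m, C m, ∀ x s, fus_G φ st a n x s = s) ∧
      ∀ a s, LC ((⋃ m, C m) ∩ Set.Iio a) (fun x => fus_G φ st a n x s) :=
    fun n => ⟨hoff n, fun a s => (hcl a).lc n s⟩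
  let g : ℕ → Gam I := fun n => ⟨fun a x s => fus_G φ st a n x s, fun a x => (hcl a).stp n x,
    ⋃ m, C m, Set.countable_iUnion hC, (hspt n).1, (hspt n).2⟩
  refine ⟨g, ?_, ?_, ?_, ?_⟩
  · intro n
    apply Gam.ext
    funext a x s
    exact (hcl a).four n x s
  · intro n a ha x s hs
    show fus_G φ st a n x s = s
    rw [fus_G_eq]
    exact fus_P_fix φ (fun i hi y => hfix i a (hF hi ha) y s (hs.trans_le (hN hi))) _ _
  · intro n
    exact ⟨(hspt n).1, (hspt n).2⟩
  · intro A hA n a ha x s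
    show fus_G φ st a n x s = s
    rw [fus_G_eq]
    exact fus_P_fix φ (fun i _ y => hA i a ha y s) _ _

end Pool.Agent.Mil
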