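import Mathlib
import Pool.Agent.Lib.Mil.Fus

/-!
# Mil.FusB (size 130): fusion with bookkeeping

`P n F θ φ` is a requirement for the `n`-th step: `F` is the current finite set of coordinates, `θ = φ 0 * ... * φ (n-1)`.
If every requirement can be satisfied by some `φ` with `Fix F (N0 + n) φ`, there is a fusion sequence with a limit, in which the
finite sets grow by at most one element per step.

Proof. Build by recursion a sequence of states `(F, θ, list of chosen enumerations)`. State at step `n`: the finite set `F n`, `θ n : Gam I`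
(`In A`), the maps `φ 0, ..., φ (n-1)`. Step: choose `φ n` by the hypothesis. For the bookkeeping choose for every `φ : Gam I` with
`φ.In A` a function `en φ : ℕ → Option I` (or use `F0` empty / `C = ∅` separately) whose values are exactly the elements of a
countable support of `φ` contained in `A` (`Gam.exists_spt`, `Gam.Spt.inter`, `Set.Countable.exists_eq_range` or
`Set.Countable` → `∃ f : ℕ → Option I, ∀ a, a ∈ C ↔ ∃ i, f i = some a`). With `n = Nat.pair j i` (`Nat.unpair n = (j, i)`, `j ≤ n`)
put `F (n+1) = F n ∪ {a}` if `en (φ j) i = some a`, and `F (n+1) = F n` otherwise. So every element `a` of the support of `φ j` lies in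
`F (n+1)` for `n = Nat.pair j i`. Convenient: state = `(F : Finset I) × (φs : ℕ → Gam I) × (θ : Gam I)` where only the values
`φs m`, `m < n`, matter, or a `List (Gam I)`; the element added at step `n` depends on `φs j` with `j ≤ n` (so add the new element AFTER the choice
of `φ n`).
Then `exists_fusion` with `C n` = the chosen support, `N n = N0 + n`; `g 0 = θ n * g n` by induction from `g n = φ n * g (n+1)` and
`θ (n+1) = θ n * φ n`.
-/

set_option autoImplicit false
set_option linter.unusedSectionVars false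

namespace Pool.Agent.Mil

variable {I : Type} [LinearOrder I] [WellFoundedLT I]

/-- a fusion sequence in `A` with all data -/
structure FSeq (A : Set I) (F0 : Finset I) (N0 : ℕ) (P : ℕ → Finset I → Gam I → Gam I → Prop) where
  F : ℕ → Finset I
  φ : ℕ → Gam I
  θ : ℕ → Gam I
  g : ℕ → Gam I
  mono : Monotone F
  F_zero : F 0 = F0
  card : ∀ n, (F n).card ≤ F0.card + n
  sub : ∀ n, (↑(F n) : Set I) ⊆ A
  θ_zero : θ 0 = 1
  θ_succ : ∀ n, θ (n + 1) = θ n * φ n
  θ_in : ∀ n, (θ n).In A
  φ_in : ∀ n, (φ n).In A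
  g_in : ∀ n, (g n).In A
  φ_fix : ∀ n, Fix (F n) (N0 + n) (φ n)
  g_fix : ∀ n, Fix (F n) (N0 + n) (g n)
  g_eq : ∀ n, g n = φ n * g (n + 1)
  g_zero : ∀ n, g 0 = θ n * g n
  req : ∀ n, P n (F n) (θ n) (φ n)

theorem FSeq.F0_sub {A : Set I} {F0 : Finset I} {N0 : ℕ} {P : ℕ → Finset I → Gam I → Gam I → Prop}
    (S : FSeq A F0 N0 P) (n : ℕ) : F0 ⊆ S.F n := by
  exact S.F_zero.symm.subset.trans (S.mono (Nat.zero_le n))

/-- a state of the construction -/
private structure fusb_St (A : Set I) (F0 : Finset I) (n : ℕ) where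
  F : Finset I
  θ : Gam I
  φs : ℕ → Gam I
  h1 : (↑F : Set I) ⊆ A
  h2 : F0 ⊆ F
  h3 : F.card ≤ F0.card + n
  h4 : θ.In A

omit [WellFoundedLT I] in
private theorem fusb_enum {A : Set I} (hA : IsLowerSet A) (φ : Gam I) :
    ∃ (C : Set I) (en : ℕ → Option I), C.Countable ∧ (φ.In A → φ.Spt C) ∧ C ⊆ A ∧
      ∀ a, a ∈ C ↔ ∃ i, en i = some a := by
  obtain ⟨C, hc, hC⟩ := φ.exists_spt
  have hc' : (C ∩ A).Countable := hc.mono Set.inter_subset_left
  have h : ∃ en : ℕ → Option I, ∀ a, a ∈ C ∩ A ↔ ∃ i, en i = some a := by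
    rcases (C ∩ A).eq_empty_or_nonempty with he | hne
    · refine ⟨fun _ => none, fun a => ?_⟩
      rw [he]
      simp
    · obtain ⟨f, hf⟩ := hc'.exists_eq_range hne
      refine ⟨fun i => some (f i), fun a => ?_⟩
      rw [hf, Set.mem_range]
      simp
  obtain ⟨en, hen⟩ := h
  exact ⟨C ∩ A, en, hc', fun hφ => hC.inter hA hφ, Set.inter_subset_right, hen⟩

theorem exists_fseq {A : Set I} (hA : IsLowerSet A) (F0 : Finset I) (hF0 : (↑F0 : Set I) ⊆ A) (N0 : ℕ)
    (P : ℕ → Finset I → Gam I → Gam I → Prop)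
    (hP : ∀ (n : ℕ) (F : Finset I) (θ : Gam I), (↑F : Set I) ⊆ A → F0 ⊆ F → F.card ≤ F0.card + n → θ.In A →
      ∃ φ : Gam I, φ.In A ∧ Fix F (N0 + n) φ ∧ P n F θ φ) :
    Nonempty (FSeq A F0 N0 P) := by
  classical
  choose Cf en hCc hCs hCA hCe using fusb_enum (I := I) hA
  choose ph hph using hP
  -- the value at step `n`
  let phs : ∀ n, fusb_St A F0 n → Gam I := fun n s => ph n s.F s.θ s.h1 s.h2 s.h3 s.h4
  let upd : ∀ n, fusb_St A F0 n → ℕ → Gam I := fun n s => Function.update s.φs n (phs n s)
  let opt : ∀ n, fusb_St A F0 n → Option I := fun n s => en (upd n s n.unpair.1) n.unpair.2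
  let step : ∀ n, fusb_St A F0 n → fusb_St A F0 (n + 1) := fun n s =>
    { F := (opt n s).elim s.F (fun a => insert a s.F)
      θ := s.θ * phs n s
      φs := upd n s
      h1 := by
        cases ho : opt n s with
        | none => exact s.h1
        | some a =>
          show (↑(insert a s.F) : Set I) ⊆ A
          rw [Finset.coe_insert, Set.insert_subset_iff]
          exact ⟨hCA _ ((hCe _ a).2 ⟨_, ho⟩), s.h1⟩
      h2 := by
        cases ho : opt n s with
        | none => exact s.h2
        | some a => exact s.h2.trans (Finset.subset_insert _ _)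
      h3 := by
        cases ho : opt n s with
        | none => exact s.h3.trans (Nat.le_succ _)
        | some a =>
          refine (Finset.card_insert_le a s.F).trans ?_
          have := s.h3
          omega
      h4 := s.h4.mul (hph n s.F s.θ s.h1 s.h2 s.h3 s.h4).1 }
  let S : ∀ n, fusb_St A F0 n := fun n =>
    Nat.rec ⟨F0, 1, fun _ => 1, hF0, subset_rfl, le_rfl, Gam.in_one A⟩ step n
  have hS : ∀ n, S (n + 1) = step n (S n) := fun _ => rfl
  let F : ℕ → Finset I := fun n => (S n).F
  let φ : ℕ → Gam I := fun n => phs n (S n)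
  let θ : ℕ → Gam I := fun n => (S n).θ
  have hφ : ∀ n, (φ n).In A ∧ Fix (F n) (N0 + n) (φ n) ∧ P n (F n) (θ n) (φ n) := fun n =>
    hph n (S n).F (S n).θ (S n).h1 (S n).h2 (S n).h3 (S n).h4
  have hφs : ∀ m j, j < m → (S m).φs j = φ j := by
    intro m
    induction m with
    | zero => intro j hj; exact absurd hj (Nat.not_lt_zero _)
    | succ m ih =>
      intro j hj
      show Function.update (S m).φs m (phs m (S m)) j = φ j
      by_cases hjm : j = m
      · subst hjm
        exact Function.update_self _ _ _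
      · rw [Function.update_of_ne hjm]
        exact ih j (by omega)
  have hFs : ∀ n, F (n + 1) = (en (φ n.unpair.1) n.unpair.2).elim (F n) (fun a => insert a (F n)) := by
    intro n
    have h1 : (S (n + 1)).φs n.unpair.1 = φ n.unpair.1 :=
      hφs (n + 1) _ (Nat.lt_succ_of_le (Nat.unpair_left_le n))
    have h2 : upd n (S n) n.unpair.1 = φ n.unpair.1 := h1
    show (en (upd n (S n) n.unpair.1) n.unpair.2).elim (F n) (fun a => insert a (F n)) = _
    rw [h2]
  have hmono : Monotone F := by
    refine monotone_nat_of_le_succ fun n => ?_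
    rw [hFs n]
    cases en (φ n.unpair.1) n.unpair.2 with
    | none => exact le_rfl
    | some a => exact Finset.subset_insert _ _
  have hcov : ∀ n, ∀ a ∈ Cf (φ n), ∃ m, a ∈ F m := by
    intro n a ha
    obtain ⟨i, hi⟩ := (hCe _ a).1 ha
    refine ⟨Nat.pair n i + 1, ?_⟩
    rw [hFs, Nat.unpair_pair, hi]
    exact Finset.mem_insert_self _ _
  obtain ⟨g, hg1, hg2, -, hg4⟩ := exists_fusion φ (fun n => Cf (φ n)) (fun n => hCc _)
    (fun n => hCs _ (hφ n).1) F hmono (fun n => N0 + n) (fun _ _ h => Nat.add_le_add_left h N0)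
    (fun n => Nat.le_add_left n N0) (fun n => (hφ n).2.1) hcov
  refine ⟨⟨F, φ, θ, g, hmono, rfl, fun n => (S n).h3, fun n => (S n).h1, rfl, fun _ => rfl,
    fun n => (S n).h4, fun n => (hφ n).1, hg4 A fun n => (hφ n).1, fun n => (hφ n).2.1, hg2, hg1, ?_,
    fun n => (hφ n).2.2⟩⟩
  intro n
  induction n with
  | zero => exact (one_mul (g 0)).symm
  | succ n ih =>
    show g 0 = (θ n * φ n) * g (n + 1)
    rw [mul_assoc, ← hg1 n]
    exact ih

end Pool.Agent.Mil
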