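import Mathlib
import Pool.Agent.Lib.Mil.Cd

/-!
# Mil.One: changing one coordinate, gluing (proof in the comments)
-/

set_option autoImplicit false
set_option linter.unusedSectionVars false

namespace Pool.Agent.Mil

variable {I : Type} [LinearOrder I]

/-- Replace the coordinate `b` of `φ` by `η`. -/
theorem exists_upd {φ : Gam I} {C : Set I} (hC : C.Countable) (hφ : φ.Spt C) {b : I} (hb : b ∈ C)
    (η : Pt I → List ℕ → List ℕ) (hη : ∀ x, Stp (η x)) (hlc : ∀ s, LC (C ∩ Set.Iio b) (fun x => η x s)) :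
    ∃ ψ : Gam I, ψ.Spt C ∧ (∀ x s, ψ.e b x s = η x s) ∧ ∀ a ≠ b, ∀ x s, ψ.e a x s = φ.e a x s := by
  classical
  have hlc' : ∀ a s, LC (C ∩ Set.Iio a) (fun x => if a = b then η x s else φ.e a x s) := by
    intro a s
    by_cases h : a = b
    · subst h; simpa using hlc s
    · simpa [h] using hφ.lc a s
  have hoff : ∀ a ∉ C, ∀ x s, (if a = b then η x s else φ.e a x s) = s := by
    intro a ha x s
    rw [if_neg (by rintro rfl; exact ha hb), hφ.off a ha]
  refine ⟨⟨fun a x s => if a = b then η x s else φ.e a x s, fun a x => ?_, C, hC, hoff, hlc'⟩,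
    ⟨hoff, hlc'⟩, fun x s => ?_, fun a ha x s => ?_⟩
  · by_cases h : a = b
    · simpa [h] using hη x
    · simpa [h] using φ.stp a x
  · simp
  · simp [ha]

/-- Gluing: `φ` lives on the lower set `A`; on the cell of `π x` (a partition which depends on the coordinates in
`A`) the glued map is `ρ (π x)`. -/
theorem exists_glue {A : Set I} (hA : IsLowerSet A) {φ : Gam I} (hφ : φ.In A) {C : Set I} (hC : C.Countable)
    {π : Pt I → Cfg I} (hπ : Par (C ∩ A) π) (ρ : Cfg I → Gam I)
    (hρ : ∀ x, Gam.rs A (ρ (π x)) = φ * (π x).k) :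
    ∃ ψ : Gam I, Gam.rs A ψ = φ ∧ (∀ x, ψ * (π x).k = ρ (π x)) ∧
      ∀ A' : Set I, A ⊆ A' → (∀ x, (ρ (π x)).In A') → ψ.In A' := by
  classical
  -- supports
  choose S hS1 hS2 using fun w : Cfg I => (ρ w).exists_spt
  obtain ⟨C0, hC0, hφC0⟩ := φ.exists_spt
  let R : Set (Cfg I) := Set.range π
  have hR : R.Countable := (Cfg.countable_sp hC).mono (by
    rintro _ ⟨x, rfl⟩
    exact (hπ.sup x).trans Set.inter_subset_left)
  let T : Set I := C0 ∪ C ∪ ⋃ w ∈ R, S w
  have hT : T.Countable := (hC0.union hC).union (hR.biUnion fun w _ => hS1 w)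
  have hST : ∀ w ∈ R, S w ⊆ T := fun w hw => Set.subset_union_of_subset_right (Set.subset_biUnion_of_mem hw) _
  have hAa : ∀ a ∉ A, A ⊆ Set.Iio a := fun a ha b hb => lt_of_not_ge fun h => ha (hA h hb)
  have hunp : ∀ (w : Cfg I) (b : I) (i : ℕ) (D : Set I), b ∈ D → LC D (fun z : Pt I => unp w.u z b i) := by
    intro w b i D hb
    exact LC.coord hb _
  have hoff : ∀ a ∉ T, ∀ z s, (if a ∈ A then φ.e a z s else (ρ (π z)).e a (unp (π z).u z) s) = s := by
    intro a ha z s
    split_ifs with h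
    · exact hφC0.off a (fun h' => ha (Or.inl (Or.inl h'))) z s
    · exact (hS2 (π z)).off a (fun h' => ha (hST _ ⟨z, rfl⟩ h')) _ _
  have hlc : ∀ a s, LC (T ∩ Set.Iio a)
      (fun z => if a ∈ A then φ.e a z s else (ρ (π z)).e a (unp (π z).u z) s) := by
    intro a s
    by_cases h : a ∈ A
    · simp only [h, if_true]
      exact (hφC0.lc a s).mono (Set.inter_subset_inter_left _ fun b hb => Or.inl (Or.inl hb))
    · simp only [h, if_false]
      have h1 : LC (T ∩ Set.Iio a) π := hπ.lc.mono fun b hb => ⟨Or.inl (Or.inr hb.1), hAa a h hb.2⟩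
      intro z
      obtain ⟨F, hF, n, hn⟩ := h1 z
      have h2 : LC (T ∩ Set.Iio a) (fun y => (ρ (π z)).e a (unp (π z).u y) s) := by
        refine LC.comp ((hS2 (π z)).lc a s) (T := unp (π z).u) fun b hb i => hunp _ b i _ ?_
        exact ⟨hST _ ⟨z, rfl⟩ hb.1, hb.2⟩
      obtain ⟨F', hF', n', hn'⟩ := h2 z
      refine ⟨F ∪ F', by rw [Finset.coe_union]; exact Set.union_subset hF hF', max n n', fun y hy => ?_⟩
      have h3 := hn y (hy.mono Finset.subset_union_left (le_max_left _ _))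
      show (ρ (π y)).e a (unp (π y).u y) s = _
      rw [h3]
      exact hn' y (hy.mono Finset.subset_union_right (le_max_right _ _))
  let ψ : Gam I := ⟨fun a z s => if a ∈ A then φ.e a z s else (ρ (π z)).e a (unp (π z).u z) s, fun a z => by
    by_cases h : a ∈ A
    · simpa [h] using φ.stp a z
    · simpa [h] using (ρ (π z)).stp a _, T, hT, hoff, hlc⟩
  have hψA : ∀ a ∈ A, ∀ z s, ψ.e a z s = φ.e a z s := fun a ha z s => if_pos ha
  have hψB : ∀ a ∉ A, ∀ z s, ψ.e a z s = (ρ (π z)).e a (unp (π z).u z) s := fun a ha z s => if_neg ha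
  refine ⟨ψ, ?_, fun x => ?_, fun A' hAA' h a ha z s => ?_⟩
  · apply Gam.ext
    funext a z s
    by_cases h : a ∈ A
    · rw [Gam.rs_e_mem _ h, hψA a h]
    · rw [Gam.rs_e_notMem _ h, hφ a h]
  · apply Gam.ext
    funext a y s
    rw [Gam.mul_e, Cfg.k_mp, Cfg.k_e]
    by_cases h : a ∈ A
    · rw [hψA a h]
      have h1 := congrFun (congrFun (congrFun (congrArg Gam.e (hρ x)) a) y) s
      rw [Gam.rs_e_mem _ h, Gam.mul_e, Cfg.k_mp, Cfg.k_e] at h1
      exact h1.symm
    · have h1 : (π x).u a = [] := by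
        by_contra h2
        exact h (hπ.sup x h2).2
      rw [hψB a h, hπ.par x _ (pre_mem _ _), unp_pre, h1, List.nil_append]
  · rw [hψB a (fun h' => ha (hAA' h'))]
    exact h z a ha _ _

end Pool.Agent.Mil
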