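import Mathlib
import Pool.Agent.Lib.Mil.Cfg

/-!
# The statement of the core theorem (MP_97ce32_lc)

`Fo h q` : the condition `h` forces that the real with the name `q` (evaluated at `h⁻¹` of the generic point) belongs
to the given set of reals.
-/

set_option autoImplicit false

open Cardinal

namespace Pool.Agent.Mil

/-- `I` has order type `(2^ℵ₀)⁺` (the properties which are needed) -/
structure Big (I : Type) [LinearOrder I] : Prop where
  small : ∀ a : I, #(Set.Iio a) ≤ 𝔠
  bdd : ∀ S : Set I, #S ≤ 𝔠 → ∃ b, ∀ a ∈ S, a < b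

/-- the hypotheses: `Fo` is the forcing relation of a name of a set of reals of strong measure zero -/
structure Smz {I : Type} [LinearOrder I] (Fo : Gam I → (Pt I → ℕ → Bool) → Prop) : Prop where
  mul : ∀ h χ q, Fo h q → Fo (h * χ) (fun x => q (χ.mp x))
  cov : ∀ (h : Gam I) (f : Pt I → ℕ → ℕ), IsNm Set.univ f →
    ∃ (χ : Gam I) (σ : Pt I → ℕ → List Bool), IsNm Set.univ σ ∧ (∀ x n, (σ x n).length = f (χ.mp x) n) ∧
      ∀ (χ' : Gam I) (q : Pt I → ℕ → Bool), IsNm Set.univ q → Fo (h * χ * χ') q →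
        ∃ x n, Pf (σ (χ'.mp x) n) (q x)

/-- the core theorem -/
def Core (I : Type) [LinearOrder I] : Prop :=
  ∀ Fo : Gam I → (Pt I → ℕ → Bool) → Prop, Smz Fo →
    ∃ δ : I, ∀ h q, IsNm Set.univ q → Fo h q → ∃ χ : Gam I, IsNm (Set.Iio δ) (fun x => q (χ.mp x))

/-- the set `D` of conditions is open and dense in the conditions with support in `A` -/
structure DO {I : Type} [LinearOrder I] (A : Set I) (D : Set (Gam I)) : Prop where
  opn : ∀ φ χ : Gam I, φ.In A → χ.In A → φ ∈ D → φ * χ ∈ D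
  dns : ∀ φ : Gam I, φ.In A → ∃ χ : Gam I, χ.In A ∧ φ * χ ∈ D

/-- The nodes `s` with `cd s < N` are fixed at the coordinates in `F`; `cd` is the code of a finite sequence, see
`Lib/Mil/Cd.lean`. -/
def Loc {I : Type} [LinearOrder I] (C : Set I) (D : Set (Gam I)) (φ : Gam I) : Prop :=
  ∀ x : Pt I, ∃ w : Cfg I, sp w.u ⊆ C ∧ x ∈ Cy w.u ∧ φ * w.k ∈ D

end Pool.Agent.Mil
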