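import Mathlib
import Pool.Agent.Lib.Mil.One
import Pool.Agent.Lib.Mil.Stmt

/-!
# Mil.StepB (size 230): one dense set, one new coordinate

`PropAt A` : pure continuous reading for the conditions with support in `A` (this is proved for all lower sets in
`Lib/Mil/Prop.lean`; the induction uses it for `A = Iio b`).

`stepB`: `b ∈ A`, `F'` a finite set of coordinates below `b`, `D` open and dense in `A`. There are `φ ∈ Gam` which fixes the nodes with
code `< N` at the coordinates in `insert b F'`, and a partition `π` into cylinders with supports in `C ∩ Iic b` such that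
`φ * (π x).k ∈ D` for all `x`, and `π x` depends only on the coordinates `< b` and on the piece which contains `x b`.

Proof. For a piece `(s, k)` let `c = bcf b (s ++ [k])` be the configuration with the single nonempty value `s ++ [k]` at `b`, and
`D^{s,k} = {ρ | ∃ ρ' ∈ D, ρ'.In A ∧ rs (Iio b) ρ' = ρ ∧ ρ'.Into c}`. It is open and dense in `Iio b`:
open: `ρ` with witness `ρ'`, `χ.In (Iio b)`: `ρ' * χ ∈ D` (`χ.In A` as `Iio b ⊆ A`), `rs (Iio b) (ρ' * χ) = ρ * χ` (`rs_mul`, `rs_eq`), `Into.mul`.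
dense: `ρ.In (Iio b)`; `ρ * c.k` is `In A`; density of `D`: `χ.In A`, `ρ * c.k * χ ∈ D`; put `ρ' = ρ * c.k * χ`. `rs (Iio b) ρ' = ρ * rs (Iio b) χ`
(`rs (Iio b) c.k = 1`: ext, `c.u a = []` for `a < b`), so `χ' = rs (Iio b) χ` works. `ρ'.Into c`: `into_iff`: at `a = b`:
`ρ'.e b x [] = ρ.e b _ ((s ++ [k]) ++ χ.e b x []) = (s ++ [k]) ++ ...` because `ρ.In (Iio b)`; at `a ≠ b` trivial (`[]`).
The pieces are countably many: number them by `i = Nat.pair (cd s) k` (for `i` which is not a piece take the set `univ`).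
`hprop` with `F'`, `N` gives `φb.In (Iio b)`, `Fix F' N φb`, and a countable `C1 ⊆ Iio b` with `Loc C1 (D^{s,k}) φb` for all pieces. By
`exists_par` (with the upward closed property `P w := ∃ w', sp w'.u ⊆ C1 ∧ Ext w'.u w.u ∧ φb * w'.k ∈ D^{s,k}`) there is a partition `π^{s,k}` with supports in `C1`; since
`sp (π^{s,k} x).u ⊆ C1 ⊆ Iio b`, the element `(w'.dif (π^{s,k} x)).k` is `In (Iio b)` and `φb * (π^{s,k} x).k ∈ D^{s,k}`
(`Cfg.k_mul_dif`, openness). Choose `ρ^{s,k,w} ∈ D`, `In A`, `rs (Iio b) (ρ^{s,k,w}) = φb * w.k`, `Into c` for `w` in the range of `π^{s,k}`.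
One coordinate: `η x = glu N (fun s k r => (ρ^{s,k,w}).e b (unp w.u x) r)`, `w = π^{s,k} x`. `glu_stp` with `j = id`:
`s ++ [k] <+: (ρ^{s,k,w}).e b y []` by `into_iff`. Locally constant with countable support below `b`: for a fixed list `t` the value is
either `t` or the value for ONE piece `(s, k) = pce N t`; argue as in `exists_glue` (take `T` = the union of `C1`, the supports of `φb` and of all
`ρ^{s,k,w}`, `w` in the (countable) range of `π^{s,k}`, and `{b}`). `exists_upd` gives `φ₁` with `φ₁.e b = η`, `φ₁.e a = φb.e a` for `a ≠ b`;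
`φ₁.In (Iic b)`, `Fix (insert b F') N φ₁` (`glu_lt`).
Second partition `π x` : let `(s, k)` be the piece of `x b` (`exists_piece_fun`, `Piece.unique_fun`), `w = π^{s,k} x`, `π x := w` with the value `s ++ [k]` at `b`
(`w.u b = []`). It is a partition (`Par`) with supports in `insert b C1`: if `y ∈ Cy (π x)` then `Pf (s ++ [k]) (y b)`, so the piece of `y` is `(s, k)`,
and `y ∈ Cy w`, so `π^{s,k} y = w`. For `w⁺ = π x` choose `ρ (w⁺) = ρ^{s,k,w}`; then `rs (Iic b) (ρ^{s,k,w}) = φ₁ * w⁺.k`: at `a < b`: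
`rs (Iio b)` of both sides agree (`φ₁ = φb` below `b`; `w⁺ = w` below `b`); at `b`: `(φ₁ * w⁺.k).e b y r = η (pre w⁺.u y) (s ++ [k] ++ r) =
(ρ^{s,k,w'}).e b (unp w'.u (pre w⁺.u y)) r` with `w' = π^{s,k} (pre w⁺.u y) = w`, and `unp w.u (pre w⁺.u y)` agrees with `y` below `b` (`Gam.congr`).
`exists_glue` (with `Iic b`, `φ₁`, `π`) gives `φ` with `rs (Iic b) φ = φ₁`, `φ * (π x).k = ρ (π x) ∈ D`, `φ.In A` (all `ρ.In A`).
`Fix`: at `a ≤ b`, `φ.e a = φ₁.e a`. The last clause: `π x` is defined from the piece and `π^{s,k} x`, which depends only on the coordinates `< b`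
(`Par.lc`, `LC.eq_of`).
-/

set_option autoImplicit false
set_option linter.unusedSectionVars false

namespace Pool.Agent.Mil

variable {I : Type} [LinearOrder I]

/-- pure continuous reading for the conditions with support in `A` -/
def PropAt (A : Set I) : Prop :=
  ∀ (F : Finset I), (↑F : Set I) ⊆ A → ∀ (N : ℕ) (D : ℕ → Set (Gam I)), (∀ i, DO A (D i)) →
    ∃ φ : Gam I, φ.In A ∧ Fix F N φ ∧ ∃ C : Set I, C.Countable ∧ C ⊆ A ∧ ∀ i, Loc C (D i) φ

private theorem stepB_cfg {w v : Cfg I} (h : w.u = v.u) : w = v := by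
  cases w; cases v
  simp only at h
  subst h
  rfl

open Classical in
/-- change the value of a configuration at one coordinate -/
private noncomputable def stepB_upd (w : Cfg I) (b : I) (t : List ℕ) : Cfg I :=
  ⟨Function.update w.u b t, (w.fin.insert b).subset fun a ha => by
    by_cases hab : a = b
    · exact Or.inl hab
    · refine Or.inr fun h => ha ?_
      show Function.update w.u b t a = []
      rw [Function.update_of_ne hab]
      exact h⟩

private theorem stepB_upd_self (w : Cfg I) (b : I) (t : List ℕ) : (stepB_upd w b t).u b = t :=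
  Function.update_self _ _ _

private theorem stepB_upd_ne (w : Cfg I) {b a : I} (h : a ≠ b) (t : List ℕ) :
    (stepB_upd w b t).u a = w.u a := Function.update_of_ne h _ _

private theorem stepB_upd_upd (w : Cfg I) {b : I} (h : w.u b = []) (t : List ℕ) :
    stepB_upd (stepB_upd w b t) b [] = w := by
  apply stepB_cfg
  funext a
  by_cases hab : a = b
  · rw [hab, stepB_upd_self, h]
  · rw [stepB_upd_ne _ hab, stepB_upd_ne _ hab]

/-- the restrictions to `Iio b` of the elements of `D` which map into the cylinder of `t` at the coordinate `b` -/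
private def stepB_D (A : Set I) (D : Set (Gam I)) (b : I) (t : List ℕ) : Set (Gam I) :=
  {ρ | ∃ ρ' ∈ D, ρ'.In A ∧ Gam.rs (Set.Iio b) ρ' = ρ ∧ ∀ x, t <+: ρ'.e b x []}

private theorem stepB_DO {A : Set I} (hA : IsLowerSet A) {b : I} (hb : b ∈ A) {D : Set (Gam I)}
    (hD : DO A D) (t : List ℕ) : DO (Set.Iio b) (stepB_D A D b t) := by
  have hbA : Set.Iio b ⊆ A := fun a ha => hA (le_of_lt ha) hb
  have hbb : b ∉ Set.Iio b := fun h => lt_irrefl b h
  refine ⟨?_, fun φ hφ => ?_⟩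
  · rintro φ χ hφ hχ ⟨ρ', h1, h2, h3, h4⟩
    refine ⟨ρ' * χ, hD.opn ρ' χ h2 (hχ.mono hbA) h1, h2.mul (hχ.mono hbA), ?_, fun x => ?_⟩
    · rw [Gam.rs_mul (isLowerSet_Iio b), h3, Gam.rs_eq hχ]
    · rw [Gam.mul_e, hχ b hbb]
      exact h4 _
  · let c : Cfg I := stepB_upd Cfg.nil b t
    have hc : c.k.In A := by
      refine Cfg.k_in fun a ha => ?_
      by_cases hab : a = b
      · rw [hab]; exact hb
      · exact absurd (stepB_upd_ne Cfg.nil hab t) ha
    obtain ⟨χ, h1, h2⟩ := hD.dns (φ * c.k) ((hφ.mono hbA).mul hc)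
    have h3 : Gam.rs (Set.Iio b) c.k = 1 := by
      apply Gam.ext
      funext a x s
      by_cases ha : a ∈ Set.Iio b
      · rw [Gam.rs_e_mem _ ha, Cfg.k_e, Gam.one_e]
        have h4 : c.u a = [] := stepB_upd_ne Cfg.nil (ne_of_lt ha) t
        rw [h4, List.nil_append]
      · rw [Gam.rs_e_notMem _ ha, Gam.one_e]
    refine ⟨Gam.rs (Set.Iio b) χ, Gam.in_rs _ _, φ * c.k * χ, h2, ((hφ.mono hbA).mul hc).mul h1, ?_,
      fun x => ?_⟩
    · rw [Gam.rs_mul (isLowerSet_Iio b), Gam.rs_mul (isLowerSet_Iio b), h3, Gam.rs_eq hφ, mul_one]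
    · rw [Gam.mul_e, Gam.mul_e, hφ b hbb, Cfg.k_e]
      have h4 : c.u b = t := stepB_upd_self Cfg.nil b t
      rw [h4]
      exact List.prefix_append _ _

theorem stepB {A : Set I} (hA : IsLowerSet A) {b : I} (hb : b ∈ A) (hprop : PropAt (Set.Iio b))
    {F' : Finset I} (hF' : ∀ a ∈ F', a < b) {N : ℕ} (hN : 0 < N) {D : Set (Gam I)} (hD : DO A D) :
    ∃ φ : Gam I, φ.In A ∧ Fix (insert b F') N φ ∧ ∃ C : Set I, C.Countable ∧ C ⊆ Set.Iic b ∧
      ∃ π : Pt I → Cfg I, Par C π ∧ (∀ x, φ * (π x).k ∈ D) ∧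
        ∀ (s : List ℕ) (k : ℕ), Piece N s k → ∀ x y : Pt I, (∀ a < b, x a = y a) → Pf (s ++ [k]) (x b) →
          Pf (s ++ [k]) (y b) → π x = π y := by
  classical
  have hbA : Set.Iic b ⊆ A := fun a ha => hA ha hb
  have hbb : b ∉ Set.Iio b := fun h => lt_irrefl b h
  -- step 1
  obtain ⟨φb, hφb, hfix, C1, hC1, hC1b, hloc'⟩ := hprop F' (fun a ha => hF' a ha) N
    (fun i => stepB_D A D b (uncd i)) (fun i => stepB_DO hA hb hD (uncd i))
  have hloc : ∀ t, Loc C1 (stepB_D A D b t) φb := by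
    intro t
    have h1 := hloc' (cd t)
    rwa [uncd_cd] at h1
  -- step 2
  have hpi : ∀ t : List ℕ, ∃ π : Pt I → Cfg I, Par C1 π ∧ ∀ x, φb * (π x).k ∈ stepB_D A D b t := by
    intro t
    obtain ⟨π, h1, h2⟩ := exists_par (C := C1) hC1
      (P := fun w => ∃ w' : Cfg I, sp w'.u ⊆ C1 ∧ Ext w'.u w.u ∧ φb * w'.k ∈ stepB_D A D b t)
      (by
        rintro w v hwv ⟨w', h1, h2, h3⟩
        exact ⟨w', h1, h2.trans hwv, h3⟩)
      (fun x => by
        obtain ⟨w, h1, h2, h3⟩ := hloc t x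
        exact ⟨w, h1, h2, w, h1, Ext.refl _, h3⟩)
    refine ⟨π, h1, fun x => ?_⟩
    obtain ⟨w', h3, h4, h5⟩ := h2 x
    have h6 : (w'.dif (π x)).k.In (Set.Iio b) :=
      Cfg.k_in ((sp_dif _ _).trans ((h1.sup x).trans hC1b))
    have h7 : w'.k.In (Set.Iio b) := Cfg.k_in (h3.trans hC1b)
    have h8 := (stepB_DO hA hb hD t).opn _ _ (hφb.mul h7) h6 h5
    rw [mul_assoc, Cfg.k_mul_dif h4] at h8
    exact h8
  choose π hπ hπD using hpi
  have hρex : ∀ (t : List ℕ) (w : Cfg I), ∃ ρ' : Gam I, (∃ x, π t x = w) → ρ' ∈ D ∧ ρ'.In A ∧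
      Gam.rs (Set.Iio b) ρ' = φb * w.k ∧ ∀ x, t <+: ρ'.e b x [] := by
    intro t w
    by_cases h : ∃ x, π t x = w
    · obtain ⟨x, rfl⟩ := h
      obtain ⟨ρ', h1, h2, h3, h4⟩ := hπD t x
      exact ⟨ρ', fun _ => ⟨h1, h2, h3, h4⟩⟩
    · exact ⟨1, fun h' => absurd h' h⟩
  choose ρ hρ' using hρex
  have hρ : ∀ t x, ρ t (π t x) ∈ D ∧ (ρ t (π t x)).In A ∧
      Gam.rs (Set.Iio b) (ρ t (π t x)) = φb * (π t x).k ∧ ∀ y, t <+: (ρ t (π t x)).e b y [] :=
    fun t x => hρ' t _ ⟨x, rfl⟩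
  have hub : ∀ t x, (π t x).u b = [] := by
    intro t x
    by_contra h
    exact hbb (hC1b ((hπ t).sup x h))
  -- supports
  choose S hS1 hS2 using fun p : List ℕ × Cfg I => (ρ p.1 p.2).exists_spt
  obtain ⟨C0, hC0, hφC0⟩ := φb.exists_spt
  let T : Set I := {b} ∪ C0 ∪ C1 ∪ ⋃ t : List ℕ, ⋃ w ∈ Set.range (π t), S (t, w)
  have hR : ∀ t, (Set.range (π t)).Countable := fun t => (Cfg.countable_sp hC1).mono (by
    rintro _ ⟨x, rfl⟩
    exact (hπ t).sup x)
  have hT : T.Countable := (((Set.countable_singleton b).union hC0).union hC1).union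
    (Set.countable_iUnion fun t => (hR t).biUnion fun w _ => hS1 (t, w))
  have hST : ∀ t x, S (t, π t x) ⊆ T := by
    intro t x a ha
    refine Or.inr (Set.mem_iUnion.2 ⟨t, Set.mem_iUnion₂.2 ⟨π t x, ⟨x, rfl⟩, ha⟩⟩)
  have hbT : b ∈ T := Or.inl (Or.inl (Or.inl rfl))
  have hC0T : C0 ⊆ T := fun a ha => Or.inl (Or.inl (Or.inr ha))
  have hC1T : C1 ⊆ T := fun a ha => Or.inl (Or.inr ha)
  -- one coordinate
  let G : Pt I → List ℕ → ℕ → List ℕ → List ℕ := fun x s k r =>
    (ρ (s ++ [k]) (π (s ++ [k]) x)).e b (unp (π (s ++ [k]) x).u x) r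
  have hη : ∀ x, Stp (glu N (G x)) := by
    intro x
    refine glu_stp hN (fun s k _ => (ρ (s ++ [k]) (π (s ++ [k]) x)).stp b _) fun s _ =>
      ⟨fun k => k, strictMono_id, fun k _ => rfl, fun k _ => ?_⟩
    exact (hρ (s ++ [k]) x).2.2.2 _
  have hlcG : ∀ s k r, LC (T ∩ Set.Iio b) (fun x => G x s k r) := by
    intro s k r z
    have h1 : LC (T ∩ Set.Iio b) (π (s ++ [k])) := (hπ (s ++ [k])).lc.mono fun a ha =>
      ⟨hC1T ha, hC1b ha⟩
    obtain ⟨F, hF, n, hn⟩ := h1 z
    have h2 : LC (T ∩ Set.Iio b)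
        (fun y => (ρ (s ++ [k]) (π (s ++ [k]) z)).e b (unp (π (s ++ [k]) z).u y) r) := by
      refine LC.comp ((hS2 (s ++ [k], π (s ++ [k]) z)).lc b r) (T := unp (π (s ++ [k]) z).u)
        fun a ha i => ?_
      have h3 : a ∈ T ∩ Set.Iio b := ⟨hST (s ++ [k]) z ha.1, ha.2⟩
      exact LC.coord h3 _
    obtain ⟨F', hF', n', hn'⟩ := h2 z
    refine ⟨F ∪ F', by rw [Finset.coe_union]; exact Set.union_subset hF hF', max n n', fun y hy => ?_⟩
    have h3 := hn y (hy.mono Finset.subset_union_left (le_max_left _ _))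
    show (ρ (s ++ [k]) (π (s ++ [k]) y)).e b (unp (π (s ++ [k]) y).u y) r = _
    rw [h3]
    exact hn' y (hy.mono Finset.subset_union_right (le_max_right _ _))
  have hlc : ∀ t, LC (T ∩ Set.Iio b) (fun x => glu N (G x) t) := by
    intro t
    by_cases ht : cd t < N
    · have h1 : (fun x => glu N (G x) t) = fun _ => t := funext fun x => glu_lt ht
      rw [h1]
      exact LC.const _ _
    · have h1 : (fun x => glu N (G x) t) =
          fun x => G x (pce N t).1 (pce N t).2 (t.drop ((pce N t).1.length + 1)) := by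
        funext x
        rw [glu, if_neg ht]
      rw [h1]
      exact hlcG _ _ _
  obtain ⟨φ₁, -, h1b, h1a⟩ := exists_upd hT (hφC0.mono hC0T) hbT (fun x => glu N (G x)) hη hlc
  have hφ₁ : φ₁.In (Set.Iic b) := by
    intro a ha x s
    have hab : a ≠ b := by
      rintro rfl
      exact ha (Set.mem_Iic.2 le_rfl)
    rw [h1a a hab]
    exact hφb a (fun h => ha (le_of_lt h)) x s
  -- the second partition
  choose sP kP hP1 hP2 using fun y : ℕ → ℕ => exists_piece_fun hN y
  let tt : Pt I → List ℕ := fun x => sP (x b) ++ [kP (x b)]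
  have htt : ∀ (x : Pt I) (s : List ℕ) (k : ℕ), Piece N s k → Pf (s ++ [k]) (x b) → tt x = s ++ [k] := by
    intro x s k hp hx
    obtain ⟨h1, h2⟩ := (hP1 (x b)).unique_fun hp (hP2 (x b)) hx
    show sP (x b) ++ [kP (x b)] = s ++ [k]
    rw [h1, h2]
  let π₂ : Pt I → Cfg I := fun x => stepB_upd (π (tt x) x) b (tt x)
  have hπ₂mem : ∀ x y, y ∈ Cy (π₂ x).u → Pf (tt x) (y b) ∧ y ∈ Cy (π (tt x) x).u := by
    intro x y hy
    refine ⟨?_, fun a => ?_⟩
    · have h1 := hy b
      rwa [stepB_upd_self] at h1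
    · by_cases hab : a = b
      · rw [hab, hub]
        exact pf_nil _
      · have h1 := hy a
        rwa [stepB_upd_ne _ hab] at h1
  have hπ₂ : Par (insert b C1) π₂ := by
    refine ⟨fun x a ha => ?_, fun x a => ?_, fun x y hy => ?_⟩
    · by_cases hab : a = b
      · exact Or.inl hab
      · refine Or.inr ((hπ (tt x)).sup x ?_)
        have h1 : (stepB_upd (π (tt x) x) b (tt x)).u a ≠ [] := ha
        rw [stepB_upd_ne _ hab] at h1
        exact h1
    · by_cases hab : a = b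
      · rw [hab, stepB_upd_self]
        exact hP2 (x b)
      · rw [stepB_upd_ne _ hab]
        exact (hπ (tt x)).mem x a
    · obtain ⟨h1, h2⟩ := hπ₂mem x y hy
      have h3 : tt y = tt x := htt y _ _ (hP1 (x b)) h1
      have h4 : π (tt x) y = π (tt x) x := (hπ (tt x)).par x y h2
      show stepB_upd (π (tt y) y) b (tt y) = stepB_upd (π (tt x) x) b (tt x)
      rw [h3, h4]
  have hCi : insert b C1 ∩ Set.Iic b = insert b C1 := by
    refine Set.inter_eq_left.2 fun a ha => ?_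
    rcases ha with ha | ha
    · rw [ha]; exact Set.mem_Iic.2 le_rfl
    · exact le_of_lt (hC1b ha)
  have hπ₂' : Par (insert b C1 ∩ Set.Iic b) π₂ := by rw [hCi]; exact hπ₂
  let ρ₂ : Cfg I → Gam I := fun w => ρ (w.u b) (stepB_upd w b [])
  have hρ₂e : ∀ x, ρ₂ (π₂ x) = ρ (tt x) (π (tt x) x) := by
    intro x
    show ρ ((stepB_upd (π (tt x) x) b (tt x)).u b)
      (stepB_upd (stepB_upd (π (tt x) x) b (tt x)) b []) = _
    rw [stepB_upd_self, stepB_upd_upd _ (hub _ _)]
  have hρ₂ : ∀ x, Gam.rs (Set.Iic b) (ρ₂ (π₂ x)) = φ₁ * (π₂ x).k := by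
    intro x
    rw [hρ₂e]
    apply Gam.ext
    funext a y r
    rw [Gam.mul_e, Cfg.k_mp, Cfg.k_e]
    rcases lt_trichotomy a b with hab | hab | hab
    · rw [Gam.rs_e_mem _ (Set.mem_Iic.2 hab.le), h1a a hab.ne]
      have h1 := congrFun (congrFun (congrFun (congrArg Gam.e (hρ (tt x) x).2.2.1) a) y) r
      rw [Gam.rs_e_mem _ (Set.mem_Iio.2 hab), Gam.mul_e, Cfg.k_mp, Cfg.k_e] at h1
      have h2 : (π₂ x).u a = (π (tt x) x).u a := stepB_upd_ne _ hab.ne _
      rw [h1, h2]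
      apply φb.congr
      intro c hc
      show cat ((π (tt x) x).u c) (y c) = cat ((π₂ x).u c) (y c)
      have h3 : (π₂ x).u c = (π (tt x) x).u c := stepB_upd_ne _ (hc.trans hab).ne _
      rw [h3]
    · subst hab
      rw [Gam.rs_e_mem _ (Set.mem_Iic.2 le_rfl), h1b]
      have h2 : (π₂ x).u a = tt x := stepB_upd_self _ _ _
      rw [h2]
      have hmem := hπ₂mem x (pre (π₂ x).u y) (pre_mem _ _)
      have h4 : π (tt x) (pre (π₂ x).u y) = π (tt x) x := (hπ (tt x)).par x _ hmem.2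
      have h5 : glu N (G (pre (π₂ x).u y)) (tt x ++ r) =
          G (pre (π₂ x).u y) (sP (x a)) (kP (x a)) r := glu_piece (hP1 (x a)) r
      rw [h5]
      show _ = (ρ (tt x) (π (tt x) (pre (π₂ x).u y))).e a
        (unp (π (tt x) (pre (π₂ x).u y)).u (pre (π₂ x).u y)) r
      rw [h4]
      apply Gam.congr
      intro c hc
      show y c = shf ((π (tt x) x).u c).length (cat ((π₂ x).u c) (y c))
      have h3 : (π₂ x).u c = (π (tt x) x).u c := stepB_upd_ne _ hc.ne _
      rw [h3, shf_cat]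
    · have h1 : a ∉ Set.Iic b := fun h => absurd hab (not_lt.2 h)
      rw [Gam.rs_e_notMem _ h1, hφ₁ a h1]
      have h2 : (π₂ x).u a = [] := by
        by_contra h
        exact h1 ((hπ₂'.sup x h).2)
      rw [h2, List.nil_append]
  obtain ⟨ψ, hψ1, hψ2, hψ3⟩ := exists_glue (isLowerSet_Iic b) hφ₁ (hC1.insert b) hπ₂' ρ₂ hρ₂
  refine ⟨ψ, hψ3 A hbA fun x => ?_, fun a ha x s hs => ?_, insert b C1, hC1.insert b, fun a ha => ?_,
    π₂, hπ₂, fun x => ?_, fun s k hp x y hxy hx hy => ?_⟩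
  · rw [hρ₂e]
    exact (hρ (tt x) x).2.1
  · have hab : a ≤ b := by
      rcases Finset.mem_insert.1 ha with h | h
      · exact h.le
      · exact (hF' a h).le
    have h1 : ψ.e a x s = φ₁.e a x s := by
      rw [← hψ1, Gam.rs_e_mem _ (Set.mem_Iic.2 hab)]
    rw [h1]
    rcases Finset.mem_insert.1 ha with h | h
    · rw [h, h1b]
      exact glu_lt hs
    · rw [h1a a (hF' a h).ne]
      exact hfix a h x s hs
  · rw [← hCi] at ha
    exact ha.2
  · rw [hψ2, hρ₂e]
    exact (hρ (tt x) x).1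
  · have h1 : tt x = s ++ [k] := htt x s k hp hx
    have h2 : tt y = s ++ [k] := htt y s k hp hy
    show stepB_upd (π (tt x) x) b (tt x) = stepB_upd (π (tt y) y) b (tt y)
    rw [h1, h2]
    have h3 : π (s ++ [k]) x = π (s ++ [k]) y :=
      (hπ (s ++ [k])).lc.eq_of fun a ha => hxy a (hC1b ha)
    rw [h3]

end Pool.Agent.Mil
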