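import Mathlib
import Pool.Agent.Lib.Mil.FusB
import Pool.Agent.Lib.Mil.StepB

/-!
# Mil.Prop (size 130): pure continuous reading

Proof of `propAt_of`. Single step: for `F ⊆ A` finite, `N`, and `D` open dense in `A` there are `φ.In A`, `Fix F N φ`, a countable `C ⊆ A` with
`Loc C D φ`. If `F = ∅`: density at `1` gives `χ ∈ D`; `C = ∅`, `w = Cfg.nil` (`Cfg.k_nil`). If `F ≠ ∅`: `b = F.max'`, `F' = F.erase b`, `stepB` with
`max N 1` (`Fix.mono`), `w = π x`, `C ⊆ Iic b ⊆ A`.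
Now `exists_fseq` with `F0 = F`, `N0 = N` and `P n F θ φ := ∃ C countable, C ⊆ A ∧ Loc C (D n) (θ * φ)`; the step: apply the single step to
`{χ | θ * χ ∈ D n}`, which is open and dense in `A` (`opn`: `mul_assoc`; `opn` of `DO` needs `φ.In A`: intersect with `{χ | χ.In A}` or use
`In.mul`; dense: apply `dns` of `D n` to `θ * φ`).
Result `φ = S.g 0 = S.θ (n+1) * S.g (n+1) = S.θ n * S.φ n * S.g (n+1)`. Countable set for the conclusion: `C = ⋃ n` of the supports of all `S.g n`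
(chosen, inside `A` by `Spt.inter`) and the sets `C_n` of the steps. `Loc C (D n) (g 0)`: given `x`, let `y = (S.g (n+1)).mp x`, `w` with `sp w.u ⊆ C_n`,
`y ∈ Cy w.u`, `θ_n φ_n w.k ∈ D n`. By continuity (`Spt.lc_mp`, `LC.finset`, `Cfg.exists_len`) there are a finite `F₁ ⊆ C` and `m` such that for all `x'` with
`Ag F₁ m x x'`: `(S.g (n+1)).mp x' ∈ Cy w.u`. Put `v = Cfg.of F₁ m x`. Then `S.g (n+1) * v.k` is `Into w.u` (`kk_into`, `Cfg.ag_of`), so
`S.g (n+1) * v.k = w.k * χ` (`Into.factor`) with `χ.In A` (`χ.e a x s = s` for `a ∉ A`: compare: `w.u a = []` and both sides trivial), and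
`g 0 * v.k = (θ_n φ_n w.k) * χ ∈ D n`.
`prop`: by `WellFoundedLT.induction`, `PropAt (Iio b)` for all `b` (the elements `b' ∈ Iio b` are smaller), then `propAt_of` for `A`.
-/

set_option autoImplicit false
set_option linter.unusedSectionVars false

namespace Pool.Agent.Mil

variable {I : Type} [LinearOrder I] [WellFoundedLT I]

private theorem Prop_single {A : Set I} (hA : IsLowerSet A) (h : ∀ b ∈ A, PropAt (Set.Iio b)) (F : Finset I)
    (hF : (↑F : Set I) ⊆ A) (N : ℕ) {D : Set (Gam I)} (hD : DO A D) :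
    ∃ φ : Gam I, φ.In A ∧ Fix F N φ ∧ ∃ C : Set I, C.Countable ∧ C ⊆ A ∧ Loc C D φ := by
  classical
  rcases F.eq_empty_or_nonempty with rfl | hne
  · obtain ⟨χ, h1, h2⟩ := hD.dns 1 (Gam.in_one A)
    rw [one_mul] at h2
    refine ⟨χ, h1, Fix.empty N χ, ∅, Set.countable_empty, Set.empty_subset _, fun x => ⟨Cfg.nil, ?_, ?_, ?_⟩⟩
    · intro a ha
      exact absurd rfl ha
    · exact fun a => pf_nil _
    · rw [Cfg.k_nil, mul_one]
      exact h2
  · have hb : F.max' hne ∈ F := F.max'_mem hne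
    obtain ⟨φ, h1, h2, C, h3, h4, π, h5, h6, -⟩ := stepB hA (hF hb) (h _ (hF hb)) (F' := F.erase (F.max' hne))
      (fun a ha => F.lt_max'_of_mem_erase_max' hne ha) (N := max N 1) (by omega) hD
    rw [Finset.insert_erase hb] at h2
    refine ⟨φ, h1, h2.mono (Finset.Subset.refl _) (le_max_left _ _), C, h3, ?_, fun x => ⟨π x, h5.sup x, h5.mem x, h6 x⟩⟩
    intro a ha
    exact hA (h4 ha) (hF hb)

theorem propAt_of {A : Set I} (hA : IsLowerSet A) (h : ∀ b ∈ A, PropAt (Set.Iio b)) : PropAt A := by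
  classical
  intro F hF N D hD
  obtain ⟨S⟩ := exists_fseq hA F hF N (fun n _ θ φ => ∃ C : Set I, C.Countable ∧ C ⊆ A ∧ Loc C (D n) (θ * φ))
    (by
      intro n F' θ hF' _ _ hθ
      have hD' : DO A {χ : Gam I | χ.In A ∧ θ * χ ∈ D n} := by
        refine ⟨fun φ χ hφ hχ h1 => ⟨hφ.mul hχ, ?_⟩, fun φ hφ => ?_⟩
        · rw [← mul_assoc]
          exact (hD n).opn _ _ (hθ.mul hφ) hχ h1.2
        · obtain ⟨χ, h1, h2⟩ := (hD n).dns (θ * φ) (hθ.mul hφ)
          exact ⟨χ, h1, hφ.mul h1, by rw [← mul_assoc]; exact h2⟩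
      obtain ⟨φ, h1, h2, C, h3, h4, h5⟩ := Prop_single hA h F' hF' (N + n) hD'
      refine ⟨φ, h1, h2, C, h3, h4, fun x => ?_⟩
      obtain ⟨w, h6, h7, h8⟩ := h5 x
      exact ⟨w, h6, h7, by rw [mul_assoc]; exact h8.2⟩)
  have hspt : ∀ n, ∃ T : Set I, T.Countable ∧ T ⊆ A ∧ (S.g n).Spt T := by
    intro n
    obtain ⟨T, h1, h2⟩ := (S.g n).exists_spt
    exact ⟨T ∩ A, h1.mono Set.inter_subset_left, Set.inter_subset_right, h2.inter hA (S.g_in n)⟩
  choose T hT1 hT2 hT3 using hspt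
  have hreq := S.req
  choose Cn hC1 hC2 hC3 using hreq
  have hfix : Fix F N (S.g 0) := by
    have h1 := S.g_fix 0
    rwa [S.F_zero, Nat.add_zero] at h1
  have hCA : (⋃ n, (T n ∪ Cn n)) ⊆ A := by
    intro a ha
    obtain ⟨n, hn⟩ := Set.mem_iUnion.1 ha
    rcases hn with h1 | h1
    · exact hT2 n h1
    · exact hC2 n h1
  refine ⟨S.g 0, S.g_in 0, hfix, ⋃ n, (T n ∪ Cn n), Set.countable_iUnion fun n => (hT1 n).union (hC1 n), hCA,
    fun n x => ?_⟩
  obtain ⟨w, hw1, hw2, hw3⟩ := hC3 n ((S.g (n + 1)).mp x)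
  obtain ⟨L, hL⟩ := w.exists_len
  obtain ⟨F₁, hF₁, m, hm⟩ := LC.finset (C := ⋃ n, (T n ∪ Cn n)) (w.fin.toFinset ×ˢ Finset.range L)
    (β := fun _ => ℕ) (fun p x => (S.g (n + 1)).mp x p.1 p.2) (by
      rintro ⟨a, i⟩ hp
      have ha : a ∈ sp w.u := by
        have := (Finset.mem_product.1 hp).1
        exact (Set.Finite.mem_toFinset _).1 this
      refine ((hT3 (n + 1)).lc_mp a i).mono ?_
      rintro b (hb | hb)
      · exact Set.mem_iUnion.2 ⟨n + 1, Or.inl hb.1⟩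
      · rw [Set.mem_singleton_iff.1 hb]
        exact Set.mem_iUnion.2 ⟨n, Or.inr (hw1 ha)⟩) x
  have hcy : ∀ x', Ag F₁ m x x' → (S.g (n + 1)).mp x' ∈ Cy w.u := by
    intro x' hx'
    refine Cfg.mem_cy_of_ag (F := w.fin.toFinset) (n := L) hw2 (by simp) hL fun a ha i hi => ?_
    exact hm x' hx' (a, i) (Finset.mem_product.2 ⟨ha, Finset.mem_range.2 hi⟩)
  have hv1 : sp (Cfg.of F₁ m x).u ⊆ ⋃ n, (T n ∪ Cn n) := (Cfg.of_sp F₁ m x).trans hF₁
  refine ⟨Cfg.of F₁ m x, hv1, Cfg.mem_of F₁ m x, ?_⟩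
  have hinto : (S.g (n + 1) * (Cfg.of F₁ m x).k).Into w.u := by
    intro z
    rw [Gam.mul_mp, Cfg.k_mp]
    exact hcy _ (Cfg.ag_of (pre_mem _ z))
  obtain ⟨χ, hχ⟩ := hinto.factor w.fin.countable
  have hwA : sp w.u ⊆ A := hw1.trans (hC2 n)
  have hχA : χ.In A := by
    intro a ha y s
    have h1 := congrFun (congrFun (congrFun (congrArg Gam.e hχ) a) y) s
    rw [Gam.mul_e, Gam.mul_e, kk_e, Cfg.k_e, S.g_in (n + 1) a ha] at h1
    have h2 : (Cfg.of F₁ m x).u a = [] := by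
      by_contra hc
      exact ha (hCA (hv1 hc))
    have h3 : w.u a = [] := by
      by_contra hc
      exact ha (hwA hc)
    rw [h2, h3, List.nil_append, List.nil_append] at h1
    exact h1.symm
  have e : S.g 0 * (Cfg.of F₁ m x).k = S.θ n * S.φ n * w.k * χ := by
    rw [S.g_zero (n + 1), S.θ_succ n, mul_assoc (S.θ n * S.φ n), hχ, mul_assoc (S.θ n * S.φ n)]
    rfl
  rw [e]
  exact (hD n).opn _ _ (((S.θ_in n).mul (S.φ_in n)).mul (Cfg.k_in hwA)) hχA hw3

/-- **Pure continuous reading** -/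
theorem prop {A : Set I} (hA : IsLowerSet A) : PropAt A := by
  have key : ∀ b : I, PropAt (Set.Iio b) := by
    intro b
    induction b using WellFoundedLT.induction with
    | ind b ih => exact propAt_of (isLowerSet_Iio b) fun b' hb' => ih b' hb'
  exact propAt_of hA fun b _ => key b

end Pool.Agent.Mil
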