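import Mathlib
import Pool.Agent.Lib.Mil.Prop

/-!
# Mil.CL0 (size 110): a function becomes constant on the pieces at `b`

Proof. Let `f` be `LC C` (`C` countable), `D = {ρ | ∃ v, ∀ x, f (ρ.mp x) = v}`. `DO univ D`: open: `mul_mp`. Dense: given `φ`, `f ∘ φ.mp` is locally constant (`Spt.lc_comp`), so
near the point `x0 = 0` it is constant: `F, n` with `f (φ.mp y) = f (φ.mp x0)` for `Ag F n x0 y`; `χ = (Cfg.of F n x0).k`; `Cfg.k_mp`, `pre_mem`, `Cfg.ag_of`.
`stepB` with `A = univ` (`isLowerSet_univ`), `prop (isLowerSet_Iio b)`, gives `φ`, `Fix (insert b F') N φ`, `C1 ⊆ Iic b`, `π`, with `φ * (π x).k ∈ D`.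
So `f (φ.mp y)` is constant for `y ∈ Cy (π x).u` (`y = pre u (unp u y)`, `pre_unp`). Put for `s k x`: `c s k x = f (φ.mp x')` where
`x' = Function.update x b (cat (s ++ [k]) 0)` (the point `x` with the coordinate `b` replaced).
If `(s, k)` is a piece and `Pf (s ++ [k]) (x b)` then `π x = π x'` (last clause of `stepB`), both points are in `Cy (π x).u`, so `f (φ.mp x) = c s k x`.
`LC`: let `C' = C1 ∪ support`; for fixed `(s, k)`: the function `x ↦ f (φ.mp x')` depends for a piece only on `π x'`, and `x ↦ π x'` is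
`LC (C1 ∩ Iio b)`: `hπ.lc` composed with `x ↦ x'` (`LC.comp`: the coordinates `x' a i` are `LC {a}` for `a ≠ b` and constant for `a = b`; use `C1 ∩ Iio b`, since `C1 ⊆ Iic b`).
So `c s k = g ∘ (x ↦ π x')` (if `π x' = π y'` then both points `x', y'` lie in the same cylinder, hence `f (φ.mp x') = f (φ.mp y')`). For `(s, k)` which is not a piece define
`c s k x` to be a constant, e.g. `f (φ.mp 0)`; so define `c` by `if Piece N s k then _ else _`.
Last clause: `Bd` depends only on coordinates `< b`: `f (φ.mp x') ∈ Bd (φ.mp x') = Bd (φ.mp x)` (`Gam.mp_congr`, `LC.eq_of`).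
-/

set_option autoImplicit false
set_option linter.unusedSectionVars false

namespace Pool.Agent.Mil

variable {I : Type} [LinearOrder I] [WellFoundedLT I]

section
omit [WellFoundedLT I]

/-- the conditions below which `f` is constant -/
private theorem CL0_do {α : Type} {f : Pt I → α} {C : Set I} (hf : LC C f) :
    DO Set.univ {ρ : Gam I | ∃ v, ∀ x, f (ρ.mp x) = v} := by
  refine ⟨fun φ χ _ _ h => ?_, fun φ _ => ?_⟩
  · obtain ⟨v, hv⟩ := h
    exact ⟨v, fun x => by rw [Gam.mul_mp]; exact hv _⟩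
  · obtain ⟨C', -, hC'⟩ := φ.exists_spt
    have h1 : LC (C ∪ C') (fun x => f (φ.mp x)) :=
      hC'.lc_comp hf Set.subset_union_left fun a _ d hd => Or.inr hd.1
    obtain ⟨F, -, n, hn⟩ := h1 (fun _ _ => 0)
    refine ⟨(Cfg.of F n fun _ _ => 0).k, Cfg.k_in (Set.subset_univ _), f (φ.mp fun _ _ => 0),
      fun x => ?_⟩
    rw [Gam.mul_mp, Cfg.k_mp]
    exact hn _ (Cfg.ag_of (pre_mem _ _))

end

theorem color0 {b : I} {F' : Finset I} (hF' : ∀ a ∈ F', a < b) {N : ℕ} (hN : 0 < N) {α : Type}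
    {f : Pt I → α} {C : Set I} (hC : C.Countable) (hf : LC C f)
    {Bd : Pt I → Finset α} (hBd : LC (C ∩ Set.Iio b) Bd) (hb : ∀ x, f x ∈ Bd x) :
    ∃ φ : Gam I, Fix (insert b F') N φ ∧ ∃ C' : Set I, C'.Countable ∧ ∃ c : List ℕ → ℕ → Pt I → α,
      (∀ s k, LC (C' ∩ Set.Iio b) (c s k)) ∧
      (∀ x s k, Piece N s k → Pf (s ++ [k]) (x b) → f (φ.mp x) = c s k x) ∧
      ∀ x s k, Piece N s k → c s k x ∈ Bd (φ.mp x) := by
  classical
  obtain ⟨φ, -, hfix, C1, hC1, hC1b, π, hπ, hπD, hlast⟩ := stepB isLowerSet_univ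
    (Set.mem_univ b) (prop (isLowerSet_Iio b)) hF' hN (CL0_do hf)
  -- `f` is constant on the cylinders of the partition
  have hcon : ∀ x y, π x = π y → f (φ.mp x) = f (φ.mp y) := by
    intro x y hxy
    obtain ⟨v, hv⟩ := hπD x
    have h1 : ∀ z ∈ Cy (π x).u, f (φ.mp z) = v := by
      intro z hz
      have h2 := hv (unp (π x).u z)
      rwa [Gam.mul_mp, Cfg.k_mp, pre_unp hz] at h2
    rw [h1 x (hπ.mem x), h1 y (by rw [hxy]; exact hπ.mem y)]
  obtain ⟨T, hT⟩ : ∃ T : List ℕ → ℕ → Pt I → Pt I, T = fun s k x =>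
      Function.update x b (cat (s ++ [k]) fun _ => 0) := ⟨_, rfl⟩
  have hTb : ∀ s k x, T s k x b = cat (s ++ [k]) fun _ => 0 := fun s k x => by
    rw [hT]
    exact Function.update_self _ _ _
  have hTa : ∀ s k x a, a < b → T s k x a = x a := fun s k x a ha => by
    rw [hT]
    exact Function.update_of_ne ha.ne _ _
  refine ⟨φ, hfix, C1, hC1, fun s k x => if Piece N s k then f (φ.mp (T s k x)) else
    f (φ.mp fun _ _ => 0), fun s k => ?_, fun x s k hp hpf => ?_, fun x s k hp => ?_⟩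
  · by_cases hp : Piece N s k
    · simp only [hp, if_true]
      obtain ⟨g, hg⟩ : ∃ g : Cfg I → α, ∀ z, f (φ.mp z) = g (π z) := by
        refine ⟨fun w => if h : ∃ z, π z = w then f (φ.mp h.choose) else f (φ.mp fun _ _ => 0),
          fun z => ?_⟩
        have h : ∃ z', π z' = π z := ⟨z, rfl⟩
        simp only [h, dif_pos]
        exact hcon _ _ h.choose_spec.symm
      have h1 : LC (C1 ∩ Set.Iio b) (fun x => π (T s k x)) := by
        refine hπ.lc.comp fun a ha i => ?_
        rcases (show a ≤ b from hC1b ha).eq_or_lt with rfl | hab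
        · simp only [hTb]
          exact LC.const _ _
        · simp only [hTa s k _ a hab]
          exact LC.coord (C := C1 ∩ Set.Iio b) (a := a) ⟨ha, hab⟩ i
      simp only [hg]
      exact h1.comp₁ g
    · simp only [hp, if_false]
      exact LC.const _ _
  · simp only [hp, if_true]
    exact hcon _ _ (hlast s k hp x (T s k x) (fun a ha => (hTa s k x a ha).symm) hpf
      (by rw [hTb]; exact pf_cat _ _))
  · simp only [hp, if_true]
    have h1 : Bd (φ.mp (T s k x)) = Bd (φ.mp x) := hBd.eq_of fun a ha =>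
      φ.mp_congr a fun d hd => hTa s k x d (lt_of_le_of_lt hd ha.2)
    rw [← h1]
    exact hb _

end Pool.Agent.Mil
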