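import Mathlib
import Pool.Agent.Lib.Mil.Stmt

/-!
# Mil.CL1 (size 130): a colour which is forced to appear infinitely often

`c k : Pt I → α`, `k ∈ ℕ`, are locally constant with countable support below `b`; for `k ≥ k0` the value `c k x` is in the finite set `Bd x`.
`Eset b c` : the conditions `ρ` with support below `b` for which there is a colour `v` such that below `ρ` it is dense to have `∃ k ≥ m`, `c k` constant `= v`, for all `m`.

Proof that it is open and dense in `Iio b`. Open: if `ρ ∈ E` with colour `v` and `χ.In (Iio b)`, then for `m`, `χ₁.In` apply the definition to `χ * χ₁` (`mul_assoc`).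
Dense: let `ρ.In (Iio b)`. First restrict: `Bd ∘ ρ.mp` is locally constant; take `w : Cfg I` with support in `C ∩ Iio b` such that `Bd ((ρ * w.k).mp x) = B0` for all `x`
(as in the other files: `Cfg.of F n 0`). Put `ρ0 = ρ * w.k`, it is `In (Iio b)` (`Cfg.k_in`). Suppose no `χ.In (Iio b)` has `ρ0 * χ ∈ E`. Claim: for all finite `T ⊆ α` there are
`χ.In (Iio b)` and `m` with `∀ v ∈ T, ∀ k ≥ m, ∀ x, c k ((ρ0 * χ).mp x) ≠ v`. Induction on `T`: `∅` trivial. `insert v T`: have `χ, m`. As `ρ0 * χ ∉ E`, the colour `v` fails: there are `m'`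
and `χ₁.In (Iio b)` such that for all `χ'.In (Iio b)`, `k ≥ m'`: not (`∀ x, c k ((ρ0 * χ * χ₁ * χ').mp x) = v`). Then `∀ k ≥ m', ∀ x, c k ((ρ0 * χ * χ₁).mp x) ≠ v`: otherwise,
if equality holds at `x`, then by local constancy (`Spt.lc_comp`, supports below `b`: here `c k` is `LC (C ∩ Iio b)` and the support of `ρ0 χ χ₁` can be taken in `Iio b` by `Spt.inter`) it
holds on `Cy (Cfg.of F n x).u` with `F ⊆ Iio b`, and `χ' = (Cfg.of F n x).k` contradicts. The colours in `T` are still avoided (the points `(ρ0 * χ * χ₁).mp x` are of the form `(ρ0 * χ).mp y`).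
Take `max m m'`. For `T = B0` and `k = max m k0` the value `c k ((ρ0 * χ).mp x)` is in `Bd ((ρ0 χ).mp x) = B0` (as `(ρ0 χ).mp x = ρ0.mp (χ.mp x)`): contradiction.
-/

set_option autoImplicit false
set_option linter.unusedSectionVars false

namespace Pool.Agent.Mil

variable {I : Type} [LinearOrder I]

/-- below `ρ` the colour `v` appears infinitely often -/
def Col {α : Type} (b : I) (c : ℕ → Pt I → α) (v : α) (ρ : Gam I) : Prop :=
  ∀ (m : ℕ) (χ : Gam I), χ.In (Set.Iio b) → ∃ χ' : Gam I, χ'.In (Set.Iio b) ∧ ∃ k ≥ m,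
    ∀ x, c k ((ρ * χ * χ').mp x) = v

theorem Col.mul {α : Type} {b : I} {c : ℕ → Pt I → α} {v : α} {ρ : Gam I} (h : Col b c v ρ) {χ : Gam I}
    (hχ : χ.In (Set.Iio b)) : Col b c v (ρ * χ) := by
  intro m χ₁ h₁
  obtain ⟨χ', h2, k, h3, h4⟩ := h m (χ * χ₁) (hχ.mul h₁)
  exact ⟨χ', h2, k, h3, fun x => by rw [← h4 x]; simp only [mul_assoc]⟩

/-- below a condition with support in `Iio b` a locally constant function becomes constant -/
private theorem CL1_const {b : I} {β : Type} {C : Set I} {f : Pt I → β} (hf : LC (C ∩ Set.Iio b) f)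
    {θ : Gam I} (hθ : θ.In (Set.Iio b)) (x : Pt I) :
    ∃ χ : Gam I, χ.In (Set.Iio b) ∧ ∀ y, f ((θ * χ).mp y) = f (θ.mp x) := by
  obtain ⟨C', -, hC'⟩ := θ.exists_spt
  have hsp := hC'.inter (isLowerSet_Iio b) hθ
  have h1 : LC ((C ∪ C') ∩ Set.Iio b) (fun x => f (θ.mp x)) := by
    refine hsp.lc_comp hf (fun a ha => ⟨Or.inl ha.1, ha.2⟩) ?_
    rintro a - d ⟨⟨hd1, hd2⟩, -⟩
    exact ⟨Or.inr hd1, hd2⟩
  obtain ⟨F, hF, n, hn⟩ := h1 x
  refine ⟨(Cfg.of F n x).k, Cfg.k_in ((Cfg.of_sp F n x).trans fun a ha => (hF ha).2), fun y => ?_⟩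
  rw [Gam.mul_mp, Cfg.k_mp]
  exact hn _ (Cfg.ag_of (pre_mem _ _))

theorem color1 {b : I} {α : Type} {C : Set I} (hC : C.Countable) {c : ℕ → Pt I → α}
    (hc : ∀ k, LC (C ∩ Set.Iio b) (c k)) {Bd : Pt I → Finset α} (hBd : LC (C ∩ Set.Iio b) Bd) {k0 : ℕ}
    (hb : ∀ x, ∀ k ≥ k0, c k x ∈ Bd x) : DO (Set.Iio b) {ρ : Gam I | ∃ v, Col b c v ρ} := by
  classical
  refine ⟨fun φ χ _ hχ h => ?_, fun ρ hρ => ?_⟩
  · obtain ⟨v, hv⟩ := h
    exact ⟨v, hv.mul hχ⟩
  · by_contra hcon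
    have H : ∀ χ : Gam I, χ.In (Set.Iio b) → ∀ v, ¬ Col b c v (ρ * χ) := fun χ hχ v hv =>
      hcon ⟨χ, hχ, v, hv⟩
    obtain ⟨κ, hκ, hκ2⟩ := CL1_const hBd hρ (fun _ _ => 0)
    have hρκ : (ρ * κ).In (Set.Iio b) := hρ.mul hκ
    have claim : ∀ T : Finset α, ∃ χ : Gam I, χ.In (Set.Iio b) ∧ ∃ m, ∀ v ∈ T, ∀ k ≥ m,
        ∀ x, c k ((ρ * κ * χ).mp x) ≠ v := by
      intro T
      induction T using Finset.induction_on with
      | empty => exact ⟨1, Gam.in_one _, 0, by simp⟩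
      | insert v T _ ih =>
        obtain ⟨χ, hχ, m, hm⟩ := ih
        have h1 := H (κ * χ) (hκ.mul hχ) v
        rw [← mul_assoc] at h1
        have h2 : ∃ (m' : ℕ) (χ₁ : Gam I), χ₁.In (Set.Iio b) ∧ ∀ χ' : Gam I, χ'.In (Set.Iio b) →
            ∀ k ≥ m', ¬ ∀ x, c k ((ρ * κ * χ * χ₁ * χ').mp x) = v := by
          by_contra h3
          refine h1 fun m' χ₁ hχ₁ => ?_
          by_contra h4
          refine h3 ⟨m', χ₁, hχ₁, fun χ' hχ' k hk h5 => h4 ⟨χ', hχ', k, hk, h5⟩⟩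
        obtain ⟨m', χ₁, hχ₁, h3⟩ := h2
        refine ⟨χ * χ₁, hχ.mul hχ₁, max m m', fun v' hv' k hk x => ?_⟩
        rw [← mul_assoc]
        rcases Finset.mem_insert.1 hv' with rfl | hv'
        · intro h4
          obtain ⟨χ', hχ', h5⟩ := CL1_const (hc k) ((hρκ.mul hχ).mul hχ₁) x
          exact h3 χ' hχ' k ((le_max_right _ _).trans hk) fun y => (h5 y).trans h4
        · rw [Gam.mul_mp]
          exact hm v' hv' k ((le_max_left _ _).trans hk) _
    obtain ⟨χ, -, m, hm⟩ := claim (Bd (ρ.mp fun _ _ => 0))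
    have h1 := hb ((ρ * κ * χ).mp fun _ _ => 0) (max m k0) (le_max_right _ _)
    have h2 : Bd ((ρ * κ * χ).mp fun _ _ => 0) = Bd (ρ.mp fun _ _ => 0) := by
      rw [Gam.mul_mp]
      exact hκ2 _
    rw [h2] at h1
    exact hm _ h1 _ (le_max_left _ _) _ rfl

end Pool.Agent.Mil
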