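import Mathlib
import Pool.Agent.Lib.Mil.Prop
import Pool.Agent.Lib.Mil.CL1

/-!
# Mil.CL2 (size 170): continuous choice of the colours

For every `s : List ℕ` with `cd s < N` there is a sequence of colours `c s k`, `k ∈ ℕ`. We find `ρ` which fixes the nodes with code `< N` at the coordinates of `F'`, and colours
`v s x` (locally constant) which appear infinitely often in `c s k (ρ.mp x)`.

Proof. Step 1: `prop (isLowerSet_Iio b)` with `D i = {ρ | ∃ v, Col b (c (uncd i)) v ρ}` for `i < N` (`color1`), `D i = univ` otherwise (`univ` is `DO`: `⟨fun _ _ _ _ _ => trivial, fun _ _ => ⟨1, ..⟩⟩`),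
gives `ρ1.In (Iio b)`, `Fix F' N ρ1`, `C1`, `Loc C1 (D i) ρ1`. `exists_par` for each `s` with `cd s < N` (property `P w := ∃ w', sp w'.u ⊆ C1 ∧ Ext w'.u w.u ∧ ρ1 * w'.k ∈ D (cd s)`; the partition has supports
in `C1 ⊆ Iio b`, so by openness (`Cfg.k_mul_dif`) `ρ1 * (π_s x).k ∈ D (cd s)`): a partition `π_s` and colours `v_s (w)` with `Col b (c s) (v_s (π_s x)) (ρ1 * (π_s x).k)` for all `x`
(choose `v_s` as a function on configurations, as in `exists_sel`).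
Step 2: for `s` with `cd s < N` and `m` the set `D' s m = {χ | ∃ x0, χ.Into (π_s x0).u ∧ ∃ k ≥ m, ∀ x, c s k ((ρ1 * χ).mp x) = v_s (π_s x0)}` is open and dense in `Iio b`:
open: `Into.mul`, `mul_mp`. dense: `χ.In (Iio b)`; `x0 := χ.mp 0`, `w = π_s x0`; by continuity of `χ.mp` at `0` there is `w1 = Cfg.of F n 0` with support in `Iio b` and `χ * w1.k` `Into w.u`
(`Spt.lc_mp`, `Spt.inter`; `LC.finset` over the support of `w`, `Cfg.exists_len`), so `χ * w1.k = w.k * χ1` (`Into.factor`), `χ1.In (Iio b)` (compare `e a` for `a ∉ Iio b`: `w.u a = []`). `Col` for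
`ρ1 * w.k` at `m, χ1` gives `χ'`, `k ≥ m` with `c s k ((ρ1 * w.k * χ1 * χ').mp x) = v_s w`; so `χ * (w1.k * χ') ∈ D' s m`.
`prop` again (number the pairs `(s, m)` by `Nat.pair (cd s) m`; `univ` for `cd s ≥ N`) gives `ρ2.In (Iio b)`, `Fix F' N ρ2`, `Loc C2 (D' s m) ρ2`. Put `ρ = ρ1 * ρ2`, `v s x = v_s (π_s (ρ2.mp x))` for `cd s < N`
(`LC`: `π_s` is `LC C1`, `Spt.lc_comp`; all supports below `b`) and a constant function (`c s 0 0`) otherwise.
Given `x, s, m`: `w` with `x ∈ Cy w.u`, `ρ2 * w.k ∈ D' s m`: `x = w.k.mp (unp w.u x)`, so `ρ2.mp x` is in the image of `ρ2 * w.k`, so `ρ2.mp x ∈ Cy (π_s x0).u`, `π_s (ρ2.mp x) = π_s x0` (`Par.par`) and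
`c s k (ρ.mp x) = v_s (π_s x0) = v s x` for the `k ≥ m`.
-/

set_option autoImplicit false
set_option linter.unusedSectionVars false

namespace Pool.Agent.Mil

variable {I : Type} [LinearOrder I] [WellFoundedLT I]

private theorem cl2_univ {A : Set I} : DO A (Set.univ : Set (Gam I)) :=
  ⟨fun _ _ _ _ _ => trivial, fun _ _ => ⟨1, Gam.in_one A, trivial⟩⟩

/-- the partitions of step 1 -/
private theorem cl2_par {b : I} {α : Type} {C1 : Set I} (hC1 : C1.Countable) (hC1b : C1 ⊆ Set.Iio b)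
    {c : ℕ → Pt I → α} {ρ1 : Gam I} (h : Loc C1 {ρ : Gam I | ∃ v, Col b c v ρ} ρ1) :
    ∃ π : Pt I → Cfg I, Par C1 π ∧ ∀ x, ∃ v, Col b c v (ρ1 * (π x).k) := by
  obtain ⟨π, h1, h2⟩ := exists_par hC1
    (P := fun w => ∃ w' : Cfg I, sp w'.u ⊆ C1 ∧ Ext w'.u w.u ∧ ∃ v, Col b c v (ρ1 * w'.k))
    (fun w v hwv ⟨w', h1, h2, h3⟩ => ⟨w', h1, h2.trans hwv, h3⟩) (fun x => by
      obtain ⟨w, hw1, hw2, hw3⟩ := h x
      exact ⟨w, hw1, hw2, w, hw1, Ext.refl _, hw3⟩)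
  refine ⟨π, h1, fun x => ?_⟩
  obtain ⟨w', -, h4, v, h5⟩ := h2 x
  refine ⟨v, ?_⟩
  rw [← Cfg.k_mul_dif h4, ← mul_assoc]
  refine h5.mul (Cfg.k_in ?_)
  exact (sp_dif _ _).trans ((h1.sup x).trans hC1b)

/-- near a point the map `χ.mp` stays in a cylinder -/
private theorem cl2_near {b : I} {χ : Gam I} (hχ : χ.In (Set.Iio b)) {w : Cfg I}
    (hw : sp w.u ⊆ Set.Iio b) {x : Pt I} (hx : χ.mp x ∈ Cy w.u) :
    ∃ w1 : Cfg I, sp w1.u ⊆ Set.Iio b ∧ (χ * w1.k).Into w.u := by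
  obtain ⟨T, -, hT⟩ := χ.exists_spt
  have hT' := hT.inter (isLowerSet_Iio b) hχ
  obtain ⟨L, hL⟩ := w.exists_len
  obtain ⟨F₁, hF₁, m, hm⟩ := LC.finset (C := Set.Iio b) (w.fin.toFinset ×ˢ Finset.range L)
    (β := fun _ => ℕ) (fun p x => χ.mp x p.1 p.2) (by
      rintro ⟨a, i⟩ hp
      have ha : a ∈ sp w.u := by
        have := (Finset.mem_product.1 hp).1
        exact (Set.Finite.mem_toFinset _).1 this
      refine (hT'.lc_mp a i).mono ?_
      rintro c (hc | hc)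
      · exact hc.1.2
      · rw [Set.mem_singleton_iff.1 hc]
        exact hw ha) x
  refine ⟨Cfg.of F₁ m x, (Cfg.of_sp F₁ m x).trans hF₁, fun z => ?_⟩
  rw [Gam.mul_mp, Cfg.k_mp]
  refine Cfg.mem_cy_of_ag (F := w.fin.toFinset) (n := L) hx (by simp) hL fun a ha i hi => ?_
  exact hm _ (Cfg.ag_of (pre_mem _ z)) (a, i) (Finset.mem_product.2 ⟨ha, Finset.mem_range.2 hi⟩)

/-- the sets of step 2 are open and dense -/
private theorem cl2_do {b : I} {α : Type} {C1 : Set I} (hC1b : C1 ⊆ Set.Iio b)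
    {c : ℕ → Pt I → α} {ρ1 : Gam I} {π : Pt I → Cfg I} (hπ : Par C1 π) {vs : Cfg I → α}
    (hv : ∀ x, Col b c (vs (π x)) (ρ1 * (π x).k)) (m : ℕ) :
    DO (Set.Iio b) {χ : Gam I | ∃ x0, χ.Into (π x0).u ∧ ∃ k ≥ m, ∀ x,
      c k ((ρ1 * χ).mp x) = vs (π x0)} := by
  constructor
  · rintro φ χ - - ⟨x0, h1, k, h2, h3⟩
    refine ⟨x0, h1.mul χ, k, h2, fun x => ?_⟩
    rw [← mul_assoc, Gam.mul_mp]
    exact h3 _
  · intro χ hχ
    have hwb : sp (π (χ.mp (fun _ _ => 0))).u ⊆ Set.Iio b := (hπ.sup _).trans hC1b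
    obtain ⟨w1, hw1, hinto⟩ := cl2_near hχ hwb (hπ.mem (χ.mp (fun _ _ => 0)))
    set y0 := χ.mp (fun _ _ => 0) with hy0
    obtain ⟨χ1, hχ1⟩ := hinto.factor (π y0).fin.countable
    have hχ1b : χ1.In (Set.Iio b) := by
      intro a ha y s
      have h1 := congrFun (congrFun (congrFun (congrArg Gam.e hχ1) a) y) s
      rw [Gam.mul_e, Gam.mul_e, kk_e, Cfg.k_e, hχ a ha] at h1
      have h2 : w1.u a = [] := by
        by_contra hc
        exact ha (hw1 hc)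
      have h3 : (π y0).u a = [] := by
        by_contra hc
        exact ha (hwb hc)
      rw [h2, h3, List.nil_append, List.nil_append] at h1
      exact h1.symm
    obtain ⟨χ', h4, k, h5, h6⟩ := hv y0 m χ1 hχ1b
    refine ⟨w1.k * χ', (Cfg.k_in hw1).mul h4, y0, ?_, k, h5, fun x => ?_⟩
    · rw [← mul_assoc]
      exact hinto.mul χ'
    · have e : ρ1 * (χ * (w1.k * χ')) = ρ1 * (π y0).k * χ1 * χ' := by
        rw [← mul_assoc χ, hχ1, mul_assoc ρ1, mul_assoc ρ1]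
        rfl
      rw [e]
      exact h6 x

theorem color2 {b : I} {F' : Finset I} (hF' : ∀ a ∈ F', a < b) {N : ℕ} {α : Type} {C : Set I} (hC : C.Countable)
    {c : List ℕ → ℕ → Pt I → α} (hc : ∀ s k, LC (C ∩ Set.Iio b) (c s k))
    {Bd : Pt I → Finset α} (hBd : LC (C ∩ Set.Iio b) Bd) {k0 : ℕ}
    (hb : ∀ s, cd s < N → ∀ x, ∀ k ≥ k0, c s k x ∈ Bd x) :
    ∃ ρ : Gam I, ρ.In (Set.Iio b) ∧ Fix F' N ρ ∧ ∃ C' : Set I, C'.Countable ∧ ∃ v : List ℕ → Pt I → α,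
      (∀ s, LC (C' ∩ Set.Iio b) (v s)) ∧
      ∀ s, cd s < N → ∀ x (m : ℕ), ∃ k ≥ m, c s k (ρ.mp x) = v s x := by
  classical
  -- step 1
  obtain ⟨ρ1, hρ1, hfix1, C1, hC1, hC1b, hloc1⟩ := prop (isLowerSet_Iio b) F' (fun a ha => hF' a ha) N
    (fun i => if i < N then {ρ : Gam I | ∃ v, Col b (c (uncd i)) v ρ} else Set.univ) (by
      intro i
      by_cases hi : i < N
      · simp only [hi, if_true]
        exact color1 hC (hc (uncd i)) hBd (hb (uncd i) (by rwa [cd_uncd]))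
      · simp only [hi, if_false]
        exact cl2_univ)
  have hpar : ∀ s, ∃ π : Pt I → Cfg I, Par C1 π ∧
      (cd s < N → ∀ x, ∃ v, Col b (c s) v (ρ1 * (π x).k)) := by
    intro s
    by_cases hs : cd s < N
    · have h1 := hloc1 (cd s)
      simp only [hs, if_true, uncd_cd] at h1
      obtain ⟨π, h2, h3⟩ := cl2_par hC1 hC1b h1
      exact ⟨π, h2, fun _ => h3⟩
    · refine ⟨fun _ => Cfg.nil, ⟨fun _ a ha => absurd rfl ha, fun _ a => pf_nil _, fun _ _ _ => rfl⟩,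
        fun h => absurd h hs⟩
  choose π hπ hπv using hpar
  set vs : List ℕ → Cfg I → α := fun s w => if h : ∃ v, Col b (c s) v (ρ1 * w.k) then h.choose
    else c s 0 (fun _ _ => 0) with hvs
  have hvs1 : ∀ s, cd s < N → ∀ x, Col b (c s) (vs s (π s x)) (ρ1 * (π s x).k) := by
    intro s hs x
    have h1 := hπv s hs x
    simp only [hvs, dif_pos h1]
    exact h1.choose_spec
  -- step 2
  obtain ⟨ρ2, hρ2, hfix2, C2, hC2, hC2b, hloc2⟩ := prop (isLowerSet_Iio b) F' (fun a ha => hF' a ha) N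
    (fun i => if i.unpair.1 < N then {χ : Gam I | ∃ x0, χ.Into (π (uncd i.unpair.1) x0).u ∧
      ∃ k ≥ i.unpair.2, ∀ x, c (uncd i.unpair.1) k ((ρ1 * χ).mp x) =
        vs (uncd i.unpair.1) (π (uncd i.unpair.1) x0)} else Set.univ) (by
      intro i
      by_cases hi : i.unpair.1 < N
      · simp only [hi, if_true]
        exact cl2_do hC1b (hπ _) (hvs1 (uncd i.unpair.1) (by rwa [cd_uncd])) _
      · simp only [hi, if_false]
        exact cl2_univ)
  obtain ⟨T, hT1, hT2⟩ := ρ2.exists_spt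
  refine ⟨ρ1 * ρ2, hρ1.mul hρ2, hfix1.mul hfix2, C1 ∪ T, hC1.union hT1,
    fun s x => if cd s < N then vs s (π s (ρ2.mp x)) else c s 0 (fun _ _ => 0), fun s => ?_, ?_⟩
  · by_cases hs : cd s < N
    · simp only [hs, if_true]
      refine LC.comp₁ ?_ (vs s)
      refine hT2.lc_comp (hπ s).lc (fun a ha => ⟨Or.inl ha, hC1b ha⟩) ?_
      rintro a ha a' ⟨h1, h2⟩
      exact ⟨Or.inr h1, lt_trans h2 (hC1b ha)⟩
    · simp only [hs, if_false]
      exact LC.const _ _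
  · intro s hs x m
    obtain ⟨w, -, hw2, hw3⟩ := hloc2 (Nat.pair (cd s) m) x
    simp only [Nat.unpair_pair, hs, if_true, uncd_cd] at hw3
    obtain ⟨x0, h1, k, h2, h3⟩ := hw3
    refine ⟨k, h2, ?_⟩
    have e1 : w.k.mp (unp w.u x) = x := by
      rw [Cfg.k_mp, pre_unp hw2]
    have h4 := h1 (unp w.u x)
    rw [Gam.mul_mp, e1] at h4
    have h5 := (hπ s).par x0 _ h4
    have h6 := h3 (unp w.u x)
    rw [Gam.mul_mp, Gam.mul_mp, e1] at h6
    simp only [hs, if_true]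
    rw [Gam.mul_mp, h6, h5]

end Pool.Agent.Mil
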