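import Mathlib
import Pool.Agent.Lib.Mil.CL0
import Pool.Agent.Lib.Mil.CL2

/-!
# Mil.Col (size 170): the colour lemma

A locally constant function which is bounded by a finite set depending only on the coordinates `< b` can be made constant on `{x | s is the last node of x b with code < N}` (over the
coordinates `< b`) by an element of `Gam` which fixes the nodes with code `< N` at `b` and at the finitely many coordinates of `F'` below `b`.

Proof. `color0` gives `φ0`, `c`. Let `k0 = N` (if `cd s < N` and `k ≥ N` then `(s, k)` is a piece: `le_cd`). `color2` for `c` and the bound `fun x => Bd (φ0.mp x)` (`LC` with countable support below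
`b`: `Spt.lc_comp`; enlarge the countable sets with `LC.mono`) gives `ρ`, `v`. For `s` with `cd s < N` and `x` let `K s x = {k | Piece N s k ∧ c s k (ρ.mp x) = v s x}`; it is infinite
(for `m` take `k ≥ max m N`). Put `κ s x k = Nat.nth (· ∈ K s x) k`: strictly increasing, values in `K s x`, `k ≤ κ s x k` (`Nat.nth_strictMono`, `Nat.nth_mem_of_infinite`, `StrictMono.le_apply`).
Coordinate `b`: `η x = glu N (fun s k r => s ++ [κ s x k] ++ r)`. `glu_stp` with `j k = k` if `cd (s ++ [k]) < N`, `j k = κ s x k` otherwise: strictly increasing because `{k | cd (s ++ [k]) < N}` is an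
initial segment of `ℕ` (`cd_mono`) and `k ≤ κ s x k`; `Stp (fun r => s ++ [κ s x k] ++ r)` with `j = id`.
`LC (C'' ∩ Iio b)` for every list `t`: if `cd t < N` constant; otherwise only `κ s x k` for `(s, k) = pce N t` matters. `κ s x k = n` is decided by the truth values of `m ∈ K s x` for `m ≤ n` (`Nat.nth_count`,
`Nat.count`): `κ s x k = n ↔ n ∈ K s x ∧ Nat.count (· ∈ K s x) n = k`; each `m ∈ K s x` is a locally constant condition. So: given `x`, `n = κ s x k`, `LC.finset` over `Finset.range (n + 1)`.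
`exists_upd` for `ρ` at `b` with `η` gives `φ1` (`φ1.e a = ρ.e a` for `a ≠ b`). `φ = φ0 * φ1`; `Fix (insert b F') N φ1`: `glu_lt` at `b`, `Fix F' N ρ` at `a ∈ F'` (`a ≠ b`). `φ1.mp x a = ρ.mp x a` for `a < b`.
Let `(s, k)` be a piece with `Pf (s ++ [k]) (x b)`: then `φ1.e b x (s ++ [k]) = s ++ [κ]`, `κ = κ s x k ∈ K s x`, so `Pf (s ++ [κ]) (φ1.mp x b)` (`pf_mp`), `(s, κ)` is a piece, and
`f (φ.mp x) = f (φ0.mp (φ1.mp x)) = c s κ (φ1.mp x) = c s κ (ρ.mp x) = v s x` (`c s κ` depends only on coordinates `< b`: `LC.eq_of`). The value is in `Bd (φ.mp x)`: clear from `hb`; the last clause needs one point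
of every piece: for `cd s < N` and `x` take `x'` = `x` with the coordinate `b` replaced by `cat (s ++ [N]) 0`: `v s x = v s x' = f (φ.mp x') ∈ Bd (φ.mp x') = Bd (φ.mp x)`.
-/

set_option autoImplicit false
set_option linter.unusedSectionVars false

namespace Pool.Agent.Mil

variable {I : Type} [LinearOrder I] [WellFoundedLT I]

private theorem col_nth {C : Set I} {P : Pt I → ℕ → Prop} (hP : ∀ m, LC C (fun x => P x m))
    (hinf : ∀ x, {m | P x m}.Infinite) (k : ℕ) : LC C (fun x => Nat.nth (P x) k) := by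
  classical
  intro x
  obtain ⟨F, hF, n, hn⟩ := LC.finset (C := C) (Finset.range (Nat.nth (P x) k + 1))
    (β := fun _ => Prop) (fun m x => P x m) (fun m _ => hP m) x
  refine ⟨F, hF, n, fun y hy => ?_⟩
  have h1 := hn y hy
  have h2 : ∀ m, m ≤ Nat.nth (P x) k → (P y m ↔ P x m) := fun m hm =>
    iff_of_eq (h1 m (Finset.mem_range.2 (Nat.lt_succ_of_le hm)))
  have h3 : P y (Nat.nth (P x) k) := (h2 _ le_rfl).2 (Nat.nth_mem_of_infinite (hinf x) k)
  have h4 : Nat.count (P y) (Nat.nth (P x) k) = k := by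
    have h5 : Nat.count (P x) (Nat.nth (P x) k) = k := Nat.count_nth_of_infinite (hinf x) k
    rw [Nat.count_eq_card_filter_range] at h5 ⊢
    refine Eq.trans (congrArg Finset.card (Finset.filter_congr fun m hm => ?_)) h5
    exact h2 m (Finset.mem_range.1 hm).le
  show Nat.nth (P y) k = Nat.nth (P x) k
  conv_lhs => rw [← h4]
  exact Nat.nth_count (p := P y) h3

theorem color {b : I} {F' : Finset I} (hF' : ∀ a ∈ F', a < b) {N : ℕ} (hN : 0 < N) {α : Type}
    {f : Pt I → α} {C : Set I} (hC : C.Countable) (hf : LC C f)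
    {Bd : Pt I → Finset α} (hBd : LC (C ∩ Set.Iio b) Bd) (hb : ∀ x, f x ∈ Bd x) :
    ∃ φ : Gam I, Fix (insert b F') N φ ∧ ∃ C' : Set I, C'.Countable ∧ ∃ v : List ℕ → Pt I → α,
      (∀ s, LC (C' ∩ Set.Iio b) (v s)) ∧
      (∀ x s k, Piece N s k → Pf (s ++ [k]) (x b) → f (φ.mp x) = v s x) ∧
      ∀ x s, cd s < N → v s x ∈ Bd (φ.mp x) := by
  classical
  obtain ⟨φ0, hF0, C1, hC1, c, hcL, hcf, hcB⟩ := color0 hF' hN hC hf hBd hb
  obtain ⟨C3, hC3, hS0⟩ := φ0.exists_spt
  obtain ⟨ρ, hρI, hρF, C4, hC4, v, hvL, hv⟩ := color2 (b := b) hF' (N := N) (C := C1 ∪ (C ∪ C3))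
    (hC1.union (hC.union hC3)) (c := c)
    (fun s k => (hcL s k).mono (Set.inter_subset_inter_left _ Set.subset_union_left))
    (Bd := fun x => Bd (φ0.mp x))
    (hS0.lc_comp hBd (Set.inter_subset_inter_left _ fun a ha => Or.inr (Or.inl ha))
      (by
        rintro a ⟨-, ha⟩ d ⟨hd1, hd2⟩
        exact ⟨Or.inr (Or.inr hd1), lt_trans hd2 ha⟩)) (k0 := N)
    (fun s hs x k hk => hcB x s k ⟨hs, le_trans hk (le_cd s k)⟩)
  obtain ⟨C6, hC6, hS6⟩ := ρ.exists_spt
  let P : List ℕ → Pt I → ℕ → Prop := fun s x k => Piece N s k ∧ c s k (ρ.mp x) = v s x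
  have hinf : ∀ s, cd s < N → ∀ x, {m | P s x m}.Infinite := by
    intro s hs x
    rw [Set.infinite_iff_exists_gt]
    intro a
    obtain ⟨k, hk, he⟩ := hv s hs x (max (a + 1) N)
    exact ⟨k, ⟨⟨hs, ((le_max_right _ _).trans hk).trans (le_cd s k)⟩, he⟩,
      lt_of_lt_of_le (Nat.lt_succ_self a) ((le_max_left _ _).trans hk)⟩
  let D : Set I := (C1 ∪ C4 ∪ C6) ∪ {b}
  have hD : D.Countable := ((hC1.union hC4).union hC6).union (Set.countable_singleton b)
  have hPL : ∀ s m, LC (D ∩ Set.Iio b) (fun x => P s x m) := by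
    intro s m
    have h1 : LC (D ∩ Set.Iio b) (fun x => c s m (ρ.mp x)) :=
      hS6.lc_comp (hcL s m) (Set.inter_subset_inter_left _ fun a ha => Or.inl (Or.inl (Or.inl ha)))
        (by
          rintro a ⟨-, ha⟩ d ⟨hd1, hd2⟩
          exact ⟨Or.inl (Or.inr hd1), lt_trans hd2 ha⟩)
    have h2 : LC (D ∩ Set.Iio b) (v s) :=
      (hvL s).mono (Set.inter_subset_inter_left _ fun a ha => Or.inl (Or.inl (Or.inr ha)))
    exact h1.comp₂ h2 (fun p q => Piece N s m ∧ p = q)
  let κ : List ℕ → Pt I → ℕ → ℕ := fun s x k => Nat.nth (P s x) k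
  have hκm : ∀ s, cd s < N → ∀ x, StrictMono (κ s x) := fun s hs x => Nat.nth_strictMono (hinf s hs x)
  have hκP : ∀ s, cd s < N → ∀ x k, P s x (κ s x k) := fun s hs x k =>
    Nat.nth_mem_of_infinite (hinf s hs x) k
  let η : Pt I → List ℕ → List ℕ := fun x => glu N (fun s k r => s ++ [κ s x k] ++ r)
  have hη : ∀ x, Stp (η x) := by
    intro x
    refine glu_stp hN (fun s k _ t => ⟨fun l => l, strictMono_id, fun l => ?_⟩) (fun s hs => ?_)
    · show s ++ [κ s x k] ++ t ++ [l] <+: s ++ [κ s x k] ++ (t ++ [l])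
      rw [List.append_assoc (s ++ [κ s x k])]
    · refine ⟨fun k => if cd (s ++ [k]) < N then k else κ s x k, fun k l hkl => ?_, fun k hk => if_pos hk,
        fun k hk => ?_⟩
      · show (if cd (s ++ [k]) < N then k else κ s x k) < (if cd (s ++ [l]) < N then l else κ s x l)
        by_cases h1 : cd (s ++ [l]) < N
        · rw [if_pos h1, if_pos ((cd_mono s hkl).trans h1)]
          exact hkl
        · rw [if_neg h1]
          by_cases h2 : cd (s ++ [k]) < N
          · rw [if_pos h2]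
            exact lt_of_lt_of_le hkl (hκm s hs x).le_apply
          · rw [if_neg h2]
            exact hκm s hs x hkl
      · show s ++ [if cd (s ++ [k]) < N then k else κ s x k] <+: s ++ [κ s x k] ++ []
        rw [if_neg (not_lt.2 hk.2), List.append_nil]
  have hηL : ∀ t, LC (D ∩ Set.Iio b) (fun x => η x t) := by
    intro t
    by_cases ht : cd t < N
    · have h1 : (fun x => η x t) = fun _ => t := funext fun x => glu_lt ht
      rw [h1]
      exact LC.const _ _
    · obtain ⟨s, k, hp, r, rfl⟩ := exists_piece hN (not_lt.1 ht)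
      have h1 : (fun x => η x (s ++ [k] ++ r)) = fun x => s ++ [κ s x k] ++ r :=
        funext fun x => glu_piece hp r
      rw [h1]
      exact (col_nth (hPL s) (hinf s hp.1) k).comp₁ fun n => s ++ [n] ++ r
  obtain ⟨φ1, hS1, hb1, ha1⟩ := exists_upd hD (hS6.mono fun a ha => Or.inl (Or.inr ha))
    (show b ∈ D from Or.inr rfl) η hη hηL
  have hmp : ∀ x, ∀ a < b, φ1.mp x a = ρ.mp x a := by
    intro x a ha
    rw [Gam.mp, Gam.mp]
    congr 1
    funext s
    exact ha1 a ha.ne x s
  have hmain : ∀ x s k, Piece N s k → Pf (s ++ [k]) (x b) → f ((φ0 * φ1).mp x) = v s x := by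
    intro x s k hp hpf
    have h1 : φ1.e b x (s ++ [k]) = s ++ [κ s x k] := by
      rw [hb1]
      show glu N (fun s k r => s ++ [κ s x k] ++ r) (s ++ [k]) = _
      rw [glu_piece' hp, List.append_nil]
    have h2 : Pf (s ++ [κ s x k]) (φ1.mp x b) := by
      rw [← h1]
      exact φ1.pf_mp hpf
    obtain ⟨h3, h4⟩ := hκP s hp.1 x k
    rw [Gam.mul_mp, hcf (φ1.mp x) s (κ s x k) h3 h2, ← h4]
    exact (hcL s (κ s x k)).eq_of fun a ha => hmp x a ha.2
  refine ⟨φ0 * φ1, hF0.mul ?_, C4, hC4, v, hvL, hmain, fun x s hs => ?_⟩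
  · intro a ha x s hs
    rcases Finset.mem_insert.1 ha with rfl | ha
    · rw [hb1]
      exact glu_lt hs
    · rw [ha1 a (hF' a ha).ne]
      exact hρF a ha x s hs
  · have hx' : ∀ a, a ≠ b → Function.update x b (cat (s ++ [N]) (fun _ => 0)) a = x a := fun a ha =>
      Function.update_of_ne ha _ _
    have h1 : v s (Function.update x b (cat (s ++ [N]) (fun _ => 0))) = v s x :=
      (hvL s).eq_of fun a ha => hx' a (ne_of_lt ha.2)
    have h2 := hmain (Function.update x b (cat (s ++ [N]) (fun _ => 0))) s N ⟨hs, le_cd s N⟩ (by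
      rw [Function.update_self]
      exact pf_cat _ _)
    have h3 : Bd ((φ0 * φ1).mp (Function.update x b (cat (s ++ [N]) (fun _ => 0)))) =
        Bd ((φ0 * φ1).mp x) :=
      hBd.eq_of fun a ha => Gam.mp_congr _ a fun d hd => hx' d (ne_of_lt (lt_of_le_of_lt hd ha.2))
    rw [← h1, ← h2, ← h3]
    exact hb _

end Pool.Agent.Mil
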