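import Mathlib
import Pool.Agent.Lib.Mil.Col

/-!
# Mil.Dec (size 250): decision along the nodes at one coordinate

`S n` depends only on the coordinates `≤ δ`; for `s` an initial segment of `x δ` and `n < (θ.e δ x s).length` the value `S n x` is in a finite set `Bd n s x` which depends only on the coordinates `< δ`. After
composition with some `g` with support in `Iic δ`, the value of `S n` for `n < ((θ * g).e δ x s).length` is decided by `s` and the coordinates `< δ`.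

Proof. `exists_fseq` with `A = Iic δ`, `F0 = {δ}`, `N0 = 1` and, with `s = uncd n`,
`P n F θ' φ := ∃ C' (w : Pt I → List β), C'.Countable ∧ LC (C' ∩ Iio δ) w ∧ ∀ x, Pf s (x δ) →
   (List.range ((θ * θ' * φ).e δ x s).length).map (fun m => S m ((θ' * φ).mp x)) = w x`.
Step: let `F ⊆ Iic δ`, `δ ∈ F`, `θ'.In (Iic δ)`. Define `f y = if Pf s (y δ) then (List.range ((θ * θ').e δ y s).length).map (fun m => S m (θ'.mp y)) else []`. It is `LC (C₁ ∩ Iic δ)` with `C₁` countable: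
the length is `LC` with support below `δ` (`Spt.lc`, `Spt.mul`); for a fixed length a list of locally constant functions (`LC.finset` over `Finset.range`, `LC.local`); `S m ∘ θ'.mp` by `Spt.lc_comp`;
`Pf s (y δ)` by `LC.tk` (`comp₁`), `Pf s f ↔ tk f s.length = s`.
Bound: for a list `L` of finite sets let `lf L : Finset (List β)` be the set of the lists `l` with `List.Forall₂ (· ∈ ·) l L` (recursion: `lf [] = {[]}`, `lf (B :: L) = (B ×ˢ lf L).image (fun p => p.1 :: p.2)`,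
classical). `Bd' y = insert [] (lf ((List.range ((θ * θ').e δ y s).length).map (fun m => Bd m (θ'.e δ y s) (θ'.mp y))))`, it is `LC (C₁ ∩ Iio δ)`. `f y ∈ Bd' y`: if `Pf s (y δ)` then
`Pf (θ'.e δ y s) (θ'.mp y δ)` (`pf_mp`) and `(θ * θ').e δ y s = θ.e δ (θ'.mp y) (θ'.e δ y s)` (`mul_e`), so `hb` applies for `m < length`.
`color` with `b = δ`, `F' = F.erase δ` (elements `< δ`), level `n + 1` gives `φc`, `Fix F (n+1) φc`, `v`. Put `φ = rs (Iic δ) φc` : `In (Iic δ)`, `Fix F (1 + n) φ`, and `f (φ.mp x) = f (φc.mp x)` (`f` depends only on `≤ δ`: `LC.eq_of`, `rs_mp_mem`).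
Since `cd s = n < n + 1 ≤ cd (s ++ [k])` (`cd_lt`), `(s, k)` is a piece for ALL `k`; if `Pf s (x δ)` then `Pf (s ++ [x δ s.length]) (x δ)` (`tk_succ`), so `f (φ.mp x) = v s x =: w x`. As `φ.e δ x s = s`
(`Fix`, `δ ∈ F`): `Pf s (φ.mp x δ)` and `(θ * θ').e δ (φ.mp x) s = (θ * θ' * φ).e δ x s`, `θ'.mp (φ.mp x) = (θ' * φ).mp x`.
Result. `g = S.g 0`. For `s` let `n = cd s`, `gn = S.g (n+1)`; `g = S.θ n * S.φ n * gn`. If `Pf s (x δ)`, then for `y = gn.mp x`: `gn.e δ x s = s` (`g_fix (n+1)`: `δ ∈ F`, `cd s < 1 + (n + 1)`), `Pf s (y δ)`,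
`(θ * S.θ n * S.φ n).e δ y s = (θ * g).e δ x s` (`mul_e`, associativity), so the list `w_n y` has the entries `S m (g.mp x)`, `m < ((θ * g).e δ x s).length`. `W m s x := ((w_n (gn.mp x))[m]?).getD (S m (fun _ _ => 0))`.
-/

set_option autoImplicit false
set_option linter.unusedSectionVars false

namespace Pool.Agent.Mil

variable {I : Type} [LinearOrder I] [WellFoundedLT I]

open Gam

open Classical in
/-- the lists with entries in the given finite sets -/
private noncomputable def lf {β : Type} : List (Finset β) → Finset (List β)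
  | [] => {[]}
  | B :: L => (B ×ˢ lf L).image (fun p => p.1 :: p.2)

private theorem mem_lf {β : Type} {a : ℕ → β} {B : ℕ → Finset β} (R : List ℕ) (h : ∀ m ∈ R, a m ∈ B m) :
    R.map a ∈ lf (R.map B) := by
  classical
  induction R with
  | nil => simp [lf]
  | cons r R ih =>
    rw [List.map_cons, List.map_cons, lf, Finset.mem_image]
    refine ⟨(a r, R.map a), ?_, rfl⟩
    rw [Finset.mem_product]
    exact ⟨h r (List.mem_cons_self ..), ih fun m hm => h m (List.mem_cons_of_mem _ hm)⟩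

private theorem lc_listmap {β : Type} {C : Set I} {a : ℕ → Pt I → β} (h : ∀ m, LC C (a m)) (R : List ℕ) :
    LC C (fun x => R.map (fun m => a m x)) := by
  induction R with
  | nil => exact LC.const _ _
  | cons r R ih => exact (h r).comp₂ ih fun u v => u :: v

/-- the requirement of the step `n` -/
private def DecP (δ : I) (θ : Gam I) {β : Type} (S : ℕ → Pt I → β) (n : ℕ) (_F : Finset I) (θ' φ : Gam I) :
    Prop :=
  ∃ C' : Set I, C'.Countable ∧ ∃ w : Pt I → List β, LC (C' ∩ Set.Iio δ) w ∧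
    ∀ x, Pf (uncd n) (x δ) →
      (List.range ((θ * θ' * φ).e δ x (uncd n)).length).map (fun m => S m ((θ' * φ).mp x)) = w x

private theorem dec_step (δ : I) (θ : Gam I) {β : Type} {C : Set I} (hC : C.Countable) {S : ℕ → Pt I → β}
    (hS : ∀ n, LC (C ∩ Set.Iic δ) (S n)) {Bd : ℕ → List ℕ → Pt I → Finset β}
    (hBd : ∀ n s, LC (C ∩ Set.Iio δ) (Bd n s))
    (hb : ∀ n s x, Pf s (x δ) → n < (θ.e δ x s).length → S n x ∈ Bd n s x)
    (n : ℕ) (F : Finset I) (hF : (↑F : Set I) ⊆ Set.Iic δ) (hδ : δ ∈ F) (θ' : Gam I) :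
    ∃ φ : Gam I, φ.In (Set.Iic δ) ∧ Fix F (1 + n) φ ∧ DecP δ θ S n F θ' φ := by
  classical
  obtain ⟨D, hD, hDs⟩ := θ.exists_spt
  obtain ⟨D', hD', hDs'⟩ := θ'.exists_spt
  obtain ⟨E, hE⟩ : ∃ E : Set I, E = (C ∪ (D ∪ D')) ∪ {δ} := ⟨_, rfl⟩
  have hEc : E.Countable := by
    rw [hE]
    exact (hC.union (hD.union hD')).union (Set.countable_singleton δ)
  have hCE : C ⊆ E := by rw [hE]; exact Set.subset_union_left.trans Set.subset_union_left
  have hDE : D ∪ D' ⊆ E := by rw [hE]; exact Set.subset_union_right.trans Set.subset_union_left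
  have hδE : δ ∈ E := by rw [hE]; exact Or.inr rfl
  have hI : E ∩ Set.Iio δ ⊆ E ∩ Set.Iic δ := fun a ha => ⟨ha.1, le_of_lt ha.2⟩
  obtain ⟨s, hs⟩ : ∃ s, s = uncd n := ⟨_, rfl⟩
  have hcd : cd s = n := by rw [hs, cd_uncd]
  -- the length
  have hlen0 : LC (E ∩ Set.Iio δ) (fun y => (θ * θ').e δ y s) :=
    ((hDs.mul hDs').lc δ s).mono (Set.inter_subset_inter_left _ hDE)
  have hlen : LC (E ∩ Set.Iio δ) (fun y => ((θ * θ').e δ y s).length) := hlen0.comp₁ List.length
  have hPf : LC (E ∩ Set.Iic δ) (fun y : Pt I => Pf s (y δ)) := by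
    have h1 : LC (E ∩ Set.Iic δ) (fun y : Pt I => tk (y δ) s.length) :=
      LC.tk (show δ ∈ E ∩ Set.Iic δ from ⟨hδE, Set.mem_Iic.2 le_rfl⟩) _
    exact h1.comp₁ fun l => l = s
  have hSm : ∀ m, LC (E ∩ Set.Iic δ) (fun y => S m (θ'.mp y)) := by
    intro m
    refine hDs'.lc_comp (hS m) (Set.inter_subset_inter_left _ hCE) ?_
    rintro a ⟨-, ha⟩ b ⟨hb1, hb2⟩
    exact ⟨hDE (Or.inr hb1), le_of_lt (lt_of_lt_of_le hb2 ha)⟩
  have hBm : ∀ m t, LC (E ∩ Set.Iio δ) (fun y => Bd m t (θ'.mp y)) := by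
    intro m t
    refine hDs'.lc_comp (hBd m t) (Set.inter_subset_inter_left _ hCE) ?_
    rintro a ⟨-, ha⟩ b ⟨hb1, hb2⟩
    exact ⟨hDE (Or.inr hb1), lt_trans hb2 ha⟩
  obtain ⟨f, hfd⟩ : ∃ f : Pt I → List β, f = fun y => if Pf s (y δ) then
      (List.range ((θ * θ').e δ y s).length).map (fun m => S m (θ'.mp y)) else [] := ⟨_, rfl⟩
  have hf : LC (E ∩ Set.Iic δ) f := by
    rw [hfd]
    refine LC.local (p := fun y => (((θ * θ').e δ y s).length, Pf s (y δ))) ((hlen.mono hI).pair hPf)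
      (fun c y => if c.2 then (List.range c.1).map (fun m => S m (θ'.mp y)) else []) (fun c => ?_)
      fun y => rfl
    by_cases hc : c.2
    · simp only [hc, if_true]
      exact lc_listmap hSm _
    · simp only [hc, if_false]
      exact LC.const _ _
  obtain ⟨Bd', hBd'⟩ : ∃ Bd' : Pt I → Finset (List β), Bd' = fun y =>
      insert [] (lf ((List.range ((θ * θ').e δ y s).length).map
        (fun m => Bd m (θ'.e δ y s) (θ'.mp y)))) := ⟨_, rfl⟩
  have hB : LC (E ∩ Set.Iio δ) Bd' := by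
    rw [hBd']
    have h2 : LC (E ∩ Set.Iio δ) (fun y => θ'.e δ y s) :=
      (hDs'.lc δ s).mono (Set.inter_subset_inter_left _ (Set.subset_union_right.trans hDE))
    refine LC.local (p := fun y => (((θ * θ').e δ y s).length, θ'.e δ y s)) (hlen.pair h2)
      (fun c y => insert [] (lf ((List.range c.1).map (fun m => Bd m c.2 (θ'.mp y))))) (fun c => ?_)
      fun y => rfl
    exact (lc_listmap (fun m => hBm m c.2) (List.range c.1)).comp₁ fun L => insert [] (lf L)
  have hfB : ∀ y, f y ∈ Bd' y := by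
    intro y
    rw [hfd, hBd']
    by_cases hy : Pf s (y δ)
    · simp only [hy, if_true]
      refine Finset.mem_insert_of_mem (mem_lf _ fun m hm => ?_)
      exact hb m (θ'.e δ y s) (θ'.mp y) (θ'.pf_mp hy) (List.mem_range.1 hm)
    · simp only [hy, if_false]
      exact Finset.mem_insert_self _ _
  obtain ⟨φc, hfix, C1, hC1, v, hv1, hv2, -⟩ := color (b := δ) (F' := F.erase δ)
    (fun a ha => lt_of_le_of_ne (hF (Finset.mem_coe.2 (Finset.mem_of_mem_erase ha))) (Finset.ne_of_mem_erase ha))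
    (N := n + 1) (Nat.succ_pos n) hEc (hf.mono Set.inter_subset_left) hB hfB
  rw [Finset.insert_erase hδ, add_comm n 1] at hfix
  have hfix' : Fix F (1 + n) (rs (Set.Iic δ) φc) := hfix.rs _
  refine ⟨rs (Set.Iic δ) φc, in_rs _ _, hfix', C1, hC1, v s, hv1 s, fun x hx => ?_⟩
  rw [← hs] at hx ⊢
  have he : (rs (Set.Iic δ) φc).e δ x s = s := hfix' δ hδ x s (by omega)
  have hx2 : Pf s ((rs (Set.Iic δ) φc).mp x δ) := by
    have h3 := (rs (Set.Iic δ) φc).pf_mp hx
    rwa [he] at h3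
  have h4 : f ((rs (Set.Iic δ) φc).mp x) = f (φc.mp x) := by
    refine hf.eq_of fun a ha => ?_
    exact rs_mp_mem φc ha.2 x
  have h5 : f (φc.mp x) = v s x := by
    refine hv2 x s (x δ s.length) ⟨by omega, ?_⟩ ?_
    · have := cd_lt s (x δ s.length)
      omega
    · rw [Pf, List.length_append, List.length_singleton, tk_succ, hx]
  rw [← h5, ← h4, hfd]
  simp only [hx2, if_true]
  rw [mul_mp, mul_e (θ * θ') (rs (Set.Iic δ) φc), he]

theorem decide_nodes (δ : I) (θ : Gam I) {β : Type} {C : Set I} (hC : C.Countable) {S : ℕ → Pt I → β}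
    (hS : ∀ n, LC (C ∩ Set.Iic δ) (S n)) {Bd : ℕ → List ℕ → Pt I → Finset β}
    (hBd : ∀ n s, LC (C ∩ Set.Iio δ) (Bd n s))
    (hb : ∀ n s x, Pf s (x δ) → n < (θ.e δ x s).length → S n x ∈ Bd n s x) :
    ∃ g : Gam I, g.In (Set.Iic δ) ∧ ∃ C' : Set I, C'.Countable ∧ ∃ W : ℕ → List ℕ → Pt I → β,
      (∀ n s, LC (C' ∩ Set.Iio δ) (W n s)) ∧
      ∀ n s x, Pf s (x δ) → n < ((θ * g).e δ x s).length → S n (g.mp x) = W n s x := by
  classical
  obtain ⟨T⟩ := exists_fseq (A := Set.Iic δ) (isLowerSet_Iic δ) {δ} (by simp) 1 (DecP δ θ S)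
    fun n F θ' hF hF0 _ _ => dec_step δ θ hC hS hBd hb n F hF (hF0 (Finset.mem_singleton_self δ)) θ'
  choose C1 hC1 w hw1 hw2 using T.req
  choose D hD hDs using fun n => (T.g n).exists_spt
  have hDsub : ∀ n, D n ⊆ ⋃ n, (C1 n ∪ D n) := fun n =>
    Set.subset_union_right.trans (Set.subset_iUnion (fun n => C1 n ∪ D n) n)
  have hC1sub : ∀ n, C1 n ⊆ ⋃ n, (C1 n ∪ D n) := fun n =>
    Set.subset_union_left.trans (Set.subset_iUnion (fun n => C1 n ∪ D n) n)
  refine ⟨T.g 0, T.g_in 0, ⋃ n, (C1 n ∪ D n), Set.countable_iUnion fun n => (hC1 n).union (hD n),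
    fun m s x => ((w (cd s) ((T.g (cd s + 1)).mp x))[m]?).getD (S m (fun _ _ => 0)), fun m s => ?_,
    fun m s x hx hm => ?_⟩
  · have h1 : LC ((⋃ n, (C1 n ∪ D n)) ∩ Set.Iio δ) (fun x => w (cd s) ((T.g (cd s + 1)).mp x)) := by
      refine (hDs (cd s + 1)).lc_comp (hw1 (cd s)) (Set.inter_subset_inter_left _ (hC1sub _)) ?_
      rintro a ⟨-, ha⟩ b ⟨hb1, hb2⟩
      exact ⟨hDsub _ hb1, lt_trans hb2 ha⟩
    exact h1.comp₁ fun l => (l[m]?).getD (S m (fun _ _ => 0))
  · have hg : T.g 0 = T.θ (cd s) * T.φ (cd s) * T.g (cd s + 1) := by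
      rw [T.g_zero (cd s + 1), T.θ_succ]
    have hδF : δ ∈ T.F (cd s + 1) := T.F0_sub _ (Finset.mem_singleton_self δ)
    have he : (T.g (cd s + 1)).e δ x s = s := T.g_fix (cd s + 1) δ hδF x s (by omega)
    have hy : Pf s ((T.g (cd s + 1)).mp x δ) := by
      have h3 := (T.g (cd s + 1)).pf_mp hx
      rwa [he] at h3
    have h6 := hw2 (cd s) ((T.g (cd s + 1)).mp x)
    rw [uncd_cd] at h6
    have h7 := h6 hy
    have h8 : (θ * T.g 0).e δ x s = (θ * T.θ (cd s) * T.φ (cd s)).e δ ((T.g (cd s + 1)).mp x) s := by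
      rw [hg, ← mul_assoc, ← mul_assoc, mul_e _ (T.g (cd s + 1)), he]
    rw [h8] at hm
    have h9 : (T.g 0).mp x = (T.θ (cd s) * T.φ (cd s)).mp ((T.g (cd s + 1)).mp x) := by
      rw [hg, mul_mp]
    rw [h9]
    show _ = ((w (cd s) ((T.g (cd s + 1)).mp x))[m]?).getD (S m (fun _ _ => 0))
    rw [← h7, List.getElem?_map, List.getElem?_range hm]
    rfl

end Pool.Agent.Mil
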