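import Mathlib
import Pool.Agent.Lib.Mil.Prop

/-!
# Mil.Io (size 150): every real is covered infinitely often

Proof. Let `h, f` be given. For `m : ℕ` let `f_m x i = f x (Nat.pair m i)`; note `m ≤ Nat.pair m i`. `D m = {χ | ∃ σ : Pt I → ℕ → List Bool, IsNm univ σ ∧ (∀ x i, (σ x i).length = f (χ.mp x) (Nat.pair m i)) ∧ ∀ χ' q, IsNm univ q →
Fo (h * χ * χ') q → ∃ x i, Pf (σ (χ'.mp x) i) (q x)}` is `DO univ`: open: for `χ ∈ D m` with `σ` and `ψ`: `σ ∘ ψ.mp` works for `χ * ψ` (`Fo (h * (χ * ψ) * χ') q` is `Fo (h * χ * (ψ * χ')) q`). Dense: given `χ` apply `hS.cov` to `h * χ` and the name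
`x ↦ f_m (χ.mp x)`: `χ₁`, `σ`; `χ * χ₁ ∈ D m`. (`IsNm univ` of compositions: `Spt.lc_comp` with chosen supports.)
`prop isLowerSet_univ ∅ 0 D` gives `χ` with `Loc C (D m) χ` for all `m`, `C` countable. `exists_par` gives for every `m` a partition `π_m` (supports in `C`; property `P w := ∃ w', sp w'.u ⊆ C ∧ Ext w'.u w.u ∧ χ * w'.k ∈ D m`, so by openness
`χ * (π_m x).k ∈ D m`). Choose `σ_{m,w}` for `w` in the range of `π_m`. Define `σ x n = σ_{m,w} (unp w.u x) i` for `n = Nat.pair m i` (`Nat.unpair`), `w = π_m x`. `IsNm univ σ`: countable union of supports; `LC.local`.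
`(σ x n).length = f ((χ * w.k).mp (unp w.u x)) n = f (χ.mp x) n` (`pre_unp`).
Let `Fo (h * χ * χ') q` and `m` be given. Let `w = π_m (χ'.mp 0)`; by continuity there is `v = Cfg.of F n 0` with `χ' * v.k` `Into w.u`, `χ' * v.k = w.k * χ''`. `hS.mul` for `v.k`: `Fo (h * χ * w.k * χ'') (fun x => q (v.k.mp x))`, so there are `x, i` with
`Pf (σ_{m,w} (χ''.mp x) i) (q (v.k.mp x))`. With `y = v.k.mp x`: `χ'.mp y = w.k.mp (χ''.mp x) ∈ Cy w.u`, `π_m (χ'.mp y) = w` (`Par.par`), `unp w.u (χ'.mp y) = χ''.mp x`, so `σ (χ'.mp y) (Nat.pair m i) = σ_{m,w} (χ''.mp x) i`: `y` and `n = Nat.pair m i ≥ m` are as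
required.
-/

set_option autoImplicit false
set_option linter.unusedSectionVars false

namespace Pool.Agent.Mil

variable {I : Type} [LinearOrder I] [WellFoundedLT I]

private theorem io_nm {β : Type*} {q : Pt I → ℕ → β} (hq : IsNm Set.univ q) (χ : Gam I) :
    IsNm Set.univ (fun x => q (χ.mp x)) := by
  obtain ⟨C, hC, -, h1⟩ := hq
  obtain ⟨D, hD, h2⟩ := χ.exists_spt
  refine ⟨C ∪ D, hC.union hD, Set.subset_univ _, fun n => ?_⟩
  exact h2.lc_comp (h1 n) Set.subset_union_left fun a _ b hb => Or.inr hb.1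

/-- `σ` is a cover for the indices `Nat.pair m i` over `χ` -/
private def IoW (Fo : Gam I → (Pt I → ℕ → Bool) → Prop) (h : Gam I) (f : Pt I → ℕ → ℕ) (m : ℕ) (χ : Gam I)
    (σ : Pt I → ℕ → List Bool) : Prop :=
  IsNm Set.univ σ ∧ (∀ x i, (σ x i).length = f (χ.mp x) (Nat.pair m i)) ∧
    ∀ (χ' : Gam I) (q : Pt I → ℕ → Bool), IsNm Set.univ q → Fo (h * χ * χ') q →
      ∃ x i, Pf (σ (χ'.mp x) i) (q x)

private theorem io_do {Fo : Gam I → (Pt I → ℕ → Bool) → Prop} (hS : Smz Fo) (h : Gam I) {f : Pt I → ℕ → ℕ}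
    (hf : IsNm Set.univ f) (m : ℕ) : DO Set.univ {χ : Gam I | ∃ σ, IoW Fo h f m χ σ} := by
  refine ⟨?_, ?_⟩
  · rintro φ χ - - ⟨σ, h1, h2, h3⟩
    refine ⟨fun x => σ (χ.mp x), io_nm h1 χ, fun x i => ?_, fun χ' q hq hFo => ?_⟩
    · rw [h2, Gam.mul_mp]
    · have e : h * (φ * χ) * χ' = h * φ * (χ * χ') := by simp only [mul_assoc]
      rw [e] at hFo
      obtain ⟨x, i, hx⟩ := h3 (χ * χ') q hq hFo
      rw [Gam.mul_mp] at hx
      exact ⟨x, i, hx⟩
  · rintro φ -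
    have hnm : IsNm Set.univ (fun x i => f (φ.mp x) (Nat.pair m i)) := by
      obtain ⟨C, hC, h0, h1⟩ := io_nm hf φ
      exact ⟨C, hC, h0, fun i => h1 (Nat.pair m i)⟩
    obtain ⟨χ, σ, h1, h2, h3⟩ := hS.cov (h * φ) _ hnm
    refine ⟨χ, fun a ha => absurd (Set.mem_univ a) ha, σ, h1, fun x i => ?_, fun χ' q hq hFo => ?_⟩
    · rw [h2, Gam.mul_mp]
    · apply h3 χ' q hq
      have e : h * (φ * χ) * χ' = h * φ * χ * χ' := by simp only [mul_assoc]
      rwa [e] at hFo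

theorem Smz.io {Fo : Gam I → (Pt I → ℕ → Bool) → Prop} (hS : Smz Fo) (h : Gam I) {f : Pt I → ℕ → ℕ}
    (hf : IsNm Set.univ f) :
    ∃ (χ : Gam I) (σ : Pt I → ℕ → List Bool), IsNm Set.univ σ ∧ (∀ x n, (σ x n).length = f (χ.mp x) n) ∧
      ∀ (χ' : Gam I) (q : Pt I → ℕ → Bool), IsNm Set.univ q → Fo (h * χ * χ') q →
        ∀ m, ∃ x, ∃ n ≥ m, Pf (σ (χ'.mp x) n) (q x) := by
  classical
  obtain ⟨χ, -, -, C, hC, -, hloc⟩ := prop (I := I) isLowerSet_univ ∅ (by simp) 0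
    (fun m => {χ : Gam I | ∃ σ, IoW Fo h f m χ σ}) (fun m => io_do hS h hf m)
  have hpar : ∀ m, ∃ π : Pt I → Cfg I, Par C π ∧ ∀ x, ∃ σ, IoW Fo h f m (χ * (π x).k) σ := by
    intro m
    refine exists_par hC (P := fun w => ∃ σ, IoW Fo h f m (χ * w.k) σ) ?_ (hloc m)
    intro w v hwv hw
    have h1 := (io_do hS h hf m).opn (χ * w.k) (w.dif v).k (fun a ha => absurd (Set.mem_univ a) ha)
      (fun a ha => absurd (Set.mem_univ a) ha) hw
    rw [mul_assoc, Cfg.k_mul_dif hwv] at h1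
    exact h1
  choose π hπ hπW using hpar
  -- the chosen covers
  let S : ℕ → Cfg I → Pt I → ℕ → List Bool := fun m w =>
    if hw : ∃ σ, IoW Fo h f m (χ * w.k) σ then hw.choose else fun _ _ => []
  have hS' : ∀ m x, IoW Fo h f m (χ * (π m x).k) (S m (π m x)) := by
    intro m x
    have hw := hπW m x
    simp only [S, dif_pos hw]
    exact hw.choose_spec
  let σ : Pt I → ℕ → List Bool := fun x n =>
    S n.unpair.1 (π n.unpair.1 x) (unp (π n.unpair.1 x).u x) n.unpair.2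
  refine ⟨χ, σ, ?_, ?_, ?_⟩
  · -- the support
    have hsp : ∀ m w, ∃ T : Set I, T.Countable ∧ (w ∈ Set.range (π m) → ∀ n, LC T (fun x => S m w x n)) := by
      intro m w
      by_cases hw : w ∈ Set.range (π m)
      · obtain ⟨x, rfl⟩ := hw
        obtain ⟨T, h1, -, h2⟩ := (hS' m x).1
        exact ⟨T, h1, fun _ => h2⟩
      · exact ⟨∅, Set.countable_empty, fun h => absurd h hw⟩
    choose T hT1 hT2 using hsp
    have hR : ∀ m, (Set.range (π m)).Countable := fun m => (Cfg.countable_sp hC).mono (by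
      rintro _ ⟨x, rfl⟩
      exact (hπ m).sup x)
    refine ⟨C ∪ ⋃ m, ⋃ w ∈ Set.range (π m), T m w,
      hC.union (Set.countable_iUnion fun m => (hR m).biUnion fun w _ => hT1 m w), Set.subset_univ _, fun n => ?_⟩
    refine LC.local (p := π n.unpair.1) ((hπ n.unpair.1).lc.mono Set.subset_union_left)
      (fun w x => if w ∈ Set.range (π n.unpair.1) then S n.unpair.1 w (unp w.u x) n.unpair.2 else [])
      (fun w => ?_) (fun x => ?_)
    · by_cases hw : w ∈ Set.range (π n.unpair.1)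
      · simp only [hw, if_true]
        refine LC.comp (hT2 _ w hw n.unpair.2) (T := unp w.u) fun a ha i => ?_
        have hmem : a ∈ C ∪ ⋃ m, ⋃ w ∈ Set.range (π m), T m w :=
          Set.mem_union_right _ (Set.mem_iUnion.2 ⟨_, Set.mem_biUnion hw ha⟩)
        exact LC.coord hmem _
      · simp only [hw, if_false]
        exact LC.const _ _
    · rw [if_pos ⟨x, rfl⟩]
  · intro x n
    show (S n.unpair.1 (π n.unpair.1 x) (unp (π n.unpair.1 x).u x) n.unpair.2).length = f (χ.mp x) n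
    rw [(hS' _ x).2.1, Gam.mul_mp, Cfg.k_mp, pre_unp ((hπ _).mem x), Nat.pair_unpair]
  · intro χ' q hq hFo m
    let x0 : Pt I := fun _ _ => 0
    set w := π m (χ'.mp x0) with hw
    obtain ⟨D, hD, hDs⟩ := χ'.exists_spt
    obtain ⟨L, hL⟩ := w.exists_len
    obtain ⟨F₁, hF₁, n, hn⟩ := LC.finset (C := (Set.univ : Set I)) (w.fin.toFinset ×ˢ Finset.range L)
      (β := fun _ => ℕ) (fun p x => χ'.mp x p.1 p.2) (by
        rintro ⟨a, i⟩ _
        exact (hDs.lc_mp a i).mono (Set.subset_univ _)) x0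
    have hcy : ∀ x', Ag F₁ n x0 x' → χ'.mp x' ∈ Cy w.u := by
      intro x' hx'
      refine Cfg.mem_cy_of_ag (F := w.fin.toFinset) (n := L) ((hπ m).mem (χ'.mp x0)) (by simp) hL
        fun a ha i hi => ?_
      exact hn x' hx' (a, i) (Finset.mem_product.2 ⟨ha, Finset.mem_range.2 hi⟩)
    set v := Cfg.of F₁ n x0 with hv
    have hinto : (χ' * v.k).Into w.u := by
      intro z
      rw [Gam.mul_mp, Cfg.k_mp]
      exact hcy _ (Cfg.ag_of (pre_mem _ z))
    obtain ⟨χ₂, hχ₂⟩ := hinto.factor w.fin.countable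
    have hχ₂' : χ' * v.k = w.k * χ₂ := hχ₂
    have h1 := hS.mul (h * χ * χ') v.k q hFo
    have e : h * χ * χ' * v.k = h * (χ * w.k) * χ₂ := by
      rw [mul_assoc (h * χ), hχ₂']
      simp only [mul_assoc]
    rw [e] at h1
    obtain ⟨x, i, hx⟩ := (hS' m (χ'.mp x0)).2.2 χ₂ _ (io_nm hq v.k) h1
    refine ⟨v.k.mp x, Nat.pair m i, Nat.left_le_pair m i, ?_⟩
    have h2 : χ'.mp (v.k.mp x) = pre w.u (χ₂.mp x) := by
      rw [← Gam.mul_mp, hχ₂', Gam.mul_mp, Cfg.k_mp]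
    have h3 : π m (χ'.mp (v.k.mp x)) = w := by
      rw [h2]
      exact (hπ m).par (χ'.mp x0) _ (pre_mem _ _)
    show Pf (S (Nat.pair m i).unpair.1 (π (Nat.pair m i).unpair.1 (χ'.mp (v.k.mp x)))
      (unp (π (Nat.pair m i).unpair.1 (χ'.mp (v.k.mp x))).u (χ'.mp (v.k.mp x))) (Nat.pair m i).unpair.2) (q (v.k.mp x))
    rw [Nat.unpair_pair]
    show Pf (S m (π m (χ'.mp (v.k.mp x))) (unp (π m (χ'.mp (v.k.mp x))).u (χ'.mp (v.k.mp x))) i) (q (v.k.mp x))
    rw [h3, h2, unp_pre]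
    exact hx

end Pool.Agent.Mil
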