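import Mathlib
import Pool.Agent.Lib.Mil.Col

/-!
# Mil.Slal (size 230): slaloms

A locally constant function `f` with `f x ∈ Bd x`, `Bd x` finite and depending only on the coordinates in the lower set `A`, is captured by a set `V x` of size `≤ N ^ r`, depending only on the
coordinates in `A`, after composition with some `φ` which fixes the nodes with code `< N` at the coordinates in `F`; `r` = the number of elements of `F` outside `A`.

Proof. Induction on `r` for all `F`, `α`, `f`, `Bd`.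
`r = 0`: `F ⊆ A`. `D' = {ρ | ∃ ρ', rs A ρ' = ρ ∧ ∃ v, ∀ x, f (ρ'.mp x) = v}` is `DO A`: open: `rs A (ρ' * χ) = ρ * χ` for `χ.In A` (`rs_mul`, `rs_eq`); dense: `φ.In A`: `f ∘ φ.mp` is constant on
`Cy (Cfg.of F n 0).u` for some `F, n` (`Spt.lc_comp`), `χ = (Cfg.of F n 0).k`, `ρ' = φ * χ`, `rs A ρ' = φ * rs A χ`. `prop hA F N (fun _ => D')` gives `φA.In A`, `Fix F N φA`, `C1 ⊆ A`, `Loc C1 D' φA`;
`exists_par` (with `P w := ∃ w', sp w'.u ⊆ C1 ∧ Ext w'.u w.u ∧ φA * w'.k ∈ D'`; supports in `C1`, `Cfg.k_mul_dif`) gives `π` with supports in `C1` and `φA * (π x).k ∈ D'`. Choose `ρ w` and `v w` for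
`w` in the range of `π`. `exists_glue` (with `C1`, `C1 ∩ A = C1`) gives `φ`: `rs A φ = φA`, `φ * (π x).k = ρ (π x)`. `V x = {v (π x)}`. `f (φ.mp x) = v (π x)`: `x = pre w.u (unp w.u x)`, `w = π x`
(`pre_unp`), so `φ.mp x = (φ * w.k).mp (unp w.u x) = (ρ w).mp _`. `Fix F N φ`: for `a ∈ F ⊆ A`: `φ.e a = (rs A φ).e a = φA.e a`.
`r + 1`: let `b` be the largest element of `F`; as some element of `F` is outside `A` and `A` is a lower set, `b ∉ A` and `A ⊆ Iio b`. `F' = F.erase b`, `F = insert b F'`. `color` for `f`, `Bd` (`LC (C ∩ A) ⊆ LC (C ∩ Iio b)`)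
gives `φ1`, `v s` (`s : List ℕ`). Let `α' = Fin N → α` and `f' x = fun i => v (uncd i) x`; it is `LC (C' ∩ Iio b)` (`LC.finset` over `Finset.univ`, `funext`). Bound `Bd' x = Fintype.piFinset (fun _ => Bd (φ1.mp x))`:
`LC (C'' ∩ A)` by `Spt.lc_comp` (A is a lower set), `f' x ∈ Bd' x` by the last clause of `color` (`cd (uncd i) = i < N`). The induction hypothesis for `F'` (one element less outside `A`) gives `φ2`, `V'` with
`f' (φ2.mp x) ∈ V' x`, `(V' x).card ≤ N ^ r`. Put `φ2' = rs (Iio b) φ2`, `φ = φ1 * φ2'`: `Fix`: `φ2'` is trivial at `b` (`b ∉ Iio b`) and fixes the nodes at `a ∈ F'` (`Fix.rs`). `f' (φ2'.mp x) = f' (φ2.mp x)` since `f'` depends only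
on coordinates `< b` (`rs_mp_mem`, `LC.eq_of`). `V x = (V' x).biUnion (fun u => Finset.univ.image u)` (classical decidability), `(V x).card ≤ N ^ r * N` (`Finset.card_biUnion_le`, `Finset.card_image_le`).
`f (φ.mp x) = f (φ1.mp (φ2'.mp x)) = v s (φ2'.mp x)` where `(s, k)` is the piece of `(φ2'.mp x) b = x b` (`exists_piece_fun`), `cd s < N`, so it is `u i` for `u = f' (φ2'.mp x) ∈ V' x`, `i = cd s`.
-/

set_option autoImplicit false
set_option linter.unusedSectionVars false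

namespace Pool.Agent.Mil

variable {I : Type} [LinearOrder I] [WellFoundedLT I]

/-- the case `F ⊆ A` -/
private theorem slal_zero {A : Set I} (hA : IsLowerSet A) (F : Finset I) (hFA : (↑F : Set I) ⊆ A) {N : ℕ}
    {α : Type} {f : Pt I → α} {C : Set I} (hf : LC C f) :
    ∃ φ : Gam I, Fix F N φ ∧ ∃ C' : Set I, C'.Countable ∧ ∃ V : Pt I → Finset α, LC (C' ∩ A) V ∧
      (∀ x, (V x).card ≤ 1) ∧ ∀ x, f (φ.mp x) ∈ V x := by
  classical
  set D' : Set (Gam I) := {ρ | ∃ ρ' : Gam I, Gam.rs A ρ' = ρ ∧ ∃ v, ∀ x, f (ρ'.mp x) = v} with hD'def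
  have hD' : DO A D' := by
    refine ⟨fun φ χ hφ hχ h1 => ?_, fun φ hφ => ?_⟩
    · obtain ⟨ρ', h2, v, h3⟩ := h1
      refine ⟨ρ' * χ, ?_, v, fun x => ?_⟩
      · rw [Gam.rs_mul hA, h2, Gam.rs_eq hχ]
      · rw [Gam.mul_mp]
        exact h3 _
    · obtain ⟨T, -, hT⟩ := φ.exists_spt
      have h1 : LC (C ∪ T) (fun x => f (φ.mp x)) :=
        hT.lc_comp hf Set.subset_union_left fun a _ => Set.inter_subset_left.trans Set.subset_union_right
      obtain ⟨F0, -, n, hn⟩ := h1 (fun _ _ => 0)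
      refine ⟨Gam.rs A (Cfg.of F0 n (fun _ _ => 0)).k, Gam.in_rs _ _, φ * (Cfg.of F0 n (fun _ _ => 0)).k, ?_,
        f (φ.mp (fun _ _ => 0)), fun x => ?_⟩
      · rw [Gam.rs_mul hA, Gam.rs_eq hφ]
      · rw [Gam.mul_mp, Cfg.k_mp]
        exact hn _ (Cfg.ag_of (pre_mem _ x))
  obtain ⟨φA, hIn, hFix, C1, hC1, hC1A, hLoc⟩ := prop hA F hFA N (fun _ => D') (fun _ => hD')
  obtain ⟨π, hπ, hP⟩ := exists_par hC1 (P := fun w => ∃ w' : Cfg I, sp w'.u ⊆ C1 ∧ Ext w'.u w.u ∧ φA * w'.k ∈ D')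
    (fun w v hwv ⟨w', h1, h2, h3⟩ => ⟨w', h1, h2.trans hwv, h3⟩) fun x => by
      obtain ⟨w, h1, h2, h3⟩ := hLoc 0 x
      exact ⟨w, h1, h2, w, h1, Ext.refl _, h3⟩
  have hmem : ∀ x, φA * (π x).k ∈ D' := by
    intro x
    obtain ⟨w', h1, h2, h3⟩ := hP x
    rw [← Cfg.k_mul_dif h2, ← mul_assoc]
    refine hD'.opn _ _ (hIn.mul (Cfg.k_in (h1.trans hC1A))) (Cfg.k_in ?_) h3
    exact (sp_dif _ _).trans ((hπ.sup x).trans hC1A)
  have hex : ∀ w : Cfg I, ∃ p : Gam I × α, (∃ x, π x = w) → Gam.rs A p.1 = φA * w.k ∧ ∀ y, f (p.1.mp y) = p.2 := by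
    intro w
    by_cases h : ∃ x, π x = w
    · obtain ⟨x, rfl⟩ := h
      obtain ⟨ρ', h1, v, h2⟩ := hmem x
      exact ⟨(ρ', v), fun _ => ⟨h1, h2⟩⟩
    · exact ⟨(1, f (fun _ _ => 0)), fun h' => absurd h' h⟩
  choose p hp using hex
  have hC1A' : C1 ∩ A = C1 := Set.inter_eq_left.2 hC1A
  obtain ⟨ψ, h1, h2, -⟩ := exists_glue hA hIn hC1 (π := π) (by rw [hC1A']; exact hπ) (fun w => (p w).1)
    (fun x => (hp (π x) ⟨x, rfl⟩).1)
  refine ⟨ψ, fun a ha x s hs => ?_, C1, hC1, fun x => {(p (π x)).2}, ?_, fun x => ?_, fun x => ?_⟩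
  · rw [← Gam.rs_e_mem ψ (hFA ha) x s, h1]
    exact hFix a ha x s hs
  · rw [hC1A']
    exact hπ.lc.comp₁ (fun w => {(p w).2})
  · rw [Finset.card_singleton]
  · rw [Finset.mem_singleton]
    have h3 : ψ.mp x = (p (π x)).1.mp (unp (π x).u x) := by
      rw [← h2 x, Gam.mul_mp, Cfg.k_mp, pre_unp (hπ.mem x)]
    rw [h3]
    exact (hp (π x) ⟨x, rfl⟩).2 _

open Classical in
private theorem slal_aux {A : Set I} (hA : IsLowerSet A) {N : ℕ} (hN : 0 < N) (r : ℕ) :
    ∀ (F : Finset I), (F.filter (fun a => a ∉ A)).card = r → ∀ {α : Type}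
    {f : Pt I → α} {C : Set I} (_ : C.Countable) (_ : LC C f)
    {Bd : Pt I → Finset α} (_ : LC (C ∩ A) Bd) (_ : ∀ x, f x ∈ Bd x),
    ∃ φ : Gam I, Fix F N φ ∧ ∃ C' : Set I, C'.Countable ∧ ∃ V : Pt I → Finset α, LC (C' ∩ A) V ∧
      (∀ x, (V x).card ≤ N ^ r) ∧ ∀ x, f (φ.mp x) ∈ V x := by
  induction r with
  | zero =>
    intro F hF α f C hC hf Bd _ _
    rw [Finset.card_eq_zero, Finset.filter_eq_empty_iff] at hF
    obtain ⟨φ, h1, C', h2, V, h3, h4, h5⟩ := slal_zero hA F (fun a ha => not_not.1 (hF ha)) (N := N) hf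
    exact ⟨φ, h1, C', h2, V, h3, fun x => by rw [pow_zero]; exact h4 x, h5⟩
  | succ r ih =>
    intro F hF α f C hC hf Bd hBd hb
    have hne' : (F.filter (fun a => a ∉ A)).Nonempty := by
      rw [← Finset.card_pos, hF]
      exact Nat.succ_pos r
    obtain ⟨c, hc⟩ := hne'
    obtain ⟨hcF, hcA⟩ := Finset.mem_filter.1 hc
    have hne : F.Nonempty := ⟨c, hcF⟩
    have hbF : F.max' hne ∈ F := F.max'_mem hne
    have hlt : ∀ a ∈ F.erase (F.max' hne), a < F.max' hne := fun a ha => F.lt_max'_of_mem_erase_max' hne ha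
    have hcb : c ≤ F.max' hne := F.le_max' c hcF
    generalize F.max' hne = b at hbF hlt hcb
    have hbA : b ∉ A := fun h => hcA (hA hcb h)
    have hAb : A ⊆ Set.Iio b := fun a ha => lt_of_not_ge fun h => hbA (hA h ha)
    have hins : insert b (F.erase b) = F := Finset.insert_erase hbF
    have hcard : ((F.erase b).filter (fun a => a ∉ A)).card = r := by
      have h1 : (F.erase b).filter (fun a => a ∉ A) = (F.filter (fun a => a ∉ A)).erase b := by
        ext a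
        simp only [Finset.mem_filter, Finset.mem_erase]
        tauto
      rw [h1, Finset.card_erase_of_mem (Finset.mem_filter.2 ⟨hbF, hbA⟩), hF]
      rfl
    obtain ⟨φ1, hFix1, C1, hC1, v, hv1, hv2, hv3⟩ := color hlt hN hC hf
      (hBd.mono (Set.inter_subset_inter_right _ hAb)) hb
    rw [hins] at hFix1
    obtain ⟨T1, hT1c, hT1⟩ := φ1.exists_spt
    have hf' : LC (C1 ∩ Set.Iio b) (fun x => fun i : Fin N => v (uncd i) x) := by
      intro x
      obtain ⟨F0, hF0, n, hn⟩ := LC.finset (C := C1 ∩ Set.Iio b) (Finset.univ : Finset (Fin N)) (β := fun _ => α)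
        (fun i x => v (uncd i) x) (fun i _ => hv1 _) x
      exact ⟨F0, hF0, n, fun y hy => funext fun i => hn y hy i (Finset.mem_univ i)⟩
    have hBd' : LC ((C1 ∪ C ∪ T1) ∩ A) (fun x => Fintype.piFinset (fun _ : Fin N => Bd (φ1.mp x))) := by
      refine LC.comp₁ (f := fun x => Bd (φ1.mp x)) ?_ (fun B => Fintype.piFinset (fun _ : Fin N => B))
      refine hT1.lc_comp hBd ?_ ?_
      · rintro a ⟨h1, h2⟩
        exact ⟨Or.inl (Or.inr h1), h2⟩
      · rintro a ⟨-, h2⟩ a' ⟨h3, h4⟩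
        exact ⟨Or.inr h3, hA (le_of_lt h4) h2⟩
    obtain ⟨φ2, hFix2, C3, hC3, V', hV1, hV2, hV3⟩ := ih (F.erase b) hcard
      (f := fun x => fun i : Fin N => v (uncd i) x) ((hC1.union hC).union hT1c)
      (hf'.mono fun a ha => Or.inl (Or.inl ha.1)) hBd' (fun x => by
        rw [Fintype.mem_piFinset]
        intro i
        exact hv3 x (uncd i) (by rw [cd_uncd]; exact i.2))
    refine ⟨φ1 * Gam.rs (Set.Iio b) φ2, hFix1.mul ?_, C3, hC3,
      fun x => (V' x).biUnion (fun u => Finset.univ.image u), ?_, fun x => ?_, fun x => ?_⟩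
    · rw [← hins]
      intro a ha x s hs
      rcases Finset.mem_insert.1 ha with rfl | ha
      · exact Gam.rs_e_notMem _ (by simp) x s
      · exact hFix2.rs _ a ha x s hs
    · exact hV1.comp₁ (fun W => W.biUnion (fun u => Finset.univ.image u))
    · refine (Finset.card_biUnion_le_card_mul _ _ N fun u _ => ?_).trans ?_
      · refine Finset.card_image_le.trans ?_
        rw [Finset.card_univ, Fintype.card_fin]
      · rw [pow_succ]
        exact Nat.mul_le_mul_right _ (hV2 x)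
    · obtain ⟨s, k, hp, hpf⟩ := exists_piece_fun hN ((Gam.rs (Set.Iio b) φ2).mp x b)
      have h1 := hv2 _ s k hp hpf
      rw [Gam.mul_mp, h1]
      have h2 : (fun i : Fin N => v (uncd i) ((Gam.rs (Set.Iio b) φ2).mp x)) =
          fun i : Fin N => v (uncd i) (φ2.mp x) :=
        hf'.eq_of (x := φ2.mp x) (y := (Gam.rs (Set.Iio b) φ2).mp x) fun a ha => Gam.rs_mp_mem φ2 ha.2 x
      have h3 := congrFun h2 ⟨cd s, hp.1⟩
      simp only [uncd_cd] at h3
      rw [h3, Finset.mem_biUnion]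
      refine ⟨_, hV3 x, Finset.mem_image.2 ⟨⟨cd s, hp.1⟩, Finset.mem_univ _, ?_⟩⟩
      simp only [uncd_cd]

open Classical in
theorem slalom {A : Set I} (hA : IsLowerSet A) (F : Finset I) {N : ℕ} (hN : 0 < N) {α : Type}
    {f : Pt I → α} {C : Set I} (hC : C.Countable) (hf : LC C f)
    {Bd : Pt I → Finset α} (hBd : LC (C ∩ A) Bd) (hb : ∀ x, f x ∈ Bd x) :
    ∃ φ : Gam I, Fix F N φ ∧ ∃ C' : Set I, C'.Countable ∧ ∃ V : Pt I → Finset α, LC (C' ∩ A) V ∧
      (∀ x, (V x).card ≤ N ^ (F.filter (fun a => a ∉ A)).card) ∧ ∀ x, f (φ.mp x) ∈ V x :=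
  slal_aux hA hN _ F rfl hC hf hBd hb

end Pool.Agent.Mil
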