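import Mathlib
import Pool.Agent.Lib.Mil.Slal

/-!
# Mil.Lav (size 130): the Laver property over a lower set

Proof. `exists_fseq` with `A := univ`, `F0 = ∅`, `N0 = 1` and
`P n F θ φ := ∃ C' V, C'.Countable ∧ LC (C' ∩ A) V ∧ (∀ x, (V x).card ≤ (n + 1) ^ n) ∧ ∀ x, f n ((θ * φ).mp x) ∈ V x`.
Step: `slalom` with `N = 1 + n` for the function `fun x => f n (θ.mp x)` and the bound `fun x => Bd n (θ.mp x)` (`Spt.lc_comp`; `LC (C'' ∩ A)` because `A` is a lower set: for `a ∈ C ∩ A` the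
coordinates of the support below `a` are in `A`; take `C''` = union of `C` and a countable support of `θ`). `(F.filter _).card ≤ F.card ≤ n`, so the cardinality is `≤ (1 + n) ^ n` (`Nat.pow_le_pow_right`).
Result: `g = S.g 0 = S.θ (n+1) * S.g (n+1)`, `S.θ (n+1) = S.θ n * S.φ n`. `V n x := (V_n ((S.g (n+1)).mp x)) ∩ Bd n (g.mp x)` (classical decidability): `f n (g.mp x) = f n ((θ_n φ_n).mp (g_{n+1}.mp x))`. `LC (C' ∩ A)`:
`Spt.lc_comp` for `S.g (n+1)` and `g` with chosen supports; `C'` = the union of all countable sets which occur.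
-/

set_option autoImplicit false
set_option linter.unusedSectionVars false

namespace Pool.Agent.Mil

variable {I : Type} [LinearOrder I] [WellFoundedLT I]

open Gam

/-- the requirement of the step `n` -/
private def LavP (A : Set I) {α : Type} (f : ℕ → Pt I → α) (n : ℕ) (_F : Finset I) (θ φ : Gam I) : Prop :=
  ∃ C' : Set I, C'.Countable ∧ ∃ V : Pt I → Finset α, LC (C' ∩ A) V ∧ (∀ x, (V x).card ≤ (n + 1) ^ n) ∧
    ∀ x, f n ((θ * φ).mp x) ∈ V x

private theorem lav_step {A : Set I} (hA : IsLowerSet A) {α : Type} {C : Set I} (hC : C.Countable)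
    {f : ℕ → Pt I → α} (hf : ∀ n, LC C (f n)) {Bd : ℕ → Pt I → Finset α} (hBd : ∀ n, LC (C ∩ A) (Bd n))
    (hb : ∀ n x, f n x ∈ Bd n x) (n : ℕ) (F : Finset I) (θ : Gam I) (hF : F.card ≤ n) :
    ∃ φ : Gam I, φ.In Set.univ ∧ Fix F (1 + n) φ ∧ LavP A f n F θ φ := by
  classical
  obtain ⟨D, hD, hθ⟩ := θ.exists_spt
  have h1 : LC (C ∪ D) (fun x => f n (θ.mp x)) :=
    hθ.lc_comp (hf n) Set.subset_union_left fun a _ => Set.inter_subset_left.trans Set.subset_union_right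
  have h2 : LC ((C ∪ D) ∩ A) (fun x => Bd n (θ.mp x)) := by
    refine hθ.lc_comp (hBd n) (Set.inter_subset_inter_left _ Set.subset_union_left) ?_
    rintro a ⟨-, ha⟩ b ⟨hb1, hb2⟩
    exact ⟨Or.inr hb1, hA (le_of_lt hb2) ha⟩
  obtain ⟨φ, h3, C', h4, V, h5, h6, h7⟩ := slalom hA F (N := 1 + n) (by omega) (hC.union hD) h1 h2
    fun x => hb n (θ.mp x)
  refine ⟨φ, fun a ha => absurd (Set.mem_univ a) ha, h3, C', h4, V, h5, fun x => ?_, fun x => ?_⟩
  · refine (h6 x).trans ?_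
    rw [add_comm 1 n]
    exact Nat.pow_le_pow_right (Nat.succ_pos n) ((Finset.card_filter_le _ _).trans hF)
  · rw [mul_mp]
    exact h7 x

theorem laver {A : Set I} (hA : IsLowerSet A) {α : Type} {C : Set I} (hC : C.Countable)
    {f : ℕ → Pt I → α} (hf : ∀ n, LC C (f n)) {Bd : ℕ → Pt I → Finset α} (hBd : ∀ n, LC (C ∩ A) (Bd n))
    (hb : ∀ n x, f n x ∈ Bd n x) :
    ∃ g : Gam I, ∃ C' : Set I, C'.Countable ∧ ∃ V : ℕ → Pt I → Finset α, (∀ n, LC (C' ∩ A) (V n)) ∧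
      (∀ n x, (V n x).card ≤ (n + 1) ^ n) ∧ (∀ n x, f n (g.mp x) ∈ V n x) ∧
      ∀ n x, V n x ⊆ Bd n (g.mp x) := by
  classical
  obtain ⟨S⟩ := exists_fseq (A := (Set.univ : Set I)) isLowerSet_univ ∅ (Set.subset_univ _) 1 (LavP A f)
    fun n F θ _ _ hF _ => lav_step hA hC hf hBd hb n F θ (by simpa using hF)
  choose C1 hC1 V1 hV1 hV2 hV3 using S.req
  choose D hD hDs using fun n => (S.g n).exists_spt
  have hlow : ∀ {E E' : Set I}, E' ⊆ C ∪ ⋃ n, (C1 n ∪ D n) → ∀ a ∈ E ∩ A,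
      E' ∩ Set.Iio a ⊆ (C ∪ ⋃ n, (C1 n ∪ D n)) ∩ A := by
    rintro E E' h a ⟨-, ha⟩ b ⟨hb1, hb2⟩
    exact ⟨h hb1, hA (le_of_lt hb2) ha⟩
  have hDsub : ∀ n, D n ⊆ C ∪ ⋃ n, (C1 n ∪ D n) := fun n =>
    (Set.subset_union_right.trans (Set.subset_iUnion (fun n => C1 n ∪ D n) n)).trans Set.subset_union_right
  have hC1sub : ∀ n, C1 n ⊆ C ∪ ⋃ n, (C1 n ∪ D n) := fun n =>
    (Set.subset_union_left.trans (Set.subset_iUnion (fun n => C1 n ∪ D n) n)).trans Set.subset_union_right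
  refine ⟨S.g 0, C ∪ ⋃ n, (C1 n ∪ D n), hC.union (Set.countable_iUnion fun n => (hC1 n).union (hD n)),
    fun n x => V1 n ((S.g (n + 1)).mp x) ∩ Bd n ((S.g 0).mp x), fun n => ?_, fun n x => ?_, fun n x => ?_,
    fun n x => Finset.inter_subset_right⟩
  · have h1 : LC ((C ∪ ⋃ n, (C1 n ∪ D n)) ∩ A) (fun x => V1 n ((S.g (n + 1)).mp x)) :=
      (hDs (n + 1)).lc_comp (hV1 n) (Set.inter_subset_inter_left _ (hC1sub n)) (hlow (hDsub (n + 1)))
    have h2 : LC ((C ∪ ⋃ n, (C1 n ∪ D n)) ∩ A) (fun x => Bd n ((S.g 0).mp x)) :=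
      (hDs 0).lc_comp (hBd n) (Set.inter_subset_inter_left _ Set.subset_union_left) (hlow (hDsub 0))
    exact h1.comp₂ h2 fun u v => u ∩ v
  · exact (Finset.card_le_card Finset.inter_subset_left).trans (hV2 n _)
  · refine Finset.mem_inter.2 ⟨?_, hb n _⟩
    have h1 := S.g_zero (n + 1)
    rw [h1, mul_mp, S.θ_succ]
    exact hV3 n _

end Pool.Agent.Mil
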