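import Mathlib
import Pool.Agent.Lib.Mil.Lav
import Pool.Agent.Lib.Mil.Dec
import Pool.Agent.Lib.Mil.Io

/-!
# Mil.Dat (size 260): the test function at the coordinate `δ`

Definitions: `NF c x r` (`r` is not in the `F_σ` set with the code `c` at `x`), `IsCd`, the structure `Dat`, the code `cdW`.

Proof of `exists_dat`. Let `ms y n = (Finset.range (n + 1)).sup y` and `f x n = max (H x n) (ms (x δ) n)`, a name (`IsNm univ`). `hS.io h1 f`: `χ`, `σ₀` with `(σ₀ x n).length = f (χ.mp x) n`. `f (χ.mp x) n` depends only on coordinates `≤ δ`: it is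
`LC (C ∩ Iic δ)` (`Spt.lc_comp`, `Spt.lc_mp`, `LC.finset`). For `L : ℕ` let `bl L : Finset (List Bool)` be the set of all lists of length `L` (`(List.finite_length_eq Bool L).toFinset` or `List.Vector`). `laver (A := Iic δ)` for `f n x = σ₀ x n`,
`Bd n x = bl (f (χ.mp x) n)` gives `g₃`, `V n` with `(V n x).card ≤ (n+1)^n`, `σ₀ (g₃.mp x) n ∈ V n x ⊆ bl (f (χ.mp (g₃.mp x)) n)`. Put `θ₃ = χ * g₃`.
`decide_nodes δ θ₃` for `S n = V n` and `Bd n s x = if n < (θ₃.e δ x s).length then (bl (max (H (θ₃.mp x) n) (sup of the first n+1 entries of θ₃.e δ x s))).powerset else ∅`: if `Pf s (x δ)` and `n < (θ₃.e δ x s).length` then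
`Pf (θ₃.e δ x s) (θ₃.mp x δ)`, so the first `n + 1` entries of `θ₃.mp x δ` are those of the list, `f (θ₃.mp x) n = max ...`, and `V n x ⊆ bl ...`. `LC` with support below `δ`: `H` composed with `θ₃`, and the list. It gives `g₄.In (Iic δ)`, `W`.
Put `θ = θ₃ * g₄`, `σ x = σ₀ (g₃.mp (g₄.mp x))`, `W' n s x = if n < (θ.e δ x s).length then W n s x else ∅`.
`lcW`: `LC.local` / `LC.pair`. `memW`: `σ₀ (g₃.mp (g₄.mp x)) n ∈ V n (g₄.mp x) = W n s x`.
`cardW`, `lenW`: if `n < (θ.e δ x s).length` take `x'` = `x` with the coordinate `δ` replaced by `cat s 0`: `Pf s (x' δ)`, all data below `δ` unchanged (`W n s x' = W n s x` by `LC.eq_of`, `θ.e δ x' s = θ.e δ x s`), so `W n s x = V n (g₄.mp x')`,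
card `≤ (n+1)^n`, elements of length `f (θ.mp x') n = max (H (θ.mp x') n) (ms (θ.mp x' δ) n)`; `H (θ.mp x') = H (θ.mp x)` (names below `δ`), `θ.mp x' δ` starts with `θ.e δ x s`, so its entries at `i ≤ n` are `≤ ms ≤ length`.
`cov`: `Fo (h1 * θ * χ') q = Fo (h1 * χ * (g₃ * g₄ * χ')) q`, and `σ (χ'.mp x) = σ₀ ((g₃ * g₄ * χ').mp x)`.
`isCd_cdW`: `cdW` is built from finitely many locally constant data: for fixed `i, k`: the two lengths are `LC` with support below `δ`; for fixed values of the lengths it is a finite union of `W n _ x`: `LC.local` twice, `LC.finset` over `Finset.range`.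
-/

set_option autoImplicit false
set_option linter.unusedSectionVars false

namespace Pool.Agent.Mil

variable {I : Type} [LinearOrder I]

/-- `r` is not in the `F_σ` set `⋃ i, ⋂ k, ⋃ t ∈ c x i k, [t]` -/
def NF (c : Pt I → ℕ → ℕ → Finset (List Bool)) (x : Pt I) (r : ℕ → Bool) : Prop :=
  ∀ i, ∃ k, ∀ t ∈ c x i k, ¬ Pf t r

/-- `c` is a name of a code of an `F_σ` set, with support in `A` -/
def IsCd (A : Set I) (c : Pt I → ℕ → ℕ → Finset (List Bool)) : Prop :=
  ∃ C : Set I, C.Countable ∧ C ⊆ A ∧ ∀ i k, LC C (fun x => c x i k)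

/-- the data of the main argument -/
structure Dat (Fo : Gam I → (Pt I → ℕ → Bool) → Prop) (δ : I) (h1 : Gam I) (H : Pt I → ℕ → ℕ) (θ : Gam I)
    (σ : Pt I → ℕ → List Bool) (W : ℕ → List ℕ → Pt I → Finset (List Bool)) : Prop where
  lcW : ∃ C : Set I, C.Countable ∧ ∀ n s, LC (C ∩ Set.Iio δ) (W n s)
  cardW : ∀ n s x, (W n s x).card ≤ (n + 1) ^ n
  lenW : ∀ n s x, ∀ t ∈ W n s x, n < (θ.e δ x s).length ∧ H (θ.mp x) n ≤ t.length ∧
    ∀ i ≤ n, ((θ.e δ x s)[i]?).getD 0 ≤ t.length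
  memW : ∀ n s x, Pf s (x δ) → n < (θ.e δ x s).length → σ x n ∈ W n s x
  cov : ∀ (χ : Gam I) (q : Pt I → ℕ → Bool), IsNm Set.univ q → Fo (h1 * θ * χ) q →
    ∀ m, ∃ x, ∃ n ≥ m, Pf (σ (χ.mp x) n) (q x)

open Classical in
/-- the code of the `F_σ` set: `i` codes `(s, k0)`; the sets `W n (s ++ [k0 + k]) x`, `|e s| ≤ n < |e (s ++ [k0 + k])|` -/
noncomputable def cdW (δ : I) (θ : Gam I) (W : ℕ → List ℕ → Pt I → Finset (List Bool)) :
    Pt I → ℕ → ℕ → Finset (List Bool) := fun x i k =>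
  ((Finset.range (θ.e δ x (uncd i.unpair.1 ++ [i.unpair.2 + k])).length).filter
    (fun n => (θ.e δ x (uncd i.unpair.1)).length ≤ n)).biUnion
      (fun n => W n (uncd i.unpair.1 ++ [i.unpair.2 + k]) x)

theorem mem_cdW {δ : I} {θ : Gam I} {W : ℕ → List ℕ → Pt I → Finset (List Bool)} {x : Pt I} {s : List ℕ}
    {k0 k : ℕ} {t : List Bool} : t ∈ cdW δ θ W x (Nat.pair (cd s) k0) k ↔
      ∃ n, (θ.e δ x s).length ≤ n ∧ n < (θ.e δ x (s ++ [k0 + k])).length ∧ t ∈ W n (s ++ [k0 + k]) x := by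
  simp only [cdW, Nat.unpair_pair, uncd_cd, Finset.mem_biUnion, Finset.mem_filter, Finset.mem_range]
  constructor
  · rintro ⟨n, ⟨h1, h2⟩, h3⟩; exact ⟨n, h2, h1, h3⟩
  · rintro ⟨n, h1, h2, h3⟩; exact ⟨n, ⟨h2, h1⟩, h3⟩

/-- finite unions of locally constant finite sets -/
private theorem dat_biUnion {β : Type} [DecidableEq β] {C : Set I} {J : Type} (s : Finset J)
    {a : J → Pt I → Finset β} (h : ∀ j, LC C (a j)) : LC C (fun x => s.biUnion (fun j => a j x)) := by
  intro x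
  obtain ⟨F, hF, n, hn⟩ := LC.finset (C := C) s (β := fun _ => Finset β) a (fun j _ => h j) x
  exact ⟨F, hF, n, fun y hy => Finset.biUnion_congr rfl fun j hj => hn y hy j hj⟩

theorem isCd_cdW {δ : I} {θ : Gam I} {W : ℕ → List ℕ → Pt I → Finset (List Bool)} {C : Set I}
    (hC : C.Countable) (hW : ∀ n s, LC (C ∩ Set.Iio δ) (W n s)) : IsCd (Set.Iio δ) (cdW δ θ W) := by
  obtain ⟨D, hD, hDs⟩ := θ.exists_spt
  refine ⟨(C ∪ D) ∩ Set.Iio δ, (hC.union hD).mono Set.inter_subset_left, Set.inter_subset_right, fun i k => ?_⟩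
  have h1 : ∀ s, LC ((C ∪ D) ∩ Set.Iio δ) (fun x => θ.e δ x s) := fun s =>
    (hDs.lc δ s).mono (Set.inter_subset_inter_left _ Set.subset_union_right)
  refine LC.local (p := fun x => (θ.e δ x (uncd i.unpair.1), θ.e δ x (uncd i.unpair.1 ++ [i.unpair.2 + k])))
    ((h1 _).pair (h1 _))
    (fun c x => ((Finset.range c.2.length).filter (fun n => c.1.length ≤ n)).biUnion
      (fun n => W n (uncd i.unpair.1 ++ [i.unpair.2 + k]) x)) (fun c => ?_) fun x => rfl
  exact dat_biUnion _ fun n => (hW n _).mono (Set.inter_subset_inter_left _ Set.subset_union_left)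

/-- the supremum of the first `n + 1` entries -/
private def dat_ms (n : ℕ) (l : List ℕ) : ℕ := (Finset.range (n + 1)).sup (fun i => (l[i]?).getD 0)

private theorem dat_ms_le {n i : ℕ} (hi : i ≤ n) (l : List ℕ) : (l[i]?).getD 0 ≤ dat_ms n l :=
  Finset.le_sup (f := fun i => (l[i]?).getD 0) (Finset.mem_range.2 (Nat.lt_succ_of_le hi))

private theorem dat_ms_tk {n : ℕ} {l : List ℕ} {y : ℕ → ℕ} (h : Pf l y) (hn : n < l.length) :
    dat_ms n (tk y (n + 1)) = dat_ms n l := by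
  refine Finset.sup_congr rfl fun i hi => ?_
  have hi' : i < n + 1 := Finset.mem_range.1 hi
  have hil : i < l.length := by omega
  rw [tk_getElem? _ _ _ hi', List.getElem?_eq_getElem hil, pf_iff.1 h i hil]

/-- the lists of length `L` -/
private noncomputable def dat_bl (L : ℕ) : Finset (List Bool) := (List.finite_length_eq Bool L).toFinset

private theorem mem_dat_bl {L : ℕ} {t : List Bool} : t ∈ dat_bl L ↔ t.length = L := by
  rw [dat_bl, Set.Finite.mem_toFinset]
  exact Iff.rfl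

theorem exists_dat [WellFoundedLT I] {Fo : Gam I → (Pt I → ℕ → Bool) → Prop} (hS : Smz Fo) (δ : I) (h1 : Gam I)
    {H : Pt I → ℕ → ℕ} (hH : IsNm (Set.Iio δ) H) :
    ∃ (θ : Gam I) (σ : Pt I → ℕ → List Bool) (W : ℕ → List ℕ → Pt I → Finset (List Bool)),
      Dat Fo δ h1 H θ σ W := by
  classical
  obtain ⟨CH, hCH, hCHs, hHlc⟩ := hH
  obtain ⟨f, hfd⟩ : ∃ f : Pt I → ℕ → ℕ, f = fun x n => max (H x n) (dat_ms n (tk (x δ) (n + 1))) := ⟨_, rfl⟩
  have hf : ∀ n, LC (CH ∪ {δ}) (fun x => f x n) := by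
    intro n
    rw [hfd]
    have h2 : LC (CH ∪ {δ}) (fun x : Pt I => tk (x δ) (n + 1)) :=
      LC.tk (show δ ∈ CH ∪ {δ} from Or.inr rfl) _
    exact ((hHlc n).mono Set.subset_union_left).comp₂ h2 fun u v => max u (dat_ms n v)
  obtain ⟨χ, σ₀, ⟨Cσ, hCσ, -, hσlc⟩, hlen, hcov⟩ := hS.io h1 (f := f)
    ⟨CH ∪ {δ}, hCH.union (Set.countable_singleton δ), Set.subset_univ _, hf⟩
  obtain ⟨Dχ, hDχ, hDχs⟩ := χ.exists_spt
  -- the first step
  obtain ⟨C1, hC1d⟩ : ∃ C1 : Set I, C1 = Cσ ∪ ((CH ∪ {δ}) ∪ Dχ) := ⟨_, rfl⟩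
  have hC1 : C1.Countable := by
    rw [hC1d]
    exact hCσ.union ((hCH.union (Set.countable_singleton δ)).union hDχ)
  have hfχ : ∀ n, LC (C1 ∩ Set.Iic δ) (fun x => dat_bl (f (χ.mp x) n)) := by
    intro n
    refine LC.comp₁ (f := fun x => f (χ.mp x) n) ?_ dat_bl
    refine hDχs.lc_comp (f := fun x => f x n) (hf n) ?_ ?_
    · rintro a ha
      refine ⟨by rw [hC1d]; exact Or.inr (Or.inl ha), ?_⟩
      rcases ha with ha | ha
      · exact le_of_lt (hCHs ha)
      · rw [Set.mem_singleton_iff.1 ha]; exact Set.mem_Iic.2 le_rfl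
    · rintro a ha b ⟨hb1, hb2⟩
      refine ⟨by rw [hC1d]; exact Or.inr (Or.inr hb1), ?_⟩
      rcases ha with ha | ha
      · exact le_of_lt (lt_trans hb2 (hCHs ha))
      · rw [Set.mem_singleton_iff.1 ha] at hb2; exact le_of_lt hb2
  obtain ⟨g₃, C2, hC2, V, hV, hVcard, hVmem, hVsub⟩ := laver (isLowerSet_Iic δ) hC1
    (f := fun n x => σ₀ x n) (fun n => (hσlc n).mono (by rw [hC1d]; exact Set.subset_union_left))
    (Bd := fun n x => dat_bl (f (χ.mp x) n)) hfχ (fun n x => mem_dat_bl.2 (hlen x n))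
  -- the second step
  obtain ⟨D3, hD3, hD3s⟩ := (χ * g₃).exists_spt
  obtain ⟨C3, hC3d⟩ : ∃ C3 : Set I, C3 = C2 ∪ (CH ∪ D3) := ⟨_, rfl⟩
  have hC3 : C3.Countable := by
    rw [hC3d]
    exact hC2.union (hCH.union hD3)
  have hCH3 : CH ⊆ C3 := by rw [hC3d]; exact Set.subset_union_left.trans Set.subset_union_right
  have hD33 : D3 ⊆ C3 := by rw [hC3d]; exact Set.subset_union_right.trans Set.subset_union_right
  have hC23 : C2 ⊆ C3 := by rw [hC3d]; exact Set.subset_union_left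
  have hHθ : ∀ n, LC (C3 ∩ Set.Iio δ) (fun x => H ((χ * g₃).mp x) n) := by
    intro n
    refine hD3s.lc_comp (f := fun x => H x n) (hHlc n) (fun a ha => ⟨hCH3 ha, hCHs ha⟩) ?_
    rintro a ha b ⟨hb1, hb2⟩
    exact ⟨hD33 hb1, lt_trans hb2 (hCHs ha)⟩
  obtain ⟨g₄, -, C4, hC4, W, hW, hWeq⟩ := decide_nodes δ (χ * g₃) hC3 (S := V)
    (fun n => (hV n).mono (Set.inter_subset_inter_left _ hC23))
    (Bd := fun n s x => if n < ((χ * g₃).e δ x s).length then
      (dat_bl (max (H ((χ * g₃).mp x) n) (dat_ms n ((χ * g₃).e δ x s)))).powerset else ∅)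
    (by
      intro n s
      exact (((hD3s.lc δ s).mono (Set.inter_subset_inter_left _ hD33)).comp₂ (hHθ n)
        fun l m => if n < l.length then (dat_bl (max m (dat_ms n l))).powerset else ∅))
    (by
      intro n s x hx hn
      simp only [hn, if_true]
      rw [Finset.mem_powerset]
      have h3 := hVsub n x
      rw [← Gam.mul_mp, hfd] at h3
      simp only at h3
      rw [dat_ms_tk ((χ * g₃).pf_mp hx) hn] at h3
      exact h3)
  obtain ⟨θ, hθ⟩ : ∃ θ : Gam I, θ = χ * g₃ * g₄ := ⟨_, rfl⟩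
  rw [← hθ] at hWeq
  obtain ⟨Dθ, hDθ, hDθs⟩ := θ.exists_spt
  have key : ∀ n s x, n < (θ.e δ x s).length → ∃ x' : Pt I, Pf s (x' δ) ∧ (∀ b < δ, x' b = x b) ∧
      W n s x = V n (g₄.mp x') := by
    intro n s x hn
    have hx1 : Pf s ((Function.update x δ (cat s fun _ => 0)) δ) := by
      rw [Function.update_self]; exact pf_cat _ _
    have hx2 : ∀ b < δ, (Function.update x δ (cat s fun _ => 0)) b = x b := fun b hb =>
      Function.update_of_ne (ne_of_lt hb) _ _
    refine ⟨Function.update x δ (cat s fun _ => 0), hx1, hx2, ?_⟩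
    rw [hWeq n s _ hx1 (by rw [θ.congr δ hx2]; exact hn)]
    exact ((hW n s).eq_of fun a ha => hx2 a ha.2).symm
  refine ⟨θ, fun x => σ₀ (g₃.mp (g₄.mp x)), fun n s x => if n < (θ.e δ x s).length then W n s x else ∅,
    ⟨C4 ∪ Dθ, hC4.union hDθ, fun n s => ?_⟩, fun n s x => ?_, fun n s x t ht => ?_, fun n s x hx hn => ?_,
    fun χ' q hq hFo m => ?_⟩
  · exact ((hDθs.lc δ s).mono (Set.inter_subset_inter_left _ Set.subset_union_right)).comp₂
      ((hW n s).mono (Set.inter_subset_inter_left _ Set.subset_union_left))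
      fun l w => if n < l.length then w else ∅
  · by_cases hn : n < (θ.e δ x s).length
    · simp only [hn, if_true]
      obtain ⟨x', -, -, h4⟩ := key n s x hn
      rw [h4]
      exact hVcard n _
    · simp only [hn, if_false]
      rw [Finset.card_empty]
      exact Nat.zero_le _
  · by_cases hn : n < (θ.e δ x s).length
    · simp only [hn, if_true] at ht
      obtain ⟨x', h2, h3, h4⟩ := key n s x hn
      rw [h4] at ht
      have h5 := mem_dat_bl.1 (hVsub n _ ht)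
      rw [← Gam.mul_mp, ← Gam.mul_mp, ← hθ, hfd] at h5
      simp only at h5
      have h6 : θ.e δ x' s = θ.e δ x s := θ.congr δ h3 s
      rw [dat_ms_tk (θ.pf_mp h2) (by rw [h6]; exact hn), h6] at h5
      have h7 : H (θ.mp x') n = H (θ.mp x) n := by
        refine (hHlc n).eq_of (f := fun x => H x n) fun a ha => θ.mp_congr a fun b hb => ?_
        exact h3 b (lt_of_le_of_lt hb (hCHs ha))
      rw [h7] at h5
      refine ⟨hn, ?_, fun i hi => ?_⟩
      · rw [h5]; exact le_max_left _ _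
      · rw [h5]; exact (dat_ms_le hi _).trans (le_max_right _ _)
    · simp only [hn, if_false] at ht
      exact absurd ht (Finset.notMem_empty _)
  · simp only [hn, if_true]
    rw [← hWeq n s x hx hn]
    exact hVmem n _
  · obtain ⟨x, n, hn, h8⟩ := hcov (g₃ * g₄ * χ') q hq (by
      have h9 : h1 * χ * (g₃ * g₄ * χ') = h1 * θ * χ' := by
        rw [hθ]; simp only [mul_assoc]
      rw [h9]; exact hFo) m
    refine ⟨x, n, hn, ?_⟩
    rw [Gam.mul_mp, Gam.mul_mp] at h8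
    exact h8

end Pool.Agent.Mil
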