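import Mathlib
import Pool.Agent.Lib.Mil.Dat

/-!
# Mil.ClA (size 200): no real with a name below `δ` avoids the `F_σ` set

Proof. Suppose `χ.In (Iio δ)`, `IsNm (Iio δ) q`, `Fo (rs (Iio δ) (h1 * θ) * χ) q` and `∀ x, NF (cdW δ θ W) (χ.mp x) (q x)`. Write `h4 = h1 * θ`, `e x s = θ.e δ (χ.mp x) s`; it depends only on the coordinates of `x` below `δ`.
(1) `Fo (h4 * χ) q`: `rs_mul_rs_compl` for `h4 * χ`: `h4 * χ = rs (Iio δ) (h4 * χ) * R`, `R = rs (Iio δ)ᶜ (h4 * χ)`, `rs (Iio δ) (h4 * χ) = rs (Iio δ) h4 * χ` (`rs_mul`, `rs_eq`). `hS.mul` gives `Fo (rs (Iio δ) h4 * χ * R) (fun x => q (R.mp x))` and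
`q (R.mp x) = q x` because `q` depends only on coordinates `< δ` and `R.mp x a = x a` there (`In.mp_eq`).
(2) For a node `s` and `k` call `k` good for `(x, s)` if `∀ n, (e x s).length ≤ n → n < (e x (s ++ [k])).length → ∀ t ∈ W n (s ++ [k]) (χ.mp x), ¬ Pf t (q x)`. By `NF` at `i = Nat.pair (cd s) k0` and `mem_cdW` there are infinitely many good `k` for all
`x, s`. `{x | k good for (x, s)}` is `LC` with countable support below `δ`.
(3) Define `E x : List ℕ → List ℕ` by `E x [] = []`, `E x (s ++ [k]) = E x s ++ [Nat.nth (fun k' => k' is good for (x, E x s)) k]` (use `List.foldl`, as in `KOne`). `Stp (E x)` with `j = Nat.nth _` (`Nat.nth_strictMono`), and every list `E x s` is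
`LC (C ∩ Iio δ)` for a countable `C` (induction on `s` from the end; `Nat.nth` as in `Col`: the value `n` is decided by the goodness of the `m ≤ n`). `exists_upd` for `1 : Gam I` at `δ` (support `insert δ C`) gives `ρ` with `ρ.e δ x = E x`, `ρ.e a x s = s` for
`a ≠ δ`. `ρ.mp x a = x a` for `a ≠ δ`.
(4) `Fo (h4 * χ * ρ) q` by `hS.mul` (`q (ρ.mp x) = q x`). Let `m0 = (e 0 []).length`, and let `w = Cfg.of F n 0` with `F ⊆ Iio δ` be such that `(e y []).length = m0` for all `y ∈ Cy w.u`. `Fo (h4 * χ * ρ * w.k) (fun x => q (w.k.mp x))`. `cov` with `χ * ρ * w.k` and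
`m = m0` gives `x` and `n ≥ m0` with `Pf (σ ((χ * ρ * w.k).mp x) n) (q (w.k.mp x))`. Let `y = w.k.mp x ∈ Cy w.u`, `z = (χ * ρ).mp y = χ.mp (ρ.mp y)`. `z δ = ρ.mp y δ`, `z a = χ.mp y a` for `a < δ` (`mp_congr`: `ρ.mp y` agrees with `y` below `δ`), so
`θ.e δ z = e y`.
(5) The lengths `(e y (E y (tk (y δ) r))).length`, `r = 0, 1, ...` are strictly increasing (`Stp`), start at `m0 ≤ n`; let `r` be the largest with length `≤ n`, `s = E y (tk (y δ) r)`, `E y (tk (y δ) (r+1)) = s ++ [k]`, `k` good for `(y, s)`. So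
`(e y s).length ≤ n < (e y (s ++ [k])).length`. `Pf (s ++ [k]) (ρ.mp y δ) = Pf (s ++ [k]) (z δ)` (`pf_mp`). By `memW`: `σ z n ∈ W n (s ++ [k]) z = W n (s ++ [k]) (χ.mp y)` (depends only on coordinates `< δ`), and `Pf (σ z n) (q y)`: contradicts that `k` is good.
-/

set_option autoImplicit false
set_option linter.unusedSectionVars false

namespace Pool.Agent.Mil

variable {I : Type} [LinearOrder I]

private theorem cla_nth {C : Set I} {P : Pt I → ℕ → Prop} (hP : ∀ m, LC C (fun x => P x m))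
    (hinf : ∀ x, {m | P x m}.Infinite) (k : ℕ) : LC C (fun x => Nat.nth (P x) k) := by
  classical
  intro x
  obtain ⟨F, hF, n, hn⟩ := LC.finset (C := C) (Finset.range (Nat.nth (P x) k + 1))
    (β := fun _ => Prop) (fun m x => P x m) (fun m _ => hP m) x
  refine ⟨F, hF, n, fun y hy => ?_⟩
  have h1 := hn y hy
  have h2 : ∀ m, m ≤ Nat.nth (P x) k → (P y m ↔ P x m) := fun m hm =>
    iff_of_eq (h1 m (Finset.mem_range.2 (Nat.lt_succ_of_le hm)))
  have h3 : P y (Nat.nth (P x) k) := (h2 _ le_rfl).2 (Nat.nth_mem_of_infinite (hinf x) k)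
  have h4 : Nat.count (P y) (Nat.nth (P x) k) = k := by
    have h5 : Nat.count (P x) (Nat.nth (P x) k) = k := Nat.count_nth_of_infinite (hinf x) k
    rw [Nat.count_eq_card_filter_range] at h5 ⊢
    refine Eq.trans (congrArg Finset.card (Finset.filter_congr fun m hm => ?_)) h5
    exact h2 m (Finset.mem_range.1 hm).le
  show Nat.nth (P y) k = Nat.nth (P x) k
  conv_lhs => rw [← h4]
  exact Nat.nth_count (p := P y) h3

omit [LinearOrder I] in
private theorem cla_ball {C : Set I} {J : Type} (F : Finset J) (Q : J → Pt I → Prop)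
    (h : ∀ j ∈ F, LC C (Q j)) : LC C (fun x => ∀ j ∈ F, Q j x) := by
  intro x
  obtain ⟨F', hF', n, hn⟩ := LC.finset (C := C) F (β := fun _ => Prop) Q h x
  refine ⟨F', hF', n, fun y hy => ?_⟩
  have h1 := hn y hy
  apply propext
  exact forall₂_congr fun j hj => iff_of_eq (h1 j hj)

omit [LinearOrder I] in
private theorem cla_tk {C : Set I} {β : Type} {q : Pt I → ℕ → β} (hq : ∀ n, LC C (fun x => q x n))
    (n : ℕ) : LC C (fun x => tk (q x) n) := by
  induction n with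
  | zero => exact LC.const _ _
  | succ n ih =>
    have h1 : (fun x => tk (q x) (n + 1)) = fun x => tk (q x) n ++ [q x n] :=
      funext fun x => tk_succ _ _
    rw [h1]
    exact ih.comp₂ (hq n) (fun a b => a ++ [b])

private theorem cla_inv {δ : I} {q : Pt I → ℕ → Bool} (hq : IsNm (Set.Iio δ) q) {T : Pt I → Pt I}
    (hT : ∀ x, ∀ a < δ, T x a = x a) : (fun x => q (T x)) = q := by
  obtain ⟨C, -, hC, hL⟩ := hq
  funext x n
  exact (hL n).eq_of fun a ha => hT x a (hC ha)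

/-- the chosen nodes -/
private noncomputable def cla_E (G : Pt I → List ℕ → ℕ → Prop) (x : Pt I) (s : List ℕ) : List ℕ :=
  s.foldl (fun u k => u ++ [Nat.nth (G x u) k]) []

omit [LinearOrder I] in
private theorem cla_E_append (G : Pt I → List ℕ → ℕ → Prop) (x : Pt I) (s : List ℕ) (k : ℕ) :
    cla_E G x (s ++ [k]) = cla_E G x s ++ [Nat.nth (G x (cla_E G x s)) k] := by
  unfold cla_E
  rw [List.foldl_append]
  rfl

theorem claimA {Fo : Gam I → (Pt I → ℕ → Bool) → Prop} (hS : Smz Fo) {δ : I} {h1 : Gam I} {H : Pt I → ℕ → ℕ}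
    {θ : Gam I} {σ : Pt I → ℕ → List Bool} {W : ℕ → List ℕ → Pt I → Finset (List Bool)}
    (hD : Dat Fo δ h1 H θ σ W) :
    ¬ ∃ (χ : Gam I) (q : Pt I → ℕ → Bool), χ.In (Set.Iio δ) ∧ IsNm (Set.Iio δ) q ∧
      Fo (Gam.rs (Set.Iio δ) (h1 * θ) * χ) q ∧ ∀ x, NF (cdW δ θ W) (χ.mp x) (q x) := by
  classical
  rintro ⟨χ, q, hχ, hq, hF, hNF⟩
  have hlow : IsLowerSet (Set.Iio δ) := isLowerSet_Iio δ
  -- step 1
  have hF1 : Fo (h1 * θ * χ) q := by
    have e1 := Gam.rs_mul_rs_compl hlow (h1 * θ * χ)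
    rw [Gam.rs_mul hlow (h1 * θ) χ, Gam.rs_eq hχ] at e1
    have e2 := hS.mul _ (Gam.rs (Set.Iio δ)ᶜ (h1 * θ * χ)) q hF
    rw [e1, cla_inv hq (fun x a ha => (Gam.in_rs (Set.Iio δ)ᶜ (h1 * θ * χ)).mp_eq
      (fun h => h ha) x)] at e2
    exact e2
  -- the supports
  obtain ⟨Cθ, hCθ, hSθ⟩ := θ.exists_spt
  obtain ⟨Cχ, hCχ, hSχ⟩ := χ.exists_spt
  obtain ⟨CW, hCW, hLW⟩ := hD.lcW
  obtain ⟨Cq, hCq, hCqδ, hLq⟩ := id hq
  let C : Set I := ((Cθ ∪ Cχ) ∪ (CW ∪ Cq)) ∪ {δ}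
  have hC : C.Countable := ((hCθ.union hCχ).union (hCW.union hCq)).union (Set.countable_singleton δ)
  have hsub : ∀ a ∈ Set.Iio δ, Cχ ∩ Set.Iio a ⊆ C ∩ Set.Iio δ := by
    rintro a ha b ⟨hb1, hb2⟩
    exact ⟨Or.inl (Or.inl (Or.inr hb1)), lt_trans hb2 ha⟩
  have heL : ∀ s, LC (C ∩ Set.Iio δ) (fun x => θ.e δ (χ.mp x) s) := fun s =>
    hSχ.lc_comp (hSθ.lc δ s) (Set.inter_subset_inter_left _ fun a ha => Or.inl (Or.inl (Or.inl ha)))
      fun a ha => hsub a ha.2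
  have hWL : ∀ n s, LC (C ∩ Set.Iio δ) (fun x => W n s (χ.mp x)) := fun n s =>
    hSχ.lc_comp (hLW n s) (Set.inter_subset_inter_left _ fun a ha => Or.inl (Or.inr (Or.inl ha)))
      fun a ha => hsub a ha.2
  have hqL : ∀ n, LC (C ∩ Set.Iio δ) (fun x => q x n) := fun n =>
    (hLq n).mono fun a ha => ⟨Or.inl (Or.inr (Or.inr ha)), hCqδ ha⟩
  -- good numbers
  let G : Pt I → List ℕ → ℕ → Prop := fun x s k => ∀ n, (θ.e δ (χ.mp x) s).length ≤ n →
    n < (θ.e δ (χ.mp x) (s ++ [k])).length → ∀ t ∈ W n (s ++ [k]) (χ.mp x), ¬ Pf t (q x)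
  have hinf : ∀ s x, {k | G x s k}.Infinite := by
    intro s x
    rw [Set.infinite_iff_exists_gt]
    intro a
    obtain ⟨k, hk⟩ := hNF x (Nat.pair (cd s) (a + 1))
    refine ⟨a + 1 + k, fun n hn1 hn2 t ht => hk t (mem_cdW.2 ⟨n, hn1, hn2, ht⟩), by omega⟩
  have hGL : ∀ s k, LC (C ∩ Set.Iio δ) (fun x => G x s k) := by
    intro s k
    have hP : ∀ t : List Bool, LC (C ∩ Set.Iio δ) (fun x => ¬ Pf t (q x)) := fun t =>
      (cla_tk hqL t.length).comp₁ (fun l => ¬ l = t)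
    have hW : ∀ n, LC (C ∩ Set.Iio δ) (fun x => ∀ t ∈ W n (s ++ [k]) (χ.mp x), ¬ Pf t (q x)) := by
      intro n
      exact LC.local (hWL n (s ++ [k])) (fun F x => ∀ t ∈ F, ¬ Pf t (q x))
        (fun F => cla_ball F _ fun t _ => hP t) fun x => rfl
    refine LC.local ((heL s).pair (heL (s ++ [k]))) (fun p x => ∀ n ∈ (Finset.range p.2.length).filter
      (fun n => p.1.length ≤ n), ∀ t ∈ W n (s ++ [k]) (χ.mp x), ¬ Pf t (q x))
      (fun p => cla_ball _ _ fun n _ => hW n) fun x => propext ?_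
    constructor
    · intro h n hn
      rw [Finset.mem_filter, Finset.mem_range] at hn
      exact h n hn.2 hn.1
    · intro h n hn1 hn2
      exact h n (Finset.mem_filter.2 ⟨Finset.mem_range.2 hn2, hn1⟩)
  -- the map at the coordinate `δ`
  have hEs : ∀ x, Stp (cla_E G x) := fun x s =>
    ⟨Nat.nth (G x (cla_E G x s)), Nat.nth_strictMono (hinf _ x), fun k => by
      rw [cla_E_append]⟩
  have hEL : ∀ s, LC (C ∩ Set.Iio δ) (fun x => cla_E G x s) := by
    intro s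
    induction s using List.reverseRecOn with
    | nil => exact LC.const _ _
    | append_singleton s k ih =>
      exact LC.local ih (fun u x => u ++ [Nat.nth (G x u) k])
        (fun u => (cla_nth (hGL u) (hinf u) k).comp₁ fun n => u ++ [n]) fun x => cla_E_append G x s k
  obtain ⟨ρ, -, hρδ, hρa⟩ := exists_upd hC (Gam.Spt.one.mono (Set.empty_subset C))
    (show δ ∈ C from Or.inr rfl) (cla_E G) hEs hEL
  have hρmp : ∀ x, ∀ a, a ≠ δ → ρ.mp x a = x a := by
    intro x a ha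
    have h2 : ρ.e a x = fun s => s := funext fun s => hρa a ha x s
    rw [Gam.mp, h2, lm_id]
  have hF2 : Fo (h1 * θ * χ * ρ) q := by
    have e2 := hS.mul _ ρ q hF1
    rwa [cla_inv hq (fun x a ha => hρmp x a (ne_of_lt ha))] at e2
  -- step 4
  obtain ⟨F, hFs, n0, hn0⟩ := heL [] (fun _ _ => 0)
  let w : Cfg I := Cfg.of F n0 (fun _ _ => 0)
  have hF3 := hS.mul _ w.k q hF2
  have hnm : IsNm Set.univ (fun x => q (w.k.mp x)) := by
    refine ⟨Cq ∪ sp w.u, hCq.union w.fin.countable, Set.subset_univ _, fun n => ?_⟩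
    exact (kk_spt w.u w.fin.countable).lc_comp (hLq n) Set.subset_union_left
      fun a _ b hb => Or.inr hb.1
  obtain ⟨x, n, hn, hpf⟩ := hD.cov (χ * ρ * w.k) (fun x => q (w.k.mp x)) hnm
    (by simpa only [mul_assoc] using hF3) (θ.e δ (χ.mp (fun _ _ => 0)) []).length
  obtain ⟨y, hy⟩ : ∃ y, y = w.k.mp x := ⟨_, rfl⟩
  have hyw : y ∈ Cy w.u := by
    rw [hy, Cfg.k_mp]
    exact pre_mem _ _
  have hy0 : θ.e δ (χ.mp y) [] = θ.e δ (χ.mp (fun _ _ => 0)) [] := hn0 y (Cfg.ag_of hyw)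
  rw [Gam.mul_mp, Gam.mul_mp, ← hy] at hpf
  obtain ⟨z, hz⟩ : ∃ z, z = χ.mp (ρ.mp y) := ⟨_, rfl⟩
  rw [← hz] at hpf
  have hzδ : z δ = ρ.mp y δ := by
    rw [hz]
    exact hχ.mp_eq (fun h => lt_irrefl δ h) _
  have hza : ∀ a < δ, z a = χ.mp y a := by
    intro a ha
    rw [hz]
    exact Gam.mp_congr χ a fun b hb => hρmp y b (ne_of_lt (lt_of_le_of_lt hb ha))
  have hθz : ∀ s, θ.e δ z s = θ.e δ (χ.mp y) s := fun s => θ.congr δ hza s
  -- step 5
  have hstp : Stp (fun s => θ.e δ (χ.mp y) (cla_E G y s)) := (θ.stp δ (χ.mp y)).comp (hEs y)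
  have hlen : ∀ r, (θ.e δ (χ.mp y) (cla_E G y (tk (y δ) r))).length <
      (θ.e δ (χ.mp y) (cla_E G y (tk (y δ) (r + 1)))).length := by
    intro r
    obtain ⟨j, -, hj⟩ := hstp (tk (y δ) r)
    have h2 := (hj (y δ r)).length_le
    rw [← tk_succ, List.length_append, List.length_singleton] at h2
    exact Nat.lt_of_succ_le h2
  have hex : ∃ r, n < (θ.e δ (χ.mp y) (cla_E G y (tk (y δ) r))).length := by
    have h2 : StrictMono fun r => (θ.e δ (χ.mp y) (cla_E G y (tk (y δ) r))).length :=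
      strictMono_nat_of_lt_succ hlen
    exact ⟨n + 1, lt_of_lt_of_le (Nat.lt_succ_self n) (h2.le_apply (x := n + 1))⟩
  have hr1 := Nat.find_spec hex
  have hr2 : ∀ m < Nat.find hex, ¬ n < (θ.e δ (χ.mp y) (cla_E G y (tk (y δ) m))).length :=
    fun m hm => Nat.find_min hex hm
  obtain ⟨r, hr⟩ : ∃ r, Nat.find hex = r + 1 := by
    refine Nat.exists_eq_succ_of_ne_zero fun h => ?_
    rw [h] at hr1
    have h2 : cla_E G y (tk (y δ) 0) = [] := rfl
    rw [h2, hy0] at hr1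
    omega
  rw [hr] at hr1 hr2
  have hr3 := not_lt.1 (hr2 r (Nat.lt_succ_self r))
  have hE : cla_E G y (tk (y δ) (r + 1)) = cla_E G y (tk (y δ) r) ++
      [Nat.nth (G y (cla_E G y (tk (y δ) r))) (y δ r)] := by
    rw [tk_succ, cla_E_append]
  have hgood : G y (cla_E G y (tk (y δ) r)) (Nat.nth (G y (cla_E G y (tk (y δ) r))) (y δ r)) :=
    Nat.nth_mem_of_infinite (hinf _ y) _
  rw [hE] at hr1
  have hpz : Pf (cla_E G y (tk (y δ) r) ++ [Nat.nth (G y (cla_E G y (tk (y δ) r))) (y δ r)]) (z δ) := by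
    rw [← hE, hzδ, ← hρδ]
    exact ρ.pf_mp (pf_tk _ _)
  have hmem := hD.memW n _ z hpz (by rw [hθz]; exact hr1)
  have hWz : W n (cla_E G y (tk (y δ) r) ++ [Nat.nth (G y (cla_E G y (tk (y δ) r))) (y δ r)]) z =
      W n (cla_E G y (tk (y δ) r) ++ [Nat.nth (G y (cla_E G y (tk (y δ) r))) (y δ r)]) (χ.mp y) :=
    (hLW n _).eq_of fun a ha => hza a ha.2
  rw [hWz] at hmem
  exact hgood n hr3 hr1 _ hmem hpf

end Pool.Agent.Mil
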