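import Mathlib
import Pool.Agent.Lib.Mil.Stmt

/-!
# Mil.Cls (size 120): closure points of cofinality `ω₁`

Proof. Let `Ω = (Ordinal.omega 1).ToType` (or `(Cardinal.aleph 1).ord.ToType`): a well-ordered type with `#Ω = ℵ₁ ≤ 𝔠` (`Cardinal.aleph_one_le_continuum`), no largest element, in which every countable set has a strict upper bound (regularity of `ℵ₁`; e.g.
the union of the countably many countable initial segments is countable, so it is not all of `Ω`). By well-founded recursion on `ξ : Ω` choose `g ξ : I` with: for all `η < ξ` and all `a ≤ g η`: `a < g ξ` and `G a < g ξ` (the set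
`⋃ η < ξ, {a | a ≤ g η} ∪ G '' {a | a ≤ g η}` has cardinality `≤ 𝔠`: `hI.small` (`Iic` = `Iio` plus a point), `Cardinal.mk_iUnion_le`; `hI.bdd`). The set of `g ξ`, `ξ : Ω`, has a strict upper bound (`hI.bdd`, `#Ω ≤ 𝔠`);
let `δ` be the least strict upper bound (`WellFounded.min`). If `a < δ` then `a` is not a strict upper bound: `a ≤ g ξ` for some `ξ`; take `ξ' > ξ`: `G a < g ξ' < δ`. If `S ⊆ Iio δ` is countable, choose `ξ_a` with `a ≤ g ξ_a` for `a ∈ S`, `ξ` a strict upper bound of the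
`ξ_a`; `γ = g ξ < δ`, `a ≤ g ξ_a < g ξ`.
-/

set_option autoImplicit false
set_option linter.unusedSectionVars false

open Cardinal

namespace Pool.Agent.Mil

variable {I : Type} [LinearOrder I] [WellFoundedLT I]

omit [WellFoundedLT I] in
private theorem cls_union (hI : Big I) (G : I → I) {ι : Type} (hι : #ι ≤ 𝔠) (f : ι → I) :
    ∃ b : I, ∀ i, ∀ a ≤ f i, a < b ∧ G a < b := by
  have hIic : ∀ a : I, #(Set.Iic a) ≤ 𝔠 := by
    intro a
    rw [← Set.Iio_insert]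
    refine (Cardinal.mk_insert_le).trans ?_
    exact Cardinal.add_le_of_le Cardinal.aleph0_le_continuum (hI.small a)
      (Cardinal.one_le_aleph0.trans Cardinal.aleph0_le_continuum)
  have hU : #(⋃ i, (Set.Iic (f i) ∪ G '' Set.Iic (f i)) : Set I) ≤ 𝔠 := by
    refine (Cardinal.mk_iUnion_le _).trans ?_
    refine Cardinal.mul_le_of_le Cardinal.aleph0_le_continuum hι (ciSup_le' fun i => ?_)
    refine (Cardinal.mk_union_le _ _).trans ?_
    exact Cardinal.add_le_of_le Cardinal.aleph0_le_continuum (hIic _)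
      (Cardinal.mk_image_le.trans (hIic _))
  obtain ⟨b, hb⟩ := hI.bdd _ hU
  exact ⟨b, fun i a ha => ⟨hb a (Set.mem_iUnion.2 ⟨i, Or.inl ha⟩),
    hb (G a) (Set.mem_iUnion.2 ⟨i, Or.inr ⟨a, ha, rfl⟩⟩)⟩⟩

theorem exists_closed (hI : Big I) (G : I → I) :
    ∃ δ : I, (∀ a < δ, G a < δ) ∧ ∀ S : Set I, S.Countable → S ⊆ Set.Iio δ → ∃ γ < δ, S ⊆ Set.Iio γ := by
  classical
  let Ω : Type := (Cardinal.aleph 1 : Cardinal.{0}).ord.ToType
  have hΩ : #Ω = Cardinal.aleph 1 := Cardinal.mk_ord_toType _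
  have hΩc : #Ω ≤ 𝔠 := by
    rw [hΩ]
    exact Cardinal.aleph_one_le_continuum
  have hIio : ∀ ξ : Ω, #(Set.Iio ξ) ≤ ℵ₀ := by
    intro ξ
    have h1 : #(Set.Iio ξ) < Cardinal.aleph 1 := Cardinal.mk_Iio_toType_ord_lt ξ
    exact Order.lt_succ_iff.1 (h1.trans_eq Cardinal.succ_aleph0.symm)
  -- countable sets are bounded
  have hbd : ∀ S : Set Ω, S.Countable → ∃ ξ : Ω, ∀ s ∈ S, s < ξ := by
    intro S hS
    by_contra hcon
    push Not at hcon
    have h1 : (Set.univ : Set Ω) ⊆ ⋃ s ∈ S, Set.Iic s := by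
      intro ξ _
      obtain ⟨s, hs, hξ⟩ := hcon ξ
      exact Set.mem_biUnion hs hξ
    have h2 : (⋃ s ∈ S, Set.Iic s).Countable := by
      refine hS.biUnion fun s _ => ?_
      rw [← Set.Iio_insert]
      exact (Cardinal.le_aleph0_iff_set_countable.1 (hIio s)).insert s
    have h3 : (Set.univ : Set Ω).Countable := h2.mono h1
    have h4 : #Ω ≤ ℵ₀ := by
      rw [← Cardinal.mk_univ]
      exact Cardinal.le_aleph0_iff_set_countable.2 h3
    rw [hΩ, ← Cardinal.succ_aleph0] at h4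
    exact absurd h4 (not_le.2 (Order.lt_succ _))
  -- the recursion
  have hstep : ∀ (ξ : Ω) (f : ∀ η : Ω, η < ξ → I), ∃ b : I, ∀ (η : Ω) (h : η < ξ), ∀ a ≤ f η h,
      a < b ∧ G a < b := by
    intro ξ f
    obtain ⟨b, hb⟩ := cls_union hI G ((hIio ξ).trans Cardinal.aleph0_le_continuum)
      (fun η : Set.Iio ξ => f η.1 η.2)
    exact ⟨b, fun η h a ha => hb ⟨η, h⟩ a ha⟩
  choose B hB using hstep
  let g : Ω → I := (wellFounded_lt (α := Ω)).fix B
  have hg : ∀ ξ, g ξ = B ξ fun η _ => g η := fun ξ => WellFounded.fix_eq _ _ _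
  have hg' : ∀ ξ η : Ω, η < ξ → ∀ a ≤ g η, a < g ξ ∧ G a < g ξ := by
    intro ξ η h a ha
    rw [hg ξ]
    exact hB ξ (fun η _ => g η) η h a ha
  -- the least strict upper bound
  have hU : {b : I | ∀ ξ, g ξ < b}.Nonempty := by
    obtain ⟨b, hb⟩ := hI.bdd (Set.range g) (Cardinal.mk_range_le.trans hΩc)
    exact ⟨b, fun ξ => hb _ ⟨ξ, rfl⟩⟩
  let δ : I := (wellFounded_lt (α := I)).min _ hU
  have hδ : ∀ ξ, g ξ < δ := (wellFounded_lt (α := I)).min_mem _ hU
  have hδ' : ∀ a < δ, ∃ ξ, a ≤ g ξ := by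
    intro a ha
    by_contra hcon
    push Not at hcon
    exact (wellFounded_lt (α := I)).not_lt_min {b : I | ∀ ξ, g ξ < b} hcon ha
  refine ⟨δ, fun a ha => ?_, fun S hS hSδ => ?_⟩
  · obtain ⟨ξ, hξ⟩ := hδ' a ha
    obtain ⟨ξ', hξ'⟩ := hbd {ξ} (Set.countable_singleton ξ)
    exact (hg' ξ' ξ (hξ' ξ rfl) a hξ).2.trans (hδ ξ')
  · have h1 : ∀ a : S, ∃ ξ, (a : I) ≤ g ξ := fun a => hδ' a (hSδ a.2)
    choose F hF using h1
    have hSc : Countable S := hS.to_subtype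
    obtain ⟨ξ, hξ⟩ := hbd (Set.range F) (Set.countable_range F)
    refine ⟨g ξ, hδ ξ, fun a ha => ?_⟩
    exact (hg' ξ (F ⟨a, ha⟩) (hξ _ ⟨⟨a, ha⟩, rfl⟩) a (hF ⟨a, ha⟩)).1

end Pool.Agent.Mil
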