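import Mathlib
import Pool.Agent.Lib.Mil.Dat

/-!
# Mil.Crd (size 200): cardinalities

Proof. (0) If `#Y ≤ 𝔠` then `#{S : Set Y // S.Countable} ≤ 𝔠`: the map `ℕ → Option Y`, `f ↦ {y | ∃ n, f n = some y}`, is onto the countable sets, and `#(ℕ → Option Y) ≤ 𝔠 ^ ℵ₀ = 𝔠` (`Cardinal.continuum_power_aleph0`).
`#{w : Cfg I // sp w.u ⊆ A} ≤ 𝔠` if `#A ≤ 𝔠`: inject into `Finset (A × List ℕ)` as in `Cfg.countable_sp` (`Cardinal.mk_finset_of_infinite` or inject into the countable subsets and use (0)).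
(1) `#{f : Pt I → β // ∃ C, C.Countable ∧ C ⊆ A ∧ LC C f} ≤ 𝔠` for a countable type `β`: choose for every such `f` a set `C_f`; `f ↦ {(w, b) : {w // sp w.u ⊆ A} × β | sp w.u ⊆ C_f ∧ ∀ x ∈ Cy w.u, f x = b}` is a countable set (`Cfg.countable_sp`), and the map
is injective: `f x = b` iff there is `(w, b)` in the set with `x ∈ Cy w.u` (`Cfg.of`).
(2) names: `q ↦ (n ↦ q · n)` is injective into the functions from `ℕ` to the type of (1), `𝔠 ^ ℵ₀ = 𝔠`. Codes: functions of two natural numbers.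
(3) `Gam`: choose for `φ.In (Iio γ)` (general: `φ.In A`, `A` a lower set) a countable support `C_φ ⊆ A` (`Spt.inter`); `φ ↦ {(a, s, f) | a ∈ C_φ ∧ f = fun x => φ.e a x s}`, a countable subset of `A × List ℕ × (type of (1) with β = List ℕ)`. Injective: `a ∈ C_φ` iff some `(a, [], f)`
is in the set; for `a ∈ C_φ` the functions `φ.e a · s` are determined, for `a ∉ C_φ` `φ.e a x s = s`.
-/

set_option autoImplicit false
set_option linter.unusedSectionVars false

open Cardinal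

namespace Pool.Agent.Mil

variable {I : Type} [LinearOrder I]

private theorem crd_cs {Y : Type} (h : #Y ≤ 𝔠) : #{S : Set Y // S.Countable} ≤ 𝔠 := by
  have h1 : #(ℕ → Option Y) ≤ 𝔠 := by
    have h0 : #(Option Y) ≤ 𝔠 := by
      rw [mk_option]
      exact (add_le_add h (one_le_aleph0.trans aleph0_le_continuum)).trans
        (by rw [continuum_add_self])
    have h2 : #(ℕ → Option Y) = #(Option Y) ^ ℵ₀ := by
      rw [mk_arrow, mk_nat]
      simp
    rw [h2]
    refine (power_le_power_right h0).trans ?_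
    rw [continuum_power_aleph0]
  have hcount : ∀ f : ℕ → Option Y, ({y | ∃ n, f n = some y} : Set Y).Countable := by
    intro f
    have h2 : ({y | ∃ n, f n = some y} : Set Y) = ⋃ n, {y | f n = some y} := by
      ext y
      simp
    rw [h2]
    refine Set.countable_iUnion fun n => Set.Subsingleton.countable ?_
    intro y hy z hz
    have hy' : f n = some y := hy
    have hz' : f n = some z := hz
    rw [hy'] at hz'
    exact Option.some.inj hz'
  refine le_trans (mk_le_of_surjective (f := fun f : ℕ → Option Y =>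
    (⟨{y | ∃ n, f n = some y}, hcount f⟩ : {S : Set Y // S.Countable})) ?_) h1
  rintro ⟨S, hS⟩
  rcases S.eq_empty_or_nonempty with h2 | h2
  · refine ⟨fun _ => none, ?_⟩
    apply Subtype.ext
    change ({y | ∃ n : ℕ, (none : Option Y) = some y} : Set Y) = S
    rw [h2]
    ext y
    simp
  · obtain ⟨g, hg⟩ := hS.exists_eq_range h2
    refine ⟨fun n => some (g n), ?_⟩
    apply Subtype.ext
    change ({y | ∃ n : ℕ, some (g n) = some y} : Set Y) = S
    rw [hg]
    ext y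
    simp

private theorem crd_inj {Y Z : Type} (h : #Y ≤ 𝔠) (g : Z → Set Y) (hc : ∀ z, (g z).Countable)
    (hi : Function.Injective g) : #Z ≤ 𝔠 := by
  refine (mk_le_of_injective (f := fun z => (⟨g z, hc z⟩ : {S : Set Y // S.Countable})) ?_).trans
    (crd_cs h)
  intro z z' hz
  exact hi (congrArg Subtype.val hz)

private theorem crd_prod {Y Z : Type} (h : #Y ≤ 𝔠) (h' : #Z ≤ 𝔠) : #(Y × Z) ≤ 𝔠 := by
  rw [mk_prod, lift_id, lift_id]
  exact (mul_le_mul' h h').trans (by rw [continuum_mul_self])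

private theorem crd_countable (Z : Type) [Countable Z] : #Z ≤ 𝔠 :=
  (mk_le_aleph0 (α := Z)).trans aleph0_le_continuum

private theorem crd_fun {Z : Type} (h : #Z ≤ 𝔠) (J : Type) [Countable J] : #(J → Z) ≤ 𝔠 := by
  refine crd_inj (crd_prod (crd_countable J) h) (fun f => {p : J × Z | f p.1 = p.2}) ?_ ?_
  · intro f
    have h1 : {p : J × Z | f p.1 = p.2} = Set.range fun j => (j, f j) := by
      ext ⟨j, z⟩
      simp only [Set.mem_ofPred_eq, Set.mem_range, Prod.mk.injEq]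
      constructor
      · intro hj
        exact ⟨j, rfl, hj⟩
      · rintro ⟨i, rfl, hi⟩
        exact hi
    rw [h1]
    exact Set.countable_range _
  · intro f f' hf
    funext j
    have h1 : (j, f j) ∈ {p : J × Z | f p.1 = p.2} := rfl
    have h2 : (j, f j) ∈ {p : J × Z | f' p.1 = p.2} := by
      rw [← show {p : J × Z | f p.1 = p.2} = {p : J × Z | f' p.1 = p.2} from hf]
      exact h1
    exact (show f' j = f j from h2).symm

private theorem crd_cfg {A : Set I} (h : #A ≤ 𝔠) : #{w : Cfg I // sp w.u ⊆ A} ≤ 𝔠 := by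
  refine crd_inj (crd_prod h (crd_countable (List ℕ)))
    (fun w => {p : A × List ℕ | p.2 ≠ [] ∧ w.1.u p.1.1 = p.2}) ?_ ?_
  · intro w
    have h0 : {a : A | a.1 ∈ sp w.1.u}.Countable :=
      Set.Countable.preimage_of_injOn w.1.fin.countable Subtype.val_injective.injOn
    have h1 : {p : A × List ℕ | p.2 ≠ [] ∧ w.1.u p.1.1 = p.2} ⊆
        {a : A | a.1 ∈ sp w.1.u} ×ˢ (Set.univ : Set (List ℕ)) := by
      rintro ⟨a, s⟩ ⟨hp, hp'⟩
      refine ⟨?_, Set.mem_univ _⟩
      change w.1.u a.1 ≠ []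
      intro h2
      apply hp
      rw [← hp', h2]
    exact (h0.prod (Set.countable_univ)).mono h1
  · intro w v hwv
    have key : ∀ w v : {w : Cfg I // sp w.u ⊆ A},
        {p : A × List ℕ | p.2 ≠ [] ∧ w.1.u p.1.1 = p.2} =
          {p : A × List ℕ | p.2 ≠ [] ∧ v.1.u p.1.1 = p.2} →
        ∀ a, w.1.u a ≠ [] → v.1.u a = w.1.u a := by
      intro w v h2 a ha
      have h3 : ((⟨a, w.2 ha⟩ : A), w.1.u a) ∈
          {p : A × List ℕ | p.2 ≠ [] ∧ w.1.u p.1.1 = p.2} := ⟨ha, rfl⟩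
      rw [h2] at h3
      exact h3.2
    apply Subtype.ext
    have h2 : w.1.u = v.1.u := by
      funext a
      by_cases ha : w.1.u a = []
      · by_cases hb : v.1.u a = []
        · rw [ha, hb]
        · exact key v w hwv.symm a hb
      · exact (key w v hwv a ha).symm
    obtain ⟨⟨wu, wf⟩, hw⟩ := w
    obtain ⟨⟨vu, vf⟩, hv⟩ := v
    cases h2
    rfl

/-- the locally constant functions with countable support in `A` -/
private def CrdF (A : Set I) (β : Type) : Type :=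
  {f : Pt I → β // ∃ C : Set I, C.Countable ∧ C ⊆ A ∧ LC C f}

private theorem crd_lc {A : Set I} (h : #A ≤ 𝔠) (β : Type) [Countable β] : #(CrdF A β) ≤ 𝔠 := by
  choose C hC hCA hlc using fun f : CrdF A β => f.2
  refine crd_inj (crd_prod (crd_cfg h) (crd_countable β))
    (fun f => {p : {w : Cfg I // sp w.u ⊆ A} × β | sp p.1.1.u ⊆ C f ∧
      ∀ x ∈ Cy p.1.1.u, f.1 x = p.2}) ?_ ?_
  · intro f
    have h0 : {w : {w : Cfg I // sp w.u ⊆ A} | sp w.1.u ⊆ C f}.Countable :=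
      Set.Countable.preimage_of_injOn (Cfg.countable_sp (hC f)) Subtype.val_injective.injOn
    refine (h0.prod (Set.countable_univ (α := β))).mono ?_
    rintro ⟨w, b⟩ ⟨hp, -⟩
    exact ⟨hp, Set.mem_univ _⟩
  · intro f f' hf
    apply Subtype.ext
    funext x
    obtain ⟨F, hF, n, hn⟩ := hlc f x
    have h1 : ((⟨Cfg.of F n x, (Cfg.of_sp F n x).trans (hF.trans (hCA f))⟩ :
        {w : Cfg I // sp w.u ⊆ A}), f.1 x) ∈
        {p : {w : Cfg I // sp w.u ⊆ A} × β | sp p.1.1.u ⊆ C f ∧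
          ∀ x ∈ Cy p.1.1.u, f.1 x = p.2} :=
      ⟨(Cfg.of_sp F n x).trans hF, fun y hy => hn y (Cfg.ag_of hy)⟩
    rw [show {p : {w : Cfg I // sp w.u ⊆ A} × β | sp p.1.1.u ⊆ C f ∧
          ∀ x ∈ Cy p.1.1.u, f.1 x = p.2} = {p : {w : Cfg I // sp w.u ⊆ A} × β |
          sp p.1.1.u ⊆ C f' ∧ ∀ x ∈ Cy p.1.1.u, f'.1 x = p.2} from hf] at h1
    exact (h1.2 x (Cfg.mem_of F n x)).symm

theorem mk_gam_le {A : Set I} (hA : IsLowerSet A) (h : #A ≤ 𝔠) : #{φ : Gam I // φ.In A} ≤ 𝔠 := by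
  have hex : ∀ φ : {φ : Gam I // φ.In A}, ∃ C : Set I, C.Countable ∧ C ⊆ A ∧ φ.1.Spt C := by
    intro φ
    obtain ⟨C, hC, hS⟩ := φ.1.exists_spt
    exact ⟨C ∩ A, hC.mono Set.inter_subset_left, Set.inter_subset_right, hS.inter hA φ.2⟩
  choose C hC hCA hS using hex
  refine crd_inj (crd_prod h (crd_prod (crd_countable (List ℕ)) (crd_lc h (List ℕ))))
    (fun φ => {p : A × (List ℕ × CrdF A (List ℕ)) | p.1.1 ∈ C φ ∧
      p.2.2.1 = fun x => φ.1.e p.1.1 x p.2.1}) ?_ ?_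
  · intro φ
    have hlc : ∀ (a : A) (s : List ℕ), ∃ C : Set I, C.Countable ∧ C ⊆ A ∧
        LC C (fun x => φ.1.e a.1 x s) := fun a s =>
      ⟨C φ ∩ Set.Iio a.1, (hC φ).mono Set.inter_subset_left,
        Set.inter_subset_left.trans (hCA φ), (hS φ).lc a.1 s⟩
    have h0 : {a : A | a.1 ∈ C φ}.Countable :=
      Set.Countable.preimage_of_injOn (hC φ) Subtype.val_injective.injOn
    have h1 : {p : A × (List ℕ × CrdF A (List ℕ)) | p.1.1 ∈ C φ ∧
        p.2.2.1 = fun x => φ.1.e p.1.1 x p.2.1} ⊆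
        (fun q : A × List ℕ => (q.1, (q.2, (⟨fun x => φ.1.e q.1.1 x q.2, hlc q.1 q.2⟩ :
          CrdF A (List ℕ))))) '' ({a : A | a.1 ∈ C φ} ×ˢ (Set.univ : Set (List ℕ))) := by
      rintro ⟨a, s, f⟩ ⟨ha, hf⟩
      refine ⟨(a, s), ⟨ha, Set.mem_univ _⟩, ?_⟩
      have h2 : f = (⟨fun x => φ.1.e a.1 x s, hlc a s⟩ : CrdF A (List ℕ)) := Subtype.ext hf
      rw [h2]
    exact ((h0.prod (Set.countable_univ)).image _).mono h1
  · intro φ φ' hφ
    have key : ∀ φ φ' : {φ : Gam I // φ.In A},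
        {p : A × (List ℕ × CrdF A (List ℕ)) | p.1.1 ∈ C φ ∧
          p.2.2.1 = fun x => φ.1.e p.1.1 x p.2.1} =
        {p : A × (List ℕ × CrdF A (List ℕ)) | p.1.1 ∈ C φ' ∧
          p.2.2.1 = fun x => φ'.1.e p.1.1 x p.2.1} →
        ∀ a ∈ C φ, ∀ x s, φ.1.e a x s = φ'.1.e a x s := by
      intro φ φ' h2 a ha x s
      have h3 : ((⟨a, hCA φ ha⟩ : A), s, (⟨fun x => φ.1.e a x s,
          ⟨C φ ∩ Set.Iio a, (hC φ).mono Set.inter_subset_left,
            Set.inter_subset_left.trans (hCA φ), (hS φ).lc a s⟩⟩ : CrdF A (List ℕ))) ∈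
          {p : A × (List ℕ × CrdF A (List ℕ)) | p.1.1 ∈ C φ ∧
            p.2.2.1 = fun x => φ.1.e p.1.1 x p.2.1} := ⟨ha, rfl⟩
      rw [h2] at h3
      exact congrFun h3.2 x
    apply Subtype.ext
    apply Gam.ext
    funext a x s
    by_cases ha : a ∈ C φ
    · exact key φ φ' hφ a ha x s
    · by_cases hb : a ∈ C φ'
      · exact (key φ' φ hφ.symm a hb x s).symm
      · rw [(hS φ).off a ha, (hS φ').off a hb]

theorem mk_nm_le {A : Set I} (h : #A ≤ 𝔠) {β : Type} [Countable β] :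
    #{q : Pt I → ℕ → β // IsNm A q} ≤ 𝔠 := by
  refine (mk_le_of_injective (f := fun q : {q : Pt I → ℕ → β // IsNm A q} => fun n : ℕ =>
    (⟨fun x => q.1 x n, ?_⟩ : CrdF A β)) ?_).trans (crd_fun (crd_lc h β) ℕ)
  · obtain ⟨C, h1, h2, h3⟩ := q.2
    exact ⟨C, h1, h2, h3 n⟩
  · intro q q' hq
    apply Subtype.ext
    funext x n
    exact congrFun (congrArg Subtype.val (congrFun hq n)) x

theorem mk_cd_le {A : Set I} (h : #A ≤ 𝔠) :
    #{c : Pt I → ℕ → ℕ → Finset (List Bool) // IsCd A c} ≤ 𝔠 := by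
  refine (mk_le_of_injective (f := fun c : {c : Pt I → ℕ → ℕ → Finset (List Bool) // IsCd A c} =>
    fun p : ℕ × ℕ => (⟨fun x => c.1 x p.1 p.2, ?_⟩ : CrdF A (Finset (List Bool)))) ?_).trans
    (crd_fun (crd_lc h (Finset (List Bool))) (ℕ × ℕ))
  · obtain ⟨C, h1, h2, h3⟩ := c.2
    exact ⟨C, h1, h2, h3 p.1 p.2⟩
  · intro c c' hc
    apply Subtype.ext
    funext x i k
    exact congrFun (congrArg Subtype.val (congrFun hc (i, k))) x

end Pool.Agent.Mil
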