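import Mathlib
import Pool.Agent.Lib.Mil.Crd
import Pool.Agent.Lib.Mil.Cls

/-!
# Mil.Clo (size 130): reflection to `δ`

`Clo Fo δ` : a real which avoids an `F_σ` set coded below `δ` and is forced into the set by an extension of a condition below `δ`, can be found with everything below `δ`.

Proof. For `γ : I` let `K γ = {φ // φ.In (Iio γ)} × {c // IsCd (Iio γ) c}`, `#(K γ) ≤ 𝔠 * 𝔠 = 𝔠` (`mk_gam_le`, `mk_cd_le`, `hI.small`). For `(h, c) ∈ K γ` for which there is `(χ, q)` as in the hypothesis of `Clo` choose one and let `b (h, c) : I` be a strict upper bound of a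
countable set `C` with `χ.Spt C` and `∀ n, LC C (fun x => q x n)` (`hI.bdd`; countable sets have cardinality `≤ ℵ₀ ≤ 𝔠`); then `χ.In (Iio (b (h, c)))`, `IsNm (Iio (b (h, c))) q`. Let `G γ` be an upper bound of all `b (h, c)`, `(h, c) ∈ K γ` (`hI.bdd`).
`exists_closed hI G` gives `δ`. Let `h.In (Iio δ)`, `IsCd (Iio δ) c` and `(χ, q)` be given. `h` has a countable support in `Iio δ` (`exists_spt`, `Spt.inter`), `c` too; so both are below some `γ < δ` (take the union of the two supports), `(h, c) ∈ K γ`, and the chosen witness is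
below `b (h, c) ≤ G γ < δ` (`In.mono`).
-/

set_option autoImplicit false
set_option linter.unusedSectionVars false

open Cardinal

namespace Pool.Agent.Mil

variable {I : Type} [LinearOrder I] [WellFoundedLT I]

/-- reflection to `δ` -/
def Clo (Fo : Gam I → (Pt I → ℕ → Bool) → Prop) (δ : I) : Prop :=
  ∀ (h : Gam I) (c : Pt I → ℕ → ℕ → Finset (List Bool)), h.In (Set.Iio δ) → IsCd (Set.Iio δ) c →
    (∃ (χ : Gam I) (q : Pt I → ℕ → Bool), IsNm Set.univ q ∧ Fo (h * χ) q ∧ ∀ x, NF c (χ.mp x) (q x)) →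
    ∃ (χ : Gam I) (q : Pt I → ℕ → Bool), χ.In (Set.Iio δ) ∧ IsNm (Set.Iio δ) q ∧ Fo (h * χ) q ∧
      ∀ x, NF c (χ.mp x) (q x)

private theorem Clo_small (hI : Big I) (Fo : Gam I → (Pt I → ℕ → Bool) → Prop) (h : Gam I)
    (c : Pt I → ℕ → ℕ → Finset (List Bool)) : ∃ b : I,
    (∃ (χ : Gam I) (q : Pt I → ℕ → Bool), IsNm Set.univ q ∧ Fo (h * χ) q ∧ ∀ x, NF c (χ.mp x) (q x)) →
    ∃ (χ : Gam I) (q : Pt I → ℕ → Bool), χ.In (Set.Iio b) ∧ IsNm (Set.Iio b) q ∧ Fo (h * χ) q ∧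
      ∀ x, NF c (χ.mp x) (q x) := by
  by_cases hy : ∃ (χ : Gam I) (q : Pt I → ℕ → Bool), IsNm Set.univ q ∧ Fo (h * χ) q ∧ ∀ x, NF c (χ.mp x) (q x)
  · obtain ⟨χ, q, ⟨C2, h2, -, h3⟩, h4, h5⟩ := hy
    obtain ⟨C1, h6, h7⟩ := χ.exists_spt
    obtain ⟨b, hb⟩ := hI.bdd (C1 ∪ C2) ((h6.union h2).le_aleph0.trans aleph0_le_continuum)
    refine ⟨b, fun _ => ⟨χ, q, fun a ha x s => ?_, ⟨C2, h2, fun a ha => hb a (Or.inr ha), h3⟩, h4, h5⟩⟩
    exact h7.off a (fun h8 => ha (hb a (Or.inl h8))) x s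
  · obtain ⟨b, -⟩ := hI.bdd ∅ (by simp)
    exact ⟨b, fun h => absurd h hy⟩

theorem exists_clo (hI : Big I) (Fo : Gam I → (Pt I → ℕ → Bool) → Prop) : ∃ δ : I, Clo Fo δ := by
  classical
  choose B hB using Clo_small hI Fo
  have hG : ∀ γ : I, ∃ g : I, ∀ (h : Gam I) (c : Pt I → ℕ → ℕ → Finset (List Bool)), h.In (Set.Iio γ) →
      IsCd (Set.Iio γ) c → B h c < g := by
    intro γ
    obtain ⟨g, hg⟩ := hI.bdd (Set.range (fun k : {φ : Gam I // φ.In (Set.Iio γ)} ×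
        {c : Pt I → ℕ → ℕ → Finset (List Bool) // IsCd (Set.Iio γ) c} => B k.1.1 k.2.1)) (by
      refine Cardinal.mk_range_le.trans ?_
      rw [Cardinal.mk_prod, Cardinal.lift_id, Cardinal.lift_id]
      calc _ ≤ 𝔠 * 𝔠 := mul_le_mul' (mk_gam_le (isLowerSet_Iio γ) (hI.small γ)) (mk_cd_le (hI.small γ))
        _ = 𝔠 := continuum_mul_self)
    exact ⟨g, fun h c hh hc => hg _ ⟨(⟨h, hh⟩, ⟨c, hc⟩), rfl⟩⟩
  choose G hG using hG
  obtain ⟨δ, hδ1, hδ2⟩ := exists_closed hI G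
  refine ⟨δ, fun h c hh hc hy => ?_⟩
  obtain ⟨C1, h1, h2⟩ := h.exists_spt
  have h3 := h2.inter (isLowerSet_Iio δ) hh
  obtain ⟨C2, h4, h5, h6⟩ := hc
  obtain ⟨γ, hγ, hS⟩ := hδ2 (C1 ∩ Set.Iio δ ∪ C2) ((h1.mono Set.inter_subset_left).union h4)
    (Set.union_subset Set.inter_subset_right h5)
  have h7 : h.In (Set.Iio γ) := fun a ha x s => h3.off a (fun h8 => ha (hS (Or.inl h8))) x s
  have h8 : IsCd (Set.Iio γ) c := ⟨C2, h4, fun a ha => hS (Or.inr ha), h6⟩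
  have h9 : B h c < δ := (hG γ h c h7 h8).trans (hδ1 γ hγ)
  obtain ⟨χ, q, h10, ⟨C3, h11, h12, h13⟩, h14, h15⟩ := hB h c hy
  refine ⟨χ, q, h10.mono (Set.Iio_subset_Iio h9.le), ⟨C3, h11, h12.trans (Set.Iio_subset_Iio h9.le), h13⟩, h14, h15⟩

end Pool.Agent.Mil
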