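import Mathlib
import Pool.Agent.Lib.Mil.Avd
import Pool.Agent.Lib.Mil.LC

/-!
# Mil.Dmn (size 170): a continuous function dominates countably many perfect trees

Proof. (1) For `i, x`, `t ∈ T i x` and `K` there is `L0` such that for all `L ≥ L0` there is `E : Finset (List Bool)` with `K < E.card`, `∀ e ∈ E, e ∈ T i x ∧ t <+: e ∧ e.length = L`: induction on `K`: first (`K = 0`)
`hprune` (one extension of every length `≥ t.length`). `K + 1`: `hsplit` gives `t₁ ≠ t₂` of equal length above `t`; apply the induction hypothesis to `t₁` and `t₂` for the same large `L`; the two sets are disjoint (the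
elements extend different lists of equal length), so the union has at least `2 * (K + 1) > K + 1` elements.
(2) Recursion on `n`: construct `H n : Pt I → ℕ`, `LC (C ∩ A)`, with `H n x ≤ H (n+1) x` and for all `x` and all `i ≤ n`, all `t ∈ T i x` with `t.length ≤ H n x`: there is `E` with `∑ i ∈ range (n + 2), (i + 1) ^ i < E.card`,
`∀ e ∈ E, e ∈ T i x ∧ t <+: e ∧ e.length = H (n + 1) x`. `H 0 = 0`. Given `H n`: use `LC.find` for
`Q x L := H n x ≤ L ∧ ∀ i ≤ n, ∀ t, t.length ≤ H n x → t ∈ T i x → ∃ E, (K < E.card) ∧ ∀ e ∈ E, e ∈ T i x ∧ t <+: e ∧ e.length = L`, `K = ∑ i ∈ range (n + 2), (i + 1) ^ i`.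
`∃ L, Q x L`: (1) for the finitely many `i ≤ n` and `t` with `t.length ≤ H n x` (`List Bool` of bounded length: `List.finite_length_le` or `List.finite_length_lt`), take the maximum of the `L0`. `LC (fun x => Q x L)`: `Q x L`
depends only on `H n x` and on the truth values `t ∈ T i x` for `i ≤ n`, `t.length ≤ max (H n x) L` (finitely many): given `x`, use `LC.finset` over the finite set `Finset.range (n+1) ×ˢ (lists of length ≤ max (H n x) L)` and the
neighbourhood of `H n`; on the intersection of the two neighbourhoods `Q y L ↔ Q x L` (prove `=` of propositions with `propext`).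
(3) `H x n := H n x`; `Dom (T i x) (H x) i`.
-/

set_option autoImplicit false

namespace Pool.Agent.Mil

variable {I : Type}

private theorem dmn_ext {S : Set (List Bool)}
    (hprune : ∀ t ∈ S, ∀ L ≥ t.length, ∃ t' ∈ S, t <+: t' ∧ t'.length = L)
    (hsplit : ∀ t ∈ S, ∃ t₁ ∈ S, ∃ t₂ ∈ S, t <+: t₁ ∧ t <+: t₂ ∧ t₁.length = t₂.length ∧ t₁ ≠ t₂)
    (K : ℕ) : ∀ t ∈ S, ∃ L0, ∀ L ≥ L0, ∃ E : Finset (List Bool), K < E.card ∧
      ∀ e ∈ E, e ∈ S ∧ t <+: e ∧ e.length = L := by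
  classical
  induction K with
  | zero =>
    intro t ht
    refine ⟨t.length, fun L hL => ?_⟩
    obtain ⟨t', h1, h2, h3⟩ := hprune t ht L hL
    refine ⟨{t'}, by simp, fun e he => ?_⟩
    rw [Finset.mem_singleton] at he
    subst he
    exact ⟨h1, h2, h3⟩
  | succ K ih =>
    intro t ht
    obtain ⟨t₁, h1, t₂, h2, p1, p2, hl, hne⟩ := hsplit t ht
    obtain ⟨L1, hL1⟩ := ih t₁ h1
    obtain ⟨L2, hL2⟩ := ih t₂ h2
    refine ⟨max L1 L2, fun L hL => ?_⟩
    obtain ⟨E1, c1, m1⟩ := hL1 L (le_trans (le_max_left _ _) hL)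
    obtain ⟨E2, c2, m2⟩ := hL2 L (le_trans (le_max_right _ _) hL)
    have hdis : Disjoint E1 E2 := by
      rw [Finset.disjoint_left]
      intro e he1 he2
      apply hne
      rcases List.prefix_or_prefix_of_prefix (m1 e he1).2.1 (m2 e he2).2.1 with h | h
      · exact h.eq_of_length hl
      · exact (h.eq_of_length hl.symm).symm
    refine ⟨E1 ∪ E2, ?_, ?_⟩
    · rw [Finset.card_union_of_disjoint hdis]
      omega
    · intro e he
      rcases Finset.mem_union.1 he with h | h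
      · obtain ⟨a, b, c⟩ := m1 e h
        exact ⟨a, p1.trans b, c⟩
      · obtain ⟨a, b, c⟩ := m2 e h
        exact ⟨a, p2.trans b, c⟩

private theorem dmn_step {C : Set I} {T : ℕ → Pt I → Set (List Bool)}
    (hlc : ∀ i t, LC C (fun x => t ∈ T i x))
    (hprune : ∀ i x, ∀ t ∈ T i x, ∀ L ≥ t.length, ∃ t' ∈ T i x, t <+: t' ∧ t'.length = L)
    (hsplit : ∀ i x, ∀ t ∈ T i x, ∃ t₁ ∈ T i x, ∃ t₂ ∈ T i x, t <+: t₁ ∧ t <+: t₂ ∧ t₁.length = t₂.length ∧ t₁ ≠ t₂)
    (n K : ℕ) (h : Pt I → ℕ) (hh : LC C h) : ∃ h' : Pt I → ℕ, LC C h' ∧ ∀ x, h x ≤ h' x ∧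
      ∀ i ≤ n, ∀ t ∈ T i x, t.length ≤ h x → ∃ E : Finset (List Bool), K < E.card ∧
        ∀ e ∈ E, e ∈ T i x ∧ t <+: e ∧ e.length = h' x := by
  classical
  refine LC.find (C := C) (Q := fun x L => h x ≤ L ∧ ∀ i ≤ n, ∀ t ∈ T i x,
    t.length ≤ h x → ∃ E : Finset (List Bool), K < E.card ∧
      ∀ e ∈ E, e ∈ T i x ∧ t <+: e ∧ e.length = L) ?_ ?_
  · intro L x
    have key : ∀ x y : Pt I, h y = h x →
        (∀ i ≤ n, ∀ t : List Bool, t.length ≤ max (h x) L → (t ∈ T i y ↔ t ∈ T i x)) →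
        (h x ≤ L ∧ ∀ i ≤ n, ∀ t ∈ T i x, t.length ≤ h x → ∃ E : Finset (List Bool), K < E.card ∧
          ∀ e ∈ E, e ∈ T i x ∧ t <+: e ∧ e.length = L) →
        (h y ≤ L ∧ ∀ i ≤ n, ∀ t ∈ T i y, t.length ≤ h y → ∃ E : Finset (List Bool), K < E.card ∧
          ∀ e ∈ E, e ∈ T i y ∧ t <+: e ∧ e.length = L) := by
      rintro x y hxy hT ⟨a, b⟩
      refine ⟨by rw [hxy]; exact a, fun i hi t ht htl => ?_⟩
      rw [hxy] at htl
      obtain ⟨E, c, d⟩ := b i hi t ((hT i hi t (le_trans htl (le_max_left _ _))).1 ht) htl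
      refine ⟨E, c, fun e he => ?_⟩
      obtain ⟨d1, d2, d3⟩ := d e he
      exact ⟨(hT i hi e (by rw [d3]; exact le_max_right _ _)).2 d1, d2, d3⟩
    obtain ⟨F, hF, m, hm⟩ := hh x
    obtain ⟨F', hF', m', hm'⟩ := LC.finset (C := C)
      (Finset.range (n + 1) ×ˢ (List.finite_length_le Bool (max (h x) L)).toFinset)
      (β := fun _ => Prop) (fun p x => p.2 ∈ T p.1 x) (fun p _ => hlc p.1 p.2) x
    refine ⟨F ∪ F', ?_, max m m', fun y hy => ?_⟩
    · rw [Finset.coe_union]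
      exact Set.union_subset hF hF'
    · have e1 : h y = h x := hm y (hy.mono Finset.subset_union_left (le_max_left _ _))
      have e2 : ∀ i ≤ n, ∀ t : List Bool, t.length ≤ max (h x) L → (t ∈ T i y ↔ t ∈ T i x) := by
        intro i hi t ht
        have := hm' y (hy.mono Finset.subset_union_right (le_max_right _ _)) (i, t)
          (Finset.mem_product.2 ⟨Finset.mem_range.2 (by omega),
            (Set.Finite.mem_toFinset _).2 ht⟩)
        exact iff_of_eq this
      apply propext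
      constructor
      · refine key y x e1.symm fun i hi t ht => ?_
        rw [e1] at ht
        exact (e2 i hi t ht).symm
      · exact key x y e1 e2
  · intro x
    have hex : ∀ p : ℕ × List Bool, ∃ L0, p.2 ∈ T p.1 x → ∀ L ≥ L0, ∃ E : Finset (List Bool),
        K < E.card ∧ ∀ e ∈ E, e ∈ T p.1 x ∧ p.2 <+: e ∧ e.length = L := by
      intro p
      by_cases hp : p.2 ∈ T p.1 x
      · obtain ⟨L0, h0⟩ := dmn_ext (hprune p.1 x) (hsplit p.1 x) K p.2 hp
        exact ⟨L0, fun _ => h0⟩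
      · exact ⟨0, fun h => absurd h hp⟩
    choose L0 hL0 using hex
    refine ⟨max (h x) ((Finset.range (n + 1) ×ˢ
      (List.finite_length_le Bool (h x)).toFinset).sup L0), le_max_left _ _, ?_⟩
    intro i hi t ht htl
    refine hL0 (i, t) ht _ (le_trans ?_ (le_max_right _ _))
    exact Finset.le_sup (f := L0) (Finset.mem_product.2 ⟨Finset.mem_range.2 (by
      show i < n + 1
      omega), (Set.Finite.mem_toFinset _).2 htl⟩)

theorem exists_domination {C A : Set I} {T : ℕ → Pt I → Set (List Bool)}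
    (hlc : ∀ i t, LC (C ∩ A) (fun x => t ∈ T i x))
    (hprune : ∀ i x, ∀ t ∈ T i x, ∀ L ≥ t.length, ∃ t' ∈ T i x, t <+: t' ∧ t'.length = L)
    (hsplit : ∀ i x, ∀ t ∈ T i x, ∃ t₁ ∈ T i x, ∃ t₂ ∈ T i x, t <+: t₁ ∧ t <+: t₂ ∧ t₁.length = t₂.length ∧ t₁ ≠ t₂) :
    ∃ H : Pt I → ℕ → ℕ, (∀ n, LC (C ∩ A) (fun x => H x n)) ∧ ∀ x, Monotone (H x) ∧ ∀ i, ∃ N, Dom (T i x) (H x) N := by
  classical
  choose st hst1 hst2 using fun (n : ℕ) (h : {h : Pt I → ℕ // LC (C ∩ A) h}) =>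
    dmn_step hlc hprune hsplit n (∑ i ∈ Finset.range (n + 2), (i + 1) ^ i) h.1 h.2
  let Hs : ℕ → {h : Pt I → ℕ // LC (C ∩ A) h} := fun n =>
    Nat.rec (motive := fun _ => {h : Pt I → ℕ // LC (C ∩ A) h}) ⟨fun _ => 0, LC.const _ 0⟩
      (fun n h => ⟨st n h, hst1 n h⟩) n
  refine ⟨fun x n => (Hs n).1 x, fun n => (Hs n).2, fun x => ⟨monotone_nat_of_le_succ fun n => ?_, fun i => ⟨i, ?_⟩⟩⟩
  · exact (hst2 n (Hs n) x).1
  · intro n hn t ht htl
    obtain ⟨E, h1, h2⟩ := (hst2 n (Hs n) x).2 i hn t ht htl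
    exact ⟨E, h1, h2⟩

end Pool.Agent.Mil
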