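import Mathlib
import Pool.Agent.Lib.Mil.One
import Pool.Agent.Lib.Mil.Stmt

/-!
# Mil.KDefs: comeager sets contain images (definitions)

`O i` : an upward closed set of configurations, dense among the configurations with support in the countable set `C` (it stands for the dense
open set `⋃ w ∈ O i, Cy w`). `Gd C O A x` : the section at `x` (the coordinates in the lower set `A` are given by `x`, the others are free) is comeager.
`KQ c` : the statement which is proved by induction on `c`.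
-/

set_option autoImplicit false
set_option linter.unusedSectionVars false

namespace Pool.Agent.Mil

variable {I : Type} [LinearOrder I]

/-- a sequence of dense open sets with support in `C` -/
structure DSeq (C : Set I) (O : ℕ → Set (Cfg I)) : Prop where
  up : ∀ i (w v : Cfg I), Ext w.u v.u → w ∈ O i → v ∈ O i
  dense : ∀ i (w : Cfg I), sp w.u ⊆ C → ∃ v ∈ O i, sp v.u ⊆ C ∧ Ext w.u v.u

/-- every configuration `v` outside `A` can be extended to meet `O i` over `x` -/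
def Gd (C : Set I) (O : ℕ → Set (Cfg I)) (A : Set I) (x : Pt I) : Prop :=
  ∀ i (v : Cfg I), sp v.u ⊆ C \ A →
    ∃ w ∈ O i, sp w.u ⊆ C ∧ (∀ a ∈ A, Pf (w.u a) (x a)) ∧ ∀ a ∉ A, v.u a <+: w.u a

theorem gd_congr {C : Set I} {O : ℕ → Set (Cfg I)} {A : Set I} {x y : Pt I} (h : ∀ a ∈ A, x a = y a)
    (hx : Gd C O A x) : Gd C O A y := by
  intro i v hv
  obtain ⟨w, h1, h2, h3, h4⟩ := hx i v hv
  exact ⟨w, h1, h2, fun a ha => by rw [← h a ha]; exact h3 a ha, h4⟩

/-- the statement of the induction -/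
def KQ (C : Set I) (O : ℕ → Set (Cfg I)) (c : I) : Prop :=
  ∀ A : Set I, IsLowerSet A → A ⊆ Set.Iio c → ∀ ψ : Gam I, ψ.Spt (C ∩ A) → (∀ x, Gd C O A (ψ.mp x)) →
    ∀ p : Pt I → Cfg I, LC (C ∩ A) p → (∀ x, sp (p x).u ⊆ (C ∩ Set.Iio c) \ A) →
      ∃ φ : Gam I, φ.Spt (C ∩ Set.Iio c) ∧ (∀ a ∈ A, ∀ x s, φ.e a x s = ψ.e a x s) ∧
        (∀ x, Gd C O (Set.Iio c) (φ.mp x)) ∧ ∀ x, φ.mp x ∈ Cy (p x).u

/-- Selection: an open relation has a continuous selector. -/
theorem exists_sel {C : Set I} (hC : C.Countable) {Y : Type*} {R : Pt I → Y → Prop}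
    (h : ∀ x, ∃ F : Finset I, (↑F : Set I) ⊆ C ∧ ∃ n, ∃ y, ∀ x', Ag F n x x' → R x' y) :
    ∃ f : Pt I → Y, LC C f ∧ ∀ x, R x (f x) := by
  classical
  obtain ⟨π, hπ, hP⟩ := exists_par hC (P := fun w => ∃ y, ∀ x' ∈ Cy w.u, R x' y)
    (fun w v hwv ⟨y, hy⟩ => ⟨y, fun x' hx' => hy x' (hwv.cy hx')⟩) fun x => by
      obtain ⟨F, hF, n, y, hy⟩ := h x
      exact ⟨Cfg.of F n x, (Cfg.of_sp F n x).trans hF, Cfg.mem_of F n x, y, fun x' hx' => hy x' (Cfg.ag_of hx')⟩
  choose y hy using hP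
  let g : Cfg I → Y := fun w => if h : ∃ x, π x = w then y h.choose else y (fun _ _ => 0)
  refine ⟨fun x => g (π x), hπ.lc.comp₁ g, fun x => ?_⟩
  have hex : ∃ x', π x' = π x := ⟨x, rfl⟩
  show R x (g (π x))
  simp only [g, dif_pos hex]
  exact hy _ x (by rw [hex.choose_spec]; exact hπ.mem x)

end Pool.Agent.Mil
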