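import Mathlib
import Pool.Agent.Lib.Mil.KDefs

/-!
# Mil.KLim (size 280): the limit case

`E = (C ∩ Iio c) \ A` is not empty and has no largest element.

Proof. `E` is countable: choose a sequence `c_n` in `E`, strictly increasing, such that every `a ∈ E` is `< c_n` for some `n` (enumerate `E` by
`f : ℕ → E`; `c_{n+1}` = an element of `E` above `max c_n (f n)`). `A ⊆ Iio c_0` (as `c_0 ∉ A` and `A` is a lower set).
Let `r ↦ (i_r, v_r)` be a surjection of `ℕ` onto the countable nonempty set `{(i, v) | sp v.u ⊆ C \ Iio c}`.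
For a configuration `w` and a set `S` write `w|S` for the configuration with the values in `S` only (define `Cfg.res w S`).
Recursion: pairs `(φ_n, p_n)` with
  (a) `φ_n.Spt (C ∩ Iio c_n)`, `∀ x, Gd C O (Iio c_n) (φ_n.mp x)`; (b) `p_n : Pt I → Cfg I` is `LC (C ∩ Iio c_n)`, `sp (p_n x).u ⊆ C ∩ Ico c_n c`.
Start: `KQ c_0` with `A`, `ψ` and the promise `(p x)|Iio c_0` (its support is in `(C ∩ Iio c_0) \ A`) gives `φ_0` with `φ_0.e a = ψ.e a` for `a ∈ A` and
`φ_0.mp x ∈ Cy ((p x)|Iio c_0)`; `p_0 x = (p x)|Ici c_0`.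
Step: (1) For every `x` the property `Gd C O (Iio c_n) (φ_n.mp x)` with `i_n` and the configuration `p_n x ∪ v_n` (the supports are disjoint: `Iio c`, `Ici c`)
gives `w ∈ O i_n`, `sp w.u ⊆ C`, `Pf (w.u a) (φ_n.mp x a)` for `a < c_n`, `(p_n x).u a <+: w.u a` for `c_n ≤ a < c`, `v_n.u a <+: w.u a` for `a ≥ c`. By `exists_sel`
(these conditions are open in `x` with support in `C ∩ Iio c_n`: `Spt.lc_mp`, `LC` of `p_n`) there is a selector `w_n : Pt I → Cfg I`, `LC (C ∩ Iio c_n)`.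
(2) `KQ c_{n+1}` with the lower set `Iio c_n`, `ψ = φ_n` (`C ∩ Iio c_n`) and the promise `(w_n x)|(Ico c_n c_{n+1})` gives `φ_{n+1}` with
`φ_{n+1}.e a = φ_n.e a` for `a < c_n` and `φ_{n+1}.mp x ∈ Cy (promise)`. (3) `p_{n+1} x = (w_n x)|(Ico c_{n+1} c)`.
Limit: `φ.e a x s = φ_n.e a x s` for `a < c_n` (for any such `n`; all larger `n` give the same value), and `s` if `a ∈ Aᶜ`, `a` above all `c_n`; `a ∈ A` : `φ_0`.
Use `n(a) = Nat.find`. Support `C ∩ Iio c`. `φ.mp x a = φ_n.mp x a` for `a < c_n`.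
`φ.mp x ∈ Cy (w_n x)|Ico c_n c`: for `a ∈ [c_n, c_{n+1})` by (2); in general by induction `(w_n x).u a <+: (w_m x).u a` for `m ≥ n`, `a ≥ c_{m}` (as
`p_{m} x = (w_{m-1} x)|Ico c_m c` and `(p_m x).u a <+: (w_m x).u a`). Same for the promise `p`.
`Gd C O (Iio c) (φ.mp x)`: given `(i, v)` with `sp v.u ⊆ C \ Iio c`, take `n` with `(i_n, v_n) = (i, v)`: `w_n x ∈ O i`, `Pf ((w_n x).u a) (φ.mp x a)` for `a < c_n`
by (1), for `a ∈ C` with `c_n ≤ a < c` by the previous line (for `a ∉ C` the value is `[]`), and `v.u a <+: (w_n x).u a` for `a ≥ c`.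
-/

set_option autoImplicit false
set_option linter.unusedSectionVars false

namespace Pool.Agent.Mil

variable {I : Type} [LinearOrder I]

open Classical in
private noncomputable def kLimRes (w : Cfg I) (S : Set I) : Cfg I :=
  ⟨fun a => if a ∈ S then w.u a else [], w.fin.subset fun a ha => by
    intro h1
    refine ha ?_
    show (if a ∈ S then w.u a else []) = []
    by_cases h : a ∈ S
    · rw [if_pos h]; exact h1
    · rw [if_neg h]⟩

private theorem kLimRes_mem (w : Cfg I) {S : Set I} {a : I} (h : a ∈ S) : (kLimRes w S).u a = w.u a := by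
  simp [kLimRes, h]

private theorem kLimRes_notMem (w : Cfg I) {S : Set I} {a : I} (h : a ∉ S) : (kLimRes w S).u a = [] := by
  simp [kLimRes, h]

private theorem kLimRes_sp (w : Cfg I) (S : Set I) {a : I} (h : a ∈ sp (kLimRes w S).u) :
    a ∈ sp w.u ∧ a ∈ S := by
  by_cases hS : a ∈ S
  · refine ⟨?_, hS⟩
    intro h1
    exact h (by rw [kLimRes_mem w hS]; exact h1)
  · exact absurd (kLimRes_notMem w hS) h

private theorem kLim_cof {E : Set I} (hE : E.Countable) (hne : E.Nonempty)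
    (hmax : ∀ a ∈ E, ∃ b ∈ E, a < b) :
    ∃ cs : ℕ → I, (∀ n, cs n ∈ E) ∧ StrictMono cs ∧ ∀ a ∈ E, ∃ n, a < cs n := by
  classical
  have : Countable E := hE.to_subtype
  have : Nonempty E := hne.to_subtype
  obtain ⟨f, hf⟩ := exists_surjective_nat E
  have h1 : ∀ a : E, ∃ b : E, a < b := fun a => by
    obtain ⟨b, hb, hab⟩ := hmax a a.2
    exact ⟨⟨b, hb⟩, hab⟩
  choose g hg using h1
  let cs : ℕ → E := fun n => Nat.rec (f 0) (fun n b => g (max b (f n))) n
  have hs : ∀ n, cs (n + 1) = g (max (cs n) (f n)) := fun _ => rfl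
  let ds : ℕ → I := fun n => (cs n).1
  refine ⟨ds, fun n => (cs n).2, strictMono_nat_of_lt_succ fun n => ?_, ?_⟩
  · show cs n < cs (n + 1)
    rw [hs]
    exact lt_of_le_of_lt (le_max_left _ _) (hg _)
  · intro a ha
    obtain ⟨n, hn⟩ := hf ⟨a, ha⟩
    refine ⟨n + 1, ?_⟩
    have h2 : (⟨a, ha⟩ : E) < cs (n + 1) := by
      rw [hs, ← hn]
      exact lt_of_le_of_lt (le_max_right _ _) (hg _)
    exact h2

private theorem kLim_enum {C : Set I} (hC : C.Countable) (c : I) :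
    ∃ iv : ℕ → ℕ × Cfg I, (∀ n, sp (iv n).2.u ⊆ C \ Set.Iio c) ∧
      ∀ i (v : Cfg I), sp v.u ⊆ C \ Set.Iio c → ∃ n, iv n = (i, v) := by
  have h1 : {q : ℕ × Cfg I | sp q.2.u ⊆ C \ Set.Iio c}.Countable := by
    have h2 := Cfg.countable_sp (hC.mono (Set.sdiff_subset : C \ Set.Iio c ⊆ C))
    have h3 := (Set.countable_univ (α := ℕ)).prod h2
    refine h3.mono ?_
    intro q hq
    exact Set.mem_prod.2 ⟨Set.mem_univ _, hq⟩
  have hne : {q : ℕ × Cfg I | sp q.2.u ⊆ C \ Set.Iio c}.Nonempty := ⟨(0, Cfg.nil), fun a ha => absurd rfl ha⟩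
  obtain ⟨f, hf⟩ := h1.exists_eq_range hne
  refine ⟨f, fun n => ?_, fun i v hv => ?_⟩
  · have h2 : f n ∈ {q : ℕ × Cfg I | sp q.2.u ⊆ C \ Set.Iio c} := by
      rw [hf]
      exact ⟨n, rfl⟩
    exact h2
  · have h2 : (i, v) ∈ {q : ℕ × Cfg I | sp q.2.u ⊆ C \ Set.Iio c} := hv
    rw [hf] at h2
    exact h2

private def kLimR (C : Set I) (O : ℕ → Set (Cfg I)) (b c : I) (φ : Gam I) (p : Pt I → Cfg I) (i : ℕ)
    (v : Cfg I) (x : Pt I) (w : Cfg I) : Prop :=
  w ∈ O i ∧ sp w.u ⊆ C ∧ (∀ a < b, Pf (w.u a) (φ.mp x a)) ∧ (∀ a, b ≤ a → a < c → (p x).u a <+: w.u a) ∧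
    ∀ a, c ≤ a → v.u a <+: w.u a

private theorem kLim_lcPf {C : Set I} {b : I} {φ : Gam I} (hφ : φ.Spt (C ∩ Set.Iio b)) {w : Cfg I}
    (hw : sp w.u ⊆ C) : LC (C ∩ Set.Iio b) (fun x => ∀ a < b, Pf (w.u a) (φ.mp x a)) := by
  classical
  intro x
  obtain ⟨N, hN⟩ := w.exists_len
  obtain ⟨F, hF, n, hn⟩ := LC.finset (C := C ∩ Set.Iio b)
    ((w.fin.toFinset.filter (fun a => a < b)) ×ˢ Finset.range N)
    (β := fun _ => ℕ) (fun q x => φ.mp x q.1 q.2) (fun q hq => by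
      obtain ⟨h1, -⟩ := Finset.mem_product.1 hq
      obtain ⟨h2, h3⟩ := Finset.mem_filter.1 h1
      have h4 : q.1 ∈ C := hw (w.fin.mem_toFinset.1 h2)
      refine (hφ.lc_mp q.1 q.2).mono ?_
      rintro d (hd | hd)
      · exact hd.1
      · rw [Set.mem_singleton_iff.1 hd]
        exact ⟨h4, h3⟩) x
  refine ⟨F, hF, n, fun y hy => propext ?_⟩
  have key : ∀ a < b, ∀ i < (w.u a).length, φ.mp y a i = φ.mp x a i := by
    intro a ha i hi
    have h1 : a ∈ sp w.u := by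
      intro h0
      rw [h0] at hi
      simp at hi
    exact hn y hy (a, i) (Finset.mem_product.2 ⟨Finset.mem_filter.2 ⟨w.fin.mem_toFinset.2 h1, ha⟩,
      Finset.mem_range.2 (hi.trans_le (hN a))⟩)
  constructor
  · intro h a ha
    exact (h a ha).congr (key a ha)
  · intro h a ha
    exact (h a ha).congr fun i hi => (key a ha i hi).symm

private theorem kLim_sel {C : Set I} (hC : C.Countable) {O : ℕ → Set (Cfg I)} {b c : I} (hbc : b < c) {φ : Gam I}
    (hφ : φ.Spt (C ∩ Set.Iio b)) (hG : ∀ x, Gd C O (Set.Iio b) (φ.mp x)) {p : Pt I → Cfg I}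
    (hp : LC (C ∩ Set.Iio b) p) (hps : ∀ x, sp (p x).u ⊆ C ∩ Set.Ico b c) (i : ℕ) {v : Cfg I}
    (hv : sp v.u ⊆ C \ Set.Iio c) :
    ∃ w : Pt I → Cfg I, LC (C ∩ Set.Iio b) w ∧ ∀ x, kLimR C O b c φ p i v x (w x) := by
  classical
  refine exists_sel (hC.mono Set.inter_subset_left) fun x => ?_
  have hex : ∃ w, kLimR C O b c φ p i v x w := by
    let v' : Cfg I := ⟨fun a => if a < c then (p x).u a else v.u a,
      ((p x).fin.union v.fin).subset fun a ha => by
        by_cases h : a < c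
        · left
          intro h1
          exact ha (by simp only [if_pos h]; exact h1)
        · right
          intro h1
          exact ha (by simp only [if_neg h]; exact h1)⟩
    have h1 : sp v'.u ⊆ C \ Set.Iio b := by
      intro a ha
      by_cases h : a < c
      · have h2 : a ∈ sp (p x).u := by
          intro h3
          exact ha (by show (if a < c then (p x).u a else v.u a) = []; rw [if_pos h]; exact h3)
        have h3 := hps x h2
        exact ⟨h3.1, fun h4 => absurd (Set.mem_Iio.1 h4) (not_lt_of_ge h3.2.1)⟩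
      · have h2 : a ∈ sp v.u := by
          intro h3
          exact ha (by show (if a < c then (p x).u a else v.u a) = []; rw [if_neg h]; exact h3)
        have h3 := hv h2
        exact ⟨h3.1, fun h4 => h (lt_trans (Set.mem_Iio.1 h4) hbc)⟩
    obtain ⟨w, hw1, hw2, hw3, hw4⟩ := hG x i v' h1
    refine ⟨w, hw1, hw2, fun a ha => hw3 a ha, fun a ha hac => ?_, fun a ha => ?_⟩
    · have h2 := hw4 a (not_lt_of_ge ha)
      have h3 : v'.u a = (p x).u a := if_pos hac
      rwa [h3] at h2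
    · have h2 := hw4 a (not_lt_of_ge (hbc.le.trans ha))
      have h3 : v'.u a = v.u a := if_neg (not_lt_of_ge ha)
      rwa [h3] at h2
  obtain ⟨w, hw⟩ := hex
  have hlc : LC (C ∩ Set.Iio b) (fun x => kLimR C O b c φ p i v x w) :=
    (kLim_lcPf hφ hw.2.1).comp₂ hp fun P q =>
      w ∈ O i ∧ sp w.u ⊆ C ∧ P ∧ (∀ a, b ≤ a → a < c → q.u a <+: w.u a) ∧ ∀ a, c ≤ a → v.u a <+: w.u a
  obtain ⟨F, hF, n, hn⟩ := hlc x
  exact ⟨F, hF, n, w, fun x' hx' => cast (hn x' hx').symm hw⟩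

private theorem kLim_seq {T : Type*} (P : ℕ → T → Prop) (R : ℕ → T → T → Prop) {t0 : T} (h0 : P 0 t0)
    (hs : ∀ n t, P n t → ∃ t', P (n + 1) t' ∧ R n t t') :
    ∃ t : ℕ → T, t 0 = t0 ∧ (∀ n, P n (t n)) ∧ ∀ n, R n (t n) (t (n + 1)) := by
  classical
  have : Nonempty T := ⟨t0⟩
  choose! nx h1 h2 using hs
  let t : ℕ → T := fun n => Nat.rec t0 (fun n t => nx n t) n
  have hP : ∀ n, P n (t n) := by
    intro n
    induction n with
    | zero => exact h0
    | succ n ih => exact h1 n _ ih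
  exact ⟨t, rfl, hP, fun n => h2 n _ (hP n)⟩

theorem kLim {C : Set I} (hC : C.Countable) {O : ℕ → Set (Cfg I)} {c : I} (ih : ∀ b < c, KQ C O b)
    {A : Set I} (hA : IsLowerSet A) (hAc : A ⊆ Set.Iio c) {ψ : Gam I} (hψ : ψ.Spt (C ∩ A))
    (hG : ∀ x, Gd C O A (ψ.mp x)) {p : Pt I → Cfg I} (hp : LC (C ∩ A) p)
    (hps : ∀ x, sp (p x).u ⊆ (C ∩ Set.Iio c) \ A) (hne : ((C ∩ Set.Iio c) \ A).Nonempty)
    (hmax : ∀ a ∈ (C ∩ Set.Iio c) \ A, ∃ b ∈ (C ∩ Set.Iio c) \ A, a < b) :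
    ∃ φ : Gam I, φ.Spt (C ∩ Set.Iio c) ∧ (∀ a ∈ A, ∀ x s, φ.e a x s = ψ.e a x s) ∧
      (∀ x, Gd C O (Set.Iio c) (φ.mp x)) ∧ ∀ x, φ.mp x ∈ Cy (p x).u := by
  classical
  obtain ⟨cs, hcsE, hcsm, hcof⟩ := kLim_cof (E := (C ∩ Set.Iio c) \ A)
    (hC.mono (Set.sdiff_subset.trans Set.inter_subset_left)) hne hmax
  have hcsc : ∀ n, cs n < c := fun n => (hcsE n).1.2
  have hcsA : ∀ n, cs n ∉ A := fun n => (hcsE n).2
  have hA0 : ∀ n, A ⊆ Set.Iio (cs n) := by
    intro n a ha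
    by_contra h
    exact hcsA n (hA (not_lt.1 h) ha)
  obtain ⟨iv, hiv, hivs⟩ := kLim_enum hC c
  -- the start
  obtain ⟨φ0, hφ0s, hφ0e, hφ0G, hφ0C⟩ := ih (cs 0) (hcsc 0) A hA (hA0 0) ψ hψ hG
    (fun x => kLimRes (p x) (Set.Iio (cs 0))) (hp.comp₁ fun w => kLimRes w (Set.Iio (cs 0))) (by
      intro x a ha
      obtain ⟨h1, h2⟩ := kLimRes_sp _ _ ha
      have h3 := hps x h1
      exact ⟨⟨h3.1.1, h2⟩, h3.2⟩)
  let P : ℕ → Gam I × (Pt I → Cfg I) → Prop := fun n t =>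
    t.1.Spt (C ∩ Set.Iio (cs n)) ∧ (∀ x, Gd C O (Set.Iio (cs n)) (t.1.mp x)) ∧
      LC (C ∩ Set.Iio (cs n)) t.2 ∧ ∀ x, sp (t.2 x).u ⊆ C ∩ Set.Ico (cs n) c
  let R : ℕ → Gam I × (Pt I → Cfg I) → Gam I × (Pt I → Cfg I) → Prop := fun n t t' =>
    ∃ w : Pt I → Cfg I, (∀ x, kLimR C O (cs n) c t.1 t.2 (iv n).1 (iv n).2 x (w x)) ∧
      (∀ a < cs n, ∀ x s, t'.1.e a x s = t.1.e a x s) ∧
      (∀ x, t'.1.mp x ∈ Cy (kLimRes (w x) (Set.Ico (cs n) (cs (n + 1)))).u) ∧
      ∀ x, t'.2 x = kLimRes (w x) (Set.Ico (cs (n + 1)) c)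
  have hP0 : P 0 (φ0, fun x => kLimRes (p x) (Set.Ici (cs 0))) := by
    refine ⟨hφ0s, hφ0G, ?_, ?_⟩
    · refine (hp.comp₁ fun w => kLimRes w (Set.Ici (cs 0))).mono ?_
      exact Set.inter_subset_inter_right _ (hA0 0)
    · intro x a ha
      obtain ⟨h1, h2⟩ := kLimRes_sp _ _ ha
      have h3 := hps x h1
      exact ⟨h3.1.1, h2, h3.1.2⟩
  have hstep : ∀ n t, P n t → ∃ t', P (n + 1) t' ∧ R n t t' := by
    rintro n ⟨φ, q⟩ ⟨h1, h2, h3, h4⟩
    obtain ⟨w, hw1, hw2⟩ := kLim_sel hC (hcsc n) h1 h2 h3 h4 (iv n).1 (hiv n)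
    obtain ⟨φ', hφs, hφe, hφG, hφC⟩ := ih (cs (n + 1)) (hcsc (n + 1)) (Set.Iio (cs n)) (isLowerSet_Iio _)
      (Set.Iio_subset_Iio (hcsm (Nat.lt_succ_self n)).le) φ
      (h1.mono fun a ha => ⟨ha.1, ha.2⟩) h2
      (fun x => kLimRes (w x) (Set.Ico (cs n) (cs (n + 1))))
      (hw1.comp₁ fun w => kLimRes w (Set.Ico (cs n) (cs (n + 1)))) (by
        intro x a ha
        obtain ⟨h5, h6⟩ := kLimRes_sp _ _ ha
        exact ⟨⟨(hw2 x).2.1 h5, h6.2⟩, fun h7 => absurd (Set.mem_Iio.1 h7) (not_lt_of_ge h6.1)⟩)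
    refine ⟨(φ', fun x => kLimRes (w x) (Set.Ico (cs (n + 1)) c)), ⟨hφs, hφG, ?_, ?_⟩, w, hw2, hφe, hφC,
      fun x => rfl⟩
    · refine (hw1.comp₁ fun w => kLimRes w (Set.Ico (cs (n + 1)) c)).mono ?_
      exact Set.inter_subset_inter_right _ (Set.Iio_subset_Iio (hcsm (Nat.lt_succ_self n)).le)
    · intro x a ha
      obtain ⟨h5, h6⟩ := kLimRes_sp _ _ ha
      exact ⟨(hw2 x).2.1 h5, h6⟩
  obtain ⟨t, ht0, htP, htR⟩ := kLim_seq P R hP0 hstep
  choose w hwR hwe hwC hwp using htR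
  -- stability
  have hst : ∀ n m, n ≤ m → ∀ a < cs n, ∀ x s, (t m).1.e a x s = (t n).1.e a x s := by
    intro n m hnm
    induction m, hnm using Nat.le_induction with
    | base => intro a _ x s; rfl
    | succ m hm ihm =>
      intro a ha x s
      rw [hwe m a (ha.trans_le (hcsm.monotone hm)) x s, ihm a ha x s]
  -- the limit
  let ef : I → Pt I → List ℕ → List ℕ := fun a x s =>
    if h : ∃ n, a < cs n then (t (Nat.find h)).1.e a x s else s
  have hef : ∀ n a, a < cs n → ∀ x s, ef a x s = (t n).1.e a x s := by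
    intro n a ha x s
    have h : ∃ n, a < cs n := ⟨n, ha⟩
    show (if h : ∃ n, a < cs n then (t (Nat.find h)).1.e a x s else s) = _
    rw [dif_pos h]
    exact (hst (Nat.find h) n (Nat.find_min' h ha) a (Nat.find_spec h) x s).symm
  have hef' : ∀ a, (¬ ∃ n, a < cs n) → ∀ x s, ef a x s = s := by
    intro a ha x s
    show (if h : ∃ n, a < cs n then (t (Nat.find h)).1.e a x s else s) = _
    rw [dif_neg ha]
  have hoff : ∀ a ∉ C ∩ Set.Iio c, ∀ x s, ef a x s = s := by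
    intro a ha x s
    by_cases h : ∃ n, a < cs n
    · obtain ⟨n, hn⟩ := h
      rw [hef n a hn]
      refine (htP n).1.off a (fun h1 => ha ⟨h1.1, hn.trans (hcsc n)⟩) x s
    · exact hef' a h x s
  have hlc : ∀ a s, LC ((C ∩ Set.Iio c) ∩ Set.Iio a) (fun x => ef a x s) := by
    intro a s
    by_cases h : ∃ n, a < cs n
    · obtain ⟨n, hn⟩ := h
      have e1 : (fun x => ef a x s) = fun x => (t n).1.e a x s := funext fun x => hef n a hn x s
      rw [e1]
      refine ((htP n).1.lc a s).mono ?_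
      rintro b ⟨⟨hb1, hb2⟩, hb3⟩
      exact ⟨⟨hb1, lt_trans hb2 (hcsc n)⟩, hb3⟩
    · have e1 : (fun x => ef a x s) = fun _ => s := funext fun x => hef' a h x s
      rw [e1]
      exact LC.const _ _
  let φ : Gam I := ⟨ef, fun a x => by
    by_cases h : ∃ n, a < cs n
    · obtain ⟨n, hn⟩ := h
      have e1 : ef a x = (t n).1.e a x := funext fun s => hef n a hn x s
      rw [e1]
      exact (t n).1.stp a x
    · have e1 : ef a x = fun s => s := funext fun s => hef' a h x s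
      rw [e1]
      exact stp_id, ⟨C ∩ Set.Iio c, hC.mono Set.inter_subset_left, hoff, hlc⟩⟩
  have hφe : ∀ n a, a < cs n → ∀ x s, φ.e a x s = (t n).1.e a x s := hef
  have hφmp : ∀ n a, a < cs n → ∀ x, φ.mp x a = (t n).1.mp x a := by
    intro n a ha x
    have e1 : φ.e a x = (t n).1.e a x := funext fun s => hφe n a ha x s
    rw [Gam.mp, Gam.mp, e1]
  -- the chain
  have hch : ∀ n m, n ≤ m → ∀ a, cs m ≤ a → a < c → ∀ x, (w n x).u a <+: (w m x).u a := by
    intro n m hnm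
    induction m, hnm using Nat.le_induction with
    | base => intro a _ _ x; exact List.prefix_rfl
    | succ m hm ihm =>
      intro a ha hac x
      have h1 := ihm a ((hcsm (Nat.lt_succ_self m)).le.trans ha) hac x
      have h2 := (hwR (m + 1) x).2.2.2.1 a ha hac
      rw [hwp m x, kLimRes_mem _ (show a ∈ Set.Ico (cs (m + 1)) c from ⟨ha, hac⟩)] at h2
      exact h1.trans h2
  have hL : ∀ n x a, a < c → Pf ((w n x).u a) (φ.mp x a) := by
    intro n x a hac
    by_cases han : a < cs n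
    · rw [hφmp n a han x]
      exact (hwR n x).2.2.1 a han
    · push Not at han
      by_cases h0 : (w n x).u a = []
      · rw [h0]
        exact pf_nil _
      · have haC : a ∈ C := (hwR n x).2.1 h0
        have haA : a ∉ A := fun h => absurd (hA0 n h) (not_lt_of_ge han)
        have hex : ∃ m, a < cs m := hcof a ⟨⟨haC, hac⟩, haA⟩
        have h1 := Nat.find_spec hex
        rcases hm : Nat.find hex with _ | m
        · rw [hm] at h1
          exact absurd (h1.trans_le (hcsm.monotone (Nat.zero_le n))) (not_lt_of_ge han)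
        · rw [hm] at h1
          have h2 : cs m ≤ a := not_lt.1 (Nat.find_min hex (by omega))
          have h3 : n ≤ m := by
            by_contra h4
            push Not at h4
            exact absurd (h1.trans_le (hcsm.monotone h4)) (not_lt_of_ge han)
          have h5 := hwC m x a
          rw [kLimRes_mem _ (show a ∈ Set.Ico (cs m) (cs (m + 1)) from ⟨h2, h1⟩)] at h5
          rw [hφmp (m + 1) a h1 x]
          exact h5.of_prefix (hch n m h3 a h2 hac x)
  refine ⟨φ, ⟨hoff, hlc⟩, ?_, ?_, ?_⟩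
  · intro a ha x s
    rw [hφe 0 a (hA0 0 ha) x s, ht0]
    exact hφ0e a ha x s
  · intro x i v hv
    obtain ⟨n, hn⟩ := hivs i v hv
    have h1 := hwR n x
    rw [hn] at h1
    exact ⟨w n x, h1.1, h1.2.1, fun a ha => hL n x a ha, fun a ha => h1.2.2.2.2 a (not_lt.1 ha)⟩
  · intro x a
    by_cases h0 : (p x).u a = []
    · rw [h0]
      exact pf_nil _
    · have h1 := hps x h0
      by_cases ha : a < cs 0
      · rw [hφmp 0 a ha x, ht0]
        have h2 := hφ0C x a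
        rwa [kLimRes_mem _ (show a ∈ Set.Iio (cs 0) from ha)] at h2
      · push Not at ha
        have h2 := (hwR 0 x).2.2.2.1 a ha h1.1.2
        have h3 : ((t 0).2 x).u a = (p x).u a := by
          rw [ht0]
          exact kLimRes_mem _ ha
        rw [h3] at h2
        exact (hL 0 x a h1.1.2).of_prefix h2

end Pool.Agent.Mil
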