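import Mathlib
import Pool.Agent.Lib.Mil.KDefs

/-!
# Mil.KOne (size 200): one coordinate

`b ∈ C`, `φ'` has support in `C ∩ Iio b` and maps into the points with comeager section. Add the coordinate `b`, starting with the prescribed node
`t x` (locally constant, depends on the coordinates `< b`).

Proof. The set `J = {(i, v) : ℕ × Cfg I | sp v.u ⊆ C \ Iic b}` is countable (`Cfg.countable_sp`) and not empty (`Cfg.nil`): let `r ↦ (i_r, v_r)` be a
surjection `ℕ → J`.
(1) For `r : ℕ` and `l : List ℕ` there is `U r l : Pt I → List ℕ`, `LC (C ∩ Iio b)`, such that for all `x`: `l <+: U r l x` and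
    `∃ w ∈ O i_r, sp w.u ⊆ C ∧ (∀ a < b, Pf (w.u a) (φ'.mp x a)) ∧ w.u b <+: U r l x ∧ ∀ a > b, v_r.u a <+: w.u a`.
    By `exists_sel` with `Y = List ℕ`: for `x` apply `Gd C O (Iio b) (φ'.mp x)` to `i_r` and `v` := `v_r` with the value `l` at `b`: get `w`; take `y = w.u b`. The
    condition `∀ a < b, Pf (w.u a) (φ'.mp x' a)` holds for all `x'` with `Ag F n x x'` for suitable `F ⊆ C ∩ Iio b`, `n` (`Spt.lc_mp`, `LC.finset` over
    the finite support of `w`).
(2) `η x s := (s.foldl (fun p k => (U p.2 (p.1 ++ [k]) x, p.2 + 1)) (t x, 0)).1`. The second component after `s` is `s.length`, so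
    `η x [] = t x`, `η x (s ++ [k]) = U s.length (η x s ++ [k]) x` (`List.foldl_append`). `Stp (η x)` with `j = id`. `LC (C ∩ Iio b)` for every `s` by
    induction from the end (`List.reverseRecOn`): `LC.local` with `p = fun x => η x s`.
(3) `exists_upd` for `φ'` (support `C ∩ Iic b`, which contains `b`) gives `φ`. `φ.mp x a = φ'.mp x a` for `a < b` (same `e a`).
    `Pf (t x) (φ.mp x b)`: `φ.pf_mp (pf_nil _)`.
    `Gd C O (Iic b) (φ.mp x)`: given `(i, v)` with `sp v.u ⊆ C \ Iic b`, choose `r` with `(i_r, v_r) = (i, v)`; `s = tk (x b) r`, `s.length = r`,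
    `tk (x b) (r+1) = s ++ [x b r]`, so `U r (η x s ++ [x b r]) x = η x (tk (x b) (r+1))` is an initial segment of `φ.mp x b` (`Gam.pf_mp`, `pf_tk`); the `w`
    of (1) has `Pf (w.u b) (φ.mp x b)`, so it is as required.
-/

set_option autoImplicit false
set_option linter.unusedSectionVars false

namespace Pool.Agent.Mil

variable {I : Type} [LinearOrder I]

/-- step (1) -/
private theorem kOne_sel {C : Set I} (hC : C.Countable) {O : ℕ → Set (Cfg I)} {b : I} (hb : b ∈ C)
    {φ' : Gam I} (hφ' : φ'.Spt (C ∩ Set.Iio b)) (hG : ∀ x, Gd C O (Set.Iio b) (φ'.mp x))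
    (i : ℕ) (v : Cfg I) (hv : sp v.u ⊆ C \ Set.Iic b) (l : List ℕ) :
    ∃ U : Pt I → List ℕ, LC (C ∩ Set.Iio b) U ∧ ∀ x, l <+: U x ∧
      ∃ w ∈ O i, sp w.u ⊆ C ∧ (∀ a < b, Pf (w.u a) (φ'.mp x a)) ∧ w.u b <+: U x ∧
        ∀ a, b < a → v.u a <+: w.u a := by
  classical
  refine exists_sel (hC.mono Set.inter_subset_left) (R := fun x y => l <+: y ∧
      ∃ w ∈ O i, sp w.u ⊆ C ∧ (∀ a < b, Pf (w.u a) (φ'.mp x a)) ∧ w.u b <+: y ∧
        ∀ a, b < a → v.u a <+: w.u a) fun x => ?_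
  have hne : ∀ a, Function.update v.u b l a ≠ [] → a = b ∨ a ∈ sp v.u := by
    intro a ha
    by_cases hab : a = b
    · exact Or.inl hab
    · rw [Function.update_of_ne hab] at ha
      exact Or.inr ha
  let v' : Cfg I := ⟨Function.update v.u b l, by
    refine ((Set.finite_singleton b).union v.fin).subset fun a ha => ?_
    rcases hne a ha with h | h
    · exact Or.inl h
    · exact Or.inr h⟩
  have hv' : sp v'.u ⊆ C \ Set.Iio b := by
    intro a ha
    rcases hne a ha with rfl | h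
    · exact ⟨hb, fun h => lt_irrefl _ h⟩
    · exact ⟨(hv h).1, fun h' => (hv h).2 (le_of_lt h')⟩
  obtain ⟨w, hwO, hwC, hw1, hw2⟩ := hG x i v' hv'
  obtain ⟨N, hN⟩ := w.exists_len
  obtain ⟨F, hF, n, hn⟩ := LC.finset (C := C ∩ Set.Iio b)
    ((w.fin.toFinset.filter (fun a => a < b)) ×ˢ Finset.range N) (β := fun _ => ℕ)
    (fun q x => φ'.mp x q.1 q.2) (fun q hq => by
      have hq1 := (Finset.mem_product.1 hq).1
      rw [Finset.mem_filter, Set.Finite.mem_toFinset] at hq1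
      refine (hφ'.lc_mp q.1 q.2).mono ?_
      rintro a (ha | ha)
      · exact ha.1
      · rw [Set.mem_singleton_iff.1 ha]
        exact ⟨hwC hq1.1, hq1.2⟩) x
  refine ⟨F, hF, n, w.u b, fun x' hx' => ⟨?_, w, hwO, hwC, fun a ha => ?_, List.prefix_rfl,
    fun a ha => ?_⟩⟩
  · have h2 := hw2 b (fun h => lt_irrefl _ h)
    have h3 : v'.u b = l := Function.update_self _ _ _
    rwa [h3] at h2
  · by_cases hwa : w.u a = []
    · rw [hwa]
      exact pf_nil _
    · refine (hw1 a ha).congr fun j hj => (hn x' hx' (a, j) ?_).symm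
      rw [Finset.mem_product, Finset.mem_filter, Set.Finite.mem_toFinset, Finset.mem_range]
      exact ⟨⟨hwa, ha⟩, hj.trans_le (hN a)⟩
  · have h2 := hw2 a (fun h => lt_asymm h ha)
    have h3 : v'.u a = v.u a := Function.update_of_ne ha.ne' _ _
    rwa [h3] at h2

theorem kOne {C : Set I} (hC : C.Countable) {O : ℕ → Set (Cfg I)} {b : I} (hb : b ∈ C)
    {φ' : Gam I} (hφ' : φ'.Spt (C ∩ Set.Iio b)) (hG : ∀ x, Gd C O (Set.Iio b) (φ'.mp x))
    {t : Pt I → List ℕ} (ht : LC (C ∩ Set.Iio b) t) :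
    ∃ φ : Gam I, φ.Spt (C ∩ Set.Iic b) ∧ (∀ a < b, ∀ x s, φ.e a x s = φ'.e a x s) ∧
      (∀ x, Gd C O (Set.Iic b) (φ.mp x)) ∧ ∀ x, Pf (t x) (φ.mp x b) := by
  classical
  -- the enumeration
  obtain ⟨f, hf⟩ : ∃ f : ℕ → ℕ × Cfg I, (Set.univ : Set ℕ) ×ˢ {v : Cfg I | sp v.u ⊆ C \ Set.Iic b} =
      Set.range f := by
    refine (Set.countable_univ.prod (Cfg.countable_sp (hC.mono Set.diff_subset))).exists_eq_range
      ⟨(0, Cfg.nil), Set.mem_univ _, ?_⟩
    intro a ha
    exact absurd rfl ha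
  have hfv : ∀ r, sp (f r).2.u ⊆ C \ Set.Iic b := fun r => by
    have h1 : f r ∈ (Set.univ : Set ℕ) ×ˢ {v : Cfg I | sp v.u ⊆ C \ Set.Iic b} := by
      rw [hf]
      exact ⟨r, rfl⟩
    exact h1.2
  choose U hUlc hU using fun (r : ℕ) (l : List ℕ) => kOne_sel hC hb hφ' hG (f r).1 (f r).2 (hfv r) l
  obtain ⟨fld, hfld⟩ : ∃ fld : Pt I → List ℕ → List ℕ × ℕ, ∀ x s, fld x s =
      s.foldl (fun p k => (U p.2 (p.1 ++ [k]) x, p.2 + 1)) (t x, 0) := ⟨_, fun _ _ => rfl⟩
  have hfnil : ∀ x, fld x [] = (t x, 0) := fun x => by rw [hfld]; rfl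
  have hfapp : ∀ x s k, fld x (s ++ [k]) = (U (fld x s).2 ((fld x s).1 ++ [k]) x, (fld x s).2 + 1) :=
    fun x s k => by rw [hfld, hfld, List.foldl_append]; rfl
  have hsnd : ∀ x s, (fld x s).2 = s.length := by
    intro x s
    induction s using List.reverseRecOn with
    | nil => rw [hfnil]; rfl
    | append_singleton s k ih =>
      rw [hfapp, List.length_append, ih]
      rfl
  obtain ⟨η, hη⟩ : ∃ η : Pt I → List ℕ → List ℕ, ∀ x s, η x s = (fld x s).1 := ⟨_, fun _ _ => rfl⟩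
  have hnil : ∀ x, η x [] = t x := fun x => by rw [hη, hfnil]
  have happ : ∀ x s k, η x (s ++ [k]) = U s.length (η x s ++ [k]) x := fun x s k => by
    rw [hη, hfapp, hsnd, ← hη]
  have hstp : ∀ x, Stp (η x) := fun x s => ⟨fun k => k, strictMono_id, fun k => by
    rw [happ]
    exact (hU s.length (η x s ++ [k]) x).1⟩
  have hlc : ∀ s, LC (C ∩ Set.Iio b) (fun x => η x s) := by
    intro s
    induction s using List.reverseRecOn with
    | nil =>
      have h1 : (fun x => η x []) = t := funext hnil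
      rw [h1]
      exact ht
    | append_singleton s k ih =>
      exact LC.local ih (fun p x => U s.length (p ++ [k]) x) (fun p => hUlc _ _)
        fun x => happ x s k
  obtain ⟨φ, hφ, hφb, hφa⟩ := exists_upd (hC.mono Set.inter_subset_left)
    (hφ'.mono (Set.inter_subset_inter_right C Set.Iio_subset_Iic_self)) (b := b) ⟨hb, le_rfl⟩ η hstp
    (fun s => (hlc s).mono fun a ha => ⟨⟨ha.1, le_of_lt ha.2⟩, ha.2⟩)
  have hmp : ∀ x, ∀ a < b, φ.mp x a = φ'.mp x a := by
    intro x a ha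
    show lm (φ.e a x) (x a) = lm (φ'.e a x) (x a)
    congr 1
    funext s
    exact hφa a ha.ne x s
  refine ⟨φ, hφ, fun a ha x s => hφa a ha.ne x s, fun x i v hv => ?_, fun x => ?_⟩
  · have hiv : (i, v) ∈ Set.range f := by
      rw [← hf]
      exact ⟨Set.mem_univ _, hv⟩
    obtain ⟨r, hr⟩ := hiv
    obtain ⟨w, hw1, hw2, hw3, hw4, hw5⟩ := (hU r (η x (tk (x b) r) ++ [x b r]) x).2
    rw [hr] at hw1 hw5
    refine ⟨w, hw1, hw2, fun a ha => ?_, fun a ha => hw5 a (not_le.1 ha)⟩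
    rcases lt_or_eq_of_le (show a ≤ b from ha) with h | rfl
    · rw [hmp x a h]
      exact hw3 a h
    · have h2 := φ.pf_mp (a := a) (x := x) (pf_tk (x a) (r + 1))
      rw [hφb, tk_succ, happ, tk_length] at h2
      exact h2.of_prefix hw4
  · have h2 := φ.pf_mp (a := b) (x := x) (pf_nil (x b))
    rw [hφb, hnil] at h2
    exact h2

end Pool.Agent.Mil
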