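import Mathlib
import Pool.Agent.Lib.Mil.KOne
import Pool.Agent.Lib.Mil.KLim

/-!
# Mil.Kur (size 130): comeager sets contain images of elements of `Gam`

Proof of `kq`: well-founded induction on `c`; let `A, ψ, p` be given and `E = (C ∩ Iio c) \ A`.
* `E = ∅`: `C ∩ Iio c = C ∩ A` (`A ⊆ Iio c`), `φ = ψ`; the promise is empty (`sp (p x).u ⊆ E`), `Gd C O (Iio c) x ↔ Gd C O A x`: `C \ Iio c = C \ A`; given `v` with support in
  `C \ Iio c`, the `w` for `A` has support in `C`; for `a ∈ Iio c \ A`: `a ∉ C`, so `w.u a = []`.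
* `E` has a largest element `b`: `KQ b` (induction) with the promise `(p x)|Iio b` (values at coordinates `< b` only) gives `φ'` with support `C ∩ Iio b` (if `A ⊆ Iio b`, which
  holds because `b ∉ A` and `A` is a lower set); `kOne` with `t x = (p x).u b` (`LC (C ∩ A) ⊆ C ∩ Iio b`) gives `φ` with support `C ∩ Iic b = C ∩ Iio c` (elements of `C` strictly
  between `b` and `c` would lie in `E`). `Gd C O (Iic b)` gives `Gd C O (Iio c)` as in the first case.
* otherwise `kLim`.
`kur`: `kq` for `c` with `A = ∅`, `ψ = 1`, `p = Cfg.nil`: `Gd C O ∅ x` is the density. `C ⊆ Iio c`, so `Gd C O (Iio c) (φ.mp x)` with `v = Cfg.nil` gives the claim (`w.u a = []` for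
`a ∉ Iio c`).
-/

set_option autoImplicit false
set_option linter.unusedSectionVars false

namespace Pool.Agent.Mil

variable {I : Type} [LinearOrder I] [WellFoundedLT I]

omit [WellFoundedLT I] in
private theorem gd_ext {C : Set I} {O : ℕ → Set (Cfg I)} {A B : Set I} (hAB : A ⊆ B) (hB : C ∩ B ⊆ A)
    {x : Pt I} (h : Gd C O A x) : Gd C O B x := by
  intro i v hv
  obtain ⟨w, h1, h2, h3, h4⟩ := h i v (hv.trans (Set.sdiff_subset_sdiff_right hAB))
  refine ⟨w, h1, h2, fun a ha => ?_, fun a ha => h4 a fun h' => ha (hAB h')⟩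
  by_cases hA : a ∈ A
  · exact h3 a hA
  · have : w.u a = [] := by
      by_contra hne
      exact hA (hB ⟨h2 hne, ha⟩)
    rw [this]
    exact pf_nil _

open Classical in
/-- the values in `S` only -/
private noncomputable def res (w : Cfg I) (S : Set I) : Cfg I :=
  ⟨fun a => if a ∈ S then w.u a else [], w.fin.subset fun a ha => by
    intro h
    apply ha
    change (if a ∈ S then w.u a else []) = []
    rw [h, ite_self]⟩

open Classical in
omit [WellFoundedLT I] in
private theorem res_mem (w : Cfg I) {S : Set I} {a : I} (ha : a ∈ S) : (res w S).u a = w.u a := by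
  change (if a ∈ S then w.u a else []) = w.u a
  rw [if_pos ha]

open Classical in
omit [WellFoundedLT I] in
private theorem res_sp (w : Cfg I) (S : Set I) : sp (res w S).u ⊆ sp w.u ∩ S := by
  intro a ha
  by_cases h : a ∈ S
  · refine ⟨fun h' => ha ?_, h⟩
    rw [res_mem w h]
    exact h'
  · exact absurd (show (if a ∈ S then w.u a else []) = [] from if_neg h) ha

theorem kq {C : Set I} (hC : C.Countable) {O : ℕ → Set (Cfg I)} (c : I) : KQ C O c := by
  induction c using WellFoundedLT.induction with
  | ind c ih =>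
    intro A hA hAc ψ hψ hG p hp hps
    by_cases hne : ((C ∩ Set.Iio c) \ A).Nonempty
    · by_cases hmax : ∀ a ∈ (C ∩ Set.Iio c) \ A, ∃ b ∈ (C ∩ Set.Iio c) \ A, a < b
      · exact kLim hC ih hA hAc hψ hG hp hps hne hmax
      · push Not at hmax
        obtain ⟨b, ⟨⟨hbC, hbc⟩, hbA⟩, hb⟩ := hmax
        have hbc' : b < c := hbc
        have hAb : A ⊆ Set.Iio b := by
          intro a ha
          by_contra hc'
          exact hbA (hA (not_lt.1 hc') ha)
        obtain ⟨φ', hφ1, hφ2, hφ3, hφ4⟩ := ih b hbc' A hA hAb ψ hψ hG (fun x => res (p x) (Set.Iio b))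
          (hp.comp₁ fun w => res w (Set.Iio b)) (fun x a ha => by
            have h1 := res_sp (p x) _ ha
            have h2 := hps x h1.1
            exact ⟨⟨h2.1.1, h1.2⟩, h2.2⟩)
        obtain ⟨φ, h1, h2, h3, h4⟩ := kOne hC hbC hφ1 hφ3 (t := fun x => (p x).u b)
          ((hp.mono (Set.inter_subset_inter_right C hAb)).comp₁ fun w => w.u b)
        refine ⟨φ, h1.mono (Set.inter_subset_inter_right C fun a ha => lt_of_le_of_lt ha hbc'),
          fun a ha x s => by rw [h2 a (hAb ha) x s, hφ2 a ha x s],
          fun x => gd_ext (fun a ha => lt_of_le_of_lt ha hbc') ?_ (h3 x), fun x a => ?_⟩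
        · rintro a ⟨haC, hac⟩
          by_contra hab
          have hab' : b < a := not_le.1 hab
          have haA : a ∉ A := fun h' => lt_asymm hab' (hAb h')
          exact absurd (hb a ⟨⟨haC, hac⟩, haA⟩) (not_le.2 hab')
        · rcases lt_trichotomy a b with hab | hab | hab
          · have e1 : φ.mp x a = φ'.mp x a := by
              rw [Gam.mp, Gam.mp]
              congr 1
              funext s
              exact h2 a hab x s
            have e2 := hφ4 x a
            rw [res_mem (p x) (show a ∈ Set.Iio b from hab)] at e2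
            rw [e1]
            exact e2
          · rw [hab]
            exact h4 x
          · have : (p x).u a = [] := by
              by_contra hne'
              exact absurd (hb a (hps x hne')) (not_le.2 hab)
            rw [this]
            exact pf_nil _
    · rw [Set.not_nonempty_iff_eq_empty] at hne
      have hsub : C ∩ Set.Iio c ⊆ A := Set.sdiff_eq_empty.1 hne
      refine ⟨ψ, hψ.mono (Set.inter_subset_inter_right C hAc), fun _ _ _ _ => rfl,
        fun x => gd_ext hAc hsub (hG x), fun x a => ?_⟩
      have : (p x).u a = [] := by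
        by_contra hne'
        have h1 := hps x hne'
        rw [hne] at h1
        exact h1
      rw [this]
      exact pf_nil _

/-- A sequence of dense open sets with support in the countable set `C`: some `φ` with support `C` maps into all of them. -/
theorem kur {C : Set I} (hC : C.Countable) {c : I} (hc : C ⊆ Set.Iio c) {O : ℕ → Set (Cfg I)} (hO : DSeq C O) :
    ∃ φ : Gam I, φ.Spt C ∧ ∀ x i, ∃ w ∈ O i, sp w.u ⊆ C ∧ φ.mp x ∈ Cy w.u := by
  obtain ⟨φ, h1, -, h3, -⟩ := kq hC (O := O) c ∅ (fun _ _ _ h => h) (Set.empty_subset _) 1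
    (Gam.Spt.one.mono (Set.empty_subset _)) (fun x i v hv => by
      obtain ⟨w, hw1, hw2, hw3⟩ := hO.dense i v (hv.trans Set.sdiff_subset)
      exact ⟨w, hw1, hw2, fun a ha => absurd ha (Set.notMem_empty a), fun a _ => hw3 a⟩)
    (fun _ => Cfg.nil) (LC.const _ _) (fun x a ha => absurd rfl ha)
  refine ⟨φ, h1.mono Set.inter_subset_left, fun x i => ?_⟩
  obtain ⟨w, hw1, hw2, hw3, -⟩ := h3 x i Cfg.nil (fun a ha => absurd rfl ha)
  refine ⟨w, hw1, hw2, fun a => ?_⟩
  by_cases ha : a ∈ Set.Iio c
  · exact hw3 a ha
  · have : w.u a = [] := by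
      by_contra hne
      exact ha (hc (hw2 hne))
    rw [this]
    exact pf_nil _

end Pool.Agent.Mil
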