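import Mathlib
import Pool.Agent.Lib.Mil.Dmn
import Pool.Agent.Lib.Mil.Kur

/-!
# Mil.Tre (size 260): the trees of possible values

`q` is a name of an element of `2^ℕ`. `TrV δ q x v` : the tree of the initial segments of `q y` for the points `y ∈ Cy v` which agree with `x` below `δ`. `q` is new over `δ`: no restriction of `q` depends only on the
coordinates `< δ`. Claim: after composition with some `θ` with support below `δ`, a continuous function `H` of the coordinates `< δ` dominates all trees `TrV δ q x v`.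

Proof. Let `∀ n, LC C (fun x => q x n)`, `C` countable, `Cδ = C ∩ Iio δ`.
(0) If `f` is `LC C` and depends only on the coordinates in `A` (`∀ x y, (∀ a ∈ A, x a = y a) → f x = f y`) then `f` is `LC (C ∩ A)`: given `x` take `F, n`; for `y` with `Ag (F.filter (· ∈ A)) n x y` let `y' a = y a` for `a ∈ A`, `x a` otherwise.
(1) Let `v` have support in `C \ Iio δ` and let `t : List Bool`. `O v t` = the configurations `w` such that (`∀ x ∈ Cy w.u, t ∉ TrV δ q x v`) or (`∀ x ∈ Cy w.u, ∃ t₁ ∈ TrV δ q x v, ∃ t₂ ∈ TrV δ q x v, t <+: t₁ ∧ t <+: t₂ ∧ t₁.length = t₂.length ∧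
t₁ ≠ t₂`). Upward closed (`Ext.cy`). Dense among the configurations with support in `Cδ`: let `sp w.u ⊆ Cδ`. If the first alternative holds for `w`, take `w`. Otherwise there are `x0 ∈ Cy w.u` and `y0 ∈ Cy v.u` with
`y0 a = x0 a` for `a < δ` and `Pf t (q y0)`. Then `y0 ∈ Cy w.u` (the support of `w` is below `δ`). Take `F, n` with `F ⊆ C` such that `q y` and `q y0` agree at all `m < t.length` if `Ag F n y0 y` (`LC.finset`), and
`u = ((Cfg.of F n y0).sup w).sup v` : `y0 ∈ Cy u.u`, `u` extends `w`, `v` and `Cfg.of F n y0` (`mem_sup`, `ext_sup_left`, `ext_sup_right`). Newness for `χ = u.k`: the functions `x ↦ q (u.k.mp x) m` are `LC C` and (by (0)) not all of them depend only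
on the coordinates `< δ`; so there are `z₁, z₂` which agree below `δ` and `m` with `q y₁ m ≠ q y₂ m` for `y_i = pre u.u z_i ∈ Cy u.u`; `y₁, y₂` agree below `δ`. `Pf t (q y_i)`; so `m ≥ t.length`. Put `t_i = tk (q y_i) (m+1)`. By `LC.finset` there are
`F₁ ⊆ C`, `n₁` such that `q y`, `q y_i` agree at all `m' ≤ m` if `Ag F₁ n₁ y_i y` (`i = 1, 2`). `w' = (Cfg.of (F₁.filter (· < δ)) n₁ y₁).sup w`, `y₁ ∈ Cy w'.u`; for `x ∈ Cy w'.u` the point `y'_i` = `x` below `δ`, `y_i` from `δ` on, satisfies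
`Ag F₁ n₁ y_i y'_i`, `y'_i ∈ Cy v.u`, so `t_i ∈ TrV δ q x v`. `w'` extends `w`, support in `Cδ`.
(2) Number the countable nonempty set of the pairs `(v, t)` with `sp v.u ⊆ C \ Iio δ` and apply `kur` with `Cδ ⊆ Iio δ`: `θ.Spt Cδ`, `θ.mp x ∈ Cy w.u` for some `w ∈ O v t`, `sp w.u ⊆ Cδ`, for all `x, v, t`. Put `T v x = TrV δ q (θ.mp x) v`.
The truth value of `t ∈ T v x` is locally constant: near `x` the point `θ.mp x'` stays in `Cy w.u`; in the first case it is false, in the second case it is true (an initial segment of an element of `TrV` is in `TrV`: `t <+: t₁`). So it is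
`LC (Cδ)` as a function of `x` (continuity of `θ.mp` with supports `Cδ`: `Spt.lc_comp`/`lc_mp`, `LC.finset`). Splitting: the second case. Pruned: `t ∈ T`, `Pf t (q y)`, `L ≥ t.length`: `tk (q y) L`.
(3) Enumerate the `v` with support in `C \ Iio δ` and apply `exists_domination` with `A = Iio δ`: `H`. For a general `v` with `v.u a = []` for `a < δ`, let `v'` be `v` restricted to `C`: `TrV δ q x v = TrV δ q x v'` since `q` depends only on
coordinates in `C` (change the coordinates outside `C`: given `y ∈ Cy v'.u` put `y' a = y a` for `a ∈ C ∪ Iio δ` and `y' a = cat (v.u a) 0` otherwise; `q y' = q y` by `LC.eq_of`).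
(4) `TrV δ (fun x => q (θ.mp x)) x v = TrV δ q (θ.mp x) v` for `θ.In (Iio δ)`: `⊆`: `y ↦ θ.mp y` (`θ.mp y a = y a` for `a ≥ δ`, `= θ.mp x a` for `a < δ` by `mp_congr`). `⊇`: given `y ∈ Cy v.u` which agrees with `θ.mp x` below `δ`, let `y'` be `x` below `δ` and
`y` from `δ` on; `θ.mp y' = y`.
-/

set_option autoImplicit false
set_option linter.unusedSectionVars false

namespace Pool.Agent.Mil

variable {I : Type} [LinearOrder I] [WellFoundedLT I]

/-- the tree of the initial segments of the values of `q` over `x` (below `δ`) and `v` (from `δ` on) -/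
def TrV (δ : I) (q : Pt I → ℕ → Bool) (x : Pt I) (v : Cfg I) : Set (List Bool) :=
  {t | ∃ y ∈ Cy v.u, (∀ a < δ, y a = x a) ∧ Pf t (q y)}

private theorem tre_cut {β : Type} {C A : Set I} {f : Pt I → β} (hf : LC C f)
    (hA : ∀ x y : Pt I, (∀ a ∈ A, x a = y a) → f x = f y) : LC (C ∩ A) f := by
  classical
  intro x
  obtain ⟨F, hF, n, hn⟩ := hf x
  refine ⟨F.filter (· ∈ A), fun a ha => ?_, n, fun y hy => ?_⟩
  · rw [Finset.mem_coe, Finset.mem_filter] at ha
    exact ⟨hF ha.1, ha.2⟩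
  · let y' : Pt I := fun a => if a ∈ A then y a else x a
    have h1 : f y = f y' := hA y y' fun a ha => by simp [y', ha]
    rw [h1]
    apply hn
    intro a ha i hi
    by_cases h : a ∈ A
    · have h2 : y' a = y a := by simp [y', h]
      rw [h2]
      exact hy a (Finset.mem_filter.2 ⟨ha, h⟩) i hi
    · have h2 : y' a = x a := by simp [y', h]
      rw [h2]

private theorem tre_cy {δ : I} {w : Cfg I} (hw : sp w.u ⊆ Set.Iio δ) {x y : Pt I} (hx : x ∈ Cy w.u)
    (h : ∀ a < δ, y a = x a) : y ∈ Cy w.u := by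
  intro a
  by_cases ha : a < δ
  · rw [h a ha]
    exact hx a
  · have h1 : w.u a = [] := by
      by_contra h1
      exact ha (hw h1)
    rw [h1]
    exact pf_nil _

private theorem tre_cy' {δ : I} {v : Cfg I} (hv : ∀ a < δ, v.u a = []) {x y : Pt I} (hx : x ∈ Cy v.u)
    (h : ∀ a, ¬ a < δ → y a = x a) : y ∈ Cy v.u := by
  intro a
  by_cases ha : a < δ
  · rw [hv a ha]
    exact pf_nil _
  · rw [h a ha]
    exact hx a

private theorem tre_pfx {δ : I} {q : Pt I → ℕ → Bool} {x : Pt I} {v : Cfg I} {t t' : List Bool}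
    (h : t' ∈ TrV δ q x v) (ht : t <+: t') : t ∈ TrV δ q x v := by
  obtain ⟨y, h1, h2, h3⟩ := h
  exact ⟨y, h1, h2, h3.of_prefix ht⟩

/-- the dense open sets -/
private def treO (δ : I) (q : Pt I → ℕ → Bool) (v : Cfg I) (t : List Bool) : Set (Cfg I) :=
  {w | (∀ x ∈ Cy w.u, t ∉ TrV δ q x v) ∨ ∀ x ∈ Cy w.u, ∃ t₁ ∈ TrV δ q x v, ∃ t₂ ∈ TrV δ q x v,
    t <+: t₁ ∧ t <+: t₂ ∧ t₁.length = t₂.length ∧ t₁ ≠ t₂}

private theorem tre_dense {δ : I} {q : Pt I → ℕ → Bool} {C : Set I} (hC : C.Countable)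
    (hq : ∀ n, LC C (fun x => q x n))
    (hnew : ∀ χ : Gam I, ¬ IsNm (Set.Iio δ) (fun x => q (χ.mp x))) {v : Cfg I}
    (hv : sp v.u ⊆ C \ Set.Iio δ) (t : List Bool) (w : Cfg I) (hw : sp w.u ⊆ C ∩ Set.Iio δ) :
    ∃ w' ∈ treO δ q v t, sp w'.u ⊆ C ∩ Set.Iio δ ∧ Ext w.u w'.u := by
  classical
  by_cases h1 : ∀ x ∈ Cy w.u, t ∉ TrV δ q x v
  · exact ⟨w, Or.inl h1, hw, Ext.refl _⟩
  push Not at h1
  obtain ⟨x0, hx0, y0, hy0v, hy0x, hy0t⟩ := h1
  have hwδ : sp w.u ⊆ Set.Iio δ := hw.trans Set.inter_subset_right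
  have hvδ : ∀ a < δ, v.u a = [] := by
    intro a ha
    by_contra h2
    exact (hv h2).2 ha
  have hy0w : y0 ∈ Cy w.u := tre_cy hwδ hx0 hy0x
  obtain ⟨F, hF, n, hn⟩ := LC.finset (C := C) (Finset.range t.length) (β := fun _ => Bool)
    (fun m x => q x m) (fun m _ => hq m) y0
  let u : Cfg I := ((Cfg.of F n y0).sup w).sup v
  have m1 : y0 ∈ Cy ((Cfg.of F n y0).sup w).u := Cfg.mem_sup (Cfg.mem_of F n y0) hy0w
  have e1 : Ext (Cfg.of F n y0).u u.u :=
    (Cfg.ext_sup_left (Cfg.mem_of F n y0) hy0w).trans (Cfg.ext_sup_left m1 hy0v)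
  have e2 : Ext w.u u.u :=
    (Cfg.ext_sup_right (Cfg.mem_of F n y0) hy0w).trans (Cfg.ext_sup_left m1 hy0v)
  have e3 : Ext v.u u.u := Cfg.ext_sup_right m1 hy0v
  have hu : sp u.u ⊆ C := by
    refine (Cfg.sup_sp _ _).trans (Set.union_subset ((Cfg.sup_sp _ _).trans
      (Set.union_subset ((Cfg.of_sp F n y0).trans hF) (hw.trans Set.inter_subset_left))) ?_)
    exact hv.trans Set.diff_subset
  -- newness
  have hlc : ∀ m, LC C (fun x => q (u.k.mp x) m) := by
    intro m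
    exact (kk_spt u.u u.fin.countable).lc_comp (hq m) (le_refl C)
      fun a _ => Set.inter_subset_left.trans hu
  obtain ⟨m, z₁, z₂, hz, hm⟩ : ∃ (m : ℕ) (z₁ z₂ : Pt I), (∀ a ∈ Set.Iio δ, z₁ a = z₂ a) ∧
      q (u.k.mp z₁) m ≠ q (u.k.mp z₂) m := by
    by_contra hcon
    push Not at hcon
    exact hnew u.k ⟨C ∩ Set.Iio δ, hC.mono Set.inter_subset_left, Set.inter_subset_right,
      fun m => tre_cut (hlc m) fun x y hxy => hcon m x y hxy⟩
  rw [Cfg.k_mp, Cfg.k_mp] at hm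
  have hy1 : pre u.u z₁ ∈ Cy u.u := pre_mem _ _
  have hy2 : pre u.u z₂ ∈ Cy u.u := pre_mem _ _
  have hy12 : ∀ a < δ, pre u.u z₁ a = pre u.u z₂ a := by
    intro a ha
    unfold pre
    rw [hz a ha]
  generalize pre u.u z₁ = y₁ at hm hy1 hy12
  generalize pre u.u z₂ = y₂ at hm hy2 hy12
  have hq1 : ∀ i ∈ Finset.range t.length, q y₁ i = q y0 i := hn y₁ (Cfg.ag_of (e1.cy hy1))
  have hq2 : ∀ i ∈ Finset.range t.length, q y₂ i = q y0 i := hn y₂ (Cfg.ag_of (e1.cy hy2))
  have ht1 : Pf t (q y₁) := hy0t.congr fun i hi => (hq1 i (Finset.mem_range.2 hi)).symm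
  have ht2 : Pf t (q y₂) := hy0t.congr fun i hi => (hq2 i (Finset.mem_range.2 hi)).symm
  have hmt : t.length ≤ m := by
    by_contra hcon
    push Not at hcon
    exact hm (by rw [hq1 m (Finset.mem_range.2 hcon), hq2 m (Finset.mem_range.2 hcon)])
  obtain ⟨F₁, hF₁, n₁, hn₁⟩ := LC.finset (C := C) (Finset.range (m + 1)) (β := fun _ => Bool)
    (fun m x => q x m) (fun m _ => hq m) y₁
  obtain ⟨F₂, hF₂, n₂, hn₂⟩ := LC.finset (C := C) (Finset.range (m + 1)) (β := fun _ => Bool)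
    (fun m x => q x m) (fun m _ => hq m) y₂
  let F' : Finset I := (F₁ ∪ F₂).filter (· < δ)
  have hy1w : y₁ ∈ Cy w.u := e2.cy hy1
  refine ⟨(Cfg.of F' (max n₁ n₂) y₁).sup w, Or.inr fun x hx => ?_, ?_,
    Cfg.ext_sup_right (Cfg.mem_of _ _ _) hy1w⟩
  · have hxa : Ag F' (max n₁ n₂) y₁ x :=
      Cfg.ag_of ((Cfg.ext_sup_left (Cfg.mem_of F' (max n₁ n₂) y₁) hy1w).cy hx)
    have key : ∀ y : Pt I, (∀ a < δ, y a = y₁ a) → y ∈ Cy u.u →
        ∀ (G : Finset I) (k : ℕ), G ⊆ F₁ ∪ F₂ → k ≤ max n₁ n₂ →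
        (∀ y', Ag G k y y' → ∀ i ∈ Finset.range (m + 1), q y' i = q y i) →
        tk (q y) (m + 1) ∈ TrV δ q x v := by
      intro y hy hyu G k hG hk hGk
      refine ⟨fun a => if a < δ then x a else y a, ?_, fun a ha => by simp [ha], ?_⟩
      · exact tre_cy' hvδ (e3.cy hyu) fun a ha => by simp [ha]
      · have h2 := hGk (fun a => if a < δ then x a else y a) (by
          intro a ha i hi
          by_cases h3 : a < δ
          · simp only [h3, if_true]
            rw [hy a h3]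
            exact hxa a (Finset.mem_filter.2 ⟨hG ha, h3⟩) i (hi.trans_le hk)
          · simp only [h3, if_false])
        refine (pf_tk (q y) (m + 1)).congr fun i hi => ?_
        rw [tk_length] at hi
        exact (h2 i (Finset.mem_range.2 hi)).symm
    refine ⟨tk (q y₁) (m + 1), key y₁ (fun _ _ => rfl) hy1 F₁ n₁ Finset.subset_union_left
      (le_max_left _ _) hn₁, tk (q y₂) (m + 1), key y₂ (fun a ha => (hy12 a ha).symm) hy2 F₂ n₂
      Finset.subset_union_right (le_max_right _ _) hn₂, ?_, ?_, by simp, ?_⟩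
    · exact ht1.pfx (pf_tk _ _) (by rw [tk_length]; omega)
    · exact ht2.pfx (pf_tk _ _) (by rw [tk_length]; omega)
    · intro h2
      exact hm (tk_eq_iff.1 h2 m (Nat.lt_succ_self m))
  · refine (Cfg.sup_sp _ _).trans (Set.union_subset ((Cfg.of_sp _ _ _).trans ?_) hw)
    intro a ha
    rw [Finset.mem_coe, Finset.mem_filter, Finset.mem_union] at ha
    exact ⟨ha.1.elim (fun h => hF₁ h) (fun h => hF₂ h), ha.2⟩

private theorem tre_cyl {θ : Gam I} {D : Set I} (hθ : θ.Spt D) (w : Cfg I) (hw : sp w.u ⊆ D)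
    (x : Pt I) (h : θ.mp x ∈ Cy w.u) :
    ∃ F : Finset I, (↑F : Set I) ⊆ D ∧ ∃ n, ∀ y, Ag F n x y → θ.mp y ∈ Cy w.u := by
  classical
  obtain ⟨N, hN⟩ := w.exists_len
  obtain ⟨F, hF, n, hn⟩ := LC.finset (C := D) (w.fin.toFinset ×ˢ Finset.range N)
    (β := fun _ => ℕ) (fun p x => θ.mp x p.1 p.2) (fun p hp => by
      refine (hθ.lc_mp p.1 p.2).mono ?_
      rintro a (ha | ha)
      · exact ha.1
      · rw [Set.mem_singleton_iff.1 ha]
        exact hw ((Set.Finite.mem_toFinset _).1 (Finset.mem_product.1 hp).1)) x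
  refine ⟨F, hF, n, fun y hy => ?_⟩
  refine Cfg.mem_cy_of_ag (F := w.fin.toFinset) h (by simp) hN fun a ha i hi => ?_
  exact hn y hy (a, i) (Finset.mem_product.2 ⟨ha, Finset.mem_range.2 hi⟩)

private theorem tre_restrict {δ : I} {q : Pt I → ℕ → Bool} {C : Set I}
    (hq : ∀ n, LC C (fun x => q x n)) {v v' : Cfg I} (hv : ∀ a < δ, v.u a = [])
    (h1 : ∀ a ∈ C, v'.u a = v.u a) (h2 : ∀ a ∉ C, v'.u a = []) (x : Pt I) :
    TrV δ q x v = TrV δ q x v' := by
  classical
  apply Set.Subset.antisymm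
  · rintro t ⟨y, hy1, hy2, hy3⟩
    refine ⟨y, fun a => ?_, hy2, hy3⟩
    by_cases ha : a ∈ C
    · rw [h1 a ha]
      exact hy1 a
    · rw [h2 a ha]
      exact pf_nil _
  · rintro t ⟨y, hy1, hy2, hy3⟩
    let y' : Pt I := fun a => if a ∈ C ∨ a < δ then y a else cat (v.u a) (fun _ => 0)
    have hy' : ∀ a, (a ∈ C ∨ a < δ) → y' a = y a := fun a ha => by simp only [y', ha, if_true]
    refine ⟨y', fun a => ?_, fun a ha => by rw [hy' a (Or.inr ha), hy2 a ha], ?_⟩
    · by_cases ha : a ∈ C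
      · rw [hy' a (Or.inl ha), ← h1 a ha]
        exact hy1 a
      · by_cases hb : a < δ
        · rw [hv a hb]
          exact pf_nil _
        · have h3 : y' a = cat (v.u a) (fun _ => 0) := by
            simp only [y', ha, hb, or_self, if_false]
          rw [h3]
          exact pf_cat _ _
    · refine hy3.congr fun i _ => ?_
      exact ((hq i).eq_of fun a ha => hy' a (Or.inl ha)).symm

private theorem tre_comp {δ : I} {q : Pt I → ℕ → Bool} {θ : Gam I} (hθ : θ.In (Set.Iio δ))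
    {v : Cfg I} (hv : ∀ a < δ, v.u a = []) (x : Pt I) :
    TrV δ (fun x => q (θ.mp x)) x v = TrV δ q (θ.mp x) v := by
  classical
  have hoff : ∀ (a : I) (y : Pt I), ¬ a < δ → θ.mp y a = y a := fun a y ha => hθ.mp_eq ha y
  apply Set.Subset.antisymm
  · rintro t ⟨y, hy1, hy2, hy3⟩
    refine ⟨θ.mp y, tre_cy' hv hy1 fun a ha => hoff a y ha, fun a ha => ?_, hy3⟩
    exact θ.mp_congr a fun b hb => hy2 b (hb.trans_lt ha)
  · rintro t ⟨y, hy1, hy2, hy3⟩
    let y' : Pt I := fun a => if a < δ then x a else y a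
    have h1 : ∀ a < δ, y' a = x a := fun a ha => by simp only [y', ha, if_true]
    have h2 : ∀ a, ¬ a < δ → y' a = y a := fun a ha => by simp only [y', ha, if_false]
    have h3 : θ.mp y' = y := by
      funext a
      by_cases ha : a < δ
      · rw [hy2 a ha]
        exact θ.mp_congr a fun b hb => h1 b (hb.trans_lt ha)
      · rw [hoff a y' ha, h2 a ha]
    refine ⟨y', tre_cy' hv hy1 h2, h1, ?_⟩
    show Pf t (q (θ.mp y'))
    rw [h3]
    exact hy3

theorem dominate {δ : I} {q : Pt I → ℕ → Bool} (hq : IsNm Set.univ q)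
    (hnew : ∀ χ : Gam I, ¬ IsNm (Set.Iio δ) (fun x => q (χ.mp x))) :
    ∃ θ : Gam I, θ.In (Set.Iio δ) ∧ ∃ H : Pt I → ℕ → ℕ, IsNm (Set.Iio δ) H ∧ (∀ x, Monotone (H x)) ∧
      ∀ x (v : Cfg I), (∀ a < δ, v.u a = []) → ∃ N, Dom (TrV δ (fun x => q (θ.mp x)) x v) (H x) N := by
  classical
  obtain ⟨C, hC, -, hqC⟩ := hq
  -- enumerations
  have hS : {v : Cfg I | sp v.u ⊆ C \ Set.Iio δ}.Countable :=
    Cfg.countable_sp (hC.mono Set.diff_subset)
  obtain ⟨e, he⟩ := hS.exists_eq_range ⟨Cfg.nil, by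
    intro a ha
    exact absurd rfl ha⟩
  have heS : ∀ i, sp (e i).u ⊆ C \ Set.Iio δ := by
    intro i
    have h1 : e i ∈ {v : Cfg I | sp v.u ⊆ C \ Set.Iio δ} := by
      rw [he]
      exact ⟨i, rfl⟩
    exact h1
  obtain ⟨τ, hτ⟩ := exists_surjective_nat (List Bool)
  have hO : DSeq (C ∩ Set.Iio δ) (fun j : ℕ => treO δ q (e j.unpair.1) (τ j.unpair.2)) := by
    refine ⟨fun j w v hwv hw => ?_, fun j w hw => ?_⟩
    · rcases hw with hw | hw
      · exact Or.inl fun x hx => hw x (hwv.cy hx)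
      · exact Or.inr fun x hx => hw x (hwv.cy hx)
    · exact tre_dense hC hqC hnew (heS _) _ w hw
  obtain ⟨θ, hθ, hθO⟩ := kur (hC.mono Set.inter_subset_left) (c := δ) Set.inter_subset_right hO
  have hθO' : ∀ x i t, ∃ w ∈ treO δ q (e i) t, sp w.u ⊆ C ∩ Set.Iio δ ∧ θ.mp x ∈ Cy w.u := by
    intro x i t
    obtain ⟨j, rfl⟩ := hτ t
    obtain ⟨w, hw, h1, h2⟩ := hθO x (Nat.pair i j)
    rw [Nat.unpair_pair] at hw
    exact ⟨w, hw, h1, h2⟩
  have hIn : θ.In (Set.Iio δ) := fun a ha => hθ.off a fun h => ha h.2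
  obtain ⟨H, hH, hHD⟩ := exists_domination (C := C) (A := Set.Iio δ)
    (T := fun i x => TrV δ q (θ.mp x) (e i)) (by
      intro i t x
      obtain ⟨w, hw, h1, h2⟩ := hθO' x i t
      obtain ⟨F, hF, n, hn⟩ := tre_cyl hθ w h1 x h2
      refine ⟨F, hF, n, fun y hy => ?_⟩
      have h3 := hn y hy
      rcases hw with hw | hw
      · exact propext (iff_of_false (hw _ h3) (hw _ h2))
      · obtain ⟨t₁, h4, -, -, h5, -⟩ := hw _ h3
        obtain ⟨t₁', h4', -, -, h5', -⟩ := hw _ h2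
        exact propext (iff_of_true (tre_pfx h4 h5) (tre_pfx h4' h5')))
    (by
      rintro i x t ⟨y, h1, h2, h3⟩ L hL
      exact ⟨tk (q y) L, ⟨y, h1, h2, pf_tk _ _⟩, h3.pfx (pf_tk _ _) (by rw [tk_length]; exact hL),
        tk_length _ _⟩)
    (by
      intro i x t ht
      obtain ⟨w, hw, h1, h2⟩ := hθO' x i t
      rcases hw with hw | hw
      · exact absurd ht (hw _ h2)
      · exact hw _ h2)
  refine ⟨θ, hIn, H, ⟨C ∩ Set.Iio δ, hC.mono Set.inter_subset_left, Set.inter_subset_right, hH⟩,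
    fun x => (hHD x).1, fun x v hv => ?_⟩
  let v' : Cfg I := ⟨fun a => if a ∈ C then v.u a else [], v.fin.subset fun a ha => by
    have ha' : (if a ∈ C then v.u a else []) ≠ [] := ha
    by_cases h : a ∈ C
    · rw [if_pos h] at ha'
      exact ha'
    · rw [if_neg h] at ha'
      exact absurd rfl ha'⟩
  have hv1 : ∀ a ∈ C, v'.u a = v.u a := fun a ha => by simp only [v', ha, if_true]
  have hv2 : ∀ a ∉ C, v'.u a = [] := fun a ha => by simp only [v', ha, if_false]
  have hv' : sp v'.u ⊆ C \ Set.Iio δ := by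
    intro a ha
    have ha' : v'.u a ≠ [] := ha
    by_cases h : a ∈ C
    · refine ⟨h, fun h2 => ha' ?_⟩
      rw [hv1 a h]
      exact hv a h2
    · exact absurd (hv2 a h) ha'
  obtain ⟨i, hi⟩ : ∃ i, e i = v' := by
    have h1 : v' ∈ {v : Cfg I | sp v.u ⊆ C \ Set.Iio δ} := hv'
    rw [he] at h1
    exact h1
  obtain ⟨N, hN⟩ := (hHD x).2 i
  refine ⟨N, ?_⟩
  rw [tre_comp hIn hv, tre_restrict hqC hv hv1 hv2, ← hi]
  exact hN

end Pool.Agent.Mil
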