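import Mathlib
import Pool.Agent.Lib.Mil.Dat
import Pool.Agent.Lib.Mil.Tre

/-!
# Mil.St5 (size 200): a dominated name avoids the `F_σ` set

`q` is a name, `H` dominates the trees `TrV δ q x v`. Let `θ6 = rs (Iio δ) θ`. Then some `φ` makes `q (θ6.mp (φ.mp x))` avoid the `F_σ` set with the code `cdW δ θ W` at `φ.mp x`.

Proof. Let `C` be a countable set which contains supports of `q`, `H`, `θ`, all `W n s`, `cdW`, and `δ`; `C ⊆ Iio c` for some `c` (`hbdd`). Let `q6 x = q (θ6.mp x)`. `O i` = the configurations `w` such that `∃ k, ∀ x ∈ Cy w.u, ∀ t ∈ cdW δ θ W x i k, ¬ Pf t (q6 x)`.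
Upward closed. Dense in `C`: let `sp w.u ⊆ C`, `i = Nat.pair (cd s) k0` (`Nat.pair_unpair`, `cd_uncd`). `x0 = pre w.u (fun _ _ => 0) ∈ Cy w.u`. `v` = the configuration with the values of `w` at the coordinates `a ≥ δ` and `[]` below `δ`.
`T = TrV δ q (θ6.mp x0) v`; `hdom` gives `N` with `Dom T (H (θ6.mp x0)) N`; `[] ∈ T`. Choose `k` with `k0 + k ≥ H (θ6.mp x0) (N + 1)` (`k = H ..`), `s' = s ++ [k0 + k]`, `M = (θ.e δ x0 s').length`,
`W₀ n = if (θ.e δ x0 s).length ≤ n then W n s' x0 else ∅`. For `n < M`, `τ ∈ W₀ n`: `H (θ.mp x0) n ≤ τ.length` and `H (θ.mp x0) = H (θ6.mp x0)` (`H` has support below `δ`, `rs_mp_mem`); `lenW` with `i = (θ.e δ x0 s).length ≤ n`: the entry of `θ.e δ x0 s'` at the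
position `(θ.e δ x0 s).length` is `j (k0 + k) ≥ k0 + k` (`θ.stp`: `θ.e δ x0 s ++ [j (k0+k)] <+: θ.e δ x0 s'`, `StrictMono.le_apply`), so `τ.length ≥ H (θ6.mp x0) (N + 1)`. `Dom.avoid` gives `t ∈ T` incomparable with all `τ ∈ W₀ n`, `n < M`.
`t ∈ T`: `y ∈ Cy v.u`, `y a = θ6.mp x0 a` for `a < δ`, `Pf t (q y)`. Let `y0` be `x0` below `δ` and `y` from `δ` on: `θ6.mp y0 = y` (`θ6.In (Iio δ)`; `mp_congr` below `δ`), so `Pf t (q6 y0)`; `y0 ∈ Cy w.u`. For `τ ∈ cdW δ θ W y0 i k = cdW δ θ W x0 i k` (depends only on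
coordinates `< δ`: `isCd_cdW`), `τ` is not comparable with `t` (`mem_cdW`), so `¬ Pf τ (q6 y0)` (`Pf.total`). These facts hold for all `y'` near `y0`: `LC` of `x ↦ cdW δ θ W x i k` and of `x ↦ q6 x m`, `m < t.length` (then `Pf t (q6 y')`): `F ⊆ C`, `n`; take
`(Cfg.of F n y0).sup w`.
`kur` gives `φ` with `∀ x i, ∃ w ∈ O i, φ.mp x ∈ Cy w.u`, which is the claim.
-/

set_option autoImplicit false
set_option linter.unusedSectionVars false

namespace Pool.Agent.Mil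

variable {I : Type} [LinearOrder I] [WellFoundedLT I]

private theorem st5_entry {g : List ℕ → List ℕ} (h : Stp g) (s : List ℕ) (k : ℕ) :
    k ≤ ((g (s ++ [k]))[(g s).length]?).getD 0 := by
  obtain ⟨j, hj, h1⟩ := h s
  have h4 : (g (s ++ [k]))[(g s).length]? = some (j k) := by
    obtain ⟨r, hr⟩ := h1 k
    rw [← hr]
    simp
  rw [h4]
  exact hj.le_apply

/-- the open sets -/
private def st5O (δ : I) (θ : Gam I) (W : ℕ → List ℕ → Pt I → Finset (List Bool))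
    (q : Pt I → ℕ → Bool) (i : ℕ) : Set (Cfg I) :=
  {w | ∃ k, ∀ x ∈ Cy w.u, ∀ t ∈ cdW δ θ W x i k, ¬ Pf t (q ((Gam.rs (Set.Iio δ) θ).mp x))}

private theorem st5_dense {Fo : Gam I → (Pt I → ℕ → Bool) → Prop} {δ : I} {h1 : Gam I}
    {H : Pt I → ℕ → ℕ} {θ : Gam I} {σ : Pt I → ℕ → List Bool}
    {W : ℕ → List ℕ → Pt I → Finset (List Bool)} (hD : Dat Fo δ h1 H θ σ W)
    (hHθ : ∀ x, H (θ.mp x) = H ((Gam.rs (Set.Iio δ) θ).mp x)) (hHm : ∀ x, Monotone (H x))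
    {q : Pt I → ℕ → Bool}
    (hdom : ∀ x (v : Cfg I), (∀ a < δ, v.u a = []) → ∃ N, Dom (TrV δ q x v) (H x) N)
    {C C1 : Set I} (hq : ∀ n, LC C (fun x => q ((Gam.rs (Set.Iio δ) θ).mp x) n))
    (hC1 : C1 ⊆ Set.Iio δ) (hC1C : C1 ⊆ C) (hcd : ∀ i k, LC C1 (fun x => cdW δ θ W x i k))
    (i : ℕ) (w : Cfg I) (hw : sp w.u ⊆ C) :
    ∃ w' ∈ st5O δ θ W q i, sp w'.u ⊆ C ∧ Ext w.u w'.u := by
  classical
  obtain ⟨s, k0, rfl⟩ : ∃ s k0, i = Nat.pair (cd s) k0 := ⟨uncd i.unpair.1, i.unpair.2, by simp⟩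
  have hIn : (Gam.rs (Set.Iio δ) θ).In (Set.Iio δ) := Gam.in_rs _ _
  have hoff : ∀ (a : I) (y : Pt I), ¬ a < δ → (Gam.rs (Set.Iio δ) θ).mp y a = y a :=
    fun a y ha => hIn.mp_eq ha y
  let x0 : Pt I := pre w.u (fun _ _ => 0)
  have hx0 : x0 ∈ Cy w.u := pre_mem _ _
  let v : Cfg I := ⟨fun a => if a < δ then [] else w.u a, w.fin.subset fun a ha => by
    have ha' : (if a < δ then [] else w.u a) ≠ [] := ha
    by_cases h : a < δ
    · rw [if_pos h] at ha'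
      exact absurd rfl ha'
    · rw [if_neg h] at ha'
      exact ha'⟩
  have hvδ : ∀ a < δ, v.u a = [] := fun a ha => by simp only [v, ha, if_true]
  have hvo : ∀ a, ¬ a < δ → v.u a = w.u a := fun a ha => by simp only [v, ha, if_false]
  obtain ⟨N, hN⟩ := hdom ((Gam.rs (Set.Iio δ) θ).mp x0) v hvδ
  have h0 : [] ∈ TrV δ q ((Gam.rs (Set.Iio δ) θ).mp x0) v := by
    refine ⟨(Gam.rs (Set.Iio δ) θ).mp x0, fun a => ?_, fun _ _ => rfl, pf_nil _⟩
    by_cases ha : a < δ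
    · rw [hvδ a ha]
      exact pf_nil _
    · rw [hvo a ha, hoff a _ ha]
      exact hx0 a
  obtain ⟨K, hK⟩ : ∃ K, K = H ((Gam.rs (Set.Iio δ) θ).mp x0) (N + 1) := ⟨_, rfl⟩
  obtain ⟨t, ⟨y, hy1, hy2, hy3⟩, ht⟩ := hN.avoid h0 (hHm _)
    (M := (θ.e δ x0 (s ++ [k0 + K])).length)
    (W := fun n => if (θ.e δ x0 s).length ≤ n then W n (s ++ [k0 + K]) x0 else ∅) (by
      intro n
      show (if (θ.e δ x0 s).length ≤ n then W n (s ++ [k0 + K]) x0 else ∅).card ≤ _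
      by_cases h2 : (θ.e δ x0 s).length ≤ n
      · rw [if_pos h2]
        exact hD.cardW _ _ _
      · rw [if_neg h2, Finset.card_empty]
        exact Nat.zero_le _) (by
      intro n hn τ hτ
      by_cases h2 : (θ.e δ x0 s).length ≤ n
      · simp only [if_pos h2] at hτ
        obtain ⟨h3, h4, h5⟩ := hD.lenW n (s ++ [k0 + K]) x0 τ hτ
        refine ⟨by rw [← hHθ]; exact h4, ?_⟩
        have h6 := h5 _ h2
        have h7 := st5_entry (θ.stp δ x0) s (k0 + K)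
        rw [← hK]
        exact (Nat.le_add_left _ _).trans (h7.trans h6)
      · simp only [if_neg h2] at hτ
        exact absurd hτ (Finset.notMem_empty _))
  let y0 : Pt I := fun a => if a < δ then x0 a else y a
  have h2 : ∀ a < δ, y0 a = x0 a := fun a ha => by simp only [y0, ha, if_true]
  have h3 : ∀ a, ¬ a < δ → y0 a = y a := fun a ha => by simp only [y0, ha, if_false]
  have h4 : (Gam.rs (Set.Iio δ) θ).mp y0 = y := by
    funext a
    by_cases ha : a < δ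
    · rw [hy2 a ha]
      exact Gam.mp_congr _ a fun b hb => h2 b (hb.trans_lt ha)
    · rw [hoff a y0 ha, h3 a ha]
  have h5 : Pf t (q ((Gam.rs (Set.Iio δ) θ).mp y0)) := by rw [h4]; exact hy3
  have hy0 : y0 ∈ Cy w.u := by
    intro a
    by_cases ha : a < δ
    · rw [h2 a ha]
      exact hx0 a
    · rw [h3 a ha, ← hvo a ha]
      exact hy1 a
  obtain ⟨F, hF, n, hn⟩ := hcd (Nat.pair (cd s) k0) K y0
  obtain ⟨F', hF', n', hn'⟩ := LC.finset (C := C) (Finset.range t.length) (β := fun _ => Bool)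
    (fun m x => q ((Gam.rs (Set.Iio δ) θ).mp x) m) (fun m _ => hq m) y0
  have hcd0 : cdW δ θ W y0 (Nat.pair (cd s) k0) K = cdW δ θ W x0 (Nat.pair (cd s) k0) K :=
    (hcd _ _).eq_of fun a ha => h2 a (hC1 ha)
  refine ⟨(Cfg.of (F ∪ F') (max n n') y0).sup w, ⟨K, fun x hx τ hτ hpf => ?_⟩, ?_,
    Cfg.ext_sup_right (Cfg.mem_of _ _ _) hy0⟩
  · have hxa : Ag (F ∪ F') (max n n') y0 x :=
      Cfg.ag_of ((Cfg.ext_sup_left (Cfg.mem_of (F ∪ F') (max n n') y0) hy0).cy hx)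
    have h6 : cdW δ θ W x (Nat.pair (cd s) k0) K = cdW δ θ W y0 (Nat.pair (cd s) k0) K :=
      hn x (hxa.mono Finset.subset_union_left (le_max_left _ _))
    have h7 := hn' x (hxa.mono Finset.subset_union_right (le_max_right _ _))
    rw [h6, hcd0, mem_cdW] at hτ
    obtain ⟨m, hm1, hm2, hm3⟩ := hτ
    obtain ⟨h8, h9⟩ := ht m hm2 τ (by simp only [if_pos hm1]; exact hm3)
    have h10 : Pf t (q ((Gam.rs (Set.Iio δ) θ).mp x)) :=
      h5.congr fun j hj => (h7 j (Finset.mem_range.2 hj)).symm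
    rcases hpf.total h10 with h11 | h11
    · exact h8 h11
    · exact h9 h11
  · refine (Cfg.sup_sp _ _).trans (Set.union_subset ((Cfg.of_sp _ _ _).trans ?_) hw)
    intro a ha
    rw [Finset.mem_coe, Finset.mem_union] at ha
    exact ha.elim (fun h => hC1C (hF h)) (fun h => hF' h)

theorem step5 (hbdd : ∀ C : Set I, C.Countable → ∃ c, C ⊆ Set.Iio c)
    {Fo : Gam I → (Pt I → ℕ → Bool) → Prop} {δ : I} {h1 : Gam I} {H : Pt I → ℕ → ℕ}
    {θ : Gam I} {σ : Pt I → ℕ → List Bool} {W : ℕ → List ℕ → Pt I → Finset (List Bool)}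
    (hD : Dat Fo δ h1 H θ σ W) (hH : IsNm (Set.Iio δ) H) (hHm : ∀ x, Monotone (H x))
    {q : Pt I → ℕ → Bool} (hq : IsNm Set.univ q)
    (hdom : ∀ x (v : Cfg I), (∀ a < δ, v.u a = []) → ∃ N, Dom (TrV δ q x v) (H x) N) :
    ∃ φ : Gam I, ∀ x, NF (cdW δ θ W) (φ.mp x) (q ((Gam.rs (Set.Iio δ) θ).mp (φ.mp x))) := by
  classical
  obtain ⟨Cq, hCq, -, hqC⟩ := hq
  obtain ⟨CH, hCH, hCHδ, hHC⟩ := hH
  obtain ⟨CW, hCW, hWC⟩ := hD.lcW
  obtain ⟨C1, hC1, hC1δ, hcd⟩ := isCd_cdW (θ := θ) hCW hWC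
  obtain ⟨Cθ, hCθ, hθ⟩ := θ.exists_spt
  have hHθ : ∀ x, H (θ.mp x) = H ((Gam.rs (Set.Iio δ) θ).mp x) := by
    intro x
    funext n
    exact (hHC n).eq_of fun a ha => (Gam.rs_mp_mem θ (hCHδ ha) x).symm
  obtain ⟨C, hC⟩ : ∃ C, C = Cq ∪ Cθ ∪ C1 := ⟨_, rfl⟩
  have hCc : C.Countable := by rw [hC]; exact (hCq.union hCθ).union hC1
  obtain ⟨c, hc⟩ := hbdd C hCc
  have hq6 : ∀ n, LC C (fun x => q ((Gam.rs (Set.Iio δ) θ).mp x) n) := by
    intro n
    refine (hθ.rs (Set.Iio δ)).lc_comp (hqC n) ?_ fun a _ => ?_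
    · rw [hC]
      exact Set.subset_union_left.trans Set.subset_union_left
    · rw [hC]
      exact Set.inter_subset_left.trans (Set.subset_union_right.trans Set.subset_union_left)
  have hC1C : C1 ⊆ C := by rw [hC]; exact Set.subset_union_right
  have hO : DSeq C (st5O δ θ W q) := by
    refine ⟨fun i w v hwv hw => ?_, fun i w hw => ?_⟩
    · obtain ⟨k, hk⟩ := hw
      exact ⟨k, fun x hx => hk x (hwv.cy hx)⟩
    · exact st5_dense hD hHθ hHm hdom hq6 hC1δ hC1C hcd i w hw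
  obtain ⟨φ, -, hφ⟩ := kur hCc hc hO
  refine ⟨φ, fun x i => ?_⟩
  obtain ⟨w, ⟨k, hk⟩, -, hw⟩ := hφ x i
  exact ⟨k, hk _ hw⟩

end Pool.Agent.Mil
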