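import Mathlib
import Pool.Agent.Lib.Mil.ClA
import Pool.Agent.Lib.Mil.St5
import Pool.Agent.Lib.Mil.Clo

/-!
# Mil.Core (size 90): the core theorem
-/

set_option autoImplicit false
set_option linter.unusedSectionVars false

namespace Pool.Agent.Mil

variable {I : Type} [LinearOrder I] [WellFoundedLT I]

/-- names of reals composed with elements of `Gam` -/
theorem IsNm.comp {β : Type*} {q : Pt I → ℕ → β} (hq : IsNm Set.univ q) (φ : Gam I) :
    IsNm Set.univ (fun x => q (φ.mp x)) := by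
  obtain ⟨C, hC, -, hlc⟩ := hq
  obtain ⟨C', hC', hφ⟩ := φ.exists_spt
  exact ⟨C ∪ C', hC.union hC', Set.subset_univ _, fun n => hφ.lc_comp (hlc n) Set.subset_union_left
    fun a _ b hb => Or.inr hb.1⟩

theorem main_claim (hI : Big I) {Fo : Gam I → (Pt I → ℕ → Bool) → Prop} (hS : Smz Fo) {δ : I} (hδ : Clo Fo δ)
    {h : Gam I} {q : Pt I → ℕ → Bool} (hq : IsNm Set.univ q) (hFo : Fo h q) :
    ∃ χ : Gam I, IsNm (Set.Iio δ) (fun x => q (χ.mp x)) := by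
  by_contra hnew
  push Not at hnew
  have hlow : IsLowerSet (Set.Iio δ) := isLowerSet_Iio δ
  -- Steps 1 and 2
  obtain ⟨θ1, hθ1, H, hH, hHm, hdom⟩ := dominate hq hnew
  -- Step 3
  obtain ⟨θ, σ, W, hD⟩ := exists_dat hS δ (h * θ1) hH
  obtain ⟨C, hC, hW⟩ := hD.lcW
  -- Step 4
  have h4 : ¬ ∃ (χ : Gam I) (r : Pt I → ℕ → Bool), IsNm Set.univ r ∧
      Fo (Gam.rs (Set.Iio δ) (h * θ1 * θ) * χ) r ∧ ∀ x, NF (cdW δ θ W) (χ.mp x) (r x) := by
    intro hex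
    exact claimA hS hD (hδ _ _ (Gam.in_rs _ _) (isCd_cdW hC hW) hex)
  -- Step 5
  have hbdd : ∀ C : Set I, C.Countable → ∃ c, C ⊆ Set.Iio c := by
    intro C hC
    obtain ⟨c, hc⟩ := hI.bdd C (hC.le_aleph0.trans Cardinal.aleph0_le_continuum)
    exact ⟨c, fun a ha => hc a ha⟩
  obtain ⟨φ, hφ⟩ := step5 hbdd hD hH hHm (hq.comp θ1) hdom
  apply h4
  let θ6 := Gam.rs (Set.Iio δ) θ
  let h6 := h * θ1 * θ6
  let hi := Gam.rs (Set.Iio δ)ᶜ h6
  have e1 : Gam.rs (Set.Iio δ) h6 = Gam.rs (Set.Iio δ) (h * θ1 * θ) := by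
    show Gam.rs (Set.Iio δ) (h * θ1 * Gam.rs (Set.Iio δ) θ) = _
    rw [Gam.rs_mul hlow (h * θ1), Gam.rs_mul hlow (h * θ1), Gam.rs_rs, Set.inter_self]
  have e2 : Gam.rs (Set.Iio δ) (h * θ1 * θ) * (hi * φ) = h * (θ1 * (θ6 * φ)) := by
    rw [← e1, ← mul_assoc, Gam.rs_mul_rs_compl hlow]
    simp only [h6, mul_assoc]
  refine ⟨hi * φ, fun x => q ((θ1 * (θ6 * φ)).mp x), hq.comp _, ?_, fun x => ?_⟩
  · rw [e2]
    exact hS.mul _ _ _ hFo
  · obtain ⟨C', -, hC'δ, hc⟩ := isCd_cdW hC hW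
    have e3 : ∀ i k, cdW δ θ W ((hi * φ).mp x) i k = cdW δ θ W (φ.mp x) i k := by
      intro i k
      refine (hc i k).eq_of fun a ha => ?_
      rw [Gam.mul_mp]
      exact (Gam.in_rs (Set.Iio δ)ᶜ h6).mp_eq (by simpa using hC'δ ha) _
    intro i
    obtain ⟨k, hk⟩ := hφ x i
    refine ⟨k, fun t ht => ?_⟩
    rw [e3] at ht
    have := hk t ht
    simpa only [Gam.mul_mp] using this

/-- **The core theorem** -/
theorem core (hI : Big I) : Core I := by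
  intro Fo hS
  obtain ⟨δ, hδ⟩ := exists_clo hI Fo
  exact ⟨δ, fun h q hq hFo => main_claim hI hS hδ hq hFo⟩

end Pool.Agent.Mil
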